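import Pool.Agent.PB57.Stmts

set_option autoImplicit false

/-!
Module ASM (sections 5 and 6 together): the gluing theorem.
-/

open Filter Topology Set

namespace PB

namespace ASM

noncomputable section

/-! ### finitely supported vectors -/

lemma nrm_nonneg {ι : Type} (a : ι →₀ ℝ) : 0 ≤ nrm a :=
  Finset.sum_nonneg fun _ _ => abs_nonneg _

lemma nrm_zero {ι : Type} : nrm (0 : ι →₀ ℝ) = 0 := by simp [nrm]

lemma mass_zero {ι : Type} : mass (0 : ι →₀ ℝ) = 0 := by simp [mass]

lemma fs_zero {ι : Type} (y : ι → ℝ) : fs (0 : ι →₀ ℝ) y = 0 := by simp [fs]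

lemma nrm_smul {ι : Type} (t : ℝ) (a : ι →₀ ℝ) : nrm (t • a) = |t| * nrm a := by
  unfold nrm
  rw [Finsupp.sum_smul_index (fun _ => abs_zero), Finsupp.mul_sum]
  exact Finsupp.sum_congr fun j _ => abs_mul _ _

lemma fs_smul {ι : Type} (t : ℝ) (a : ι →₀ ℝ) (y : ι → ℝ) : fs (t • a) y = t * fs a y := by
  unfold fs
  rw [Finsupp.sum_smul_index (fun _ => zero_mul _), Finsupp.mul_sum]
  exact Finsupp.sum_congr fun j _ => mul_assoc _ _ _

lemma abs_fs_le {ι : Type} (a : ι →₀ ℝ) (y : ι → ℝ) (C : ℝ) (hy : ∀ j, |y j| ≤ C) :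
    |fs a y| ≤ nrm a * C := by
  unfold fs nrm
  rw [Finsupp.sum, Finsupp.sum, Finset.sum_mul]
  refine (Finset.abs_sum_le_sum_abs _ _).trans (Finset.sum_le_sum fun j _ => ?_)
  rw [abs_mul]
  exact mul_le_mul_of_nonneg_left (hy j) (abs_nonneg _)

/-- the push forward to `Option` -/
def emb {A : Type} (a : A →₀ ℝ) : Option A →₀ ℝ := a.embDomain Function.Embedding.some

lemma emb_zero {A : Type} : emb (0 : A →₀ ℝ) = 0 := by
  unfold emb
  exact Finsupp.embDomain_zero _

lemma mass_emb {A : Type} (a : A →₀ ℝ) : mass (emb a) = mass a := by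
  unfold mass emb
  exact Finsupp.sum_embDomain

lemma fs_emb {A : Type} (a : A →₀ ℝ) (y : Option A → ℝ) :
    fs (emb a) y = fs a (fun j => y (some j)) := by
  unfold fs emb
  exact Finsupp.sum_embDomain

lemma emb_some {A : Type} (a : A →₀ ℝ) (j : A) : emb a (some j) = a j :=
  Finsupp.embDomain_apply_self Function.Embedding.some a j

lemma emb_none {A : Type} (a : A →₀ ℝ) : emb a none = 0 := by
  unfold emb
  apply Finsupp.embDomain_of_notMem_range
  simp

/-! ### the weights -/

/-- the weight of an anchor -/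
def om (z : ℝ) (N : ℕ) : ℝ := 1 + z / 8 * (1 + (1 / 2 : ℝ) ^ N)

lemma hp_pos (N : ℕ) : (0 : ℝ) < (1 / 2 : ℝ) ^ N := by positivity

lemma hp_le (N : ℕ) : (1 / 2 : ℝ) ^ N ≤ 1 := pow_le_one₀ (by norm_num) (by norm_num)

lemma om_ge {z : ℝ} (hz : 0 < z) (N : ℕ) : 1 ≤ om z N := by
  unfold om
  have := hp_pos N
  have : 0 ≤ z / 8 * (1 + (1 / 2 : ℝ) ^ N) := by positivity
  linarith

lemma om_le {z : ℝ} (hz : 0 < z) (N : ℕ) : om z N ≤ 1 + z / 4 := by
  unfold om
  have := hp_le N
  nlinarith

lemma om_le_two {z : ℝ} (hz : 0 < z) (hz' : z ≤ 1 / 32) (N : ℕ) : om z N ≤ 2 := by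
  have := om_le hz N
  linarith

/-- mass of the T1, T2 steps -/
lemma step_mass {z : ℝ} (hz : 0 < z) (hz' : z ≤ 1 / 32) {K N : ℕ} (hKN : K < N) {b : ℝ}
    (hb : b ≤ z * (1 / 2 : ℝ) ^ (K + 9)) :
    om z N / om z K + om z N * b ≤ 1 := by
  have h1 := om_ge hz K
  have h2 := om_ge hz N
  have h3 := om_le_two hz hz' K
  have h4 := om_le_two hz hz' N
  have hK0 : 0 < om z K := by linarith
  have hpow : (1 / 2 : ℝ) ^ N ≤ (1 / 2 : ℝ) ^ (K + 1) :=
    pow_le_pow_of_le_one (by norm_num) (by norm_num) hKN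
  have hp := hp_pos K
  have e1 : (1 / 2 : ℝ) ^ (K + 1) = (1 / 2 : ℝ) ^ K / 2 := by rw [pow_succ]; ring
  have e9 : (1 / 2 : ℝ) ^ (K + 9) = (1 / 2 : ℝ) ^ K / 512 := by rw [pow_add]; norm_num; ring
  have hdiff : z * (1 / 2 : ℝ) ^ K / 16 ≤ om z K - om z N := by
    unfold om
    rw [e1] at hpow
    nlinarith
  rw [e9] at hb
  have hb' : om z N * b ≤ z * (1 / 2 : ℝ) ^ K / 256 := by
    have q1 : om z N * b ≤ om z N * (z * ((1 / 2 : ℝ) ^ K / 512)) :=
      mul_le_mul_of_nonneg_left hb (by linarith)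
    have q2 : om z N * (z * ((1 / 2 : ℝ) ^ K / 512)) ≤ 2 * (z * ((1 / 2 : ℝ) ^ K / 512)) :=
      mul_le_mul_of_nonneg_right h4 (by positivity)
    linarith
  have q3 : om z N / om z K ≤ 1 - z * (1 / 2 : ℝ) ^ K / 32 := by
    rw [div_le_iff₀ hK0]
    have hw : 0 ≤ z * (1 / 2 : ℝ) ^ K := by positivity
    nlinarith
  have hw : 0 ≤ z * (1 / 2 : ℝ) ^ K := by positivity
  linarith

/-! ### the expansion of one anchor -/

/-- expansion record -/
structure Rec (ι A : Type) where
  par : Option A
  m : ℝ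
  d : ι →₀ ℝ
  up : A →₀ ℝ
  β : ι →₀ ℝ

section main

variable {X : Type} [NormedAddCommGroup X] [NormedSpace ℝ X]
variable {ι 𝒮 A : Type}

/-- the condition under which the expansion of `c` must be exact on `F k` -/
def Cond (F : ℕ → Submodule ℝ X) (S : Sys ι) (h : ι → X →L[ℝ] ℝ)
    (M lev cls : 𝒮 → ℕ) (ε ζ : ℕ → ℝ) (T : Tree ι 𝒮 A) (k : ℕ) (c : A) : Prop :=
  (lev (T.s c) < T.lv c ∧ ∀ j, T.lv c - 1 < S.rk j → Exact F S h k j) ∨
  (T.lv c = lev (T.s c) ∧ k ≤ T.lv c ∧ RootRep F S h M lev cls ε ζ T k c)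

/-- everything required of the expansion of `c` -/
structure RecOk (F : ℕ → Submodule ℝ X) (S : Sys ι) (h : ι → X →L[ℝ] ℝ)
    (M lev cls : 𝒮 → ℕ) (ε ζ : ℕ → ℝ) (T : Tree ι 𝒮 A) (c : A) (e : Rec ι A) : Prop where
  mpos : 0 ≤ e.m
  dle : nrm e.d ≤ 1
  uppos : ∀ a, 0 ≤ e.up a
  tot : e.m + mass e.up + nrm e.β ≤ 1
  plv : ∀ a, e.par = some a → T.lv a < T.lv c
  dlv : ∀ j ∈ e.d.support, S.rk j ≤ T.lv c
  uplv : ∀ a ∈ e.up.support, T.lv a < T.lv c
  βlv : ∀ j ∈ e.β.support, S.rk j ≤ T.lv c
  none_up : e.par = none → e.up = 0 ∧ lev (T.s c) = T.lv c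
  some_M : ∀ a, e.par = some a → M (T.s a) = M (T.s c)
  some_or : ∀ a, e.par = some a → (e.up = 0 ∧ lev (T.s a) = lev (T.s c)) ∨
    (lev (T.s c) = T.lv c ∧ mass e.up ≤ 9 / 20 ∧ ∀ a' ∈ e.up.support, lev (T.s a) ≤ M (T.s a'))
  wfn : ∀ a, e.par = some a →
    (lev (T.s c) < T.lv c ∧ ∃ K, lev (T.s c) ≤ K ∧ K < T.lv c ∧ a = T.anc c K ∧
      ((‖T.κ c - T.κ a‖ ≤ 1 / 2 ∧
          ∀ K', lev (T.s c) ≤ K' → K' < K → ¬ ‖T.κ c - T.κ (T.anc c K')‖ ≤ 1 / 2) ∨
        ∀ K', lev (T.s c) ≤ K' → K' < T.lv c →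
          ¬ ‖T.κ c - T.κ (T.anc c K')‖ ≤ 1 / 2)) ∨
    (T.lv c = lev (T.s c) ∧ cls (T.s a) = cls (T.s c) ∧
      T.w a ≤ T.w c - ε (cls (T.s c)) / 4)
  ex : ∀ k, Cond F S h M lev cls ε ζ T k c → ∀ x ∈ F k,
    om (ζ (cls (T.s c))) (T.lv c) * hc h (T.κ c) x =
      (match e.par with
        | none => 0
        | some a => e.m * (om (ζ (cls (T.s a))) (T.lv a) *
            (hc h (T.κ a) x + fs e.d (fun j => hJ S h (T.lv a) j x)))) +
      fs e.up (fun a => om (ζ (cls (T.s a))) (T.lv a) * hc h (T.κ a) x) +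
      fs e.β (fun j => h j x)

variable {F : ℕ → Submodule ℝ X} {S : Sys ι} {h : ι → X →L[ℝ] ℝ}
  {M lev cls : 𝒮 → ℕ} {Lb : 𝒮 → ℝ} {ε ζ : ℕ → ℝ} {V : 𝒮 → Set ((X →L[ℝ] ℝ) × ℝ)}
  {T : Tree ι 𝒮 A}

/-- the threshold -/
def tau (cls : 𝒮 → ℕ) (ζ : ℕ → ℝ) (s : 𝒮) (K : ℕ) : ℝ := ζ (cls s) * (1 / 2 : ℝ) ^ (K + 9)

lemma rec_nonroot (hSTEP : StmtSTEP) (hF : Chain F) (hN : NSys F S h)
    (hG : GLData F h M lev cls Lb ε ζ V) (hT : T.Ok S h lev V (tau cls ζ)) (c : A)
    (hc' : lev (T.s c) < T.lv c) :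
    ∃ e : Rec ι A, RecOk F S h M lev cls ε ζ T c e := by
  classical
  have hz := hG.ζpos (T.s c)
  have hz' := hG.ζle (T.s c)
  set z := ζ (cls (T.s c)) with hzdef
  have hroot : T.lv c ≠ lev (T.s c) := by omega
  by_cases hex : ∃ K, lev (T.s c) ≤ K ∧ K < T.lv c ∧ ‖T.κ c - T.κ (T.anc c K)‖ ≤ 1 / 2
  · -- T1
    obtain ⟨hK1, hK2, hK3⟩ := Nat.find_spec hex
    have hKmin : ∀ K', lev (T.s c) ≤ K' → K' < Nat.find hex →
        ¬ ‖T.κ c - T.κ (T.anc c K')‖ ≤ 1 / 2 := by
      intro K' h1 h2 h3
      exact Nat.find_min hex h2 ⟨h1, h2.trans hK2, h3⟩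
    set K := Nat.find hex with hKdef
    clear_value K
    set a := T.anc c K with ha
    have hlva : T.lv a = K := hT.anc_lv c K hK1 hK2.le
    have hsa : T.s a = T.s c := hT.anc_s c K hK1 hK2.le
    have hnear : Near S K (T.κ c - T.κ a) (tau cls ζ (T.s c) K) := hT.near c K hK1 hK2.le
    have hτ0 : 0 ≤ tau cls ζ (T.s c) K := by
      unfold tau; have := hp_pos (K + 9); positivity
    obtain ⟨d, β, hd1, hd2, hβ1, hβ2, hexact⟩ :=
      (hSTEP X F hF ι S h hN (T.κ c) (T.κ a) K _ hτ0 hnear).2 (T.lv c) hK2.le hK3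
    have hoK : 0 < om z K := lt_of_lt_of_le one_pos (om_ge hz K)
    have hoN : 0 < om z (T.lv c) := lt_of_lt_of_le one_pos (om_ge hz _)
    refine ⟨⟨some a, om z (T.lv c) / om z K, d, 0, om z (T.lv c) • β⟩, ?_⟩
    refine
      { mpos := by positivity
        dle := by show nrm d ≤ 1; linarith
        uppos := fun _ => le_refl _
        tot := ?_
        plv := ?_
        dlv := hd1
        uplv := fun a' ha' => by simp at ha'
        βlv := ?_
        none_up := fun h0 => by simp at h0
        some_M := ?_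
        some_or := ?_
        wfn := ?_
        ex := ?_ }
    · show om z (T.lv c) / om z K + mass 0 + nrm (om z (T.lv c) • β) ≤ 1
      rw [mass_zero, add_zero, nrm_smul, abs_of_pos hoN]
      exact step_mass hz hz' hK2 hβ2
    · intro a' ha'
      obtain rfl : a = a' := by simpa using ha'
      rw [hlva]; exact hK2
    · intro j hj
      have hj' : j ∈ β.support := Finsupp.support_smul hj
      exact (hβ1 j hj').trans hK2.le
    · intro a' ha'
      obtain rfl : a = a' := by simpa using ha'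
      rw [hsa]
    · intro a' ha'
      obtain rfl : a = a' := by simpa using ha'
      exact Or.inl ⟨rfl, by rw [hsa]⟩
    · intro a' ha'
      obtain rfl : a = a' := by simpa using ha'
      exact Or.inl ⟨hc', K, hK1, hK2, ha, Or.inl ⟨hK3, hKmin⟩⟩
    · intro k hk x hx
      rcases hk with ⟨-, hk⟩ | ⟨hk, -, -⟩
      swap
      · exact absurd hk hroot
      have h1 := hexact k (fun j hj => hk j (by omega)) x hx
      show om z (T.lv c) * hc h (T.κ c) x =
        om z (T.lv c) / om z K * (om (ζ (cls (T.s a))) (T.lv a) *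
            (hc h (T.κ a) x + fs d (fun j => hJ S h (T.lv a) j x))) +
          fs 0 (fun a => om (ζ (cls (T.s a))) (T.lv a) * hc h (T.κ a) x) +
          fs (om z (T.lv c) • β) (fun j => h j x)
      rw [hsa, hlva, fs_zero, fs_smul, h1, ← hzdef]
      field_simp
      ring
  · -- T2
    push Not at hex
    have hN1 : T.lv c - 1 < T.lv c := by omega
    have hN2 : lev (T.s c) ≤ T.lv c - 1 := by omega
    set K := T.lv c - 1 with hKdef
    set a := T.anc c K with ha
    have hlva : T.lv a = K := hT.anc_lv c K hN2 hN1.le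
    have hsa : T.s a = T.s c := hT.anc_s c K hN2 hN1.le
    have hnear : Near S K (T.κ c - T.κ a) (tau cls ζ (T.s c) K) := hT.near c K hN2 hN1.le
    have hτ0 : 0 ≤ tau cls ζ (T.s c) K := by
      unfold tau; have := hp_pos (K + 9); positivity
    obtain ⟨β, hβ1, hβ2, hexact⟩ :=
      (hSTEP X F hF ι S h hN (T.κ c) (T.κ a) K _ hτ0 hnear).1
    have hoK : 0 < om z K := lt_of_lt_of_le one_pos (om_ge hz K)
    have hoN : 0 < om z (T.lv c) := lt_of_lt_of_le one_pos (om_ge hz _)
    refine ⟨⟨some a, om z (T.lv c) / om z K, 0, 0, om z (T.lv c) • β⟩, ?_⟩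
    refine
      { mpos := by positivity
        dle := by show nrm 0 ≤ 1; rw [nrm_zero]; norm_num
        uppos := fun _ => le_refl _
        tot := ?_
        plv := ?_
        dlv := fun a' ha' => by simp at ha'
        uplv := fun a' ha' => by simp at ha'
        βlv := ?_
        none_up := fun h0 => by simp at h0
        some_M := ?_
        some_or := ?_
        wfn := ?_
        ex := ?_ }
    · show om z (T.lv c) / om z K + mass 0 + nrm (om z (T.lv c) • β) ≤ 1
      rw [mass_zero, add_zero, nrm_smul, abs_of_pos hoN]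
      exact step_mass hz hz' hN1 hβ2
    · intro a' ha'
      obtain rfl : a = a' := by simpa using ha'
      rw [hlva]; exact hN1
    · intro j hj
      have hj' : j ∈ β.support := Finsupp.support_smul hj
      exact (hβ1 j hj').trans hN1.le
    · intro a' ha'
      obtain rfl : a = a' := by simpa using ha'
      rw [hsa]
    · intro a' ha'
      obtain rfl : a = a' := by simpa using ha'
      exact Or.inl ⟨rfl, by rw [hsa]⟩
    · intro a' ha'
      obtain rfl : a = a' := by simpa using ha'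
      refine Or.inl ⟨hc', K, hN2, hN1, ha, Or.inr ?_⟩
      intro K' h1 h2 h3
      exact absurd h3 (not_le.2 (hex K' h1 h2))
    · intro k hk x hx
      rcases hk with ⟨-, hk⟩ | ⟨hk, -, -⟩
      swap
      · exact absurd hk hroot
      have h1 := hexact k hk x hx
      show om z (T.lv c) * hc h (T.κ c) x =
        om z (T.lv c) / om z K * (om (ζ (cls (T.s a))) (T.lv a) *
            (hc h (T.κ a) x + fs 0 (fun j => hJ S h (T.lv a) j x))) +
          fs 0 (fun a => om (ζ (cls (T.s a))) (T.lv a) * hc h (T.κ a) x) +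
          fs (om z (T.lv c) • β) (fun j => h j x)
      rw [hsa, hlva, fs_zero, fs_zero, fs_smul, h1, ← hzdef]
      field_simp
      ring

lemma rec_root (hF : Chain F) (hG : GLData F h M lev cls Lb ε ζ V)
    (c : A) (hc' : T.lv c = lev (T.s c)) :
    ∃ e : Rec ι A, RecOk F S h M lev cls ε ζ T c e := by
  classical
  have hz := hG.ζpos (T.s c)
  have hz' := hG.ζle (T.s c)
  set z := ζ (cls (T.s c)) with hzdef
  have hroot : ¬ lev (T.s c) < T.lv c := by omega
  have h0 : RootRep F S h M lev cls ε ζ T 0 c := by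
    refine Or.inl fun x hx => ?_
    rw [hF.zero, Submodule.mem_bot] at hx
    rw [hx, map_zero]
  set kc := Nat.findGreatest (fun k => RootRep F S h M lev cls ε ζ T k c) (T.lv c) with hkc
  have hrep : RootRep F S h M lev cls ε ζ T kc c :=
    Nat.findGreatest_spec (P := fun k => RootRep F S h M lev cls ε ζ T k c) (Nat.zero_le _) h0
  have hle : ∀ k, Cond F S h M lev cls ε ζ T k c → F k ≤ F kc := by
    intro k hk
    rcases hk with ⟨h1, -⟩ | ⟨-, h1, h2⟩
    · exact absurd h1 hroot
    · exact hF.mono (Nat.le_findGreatest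
        (P := fun k => RootRep F S h M lev cls ε ζ T k c) h1 h2)
  rcases hrep with hT0 | ⟨a, b, up, β, q1, q2, q3, q4, q5, q6, q7, q8, q9, q10, q11, q12⟩
  · refine ⟨⟨none, 0, 0, 0, 0⟩, ?_⟩
    refine
      { mpos := le_refl _
        dle := by show nrm 0 ≤ 1; rw [nrm_zero]; norm_num
        uppos := fun _ => le_refl _
        tot := by
          show (0 : ℝ) + mass 0 + nrm 0 ≤ 1
          rw [mass_zero, nrm_zero]; norm_num
        plv := fun a' ha' => by simp at ha'
        dlv := fun a' ha' => by simp at ha'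
        uplv := fun a' ha' => by simp at ha'
        βlv := fun a' ha' => by simp at ha'
        none_up := fun _ => ⟨rfl, hc'.symm⟩
        some_M := fun a' ha' => by simp at ha'
        some_or := fun a' ha' => by simp at ha'
        wfn := fun a' ha' => by simp at ha'
        ex := ?_ }
    intro k hk x hx
    show om z (T.lv c) * hc h (T.κ c) x = 0 +
          fs 0 (fun a => om (ζ (cls (T.s a))) (T.lv a) * hc h (T.κ a) x) +
          fs 0 (fun j => h j x)
    rw [hT0 x (hle k hk hx), fs_zero, fs_zero]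
    ring
  · -- T3
    have ho1 : ∀ a : A, 1 ≤ om (ζ (cls (T.s a))) (T.lv a) := fun a => om_ge (hG.ζpos _) _
    have ho0 : ∀ a : A, 0 < om (ζ (cls (T.s a))) (T.lv a) := fun a =>
      lt_of_lt_of_le one_pos (ho1 a)
    set W : A → ℝ := fun a => om (ζ (cls (T.s a))) (T.lv a) with hW
    have hWc : W c = om z (T.lv c) := rfl
    have hWc1 : W c ≤ 1 + z / 4 := om_le hz _
    have hWc0 : 0 < W c := ho0 c
    set up' : A →₀ ℝ := Finsupp.onFinset up.support (fun a' => W c / W a' * up a') (by
      intro a' ha'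
      rw [Finsupp.mem_support_iff]
      intro h0'
      exact ha' (by rw [h0', mul_zero])) with hup'
    have hup'_apply : ∀ a', up' a' = W c / W a' * up a' := fun a' => rfl
    have hup'_supp : ∀ a' ∈ up'.support, a' ∈ up.support := by
      intro a' ha'
      rw [Finsupp.mem_support_iff, hup'_apply] at ha'
      rw [Finsupp.mem_support_iff]
      intro h0'
      exact ha' (by rw [h0', mul_zero])
    have hup'_mass : mass up' ≤ W c * mass up := by
      unfold mass
      rw [hup', Finsupp.onFinset_sum _ (fun _ => rfl), Finsupp.sum, Finset.mul_sum]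
      refine Finset.sum_le_sum fun a' _ => ?_
      refine mul_le_mul_of_nonneg_right ?_ (q6 a')
      exact div_le_self hWc0.le (ho1 a')
    have hmass0 : 0 ≤ mass up := Finset.sum_nonneg fun a' _ => q6 a'
    have hβ0 := nrm_nonneg β
    refine ⟨⟨some a, W c * b / W a, 0, up', W c • β⟩, ?_⟩
    refine
      { mpos := div_nonneg (mul_nonneg hWc0.le q5) (ho0 a).le
        dle := by show nrm 0 ≤ 1; rw [nrm_zero]; norm_num
        uppos := ?_
        tot := ?_
        plv := ?_
        dlv := fun a' ha' => by simp at ha'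
        uplv := fun a' ha' => (q7 a' (hup'_supp a' ha')).1
        βlv := fun j hj => q10 j (Finsupp.support_smul hj)
        none_up := fun h0 => by simp at h0
        some_M := ?_
        some_or := ?_
        wfn := ?_
        ex := ?_ }
    · intro a'
      show 0 ≤ up' a'
      rw [hup'_apply]
      exact mul_nonneg (div_nonneg hWc0.le (ho0 a').le) (q6 a')
    · show W c * b / W a + mass up' + nrm (W c • β) ≤ 1
      rw [nrm_smul, abs_of_pos hWc0]
      have r1 : W c * b / W a ≤ W c * b := div_le_self (mul_nonneg hWc0.le q5) (ho1 a)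
      have r2 : b + mass up + nrm β ≤ 1 - 7 / 8 * z := by
        rw [← hzdef] at q8 q11
        linarith
      have r3 : W c * (b + mass up + nrm β) ≤ (1 + z / 4) * (1 - 7 / 8 * z) :=
        mul_le_mul hWc1 r2 (by positivity) (by linarith)
      have r4 : (1 + z / 4) * (1 - 7 / 8 * z) ≤ 1 := by nlinarith
      calc W c * b / W a + mass up' + W c * nrm β
          ≤ W c * b + W c * mass up + W c * nrm β := by linarith
        _ = W c * (b + mass up + nrm β) := by ring
        _ ≤ 1 := r3.trans r4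
    · intro a' ha'
      obtain rfl : a = a' := by simpa using ha'
      exact q3
    · intro a' ha'
      obtain rfl : a = a' := by simpa using ha'
      exact q2
    · intro a' ha'
      obtain rfl : a = a' := by simpa using ha'
      refine Or.inr ⟨hc'.symm, ?_, fun a' ha' => (q7 a' (hup'_supp a' ha')).2⟩
      have r1 : W c * mass up ≤ (1 + z / 4) * (2 / 5) :=
        mul_le_mul hWc1 q9 hmass0 (by linarith)
      show mass up' ≤ 9 / 20
      linarith
    · intro a' ha'
      obtain rfl : a = a' := by simpa using ha'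
      exact Or.inr ⟨hc', q1, q4⟩
    · intro k hk x hx
      have h1 := q12 x (hle k hk hx)
      show W c * hc h (T.κ c) x =
        W c * b / W a * (W a * (hc h (T.κ a) x + fs 0 (fun j => hJ S h (T.lv a) j x))) +
          fs up' (fun a => W a * hc h (T.κ a) x) +
          fs (W c • β) (fun j => h j x)
      have h2 : fs up' (fun a => W a * hc h (T.κ a) x) =
          W c * fs up (fun a' => hc h (T.κ a') x) := by
        unfold fs
        rw [hup', Finsupp.onFinset_sum _ (fun _ => zero_mul _), Finsupp.sum, Finset.mul_sum]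
        refine Finset.sum_congr rfl fun a' _ => ?_
        have := (ho0 a').ne'
        show W c / W a' * up a' * (W a' * hc h (T.κ a') x) = W c * (up a' * hc h (T.κ a') x)
        have hWa' : W a' ≠ 0 := this
        field_simp
      have hWa : W a ≠ 0 := (ho0 a).ne'
      rw [h2, fs_zero, fs_smul, h1]
      field_simp
      ring

lemma exists_rec (hSTEP : StmtSTEP) (hF : Chain F) (hN : NSys F S h)
    (hG : GLData F h M lev cls Lb ε ζ V) (hT : T.Ok S h lev V (tau cls ζ)) (c : A) :
    ∃ e : Rec ι A, RecOk F S h M lev cls ε ζ T c e := by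
  rcases (hT.lev_le c).lt_or_eq with h1 | h1
  · exact rec_nonroot hSTEP hF hN hG hT c h1
  · exact rec_root hF hG c h1.symm

/-- the anchor data -/
def DD (M lev : 𝒮 → ℕ) (T : Tree ι 𝒮 A) (e : A → Rec ι A) : AData ι (Option A) where
  o := none
  lv := fun c => match c with
    | none => 0
    | some a => T.lv a
  M := fun c => match c with
    | none => 0
    | some a => M (T.s a)
  M' := fun c => match c with
    | none => 0
    | some a => lev (T.s a)
  par := fun c => match c with
    | none => none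
    | some a => (e a).par.map some
  m := fun c => match c with
    | none => 0
    | some a => (e a).m
  d := fun c => match c with
    | none => 0
    | some a => (e a).d
  up := fun c => match c with
    | none => 0
    | some a => emb (e a).up
  β := fun c => match c with
    | none => 0
    | some a => (e a).β

lemma par_some {e : A → Rec ι A} {c c' : Option A}
    (hp : (DD M lev T e).par c = some c') :
    ∃ a a', c = some a ∧ c' = some a' ∧ (e a).par = some a' := by
  cases c with
  | none => simp [DD] at hp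
  | some a =>
    have hp' : (e a).par.map some = some c' := hp
    rw [Option.map_eq_some_iff] at hp'
    obtain ⟨a', h1, h2⟩ := hp'
    exact ⟨a, a', rfl, h2.symm, h1⟩

lemma mem_emb_support {a : A →₀ ℝ} {c : Option A} (hc' : c ∈ (emb a).support) :
    ∃ a', c = some a' ∧ a' ∈ a.support := by
  rw [Finsupp.mem_support_iff] at hc'
  cases c with
  | none => exact absurd (emb_none a) hc'
  | some a' =>
    rw [emb_some] at hc'
    exact ⟨a', rfl, Finsupp.mem_support_iff.2 hc'⟩

lemma DD_ok (hWFN : StmtWFN) (hF : Chain F) (hG : GLData F h M lev cls Lb ε ζ V)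
    (hT : T.Ok S h lev V (tau cls ζ)) (hτ : ∀ s K, tau cls ζ s K ≤ ε (cls s) / 16)
    (e : A → Rec ι A) (he : ∀ c, RecOk F S h M lev cls ε ζ T c (e c)) :
    (DD M lev T e).Ok S := by
  refine
    { fin := ?_
      lvo := rfl
      paro := rfl
      MM := ?_
      Ml := ?_
      mpos := ?_
      dle := ?_
      uppos := ?_
      tot := ?_
      plv := ?_
      dlv := ?_
      uplv := ?_
      βlv := ?_
      wf := ?_
      none_up := ?_
      some_M := ?_
      some_or := ?_ }
  · intro N
    have h1 : {a : Option A | (DD M lev T e).lv a ≤ N} ⊆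
        insert none (some '' {a | T.lv a ≤ N}) := by
      intro c hcN
      cases c with
      | none => exact Set.mem_insert _ _
      | some a => exact Set.mem_insert_of_mem _ ⟨a, hcN, rfl⟩
    exact (((hT.fin N).image some).insert none).subset h1
  · intro c
    cases c with
    | none => exact le_refl _
    | some a => exact hG.Mle (T.s a)
  · intro c
    cases c with
    | none => exact le_refl _
    | some a => exact hT.lev_le a
  · intro c
    cases c with
    | none => exact le_refl _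
    | some a => exact (he a).mpos
  · intro c
    cases c with
    | none => show nrm 0 ≤ 1; rw [nrm_zero]; norm_num
    | some a => exact (he a).dle
  · intro c a
    cases c with
    | none => exact le_refl _
    | some c =>
      show 0 ≤ emb (e c).up a
      cases a with
      | none => rw [emb_none]
      | some a => rw [emb_some]; exact (he c).uppos a
  · intro c
    cases c with
    | none =>
      show (0 : ℝ) + mass 0 + nrm 0 ≤ 1
      rw [mass_zero, nrm_zero]; norm_num
    | some a =>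
      show (e a).m + mass (emb (e a).up) + nrm (e a).β ≤ 1
      rw [mass_emb]; exact (he a).tot
  · intro c a hp
    obtain ⟨c, a, rfl, rfl, h1⟩ := par_some hp
    exact (he c).plv a h1
  · intro c j hj
    cases c with
    | none => simp [DD] at hj
    | some c => exact (he c).dlv j hj
  · intro c a ha
    cases c with
    | none => simp [DD] at ha
    | some c =>
      obtain ⟨a', rfl, h1⟩ := mem_emb_support (a := (e c).up) ha
      exact (he c).uplv a' h1
  · intro c j hj
    cases c with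
    | none => simp [DD] at hj
    | some c => exact (he c).βlv j hj
  · rintro ⟨a, ha⟩
    have hsome : ∀ i, ∃ b, a i = some b := by
      intro i
      obtain ⟨c, a', h1, h2, h3⟩ := par_some (ha i)
      exact ⟨a', h2⟩
    choose b hb using hsome
    refine hWFN X F hF ι S h 𝒮 M lev cls Lb ε ζ V hG (tau cls ζ) hτ A T hT
      (fun c => (e c).par) (fun c a hp => (he c).wfn a hp) ⟨b, fun i => ?_⟩
    obtain ⟨c, a', h1, h2, h3⟩ := par_some (ha i)
    have e1 : c = b (i + 1) := by
      have := h1.symm.trans (hb (i + 1))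
      exact Option.some_injective _ this
    have e2 : a' = b i := by
      have := h2.symm.trans (hb i)
      exact Option.some_injective _ this
    rw [← e1, ← e2]
    exact h3
  · intro c hp
    cases c with
    | none => exact ⟨rfl, rfl⟩
    | some c =>
      have hp' : (e c).par.map some = none := hp
      rw [Option.map_eq_none_iff] at hp'
      obtain ⟨h1, h2⟩ := (he c).none_up hp'
      refine ⟨?_, h2⟩
      show emb (e c).up = 0
      rw [h1, emb_zero]
  · intro c a hp
    obtain ⟨c, a, rfl, rfl, h1⟩ := par_some hp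
    exact (he c).some_M a h1
  · intro c a hp
    obtain ⟨c, a, rfl, rfl, h1⟩ := par_some hp
    rcases (he c).some_or a h1 with ⟨h2, h3⟩ | ⟨h2, h3, h4⟩
    · refine Or.inl ⟨?_, h3⟩
      show emb (e c).up = 0
      rw [h2, emb_zero]
    · refine Or.inr ⟨h2, ?_, ?_⟩
      · show mass (emb (e c).up) ≤ 9 / 20
        rw [mass_emb]; exact h3
      · intro a' ha'
        obtain ⟨a'', rfl, h5⟩ := mem_emb_support (a := (e c).up) ha'
        exact h4 a'' h5

/-- the weights on `Option A` -/
def omO (cls : 𝒮 → ℕ) (ζ : ℕ → ℝ) (T : Tree ι 𝒮 A) : Option A → ℝ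
  | none => 1
  | some a => om (ζ (cls (T.s a))) (T.lv a)

/-- the centre functionals on `Option A` -/
def vO (h : ι → X →L[ℝ] ℝ) (T : Tree ι 𝒮 A) : Option A → X →L[ℝ] ℝ
  | none => 0
  | some a => hc h (T.κ a)

lemma DD_ex (e : A → Rec ι A) (he : ∀ c, RecOk F S h M lev cls ε ζ T c (e c)) (k : ℕ) (c : A)
    (hk : Cond F S h M lev cls ε ζ T k c) :
    AEx F S h (DD M lev T e) (omO cls ζ T) (vO h T) k (some c) := by
  intro x hx
  have h1 := (he c).ex k hk x hx
  show om (ζ (cls (T.s c))) (T.lv c) * hc h (T.κ c) x = _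
  rw [h1]
  have h2 : fs ((DD M lev T e).up (some c)) (fun a => omO cls ζ T a * vO h T a x) =
      fs (e c).up (fun a => om (ζ (cls (T.s a))) (T.lv a) * hc h (T.κ a) x) :=
    fs_emb _ _
  rw [h2]
  have h3 : (DD M lev T e).par (some c) = (e c).par.map some := rfl
  rw [h3]
  cases (e c).par with
  | none => rfl
  | some a => rfl

lemma DD_exfin (hN : NSys F S h) (hT : T.Ok S h lev V (tau cls ζ))
    (hR : ∀ k : ℕ, {c | T.lv c = lev (T.s c) ∧ ¬ RootRep F S h M lev cls ε ζ T k c}.Finite)
    (e : A → Rec ι A) (he : ∀ c, RecOk F S h M lev cls ε ζ T c (e c)) (k : ℕ) :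
    {c | ¬ AEx F S h (DD M lev T e) (omO cls ζ T) (vO h T) k c}.Finite := by
  classical
  obtain ⟨R, hR'⟩ := ((hN.ex k).image S.rk).bddAbove
  have hR'' : ∀ j, ¬ Exact F S h k j → S.rk j ≤ R := fun j hj => hR' ⟨j, hj, rfl⟩
  have hsub : {c | ¬ AEx F S h (DD M lev T e) (omO cls ζ T) (vO h T) k c} ⊆
      some '' ({c | T.lv c ≤ R + k} ∪
        {c | T.lv c = lev (T.s c) ∧ ¬ RootRep F S h M lev cls ε ζ T k c}) := by
    intro c hc1
    cases c with
    | none =>
      exfalso
      apply hc1
      intro x hx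
      show (1 : ℝ) * (0 : X →L[ℝ] ℝ) x = 0 + fs 0 _ + fs 0 _
      rw [fs_zero, fs_zero]
      simp
    | some c =>
      refine ⟨c, ?_, rfl⟩
      by_contra hcon
      rw [Set.mem_union, not_or] at hcon
      obtain ⟨g1, g2⟩ := hcon
      have g1' : R + k < T.lv c := not_le.1 g1
      apply hc1
      refine DD_ex e he k c ?_
      rcases (hT.lev_le c).lt_or_eq with h1 | h1
      · refine Or.inl ⟨h1, fun j hj => ?_⟩
        by_contra hex
        have := hR'' j hex
        omega
      · refine Or.inr ⟨h1.symm, by omega, ?_⟩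
        by_contra hrr
        exact g2 ⟨h1.symm, hrr⟩
  exact (((hT.fin (R + k)).union (hR k)).image some).subset hsub

lemma abs_le_ph (hN : NSys F S h) (j : ι) (x : X) : |h j x| ≤ ph h x := by
  obtain ⟨H, hH⟩ := hN.bdd
  have hb : BddAbove (range fun n => |h n x|) := by
    refine ⟨H * ‖x‖, ?_⟩
    rintro _ ⟨n, rfl⟩
    have h1 : ‖h n x‖ ≤ ‖h n‖ * ‖x‖ := (h n).le_opNorm x
    rw [Real.norm_eq_abs] at h1
    exact h1.trans (mul_le_mul_of_nonneg_right (hH n) (norm_nonneg x))
  exact le_ciSup hb j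

lemma ph_nonneg (h : ι → X →L[ℝ] ℝ) (x : X) : 0 ≤ ph h x :=
  Real.iSup_nonneg fun _ => abs_nonneg _

lemma tau_pos (hG : GLData F h M lev cls Lb ε ζ V) (s : 𝒮) (K : ℕ) : 0 < tau cls ζ s K :=
  mul_pos (hG.ζpos s) (hp_pos _)

lemma tau_tendsto (s : 𝒮) : Tendsto (tau cls ζ s) atTop (𝓝 0) := by
  have h1 : Tendsto (fun K : ℕ => (1 / 2 : ℝ) ^ (K + 9)) atTop (𝓝 0) :=
    (tendsto_pow_atTop_nhds_zero_of_lt_one (by norm_num) (by norm_num)).comp
      (tendsto_add_atTop_nat 9)
  have h2 := h1.const_mul (ζ (cls s))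
  rw [mul_zero] at h2
  exact h2

lemma tau_le (hG : GLData F h M lev cls Lb ε ζ V) (s : 𝒮) (K : ℕ) :
    tau cls ζ s K ≤ ε (cls s) / 16 := by
  have h1 := hG.ζε s
  have h2 := hG.ζpos s
  have h3 : (1 / 2 : ℝ) ^ (K + 9) ≤ 1 / 16 := by
    have : (1 / 2 : ℝ) ^ (K + 9) ≤ (1 / 2 : ℝ) ^ 4 :=
      pow_le_pow_of_le_one (by norm_num) (by norm_num) (by omega)
    refine this.trans ?_
    norm_num
  unfold tau
  have h4 : ζ (cls s) * (1 / 2 : ℝ) ^ (K + 9) ≤ ζ (cls s) * (1 / 16) :=
    mul_le_mul_of_nonneg_left h3 h2.le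
  linarith

end main

end

end ASM

open ASM in
/-- Module PB_ASM. -/
theorem stmtASM (hTREE : StmtTREE) (hSTEP : StmtSTEP) (hROOT : StmtROOT) (hWFN : StmtWFN)
    (hEXN : StmtEXN) (hDUALN : StmtDUALN) (hTMAP : StmtTMAP) : StmtASM := by
  intro X _ _ F hF ι S h hNS hD hrk hsep 𝒮 M lev cls Lb ε ζ V hG
  obtain ⟨A, T, hT⟩ := hTREE X F hF ι S h hNS hD 𝒮 M lev cls Lb ε ζ V hG (tau cls ζ)
    (fun s K => tau_pos hG s K) (fun s => tau_tendsto s)
  have hR := hROOT X F hF ι S h hNS hD hsep 𝒮 M lev cls Lb ε ζ V hG (tau cls ζ)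
    (fun s K => tau_pos hG s K) (fun s => tau_tendsto s) (fun s K => tau_le hG s K) A T hT
  choose e he using fun c => exists_rec hSTEP hF hNS hG hT c
  have hDok := DD_ok hWFN hF hG hT (fun s K => tau_le hG s K) e he
  have hom1 : ∀ a, 1 ≤ omO cls ζ T a := by
    intro a
    cases a with
    | none => exact le_refl _
    | some a => exact om_ge (hG.ζpos _) _
  obtain ⟨hN', hph, hdom⟩ := hEXN X F hF ι S h hNS hrk (Option A) (DD M lev T e) hDok
    (omO cls ζ T) (vO h T)
    (by
      intro a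
      refine ⟨by linarith [hom1 a], ?_⟩
      cases a with
      | none => show (1 : ℝ) ≤ 2; norm_num
      | some a => exact om_le_two (hG.ζpos _) (hG.ζle _) _)
    (by
      intro a
      cases a with
      | none => show ‖(0 : X →L[ℝ] ℝ)‖ ≤ 1; rw [norm_zero]; norm_num
      | some a =>
        have h1 := hG.norm_le (T.s a) _ (hT.mem a)
        exact h1)
    rfl rfl (fun k => DD_exfin hNS hT hR e he k)
  refine ⟨Nd ι (Option A), (DD M lev T e).sys S,
    hN S h (DD M lev T e).lv (omO cls ζ T) (vO h T), hN',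
    hDUALN ι S hNS.ok hD hrk (Option A) (DD M lev T e) hDok, hph, ?_⟩
  intro s q hq
  set h' := hN S h (DD M lev T e).lv (omO cls ζ T) (vO h T) with hh'
  obtain ⟨T', -, hT'norm, -, -⟩ := hTMAP X F hF _ _ h' hN'
  have hcont : Continuous fun x => ph h' x := by
    have : (fun x => ph h' x) = fun x => ‖T' x‖ := by
      funext x
      rw [hT'norm]
    rw [this]
    exact T'.continuous.norm
  have hclosed : IsClosed {x : X | |q.1 x| ≤ ph h' x} :=
    isClosed_le q.1.continuous.abs hcont
  have hdense : ∀ x ∈ ⋃ k, (F k : Set X), x ∈ {x : X | |q.1 x| ≤ ph h' x} := by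
    intro x hx
    obtain ⟨k, hxk⟩ := mem_iUnion.1 hx
    show |q.1 x| ≤ ph h' x
    refine le_of_forall_pos_le_add fun η hη => ?_
    obtain ⟨R, hR'⟩ := ((hNS.ex k).image S.rk).bddAbove
    have hR'' : ∀ j, ¬ Exact F S h k j → S.rk j ≤ R := fun j hj => hR' ⟨j, hj, rfl⟩
    have hlim : Tendsto (fun K => tau cls ζ s K * ph h x) atTop (𝓝 0) := by
      have := (tau_tendsto (cls := cls) (ζ := ζ) s).mul_const (ph h x)
      rwa [zero_mul] at this
    obtain ⟨K, hK1, hK2, hK3⟩ := ((hlim.eventually (gt_mem_nhds hη)).and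
      ((eventually_ge_atTop (lev s)).and (eventually_ge_atTop R))).exists
    obtain ⟨a, ha1, ha2, ⟨κ, hκ1, hκ2⟩, -⟩ := hT.cover s K hK2 q hq
    obtain ⟨β, hβ1, hβ2, hβ3⟩ :=
      (hSTEP X F hF ι S h hNS κ (T.κ a) K _ (tau_pos hG s K).le hκ2).1
    have h1 := hβ3 k (fun j hj => by
      by_contra hex
      have := hR'' j hex
      omega) x hxk
    rw [hκ1] at h1
    have h2 : |fs β (fun j => h j x)| ≤ tau cls ζ s K * ph h x :=
      (abs_fs_le β _ (ph h x) (fun j => abs_le_ph hNS j x)).trans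
        (mul_le_mul_of_nonneg_right hβ2 (ph_nonneg h x))
    have h3 : |hc h (T.κ a) x| ≤ ph h' x := hdom (some a) x (hom1 (some a))
    rw [h1]
    refine (abs_add_le _ _).trans ?_
    linarith
  intro x
  have hx : x ∈ closure (⋃ k, (F k : Set X)) := hF.dense x
  exact (closure_minimal hdense hclosed) hx

end PB
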