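import Pool.Agent.PB57.Stmts
import Pool.Agent.B57.Causal

/-!
# MP_b57e2f_an: module CD (causal decomposition, 4.2)

Mathematics: helper10.
-/

set_option autoImplicit false

open Filter Topology Set

namespace PB

noncomputable section

theorem stmtCD (hWB : StmtWB) : StmtCD := by
  intro X _ _ F p δ G hS m
  obtain ⟨-, -, -, -, hmono, hzero, -, hle1, -, hbd, -⟩ := hWB X F p δ G hS
  have hδ : 0 < δ m := hS.δpos m
  obtain ⟨H, hH, hpb⟩ := hS.pbdd
  obtain ⟨P, hP⟩ := Pool.Agent.B57.Causal.exists_smul p (A := (δ m)⁻¹) (by positivity)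
  have hd : Dense {x : X | ∃ n, x ∈ F n} := by
    have := hS.chain.dense
    have e : (⋃ k, (F k : Set X)) = {x : X | ∃ n, x ∈ F n} := by
      ext x
      simp
    rwa [e] at this
  obtain ⟨ν, hν1, hν2, hν3⟩ := Pool.Agent.B57.Causal.causal F hS.chain.mono hS.chain.fd hd P
    (cP := (δ m)⁻¹ * H) (fun x => by
      rw [hP, mul_assoc]
      exact mul_le_mul_of_nonneg_left (hpb x) (by positivity))
    (fun n x hx h0 => by
      rw [hP] at h0
      rcases mul_eq_zero.1 h0 with h | h
      · exact absurd h (inv_ne_zero hδ.ne')
      · exact hS.pnorm n x hx h)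
  obtain ⟨A, hA0, hA⟩ := hS.Gdom m
  refine ⟨ν, (7 + 16 * (A * δ m)) * (δ m)⁻¹, by positivity, ?_⟩
  intro f hf
  have hp : ∀ w, p w = δ m * P w := fun w => by
    rw [hP]
    field_simp
  obtain ⟨u, hu1, hu2, hu3⟩ := hν3 m (A * δ m) (by positivity) (by
      intro x hx w
      obtain ⟨g, hg, hgx⟩ := hS.Gnorm m x hx
      have h1 : |g (x - w)| ≤ ‖x - w‖ := by
        have := g.le_opNorm (x - w)
        rw [Real.norm_eq_abs] at this
        refine this.trans ?_
        have := hS.Gle m g hg
        nlinarith [norm_nonneg (x - w)]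
      have h2 : |g w| ≤ A * δ m * P w := by
        have := hA g hg w
        rw [hp] at this
        linarith
      have h3 : |g x| ≤ |g (x - w)| + |g w| := by
        have e : g x = g (x - w) + g w := by
          rw [← map_add]
          congr 1
          abel
        rw [e]
        exact abs_add_le _ _
      linarith)
    f (fun n => Om F p δ n f - Om F p δ m f)
    (fun a b hab => by
      have := hmono f hab
      simp only at this ⊢
      linarith)
    (fun n hn => by
      have := hmono f hn.le
      simp only at this ⊢
      linarith)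
    (fun n => by
      have h1 := hle1 f hf n
      have h2 := hmono f (Nat.zero_le m)
      simp only at h2
      rw [hzero] at h2
      linarith)
    (fun n hn x hx => by
      refine hbd f m n hn x hx _ (le_max_left _ _) ?_
      rw [hp]
      have h1 := le_max_right ‖x‖ (P x)
      nlinarith)
  refine ⟨u, hu1, fun x => ?_, fun n hn x hx => hu3 n hn x hx⟩
  have := hu2 x
  rw [hP] at this
  calc _ ≤ _ := this
    _ = _ := by ring

end

end PB
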