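import Pool.Agent.PB57.Stmts

/-!
# Module CLU (4.7): the cluster lemma   (helper62)
-/

set_option autoImplicit false

open Filter Topology Set

namespace PB

noncomputable section

namespace CLU

/-- bounded real families converge along ultrafilters -/
theorem exists_limR {J : Type} (𝒰 : Ultrafilter J) (g : J → ℝ) (C : ℝ)
    (hg : ∀ᶠ i in (𝒰 : Filter J), |g i| ≤ C) : ∃ a : ℝ, Tendsto g 𝒰 (𝓝 a) := by
  have h1 : ((𝒰.map g : Ultrafilter ℝ) : Filter ℝ) ≤ 𝓟 (Icc (-C) C) := by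
    rw [le_principal_iff]
    change ∀ᶠ i in (𝒰 : Filter J), g i ∈ Icc (-C) C
    filter_upwards [hg] with i hi
    exact abs_le.1 hi
  obtain ⟨a, -, ha⟩ := isCompact_Icc.ultrafilter_le_nhds _ h1
  exact ⟨a, ha⟩

/-- bounded families of functionals converge along ultrafilters -/
theorem exists_lim {X J : Type} [NormedAddCommGroup X] [NormedSpace ℝ X] (𝒰 : Ultrafilter J)
    (f : J → X →L[ℝ] ℝ) (C : ℝ) (hf : ∀ᶠ i in (𝒰 : Filter J), ∀ x, |f i x| ≤ C * ‖x‖) :
    ∃ f' : X →L[ℝ] ℝ, ∀ x, Tendsto (fun i => f i x) 𝒰 (𝓝 (f' x)) := by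
  have h1 : ∀ x, ∃ a : ℝ, Tendsto (fun i => f i x) 𝒰 (𝓝 a) := fun x =>
    exists_limR 𝒰 _ (C * ‖x‖) (hf.mono fun i hi => hi x)
  choose g hg using h1
  have hadd : ∀ x y, g (x + y) = g x + g y := by
    intro x y
    refine tendsto_nhds_unique (hg (x + y)) ?_
    have := (hg x).add (hg y)
    refine this.congr fun i => ?_
    rw [map_add]
  have hsmul : ∀ (t : ℝ) x, g (t • x) = t * g x := by
    intro t x
    refine tendsto_nhds_unique (hg (t • x)) ?_
    have := (hg x).const_mul t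
    refine this.congr fun i => ?_
    rw [map_smul, smul_eq_mul]
  have hbd : ∀ x, ‖g x‖ ≤ C * ‖x‖ := by
    intro x
    refine le_of_tendsto (hg x).norm ?_
    exact hf.mono fun i hi => hi x
  refine ⟨LinearMap.mkContinuous
    { toFun := g
      map_add' := hadd
      map_smul' := hsmul } C hbd, hg⟩

/-- bounds on a dense chain extend -/
theorem bd_of_dense {X : Type} [NormedAddCommGroup X] [NormedSpace ℝ X]
    {F : ℕ → Submodule ℝ X} (hF : Chain F) (u : X →L[ℝ] ℝ) (C : ℝ)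
    (h : ∀ n, ∀ x ∈ F n, |u x| ≤ C * ‖x‖) (x : X) : |u x| ≤ C * ‖x‖ := by
  have hcl : IsClosed {x : X | |u x| ≤ C * ‖x‖} :=
    isClosed_le (u.continuous.abs) (continuous_const.mul continuous_norm)
  have hsub : (⋃ k, (F k : Set X)) ⊆ {x : X | |u x| ≤ C * ‖x‖} := by
    intro y hy
    obtain ⟨k, hk⟩ := mem_iUnion.1 hy
    exact h k y hk
  have h2 := hF.dense.closure_eq
  have h3 := closure_minimal hsub hcl
  rw [h2] at h3
  exact h3 (mem_univ x)

theorem eps_pos (l : ℕ) : 0 < eps l := by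
  induction l with
  | zero => exact one_pos
  | succ l ih => exact mul_pos (by positivity) ih

theorem eps_le (l : ℕ) : eps l ≤ 1 := by
  induction l with
  | zero => exact le_refl _
  | succ l ih =>
    have h1 : (1 / 2 : ℝ) ^ (l + 6) ≤ 1 := pow_le_one₀ (by norm_num) (by norm_num)
    calc eps (l + 1) = (1 / 2 : ℝ) ^ (l + 6) * eps l := rfl
      _ ≤ 1 * 1 := mul_le_mul h1 ih (eps_pos l).le (by norm_num)
      _ = 1 := one_mul 1

theorem eps_le' {l : ℕ} (hl : 1 ≤ l) : eps l ≤ 1 / 64 := by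
  obtain ⟨k, rfl⟩ : ∃ k, l = k + 1 := ⟨l - 1, by omega⟩
  have h1 : (1 / 2 : ℝ) ^ (k + 6) ≤ (1 / 2) ^ 6 :=
    pow_le_pow_of_le_one (by norm_num) (by norm_num) (by omega)
  calc eps (k + 1) = (1 / 2 : ℝ) ^ (k + 6) * eps k := rfl
    _ ≤ (1 / 2) ^ 6 * 1 := mul_le_mul h1 (eps_le k) (eps_pos k).le (by norm_num)
    _ = 1 / 64 := by norm_num

theorem Cl_pos (l : ℕ) : 0 < Cl l := by
  unfold Cl; positivity

theorem Cl_le {l : ℕ} (hl : 1 ≤ l) : Cl l ≤ 45 := by
  unfold Cl
  have h1 : (1 / 2 : ℝ) ^ l ≤ (1 / 2) ^ 1 :=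
    pow_le_pow_of_le_one (by norm_num) (by norm_num) hl
  linarith

theorem eta_pos (l : ℕ) : 0 < eta l := by
  unfold eta; have := eps_pos l; positivity

section main

variable {X : Type} [NormedAddCommGroup X] [NormedSpace ℝ X]

/-- the bound of the functionals of UU -/
theorem UU.bd {F : ℕ → Submodule ℝ X} {p : Seminorm ℝ X} {δ : ℕ → ℝ} (hF : Chain F)
    {m : ℕ} {ν : ℕ → ℕ} {L : ℝ} {f u : X →L[ℝ] ℝ} (h : UU F p δ m ν L f u) {w e : ℝ}
    (hw : ∀ n, Om F p δ n f ≤ w) (he : w - Om F p δ m f ≤ e) (x : X) :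
    |u x| ≤ 30 * e * ‖x‖ := by
  apply bd_of_dense hF
  intro n y hy
  have hy2 : y ∈ F (max m n) := hF.mono (le_max_right _ _) hy
  have h1 := h.small (max m n) (le_max_left _ _) y hy2
  refine h1.trans ?_
  apply mul_le_mul_of_nonneg_right _ (norm_nonneg _)
  have := hw (ν (max m n))
  linarith

end main

end CLU

open CLU

/-- module CLU (4.7) -/
theorem stmtCLU (hWB : StmtWB) (hVB : StmtVB) (hDEC : StmtDEC) : StmtCLU := by
  intro X _ _ F p δ G hS ν L hCD 𝒰 s v w l m hv hsl hsm hsm'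
  obtain ⟨-, ⟨c, hc, -, hcb⟩, -, -, hmono, -, -, hle1, hmem, -, hcont, -, -, -⟩ :=
    hWB X F p δ G hS
  obtain ⟨-, -, -, hMl, hdec⟩ := hDEC
  have hF := hS.chain
  -- parameters
  obtain ⟨i0, hi0l, hi0m⟩ := (hsl.and hsm).exists
  have hl1 : 1 ≤ l := hi0l ▸ (s i0).hl
  have hlm : l ≤ m + 1 := by
    have := (s i0).hm
    rwa [hi0l, hi0m] at this
  -- the points
  have hpt : ∀ i, ∃ f u u' : X →L[ℝ] ℝ, Xi F p δ ν L (s i) f (w i) u u' ∧
      v i = (mu F p δ (s i) f (w i))⁻¹ • (u - u') := fun i => hv i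
  choose f u u' hXi hveq using hpt
  have hw0 : ∀ i, 0 ≤ w i ∧ w i ≤ 2 := by
    intro i
    obtain ⟨h1, -⟩ := hVB X F p δ G hS ν L hCD (s i)
    obtain ⟨-, h2, h3, -⟩ := h1 _ (hv i)
    exact ⟨h2, h3⟩
  -- limits
  obtain ⟨w0, hw0lim⟩ := exists_limR 𝒰 w 2 (Eventually.of_forall fun i => by
    rw [abs_le]; constructor <;> linarith [(hw0 i).1, (hw0 i).2])
  obtain ⟨f0, hf0⟩ := exists_lim 𝒰 f (1 / c) (Eventually.of_forall fun i x => by
    refine ((f i).le_opNorm x).trans ?_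
    exact mul_le_mul_of_nonneg_right (hcb _ (hXi i).hf) (norm_nonneg _))
  have hub : ∀ i x, |u i x| ≤ 30 * 1 * ‖x‖ := by
    intro i x
    exact UU.bd hF (hXi i).hu (hXi i).hw ((hXi i).h1.trans (eps_le _)) x
  have hub' : ∀ i x, |u' i x| ≤ 30 * 1 * ‖x‖ := by
    intro i x
    exact UU.bd hF (hXi i).hu' (hXi i).hw ((hXi i).h2.trans (eps_le _)) x
  obtain ⟨u0, hu0⟩ := exists_lim 𝒰 u (30 * 1) (Eventually.of_forall fun i x => hub i x)
  have hOm : ∀ n, Tendsto (fun i => Om F p δ n (f i)) 𝒰 (𝓝 (Om F p δ n f0)) :=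
    hcont ℕ 𝒰 f f0 hf0
  -- u' tends to 0
  have hu'0 : ∀ x, Tendsto (fun i => u' i x) 𝒰 (𝓝 0) := by
    obtain ⟨z, hz⟩ := exists_lim 𝒰 u' (30 * 1) (Eventually.of_forall fun i x => hub' i x)
    have hz0 : ∀ x, z x = 0 := by
      have h1 : ∀ n, ∀ x ∈ F n, |z x| ≤ 0 * ‖x‖ := by
        intro n x hx
        have h2 : Tendsto (fun i => u' i x) 𝒰 (𝓝 0) := by
          refine tendsto_const_nhds.congr' ?_
          filter_upwards [hsm'.eventually_ge_atTop n] with i hi
          exact ((hXi i).hu'.zero x (hF.mono hi hx)).symm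
        rw [tendsto_nhds_unique (hz x) h2]
        simp
      intro x
      have := bd_of_dense hF z 0 h1 x
      rw [zero_mul] at this
      exact abs_nonpos_iff.1 this
    intro x
    have := hz x
    rwa [hz0 x] at this
  -- the limit point
  have hf0P : f0 ∈ WP F p δ := by
    apply hmem
    intro n
    exact le_of_tendsto (hOm n) (Eventually.of_forall fun i => hle1 _ (hXi i).hf n)
  have hOmle : ∀ n, Om F p δ n f0 ≤ w0 - eps l := by
    intro n
    refine le_of_tendsto_of_tendsto (hOm n) (hw0lim.sub_const (eps l)) ?_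
    filter_upwards [hsl, hsm, hsm'.eventually_ge_atTop (max n (max m l) + 1)] with i h1 h2 h3
    have h4 : max (s i).m (s i).l < (s i).m' := by
      rw [h1, h2]
      have := le_max_right n (max m l)
      omega
    have h5 := (hXi i).h3 h4
    rw [h1] at h5
    have h6 : Om F p δ n (f i) ≤ Om F p δ ((s i).m' - 1) (f i) := by
      apply hmono (f i)
      have := le_max_left n (max m l)
      omega
    linarith
  have hw0m : w0 - Om F p δ m f0 ≤ eps (l - 1) := by
    refine le_of_tendsto (hw0lim.sub (hOm m)) ?_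
    filter_upwards [hsl, hsm] with i h1 h2
    have := (hXi i).h1
    rwa [h1, h2] at this
  have hUU0 : UU F p δ m (ν m) (L m) f0 u0 := by
    refine ⟨?_, ?_, ?_⟩
    · intro x hx
      refine tendsto_nhds_unique (hu0 x) (tendsto_const_nhds.congr' ?_)
      filter_upwards [hsm] with i h2
      have := (hXi i).hu.zero x (by rw [h2]; exact hx)
      exact this.symm
    · intro x
      refine le_of_tendsto ((hf0 x).sub (hu0 x)).abs ?_
      filter_upwards [hsm] with i h2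
      have := (hXi i).hu.dom x
      rwa [h2] at this
    · intro n hn x hx
      refine le_of_tendsto_of_tendsto (hu0 x).abs
        ((((hOm (ν m n)).sub (hOm m)).const_mul 30).mul_const ‖x‖) ?_
      filter_upwards [hsm] with i h2
      have := (hXi i).hu.small n (by rw [h2]; exact hn) x hx
      rwa [h2] at this
  -- the supremum
  have hbdd : BddAbove (range fun n => Om F p δ n f0) := ⟨w0 - eps l, by
    rintro _ ⟨n, rfl⟩
    exact hOmle n⟩
  obtain ⟨ws, hws⟩ : ∃ ws, ws = ⨆ n, Om F p δ n f0 := ⟨_, rfl⟩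
  have hwsle : ∀ n, Om F p δ n f0 ≤ ws := fun n => hws ▸ le_ciSup hbdd n
  have hwsap : ∀ e : ℝ, 0 < e → ∃ n, ws - e ≤ Om F p δ n f0 := by
    intro e he
    have h1 : ws - e < ⨆ n, Om F p δ n f0 := by rw [← hws]; linarith
    obtain ⟨n, hn⟩ := exists_lt_of_lt_ciSup h1
    exact ⟨n, hn.le⟩
  have hws0 : ws ≤ w0 - eps l := by
    rw [hws]
    exact ciSup_le hOmle
  -- the new level
  have hex : ∃ t, max m l ≤ t ∧ ws - Om F p δ t f0 ≤ eps l := by
    obtain ⟨n, hn⟩ := hwsap (eps l) (eps_pos l)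
    refine ⟨max n (max m l), le_max_right _ _, ?_⟩
    have := hmono f0 (le_max_left n (max m l))
    simp only at this
    linarith
  classical
  obtain ⟨ms, ⟨hms1, hms2⟩, hmsmin⟩ : ∃ t, (max m l ≤ t ∧ ws - Om F p δ t f0 ≤ eps l) ∧
      ∀ t' < t, ¬ (max m l ≤ t' ∧ ws - Om F p δ t' f0 ≤ eps l) :=
    ⟨Nat.find hex, Nat.find_spec hex, fun t' ht' => Nat.find_min hex ht'⟩
  obtain ⟨us, hus⟩ := (hCD ms).2 f0 hf0P
  let t : Idx := ⟨l, m, ms, hl1, hlm, (le_max_left m l).trans hms1, (le_max_right m l).trans hms1⟩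
  have hXt : Xi F p δ ν L t f0 ws u0 us := by
    refine ⟨hf0P, hwsle, ?_, hms2, ?_, hUU0, hus⟩
    · have h1 := eps_pos l
      change ws - Om F p δ m f0 ≤ eps (l - 1)
      linarith
    · intro h
      change max m l < ms at h
      change eps l ≤ ws - Om F p δ (ms - 1) f0
      have h1 := hmsmin (ms - 1) (by omega)
      rw [not_and] at h1
      have h2 := h1 (by omega)
      linarith
  obtain ⟨bb, sj, vj, hbb0, hbbs, hbbM, hvj, hsj, hus_eq⟩ :=
    hdec X F p δ G hS ν L hCD f0 hf0P ws hwsle hwsap l ms ((le_max_right m l).trans hms1) hms2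
      us hus
  -- the numbers
  obtain ⟨mu0, hmu0⟩ : ∃ x, x = Cl l * (w0 - Om F p δ m f0) + eta l := ⟨_, rfl⟩
  obtain ⟨mus, hmus⟩ : ∃ x, x = Cl l * (ws - Om F p δ m f0) + eta l := ⟨_, rfl⟩
  have hCl := Cl_pos l
  have heta := eta_pos l
  have heps := eps_pos l
  have hmus_pos : 0 < mus := by
    rw [hmus]
    have h1 : 0 ≤ ws - Om F p δ m f0 := by linarith [hwsle m]
    positivity
  have hmu0_ge : mus + Cl l * eps l ≤ mu0 := by
    rw [hmu0, hmus]
    have h1 := mul_le_mul_of_nonneg_left hws0 hCl.le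
    nlinarith [h1]
  have hmu0_pos : 0 < mu0 := by
    have : 0 < Cl l * eps l := by positivity
    linarith
  have hmu0_ge2 : Cl l * eps l + eta l ≤ mu0 := by
    have h1 : eta l ≤ mus := by
      rw [hmus]
      have h1 : 0 ≤ ws - Om F p δ m f0 := by linarith [hwsle m]
      have : 0 ≤ Cl l * (ws - Om F p δ m f0) := by positivity
      linarith
    linarith
  have hmu0_le : mu0 ≤ 150 := by
    rw [hmu0]
    have h1 : w0 - Om F p δ m f0 ≤ 1 := hw0m.trans (eps_le _)
    have h0 : 0 ≤ w0 - Om F p δ m f0 := by linarith [hwsle m]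
    have h2 : Cl l * (w0 - Om F p δ m f0) ≤ 45 * 1 :=
      mul_le_mul (Cl_le hl1) h1 h0 (by norm_num)
    have h3 : eta l ≤ 90 * (1 / 64) := by
      unfold eta
      have := eps_le' hl1
      linarith
    linarith
  have hmuten : Tendsto (fun i => mu F p δ (s i) (f i) (w i)) 𝒰 (𝓝 mu0) := by
    have h1 : Tendsto (fun i => Cl l * (w i - Om F p δ m (f i)) + eta l) 𝒰 (𝓝 mu0) := by
      rw [hmu0]
      exact ((hw0lim.sub (hOm m)).const_mul _).add_const _
    refine h1.congr' ?_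
    filter_upwards [hsl, hsm] with i h1 h2
    unfold mu
    rw [h1, h2]
  refine ⟨t, ((mus)⁻¹ • (u0 - us), ws), mus / mu0, fun j => bb j / mu0, sj,
    fun j => (vj j, ws), w0, rfl, rfl, ⟨f0, u0, us, hXt, ?_⟩, by positivity,
    fun j => div_nonneg (hbb0 j) hmu0_pos.le, hvj, hsj, hbbs.div_const _, ?_, ?_, hw0lim, hws0, ?_⟩
  · change mus⁻¹ • (u0 - us) = (Cl l * (ws - Om F p δ m f0) + eta l)⁻¹ • (u0 - us)
    rw [hmus]
  · rw [tsum_div_const, ← add_div, div_le_iff₀ hmu0_pos]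
    have h1 := hMl l
    have h2 : zeta l * mu0 ≤ zeta l * 150 := by
      apply mul_le_mul_of_nonneg_left hmu0_le
      unfold zeta; positivity
    have h3 : zeta l * 150 = 600 * (1 / 2 : ℝ) ^ (l + 6) * eps l := by
      unfold zeta
      rw [pow_add, pow_add]
      ring
    nlinarith
  · rw [tsum_div_const, div_le_iff₀ hmu0_pos]
    have h1 := hMl l
    have h2 : Cl l * eps l ≤ 45 * eps l := mul_le_mul_of_nonneg_right (Cl_le hl1) heps.le
    have h3 : eta l = 90 * eps l := rfl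
    have h4 : 0 ≤ 600 * (1 / 2 : ℝ) ^ (l + 6) * eps l := by positivity
    nlinarith
  · intro x
    have h1 : Tendsto (fun i => v i x) 𝒰 (𝓝 (mu0⁻¹ * (u0 x - 0))) := by
      have h2 : Tendsto (fun i => (mu F p δ (s i) (f i) (w i))⁻¹ * (u i x - u' i x)) 𝒰
          (𝓝 (mu0⁻¹ * (u0 x - 0))) :=
        (hmuten.inv₀ hmu0_pos.ne').mul ((hu0 x).sub (hu'0 x))
      refine h2.congr fun i => ?_
      rw [hveq i]
      rfl
    have h3 : mu0⁻¹ * (u0 x - 0) =
        mus / mu0 * (mus⁻¹ • (u0 - us)) x + ∑' j, bb j / mu0 * vj j x := by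
      have h4 : ∑' j, bb j / mu0 * vj j x = mu0⁻¹ * us x := by
        rw [hus_eq x, ← tsum_mul_left]
        apply tsum_congr
        intro j
        ring
      rw [h4]
      change mu0⁻¹ * (u0 x - 0) = mus / mu0 * (mus⁻¹ * (u0 x - us x)) + mu0⁻¹ * us x
      field_simp
      ring
    rw [h3] at h1
    exact h1

end

end PB
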