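import Pool.Agent.PB57.Stmts

/-!
# MP_b57e2f_an: module CVX (convexification on the space of ultrafilters)
-/

set_option autoImplicit false

open Filter Topology Set MeasureTheory

namespace PB

noncomputable section

namespace CVX

/-- Mazur and dominated convergence on a compact space. -/
theorem conv_small {K : Type} [TopologicalSpace K] [CompactSpace K] [T2Space K]
    (G : ℕ → C(K, ℝ)) (h0 : ∀ N x, 0 ≤ G N x) (h1 : ∀ N x, G N x ≤ 1)
    (hlim : ∀ x, Tendsto (fun N => G N x) atTop (𝓝 0)) (e : ℝ) (he : 0 < e) :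
    ∃ (s : Finset ℕ) (t : ℕ → ℝ), (∀ N, 0 ≤ t N) ∧ ∑ N ∈ s, t N = 1 ∧
      ∀ x, ∑ N ∈ s, t N * G N x < e := by
  by_contra hcon
  push Not at hcon
  let U : Set C(K, ℝ) := {g | ∀ x, g x < e}
  have hUo : IsOpen U := by
    have h := ContinuousMap.isOpen_setOfPred_mapsTo (isCompact_univ : IsCompact (univ : Set K))
      (isOpen_Iio : IsOpen (Iio e))
    convert h using 1
    ext g
    constructor
    · intro hg x _
      exact hg x
    · intro hg x
      exact hg (mem_univ x)
  have hUc : Convex ℝ U := by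
    intro a ha b hb α β hα hβ hαβ x
    have e1 : (α • a + β • b) x = α * a x + β * b x := rfl
    rw [e1]
    have h2 := ha x
    have h3 := hb x
    rcases hα.eq_or_lt with h | h
    · have hβ1 : β = 1 := by linarith
      rw [← h, hβ1]
      linarith
    · nlinarith [mul_lt_mul_of_pos_left h2 h, mul_le_mul_of_nonneg_left h3.le hβ]
  have hdisj : Disjoint U (convexHull ℝ (range G)) := by
    rw [Set.disjoint_left]
    intro g hgU hgC
    rw [convexHull_range_eq_exists_affineCombination] at hgC
    obtain ⟨s, w, hw0, hw1, hg⟩ := hgC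
    rw [s.affineCombination_eq_linear_combination _ _ hw1] at hg
    obtain ⟨x, hx⟩ := hcon s (fun N => |w N|) (fun N => abs_nonneg _) (by
      rw [← hw1]
      exact Finset.sum_congr rfl (fun N hN => abs_of_nonneg (hw0 N hN)))
    have h2 := hgU x
    rw [← hg] at h2
    have h3 : (∑ i ∈ s, w i • G i) x = ∑ N ∈ s, |w N| * G N x := by
      rw [ContinuousMap.sum_apply]
      exact Finset.sum_congr rfl (fun N hN => by
        rw [abs_of_nonneg (hw0 N hN)]
        rfl)
    rw [h3] at h2
    linarith
  obtain ⟨f, u, hf1, hf2⟩ := geometric_hahn_banach_open hUc hUo (convex_convexHull ℝ _) hdisj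
  have hu : 0 < u := by
    have := hf1 0 (fun x => he)
    simpa using this
  have hfG : ∀ N, u ≤ f (G N) := fun N => hf2 _ (subset_convexHull ℝ _ ⟨N, rfl⟩)
  have hpos : ∀ g : C(K, ℝ), (∀ x, 0 ≤ g x) → 0 ≤ f g := by
    intro g hg
    by_contra h
    push Not at h
    have hc : 0 < u / (-f g) := div_pos hu (by linarith)
    have h2 := hf1 ((-(u / (-f g))) • g) (by
      intro x
      have e1 : ((-(u / (-f g))) • g) x = -(u / (-f g)) * g x := rfl
      rw [e1]
      have := mul_nonneg hc.le (hg x)
      linarith)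
    rw [map_smul, smul_eq_mul] at h2
    have h3 : -(u / (-f g)) * f g = u := by
      have hne : f g ≠ 0 := h.ne
      field_simp
    linarith
  let _ : MeasurableSpace K := borel K
  have : BorelSpace K := ⟨rfl⟩
  let Λ : CompactlySupportedContinuousMap K ℝ →ₚ[ℝ] ℝ := PositiveLinearMap.mk₀
    { toFun := fun g => f g.toContinuousMap
      map_add' := fun a b => by
        have : (a + b).toContinuousMap = a.toContinuousMap + b.toContinuousMap := rfl
        rw [this, map_add]
      map_smul' := fun c a => by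
        have : (c • a).toContinuousMap = c • a.toContinuousMap := rfl
        rw [this, map_smul]
        rfl }
    (fun g hg => hpos g.toContinuousMap (fun x => hg x))
  let μ := RealRMK.rieszMeasure Λ
  have hint : ∀ g : C(K, ℝ), ∫ x, g x ∂μ = f g := by
    intro g
    have h2 := RealRMK.integral_rieszMeasure Λ (CompactlySupportedContinuousMap.continuousMapEquiv g)
    exact h2
  have : IsFiniteMeasure μ := ⟨isCompact_univ.measure_lt_top⟩
  have hdct := tendsto_integral_of_dominated_convergence (μ := μ) (F := fun N x => G N x)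
    (f := fun _ => (0 : ℝ)) (fun _ => (1 : ℝ))
    (fun N => (G N).continuous.aestronglyMeasurable)
    (integrable_const 1)
    (fun N => Eventually.of_forall (fun x => by
      rw [Real.norm_eq_abs, abs_of_nonneg (h0 N x)]
      exact h1 N x))
    (Eventually.of_forall (fun x => hlim x))
  simp only [integral_zero] at hdct
  have h2 : u ≤ 0 := by
    apply ge_of_tendsto hdct
    apply Eventually.of_forall
    intro N
    rw [hint]
    exact hfG N
  linarith

end CVX

theorem stmtCVX : StmtCVX := by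
  intro ι y q hq hy hlim e he
  have hyb : ∀ N n, y N n ∈ Icc (-1 : ℝ) 1 := by
    intro N n
    have h := lp.norm_apply_le_norm (p := ⊤) (by simp) (y N) n
    rw [Real.norm_eq_abs] at h
    exact abs_le.1 (h.trans (hy N))
  let fN : ℕ → ι → Icc (-1 : ℝ) 1 := fun N n => ⟨y N n, hyb N n⟩
  let Y : ℕ → Ultrafilter ι → ℝ := fun N 𝒰 =>
    ((Ultrafilter.extend (fN N) 𝒰 : Icc (-1 : ℝ) 1) : ℝ)
  have hYc : ∀ N, Continuous (Y N) := fun N =>
    continuous_subtype_val.comp (continuous_ultrafilter_extend (fN N))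
  have hYt : ∀ N (𝒰 : Ultrafilter ι), Tendsto (fun n => y N n) 𝒰 (𝓝 (Y N 𝒰)) := by
    intro N 𝒰
    have h : Tendsto (fN N) 𝒰 (𝓝 (Ultrafilter.extend (fN N) 𝒰)) :=
      (ultrafilter_extend_eq_iff (f := fN N) (b := 𝒰)).1 rfl
    exact (continuous_subtype_val.tendsto _).comp h
  have hYb : ∀ N 𝒰, |Y N 𝒰| ≤ 1 := by
    intro N 𝒰
    exact abs_le.2 (Ultrafilter.extend (fN N) 𝒰).2
  let G : ℕ → C(Ultrafilter ι, ℝ) := fun N =>
    ⟨fun 𝒰 => max (|Y N 𝒰| - q) 0, ((hYc N).abs.sub continuous_const).max continuous_const⟩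
  obtain ⟨s, t, ht0, ht1, hst⟩ := CVX.conv_small G (fun N 𝒰 => le_max_right _ _)
    (fun N 𝒰 => max_le (by linarith [hYb N 𝒰]) zero_le_one) (by
      intro 𝒰
      rw [Metric.tendsto_atTop]
      intro d hd
      have h1 := hlim 𝒰 (fun N => Y N 𝒰) (fun N => hYt N 𝒰) (d / 2) (by linarith)
      obtain ⟨N0, hN0⟩ := eventually_atTop.1 h1
      refine ⟨N0, fun N hN => ?_⟩
      have h2 := hN0 N hN
      have h3 : G N 𝒰 = max (|Y N 𝒰| - q) 0 := rfl
      rw [h3, Real.dist_eq, sub_zero, abs_of_nonneg (le_max_right _ _)]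
      exact lt_of_le_of_lt (max_le (by linarith) (by linarith)) (by linarith : d / 2 < d)) e he
  refine ⟨s, t, ht0, ht1, ?_⟩
  apply lp.norm_le_of_forall_le (by linarith)
  intro n
  have e1 : (∑ N ∈ s, t N • y N : Li ι) n = ∑ N ∈ s, t N * y N n := by
    rw [lp.coeFn_sum, Finset.sum_apply]
    rfl
  have e2 : ∀ N, Y N (pure n) = y N n := by
    intro N
    change ((Ultrafilter.extend (fN N) (pure n) : Icc (-1 : ℝ) 1) : ℝ) = _
    rw [ultrafilter_extend_pure]
  rw [e1, Real.norm_eq_abs]
  have h2 := hst (pure n)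
  calc |∑ N ∈ s, t N * y N n| ≤ ∑ N ∈ s, |t N * y N n| := Finset.abs_sum_le_sum_abs _ _
    _ ≤ ∑ N ∈ s, (t N * q + t N * G N (pure n)) := by
        apply Finset.sum_le_sum
        intro N _
        rw [abs_mul, abs_of_nonneg (ht0 N), ← mul_add]
        apply mul_le_mul_of_nonneg_left _ (ht0 N)
        have h3 : G N (pure n) = max (|Y N (pure n)| - q) 0 := rfl
        rw [h3, e2]
        have := le_max_left (|y N n| - q) 0
        linarith
    _ = q + ∑ N ∈ s, t N * G N (pure n) := by
        rw [Finset.sum_add_distrib, ← Finset.sum_mul, ht1, one_mul]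
    _ ≤ q + e := by linarith

end

end PB
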