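import Pool.Agent.PB57.Stmts

/-!
# Module DEC: the numbers of 4.4 and the decomposition 4.6   (helper76)
-/

set_option autoImplicit false

open Filter Topology Set

namespace PB

noncomputable section

namespace DECm

theorem eps_pos (l : ℕ) : 0 < eps l := by
  induction l with
  | zero => exact one_pos
  | succ l ih =>
    change 0 < (1 / 2 : ℝ) ^ (l + 6) * eps l
    positivity

theorem eps_succ (l : ℕ) : eps (l + 1) = (1 / 2 : ℝ) ^ (l + 6) * eps l := rfl

theorem eps_half (l : ℕ) : eps (l + 1) ≤ 1 / 2 * eps l := by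
  rw [eps_succ]
  have h1 : (1 / 2 : ℝ) ^ (l + 6) ≤ (1 / 2 : ℝ) ^ 1 :=
    pow_le_pow_of_le_one (by norm_num) (by norm_num) (by omega)
  rw [pow_one] at h1
  exact mul_le_mul_of_nonneg_right h1 (eps_pos l).le

theorem eps_geo (l i : ℕ) : eps (l + i) ≤ (1 / 2 : ℝ) ^ i * eps l := by
  induction i with
  | zero => simp
  | succ i ih =>
    have h1 := eps_half (l + i)
    rw [← add_assoc]
    calc eps (l + i + 1) ≤ 1 / 2 * eps (l + i) := h1
      _ ≤ 1 / 2 * ((1 / 2 : ℝ) ^ i * eps l) := by gcongr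
      _ = (1 / 2 : ℝ) ^ (i + 1) * eps l := by ring

theorem eps_le_one (l : ℕ) : eps l ≤ 1 := by
  have h := eps_geo 0 l
  rw [zero_add] at h
  refine h.trans ?_
  have : eps 0 = 1 := rfl
  rw [this, mul_one]
  exact pow_le_one₀ (by norm_num) (by norm_num)

/-- the terms of the series for M_l -/
def tm (l i : ℕ) : ℝ := Cl (l + 1 + i) * eps (l + i) + eta (l + 1 + i)

theorem tm_nonneg (l i : ℕ) : 0 ≤ tm l i := by
  unfold tm Cl eta
  have h1 := (eps_pos (l + i)).le
  have h2 := (eps_pos (l + 1 + i)).le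
  positivity

theorem tm_succ_le (l i : ℕ) : tm l (i + 1) ≤ 165 / 2 * eps (l + 1) * (1 / 2 : ℝ) ^ i := by
  have h1 : Cl (l + 1 + (i + 1)) ≤ 75 / 2 := by
    unfold Cl
    have : (1 / 2 : ℝ) ^ (l + 1 + (i + 1)) ≤ (1 / 2 : ℝ) ^ 2 :=
      pow_le_pow_of_le_one (by norm_num) (by norm_num) (by omega)
    norm_num at this ⊢
    linarith
  have h2 : eps (l + (i + 1)) ≤ (1 / 2 : ℝ) ^ i * eps (l + 1) := by
    have := eps_geo (l + 1) i
    rwa [show l + (i + 1) = l + 1 + i by ring]
  have h3 : eps (l + 1 + (i + 1)) ≤ 1 / 2 * ((1 / 2 : ℝ) ^ i * eps (l + 1)) := by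
    have := eps_geo (l + 1) (i + 1)
    rw [pow_succ] at this
    linarith
  have h4 := (eps_pos (l + (i + 1))).le
  unfold tm eta
  calc Cl (l + 1 + (i + 1)) * eps (l + (i + 1)) + 90 * eps (l + 1 + (i + 1)) ≤
      75 / 2 * ((1 / 2 : ℝ) ^ i * eps (l + 1)) +
        90 * (1 / 2 * ((1 / 2 : ℝ) ^ i * eps (l + 1))) := by gcongr
    _ = 165 / 2 * eps (l + 1) * (1 / 2 : ℝ) ^ i := by ring

theorem summable_tm (l : ℕ) : Summable (tm l) := by
  rw [← summable_nat_add_iff 1]
  refine Summable.of_nonneg_of_le (fun i => tm_nonneg l (i + 1)) (fun i => tm_succ_le l i) ?_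
  exact (summable_geometric_of_lt_one (by norm_num) (by norm_num)).mul_left _

theorem Ml_le (l : ℕ) : Ml l ≤ Cl l * eps l - 600 * (1 / 2 : ℝ) ^ (l + 6) * eps l := by
  have e1 : Ml l = tm l 0 + ∑' i, tm l (i + 1) := by
    have := (summable_tm l).sum_add_tsum_nat_add 1
    rw [Finset.sum_range_one] at this
    exact this.symm
  have e2 : ∑' i, tm l (i + 1) ≤ 165 * eps (l + 1) := by
    have h1 : Summable fun i : ℕ => 165 / 2 * eps (l + 1) * (1 / 2 : ℝ) ^ i :=
      (summable_geometric_of_lt_one (by norm_num) (by norm_num)).mul_left _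
    have h2 := Summable.tsum_le_tsum (tm_succ_le l) ((summable_nat_add_iff 1).2 (summable_tm l)) h1
    refine h2.trans ?_
    rw [tsum_mul_left, tsum_geometric_of_lt_one (by norm_num) (by norm_num)]
    linarith
  have e3 : tm l 0 = Cl (l + 1) * eps l + 90 * eps (l + 1) := by
    unfold tm eta
    simp only [add_zero]
  have e4 : Cl l * eps l = Cl (l + 1) * eps l + 960 * eps (l + 1) := by
    unfold Cl
    rw [eps_succ, pow_add, pow_succ]
    ring
  have e5 : 600 * (1 / 2 : ℝ) ^ (l + 6) * eps l = 600 * eps (l + 1) := by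
    rw [eps_succ]
    ring
  have h := (eps_pos (l + 1)).le
  rw [e1, e3, e5]
  linarith

theorem Cl_nonneg (l : ℕ) : 0 ≤ Cl l := by
  unfold Cl
  positivity

theorem eta_pos (l : ℕ) : 0 < eta l := by
  unfold eta
  have := eps_pos l
  positivity

section Dec

variable {X : Type} [NormedAddCommGroup X] [NormedSpace ℝ X]

/-- bound on the whole space -/
theorem UU_bound {F : ℕ → Submodule ℝ X} {p : Seminorm ℝ X} {δ : ℕ → ℝ} (hF : Chain F)
    {m : ℕ} {ν : ℕ → ℕ} {L : ℝ} {f u : X →L[ℝ] ℝ} (hu : UU F p δ m ν L f u) {w e : ℝ}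
    (hw : ∀ n, Om F p δ n f ≤ w) (he : w - Om F p δ m f ≤ e) (x : X) :
    |u x| ≤ 30 * e * ‖x‖ := by
  have hcl : IsClosed {x : X | |u x| ≤ 30 * e * ‖x‖} :=
    isClosed_le u.continuous.abs (continuous_const.mul continuous_norm)
  have hsub : (⋃ k, (F k : Set X)) ⊆ {x : X | |u x| ≤ 30 * e * ‖x‖} := by
    intro y hy
    obtain ⟨k, hk⟩ := mem_iUnion.1 hy
    have hk' : y ∈ F (max k m) := hF.mono (le_max_left k m) hk
    have h1 := hu.small (max k m) (le_max_right k m) y hk'
    refine h1.trans ?_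
    have h2 := hw (ν (max k m))
    have h3 : Om F p δ (ν (max k m)) f - Om F p δ m f ≤ e := by linarith
    gcongr
  have : x ∈ closure (⋃ k, (F k : Set X)) := hF.dense x
  exact (hcl.closure_subset_iff.2 hsub) this

end Dec

end DECm

open DECm in
theorem stmtDEC (hWB : StmtWB) : StmtDEC := by
  refine ⟨eps_pos, eps_le_one, summable_tm, Ml_le, ?_⟩
  intro X _ _ F p δ G hS ν L hCD f hf w hw hsup l0 n0 hl0 hn0 u0 hu0
  obtain ⟨-, -, -, -, hmono, -, -, -, -, -, -, -, -, -⟩ := hWB X F p δ G hS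
  have hm := hmono f
  -- the sequence of levels
  have hex : ∀ (t0 l : ℕ), ∃ t, max t0 l ≤ t ∧ w - Om F p δ t f ≤ eps l := by
    intro t0 l
    obtain ⟨n, hn⟩ := hsup (eps l) (eps_pos l)
    refine ⟨max n (max t0 l), le_max_right _ _, ?_⟩
    have := hm (le_max_left n (max t0 l))
    simp only at this
    linarith
  classical
  let mm : ℕ → ℕ := fun i => Nat.rec n0 (fun j t => Nat.find (hex t (l0 + j + 1))) i
  have mm0 : mm 0 = n0 := rfl
  have mmS : ∀ i, mm (i + 1) = Nat.find (hex (mm i) (l0 + i + 1)) := fun i => rfl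
  have mmspec : ∀ i, max (mm i) (l0 + i + 1) ≤ mm (i + 1) ∧
      w - Om F p δ (mm (i + 1)) f ≤ eps (l0 + i + 1) := fun i => by
    rw [mmS]
    exact Nat.find_spec (hex (mm i) (l0 + i + 1))
  have mmmin : ∀ i, max (mm i) (l0 + i + 1) < mm (i + 1) →
      eps (l0 + i + 1) ≤ w - Om F p δ (mm (i + 1) - 1) f := fun i hi => by
    have h1 : mm (i + 1) - 1 < Nat.find (hex (mm i) (l0 + i + 1)) := by
      rw [← mmS]
      omega
    have h2 := Nat.find_min (hex (mm i) (l0 + i + 1)) h1
    by_contra hcon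
    push Not at hcon
    exact h2 ⟨by omega, hcon.le⟩
  have mmge : ∀ i, l0 + i ≤ mm i := by
    intro i
    cases i with
    | zero => simpa [mm0] using hl0
    | succ i => exact (le_max_right _ _).trans (mmspec i).1
  have mmmono : ∀ i, mm i ≤ mm (i + 1) := fun i => (le_max_left _ _).trans (mmspec i).1
  have mmn0 : ∀ i, n0 ≤ mm i := by
    intro i
    induction i with
    | zero => exact le_rfl
    | succ i ih => exact ih.trans (mmmono i)
  have mmeps : ∀ i, w - Om F p δ (mm i) f ≤ eps (l0 + i) := by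
    intro i
    cases i with
    | zero => exact hn0
    | succ i => exact (mmspec i).2
  -- the functionals
  have hux : ∀ i, ∃ u, UU F p δ (mm i) (ν (mm i)) (L (mm i)) f u := fun i =>
    (hCD (mm i)).2 f hf
  let uu : ℕ → X →L[ℝ] ℝ := fun i => if i = 0 then u0 else (hux i).choose
  have huu : ∀ i, UU F p δ (mm i) (ν (mm i)) (L (mm i)) f (uu i) := by
    intro i
    by_cases hi : i = 0
    · subst hi
      exact hu0
    · have : uu i = (hux i).choose := if_neg hi
      rw [this]
      exact (hux i).choose_spec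
  have uu0 : uu 0 = u0 := if_pos rfl
  have hub : ∀ i x, |uu i x| ≤ 30 * eps (l0 + i) * ‖x‖ := fun i x =>
    UU_bound hS.chain (huu i) hw (mmeps i) x
  -- the indices
  let s : ℕ → Idx := fun i => ⟨l0 + i + 1, mm i, mm (i + 1), by omega,
    by have := mmge i; omega, mmmono i, (le_max_right _ _).trans (mmspec i).1⟩
  let b : ℕ → ℝ := fun i => mu F p δ (s i) f w
  have hb : ∀ i, b i = Cl (l0 + i + 1) * (w - Om F p δ (mm i) f) + eta (l0 + i + 1) :=
    fun i => rfl
  have hbpos : ∀ i, 0 < b i := fun i => by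
    rw [hb]
    have h1 := mul_nonneg (Cl_nonneg (l0 + i + 1)) (sub_nonneg.2 (hw (mm i)))
    have h2 := eta_pos (l0 + i + 1)
    linarith
  have hble : ∀ i, b i ≤ tm l0 i := fun i => by
    rw [hb]
    unfold tm
    rw [show l0 + 1 + i = l0 + i + 1 by ring]
    have := mul_le_mul_of_nonneg_left (mmeps i) (Cl_nonneg (l0 + i + 1))
    linarith
  have hbs : Summable b := Summable.of_nonneg_of_le (fun i => (hbpos i).le) hble (summable_tm l0)
  refine ⟨b, s, fun i => (b i)⁻¹ • (uu i - uu (i + 1)), fun i => (hbpos i).le, hbs,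
    hbs.tsum_le_tsum hble (summable_tm l0), fun i => ?_, mmn0, fun x => ?_⟩
  · refine ⟨f, uu i, uu (i + 1), ⟨hf, hw, ?_, ?_, ?_, huu i, huu (i + 1)⟩, rfl⟩
    · exact mmeps i
    · exact (mmspec i).2
    · exact mmmin i
  · have e1 : ∀ i, b i * ((b i)⁻¹ • (uu i - uu (i + 1))) x = uu i x - uu (i + 1) x := by
      intro i
      simp only [ContinuousLinearMap.smul_apply, ContinuousLinearMap.sub_apply, smul_eq_mul]
      rw [← mul_assoc, mul_inv_cancel₀ (hbpos i).ne', one_mul]
    simp only [e1]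
    have e2 : ∀ N, ∑ i ∈ Finset.range N, (uu i x - uu (i + 1) x) = u0 x - uu N x := by
      intro N
      induction N with
      | zero => simp [uu0]
      | succ N ih => rw [Finset.sum_range_succ, ih]; ring
    have e3 : Tendsto (fun i => 30 * eps (l0 + i) * ‖x‖) atTop (𝓝 0) := by
      have h1 : Tendsto (fun i : ℕ => 30 * ((1 / 2 : ℝ) ^ i * eps l0) * ‖x‖) atTop
          (𝓝 (30 * (0 * eps l0) * ‖x‖)) :=
        (((tendsto_pow_atTop_nhds_zero_of_lt_one (by norm_num) (by norm_num)).mul_const _).const_mul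
          _).mul_const _
      rw [zero_mul, mul_zero, zero_mul] at h1
      refine squeeze_zero (fun i => ?_) (fun i => ?_) h1
      · have := (eps_pos (l0 + i)).le
        positivity
      · have := eps_geo l0 i
        gcongr
    have e4 : Tendsto (fun N => uu N x) atTop (𝓝 0) :=
      squeeze_zero_norm (fun i => by rw [Real.norm_eq_abs]; exact hub i x) e3
    have e5 : Summable fun i => uu i x - uu (i + 1) x := by
      refine Summable.of_norm_bounded (g := fun i : ℕ => 60 * eps l0 * ‖x‖ * (1 / 2 : ℝ) ^ i)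
        ((summable_geometric_of_lt_one (by norm_num) (by norm_num)).mul_left _) fun i => ?_
      rw [Real.norm_eq_abs]
      have h1 := hub i x
      have h2 := hub (i + 1) x
      have h3 := eps_geo l0 i
      have h4 : eps (l0 + (i + 1)) ≤ eps (l0 + i) := by
        have := eps_half (l0 + i)
        have h5 := (eps_pos (l0 + i)).le
        rw [← add_assoc]
        linarith
      calc |uu i x - uu (i + 1) x| ≤ |uu i x| + |uu (i + 1) x| := abs_sub _ _
        _ ≤ 30 * eps (l0 + i) * ‖x‖ + 30 * eps (l0 + (i + 1)) * ‖x‖ := add_le_add h1 h2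
        _ ≤ 30 * ((1 / 2 : ℝ) ^ i * eps l0) * ‖x‖ + 30 * ((1 / 2 : ℝ) ^ i * eps l0) * ‖x‖ := by
          gcongr
          exact h4.trans h3
        _ = 60 * eps l0 * ‖x‖ * (1 / 2 : ℝ) ^ i := by ring
    have e6 := e5.hasSum.tendsto_sum_nat
    simp only [e2] at e6
    have e7 : Tendsto (fun N => u0 x - uu N x) atTop (𝓝 (u0 x - 0)) := tendsto_const_nhds.sub e4
    rw [sub_zero] at e7
    exact tendsto_nhds_unique e7 e6

end

end PB
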