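import Pool.Agent.PB57.LND

/-!
# MP_b57e2f_an, module DN1 (6.1, 6.2): suspension and base landing
-/

set_option autoImplicit false

open Filter Topology Set

namespace PB

noncomputable section

namespace DN1

variable {ι A : Type}

/-! ## Finitely supported vectors -/

lemma fs_mapDomain {κ : Type} (f : ι → κ) (a : ι →₀ ℝ) (y : κ → ℝ) :
    fs (a.mapDomain f) y = fs a (fun j => y (f j)) := by
  unfold fs
  exact Finsupp.sum_mapDomain_index (by simp) (fun _ _ _ => by ring)

lemma fs_susp (a : A) (d : ι →₀ ℝ) (y : Nd ι A → ℝ) :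
    fs (susp a d) y = ∑ j ∈ d.support, |d j| * y (Sum.inr (a, j, decide (0 ≤ d j))) := by
  unfold susp Finsupp.sum
  rw [fs_finset_sum]
  exact Finset.sum_congr rfl fun j _ => by rw [fs_single]

lemma fs_susp_const (a : A) (d : ι →₀ ℝ) (y : Nd ι A → ℝ) (t : ℝ)
    (h : ∀ (j : ι) (σ : Bool), y (Sum.inr (a, j, σ)) = t) :
    fs (susp a d) y = nrm d * t := by
  rw [fs_susp, nrm_eq_sum (subset_refl d.support), Finset.sum_mul]
  exact Finset.sum_congr rfl fun j _ => by rw [h]

/-! ## The glued system -/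

lemma rk_inl (S : Sys ι) (D : AData ι A) (a : A) :
    (D.sys S).rk (Sum.inl a) = 2 * D.lv a + 1 := rfl

lemma rk_inr (S : Sys ι) (D : AData ι A) (a : A) (j : ι) (σ : Bool) :
    (D.sys S).rk (Sum.inr (a, j, σ)) = 2 * max (S.rk j) (D.lv a + 1) := rfl

lemma r_inl (S : Sys ι) (D : AData ι A) (a : A) :
    (D.sys S).r (Sum.inl a) = D.ex a := rfl

/-- the part of an expansion above the level of a -/
def fil (S : Sys ι) (D : AData ι A) (a : A) (j : ι) : ι →₀ ℝ :=
  (S.r j).filter fun i => D.lv a < S.rk i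

lemma r_inr (S : Sys ι) (D : AData ι A) (a : A) (j : ι) (σ : Bool) :
    (D.sys S).r (Sum.inr (a, j, σ)) =
      (fil S D a j).mapDomain (fun i => Sum.inr (a, i, σ)) +
        Finsupp.single (Sum.inl a) (1 - mass (fil S D a j)) := by
  unfold fil
  simp only [AData.sys]

lemma val_inr {S : Sys ι} {D : AData ι A} {M0 : ℕ} {a : A} {j : ι} {σ : Bool}
    (h : M0 < 2 * max (S.rk j) (D.lv a + 1)) {y : Li (Nd ι A)} (hy : y ∈ (D.sys S).E M0) :
    y (Sum.inr (a, j, σ)) = fs (fil S D a j) (fun i => y (Sum.inr (a, i, σ))) +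
      (1 - mass (fil S D a j)) * y (Sum.inl a) := by
  rw [hy _ (by rw [rk_inr]; exact h), r_inr, fs_add, fs_mapDomain, fs_single]

lemma fil_low {S : Sys ι} (hS : S.Ok) {D : AData ι A} {a : A} {j i : ι}
    (hi : i ∈ (fil S D a j).support) : S.rk i < S.rk j := by
  unfold fil at hi
  rw [Finsupp.support_filter, Finset.mem_filter] at hi
  exact hS.low j i (Finsupp.mem_support_iff.1 hi.1)

/-- suspended nodes of high rank take the value of the anchor -/
lemma node_eq {S : Sys ι} (hS : S.Ok) {D : AData ι A} {M0 : ℕ} {a : A}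
    (h : M0 < 2 * D.lv a + 2) {y : Li (Nd ι A)} (hy : y ∈ (D.sys S).E M0) (j : ι) (σ : Bool) :
    y (Sum.inr (a, j, σ)) = y (Sum.inl a) := by
  refine S.ind (P := fun j => y (Sum.inr (a, j, σ)) = y (Sum.inl a)) (fun j IH => ?_) j
  rw [val_inr (lt_of_lt_of_le h (by omega)) hy]
  rw [fs_congr (z := fun _ => y (Sum.inl a)) fun i hi => IH i (fil_low hS hi), fs_const]
  ring

lemma val_inl {S : Sys ι} {D : AData ι A} {M0 : ℕ} {a : A}
    (h : M0 < 2 * D.lv a + 1) {y : Li (Nd ι A)} (hy : y ∈ (D.sys S).E M0) :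
    y (Sum.inl a) =
      (match D.par a with
        | none => 0
        | some b => D.m a * ((1 - nrm (D.d a)) * y (Sum.inl b) + fs (susp b (D.d a)) y)) +
      fs (D.up a) (fun a' => y (Sum.inl a')) + fs (susp D.o (D.β a)) y := by
  rw [hy _ (by rw [rk_inl]; exact h), r_inl]
  unfold AData.ex
  rw [fs_add, fs_add, fs_mapDomain]
  congr 2
  cases D.par a with
  | none => simp
  | some b => simp only [fs_smul, fs_add, fs_single]

/-! ## Base landing -/

/-- evaluation of a base vector -/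
def ev (o : A) (B : ι →₀ ℝ × ℝ) (y : Nd ι A → ℝ) : ℝ :=
  B.sum fun j t => t.1 * y (Sum.inr (o, j, true)) + t.2 * y (Sum.inr (o, j, false))

/-- mass of a base vector -/
def ms (B : ι →₀ ℝ × ℝ) : ℝ := B.sum fun _ t => t.1 + t.2

lemma ev_zero (o : A) (y : Nd ι A → ℝ) : ev o (0 : ι →₀ ℝ × ℝ) y = 0 := by simp [ev]

lemma ms_zero : ms (0 : ι →₀ ℝ × ℝ) = 0 := by simp [ms]

lemma ev_add (o : A) (B B' : ι →₀ ℝ × ℝ) (y : Nd ι A → ℝ) :
    ev o (B + B') y = ev o B y + ev o B' y := by
  unfold ev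
  exact Finsupp.sum_add_index' (by simp) (fun _ _ _ => by simp only [Prod.fst_add, Prod.snd_add]; ring)

lemma ms_add (B B' : ι →₀ ℝ × ℝ) : ms (B + B') = ms B + ms B' := by
  unfold ms
  exact Finsupp.sum_add_index' (by simp) (fun _ _ _ => by simp only [Prod.fst_add, Prod.snd_add]; ring)

lemma ev_smul (o : A) (t : ℝ) (B : ι →₀ ℝ × ℝ) (y : Nd ι A → ℝ) :
    ev o (t • B) y = t * ev o B y := by
  unfold ev
  rw [Finsupp.sum_smul_index' (by simp), Finsupp.mul_sum]
  exact Finsupp.sum_congr fun _ _ => by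
    simp only [Prod.smul_fst, Prod.smul_snd, smul_eq_mul]; ring

lemma ms_smul (t : ℝ) (B : ι →₀ ℝ × ℝ) : ms (t • B) = t * ms B := by
  unfold ms
  rw [Finsupp.sum_smul_index' (by simp), Finsupp.mul_sum]
  exact Finsupp.sum_congr fun _ _ => by
    simp only [Prod.smul_fst, Prod.smul_snd, smul_eq_mul]; ring

lemma ev_single (o : A) (j : ι) (t : ℝ × ℝ) (y : Nd ι A → ℝ) :
    ev o (Finsupp.single j t) y =
      t.1 * y (Sum.inr (o, j, true)) + t.2 * y (Sum.inr (o, j, false)) := by
  simp [ev]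

lemma ms_single (j : ι) (t : ℝ × ℝ) : ms (Finsupp.single j t) = t.1 + t.2 := by
  simp [ms]

lemma ev_sum {J : Type} (o : A) (s : Finset J) (B : J → ι →₀ ℝ × ℝ) (y : Nd ι A → ℝ) :
    ev o (∑ j ∈ s, B j) y = ∑ j ∈ s, ev o (B j) y := by
  classical
  induction s using Finset.induction with
  | empty => simp [ev_zero]
  | insert i s hi IH => rw [Finset.sum_insert hi, Finset.sum_insert hi, ev_add, IH]

lemma ms_sum {J : Type} (s : Finset J) (B : J → ι →₀ ℝ × ℝ) :
    ms (∑ j ∈ s, B j) = ∑ j ∈ s, ms (B j) := by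
  classical
  induction s using Finset.induction with
  | empty => simp [ms_zero]
  | insert i s hi IH => rw [Finset.sum_insert hi, Finset.sum_insert hi, ms_add, IH]

/-- nonnegative base vectors -/
def Pos (B : ι →₀ ℝ × ℝ) : Prop := ∀ j, 0 ≤ (B j).1 ∧ 0 ≤ (B j).2

lemma Pos.zero : Pos (0 : ι →₀ ℝ × ℝ) := fun j => by simp

lemma Pos.add {B B' : ι →₀ ℝ × ℝ} (h : Pos B) (h' : Pos B') : Pos (B + B') := fun j => by
  simp only [Finsupp.add_apply, Prod.fst_add, Prod.snd_add]
  exact ⟨add_nonneg (h j).1 (h' j).1, add_nonneg (h j).2 (h' j).2⟩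

lemma Pos.smul {t : ℝ} (ht : 0 ≤ t) {B : ι →₀ ℝ × ℝ} (h : Pos B) : Pos (t • B) := fun j => by
  simp only [Finsupp.smul_apply, Prod.smul_fst, Prod.smul_snd, smul_eq_mul]
  exact ⟨mul_nonneg ht (h j).1, mul_nonneg ht (h j).2⟩

lemma Pos.sum {J : Type} (s : Finset J) {B : J → ι →₀ ℝ × ℝ} (h : ∀ j ∈ s, Pos (B j)) :
    Pos (∑ j ∈ s, B j) := by
  classical
  induction s using Finset.induction with
  | empty => simpa using Pos.zero
  | insert i s hi IH =>
    rw [Finset.sum_insert hi]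
    exact (h i (Finset.mem_insert_self _ _)).add
      (IH fun j hj => h j (Finset.mem_insert_of_mem hj))

lemma Pos.single {j : ι} {t : ℝ × ℝ} (h1 : 0 ≤ t.1) (h2 : 0 ≤ t.2) :
    Pos (Finsupp.single j t) := fun i => by
  classical
  rw [Finsupp.single_apply]
  split_ifs
  · exact ⟨h1, h2⟩
  · simp

/-- the base vector of a signed vector -/
def bas (d : ι →₀ ℝ) : ι →₀ ℝ × ℝ :=
  ∑ j ∈ d.support, Finsupp.single j (if 0 ≤ d j then (|d j|, 0) else (0, |d j|))

lemma ev_bas (o : A) (d : ι →₀ ℝ) (y : Nd ι A → ℝ) : ev o (bas d) y = fs (susp o d) y := by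
  unfold bas
  rw [ev_sum, fs_susp]
  refine Finset.sum_congr rfl fun j _ => ?_
  rw [ev_single]
  by_cases h : 0 ≤ d j
  · rw [if_pos h, decide_eq_true h]
    simp
  · rw [if_neg h, decide_eq_false h]
    simp

lemma ms_bas (d : ι →₀ ℝ) : ms (bas d) = nrm d := by
  unfold bas
  rw [ms_sum, nrm_eq_sum (subset_refl _)]
  refine Finset.sum_congr rfl fun j _ => ?_
  rw [ms_single]
  split_ifs <;> simp

lemma Pos.bas (d : ι →₀ ℝ) : Pos (bas d) := by
  unfold DN1.bas
  refine Pos.sum _ fun j _ => ?_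
  split_ifs
  · exact Pos.single (abs_nonneg _) le_rfl
  · exact Pos.single le_rfl (abs_nonneg _)

/-- base landing -/
def BL (D : AData ι A) : A → ι →₀ ℝ × ℝ :=
  (measure D.lv).wf.fix (fun c rec =>
    open Classical in
    (match D.par c with
      | none => 0
      | some b => if h : D.lv b < D.lv c then D.m c • rec b h else 0) +
    (∑ a' ∈ (D.up c).support, if h : D.lv a' < D.lv c then (D.up c a') • rec a' h else 0) +
    bas (D.β c))

lemma BL_eq {S : Sys ι} {D : AData ι A} (hD : D.Ok S) (c : A) :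
    BL D c = (match D.par c with
      | none => 0
      | some b => D.m c • BL D b) +
      (∑ a' ∈ (D.up c).support, (D.up c a') • BL D a') + bas (D.β c) := by
  unfold BL
  rw [WellFounded.fix_eq]
  congr 2
  · cases h : D.par c with
    | none => rfl
    | some b =>
      simp only
      rw [dif_pos (hD.plv c b h)]
  · refine Finset.sum_congr rfl fun a' ha' => ?_
    rw [dif_pos (hD.uplv c a' ha')]

lemma lv_ind (D : AData ι A) {P : A → Prop} (h : ∀ n, (∀ j, D.lv j < D.lv n → P j) → P n)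
    (n : A) : P n := (measure D.lv).wf.induction n h

lemma BL_pos {S : Sys ι} {D : AData ι A} (hD : D.Ok S) (c : A) : Pos (BL D c) := by
  refine lv_ind D (P := fun c => Pos (BL D c)) (fun c IH => ?_) c
  rw [BL_eq hD]
  refine (Pos.add ?_ (Pos.sum _ fun a' ha' => ?_)).add (Pos.bas _)
  · cases h : D.par c with
    | none => exact Pos.zero
    | some b => exact Pos.smul (hD.mpos c) (IH b (hD.plv c b h))
  · exact Pos.smul (hD.uppos c a') (IH a' (hD.uplv c a' ha'))

lemma BL_ms {S : Sys ι} {D : AData ι A} (hD : D.Ok S) (c : A) : ms (BL D c) ≤ 1 := by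
  refine lv_ind D (P := fun c => ms (BL D c) ≤ 1) (fun c IH => ?_) c
  rw [BL_eq hD, ms_add, ms_add, ms_sum, ms_bas]
  have h1 : ms (match D.par c with
      | none => 0
      | some b => D.m c • BL D b) ≤ D.m c := by
    cases h : D.par c with
    | none =>
      simp only [ms_zero]
      exact hD.mpos c
    | some b =>
      simp only [ms_smul]
      have := IH b (hD.plv c b h)
      have := hD.mpos c
      nlinarith
  have h2 : ∑ a' ∈ (D.up c).support, ms ((D.up c a') • BL D a') ≤ mass (D.up c) := by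
    rw [mass_eq_sum (subset_refl _)]
    refine Finset.sum_le_sum fun a' ha' => ?_
    rw [ms_smul]
    have := IH a' (hD.uplv c a' ha')
    have := hD.uppos c a'
    nlinarith
  have := hD.tot c
  linarith

lemma BL_val {S : Sys ι} (hS : S.Ok) {D : AData ι A} (hD : D.Ok S) {R M0 : ℕ}
    (hM0 : M0 < 2 * R + 1) {y : Li (Nd ι A)} (hy : y ∈ (D.sys S).E M0) (c : A)
    (hc : R ≤ D.M c) : y (Sum.inl c) = ev D.o (BL D c) y := by
  revert hc
  refine lv_ind D (P := fun c => R ≤ D.M c → y (Sum.inl c) = ev D.o (BL D c) y)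
    (fun c IH hc => ?_) c
  have hl : ∀ a, R ≤ D.M a → M0 < 2 * D.lv a + 1 := fun a ha => by
    have := hD.MM a
    have := hD.Ml a
    omega
  rw [val_inl (hl c hc) hy, BL_eq hD, ev_add, ev_add, ev_sum, ev_bas,
    fs_eq_sum (subset_refl (D.up c).support)]
  congr 1
  cases h : D.par c with
  | none =>
    have := (hD.none_up c h).1
    simp [ev_zero, this]
  | some b =>
    have hb : D.M b = D.M c := hD.some_M c b h
    have hb' : R ≤ D.M b := by omega
    simp only
    congr 1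
    · rw [fs_susp_const b (D.d c) y _ fun j σ => node_eq hS (by have := hl b hb'; omega) hy j σ,
        ev_smul, ← IH b (hD.plv c b h) hb']
      ring
    · refine Finset.sum_congr rfl fun a' ha' => ?_
      rw [ev_smul]
      have ha'' : R ≤ D.M a' := by
        rcases hD.some_or c b h with ⟨h1, _⟩ | ⟨_, _, h1⟩
        · rw [h1] at ha'
          simp at ha'
        · have h2 := h1 a' ha'
          have h3 := hD.MM b
          omega
      rw [IH a' (hD.uplv c a' ha') ha'']

/-! ## Suspension -/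

/-- the suspension map -/
def Zf (S : Sys ι) (D : AData ι A) (a : A) (σ : Bool) (y : Nd ι A → ℝ) (j : ι) : ℝ :=
  if D.lv a < S.rk j then y (Sum.inr (a, j, σ)) - y (Sum.inl a) else 0

lemma Zf_le (S : Sys ι) (D : AData ι A) (a : A) (σ : Bool) (y : Li (Nd ι A)) (j : ι) :
    |Zf S D a σ y j| ≤ 2 * ‖y‖ := by
  unfold Zf
  split_ifs
  · refine (abs_sub _ _).trans ?_
    have h1 := Li.abs_le y (Sum.inr (a, j, σ))
    have h2 := Li.abs_le y (Sum.inl a)
    linarith
  · rw [abs_zero]
    positivity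

/-- the suspension map as a continuous linear map -/
def Z (S : Sys ι) (D : AData ι A) (a : A) (σ : Bool) : Li (Nd ι A) →L[ℝ] Li ι :=
  LinearMap.mkContinuous
    { toFun := fun y => Li.mk' (Zf S D a σ y) ⟨_, Zf_le S D a σ y⟩
      map_add' := fun y z => Li.ext' fun j => by
        simp only [Li.mk'_apply, Zf, lp.coeFn_add, Pi.add_apply]
        split_ifs
        · ring
        · simp
      map_smul' := fun t y => Li.ext' fun j => by
        simp only [Li.mk'_apply, Zf, lp.coeFn_smul, Pi.smul_apply, RingHom.id_apply, smul_eq_mul]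
        split_ifs
        · ring
        · simp } 2 fun y => Li.norm_le (by positivity) fun j => by
      simpa using Zf_le S D a σ y j

lemma Z_apply (S : Sys ι) (D : AData ι A) (a : A) (σ : Bool) (y : Li (Nd ι A)) (j : ι) :
    (Z S D a σ y) j = Zf S D a σ y j := rfl

lemma Z_E (S : Sys ι) (D : AData ι A) (a : A) (σ : Bool) {M0 : ℕ} {y : Li (Nd ι A)}
    (hy : y ∈ (D.sys S).E M0) : Z S D a σ y ∈ S.E (max M0 (D.lv a)) := by
  intro n hn
  have h1 : D.lv a < S.rk n := lt_of_le_of_lt (le_max_right _ _) hn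
  have h2 : M0 < S.rk n := lt_of_le_of_lt (le_max_left _ _) hn
  rw [Z_apply, Zf, if_pos h1, val_inr (σ := σ) (by omega) hy]
  have h3 : fs (S.r n) (Z S D a σ y) =
      fs (fil S D a n) (fun i => y (Sum.inr (a, i, σ)) - y (Sum.inl a)) := by
    unfold fil
    rw [fs_eq_sum (subset_refl (S.r n).support),
      fs_eq_sum (s := (S.r n).support) (by rw [Finsupp.support_filter]; exact Finset.filter_subset _ _)]
    refine Finset.sum_congr rfl fun i _ => ?_
    rw [Z_apply, Zf, Finsupp.filter_apply]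
    split_ifs
    · rfl
    · simp
  rw [h3]
  have h4 : fs (fil S D a n) (fun i => y (Sum.inr (a, i, σ)) - y (Sum.inl a)) =
      fs (fil S D a n) (fun i => y (Sum.inr (a, i, σ))) - mass (fil S D a n) * y (Sum.inl a) := by
    rw [fs_eq_sum (subset_refl _), fs_eq_sum (subset_refl _), mass_eq_sum (subset_refl _),
      Finset.sum_mul, ← Finset.sum_sub_distrib]
    exact Finset.sum_congr rfl fun i _ => by ring
  rw [h4]
  ring

lemma Z_Y (S : Sys ι) (D : AData ι A) (a : A) (σ : Bool) {y : Li (Nd ι A)}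
    (hy : y ∈ (D.sys S).Y) : Z S D a σ y ∈ S.Y := by
  unfold Sys.Y at hy ⊢
  rw [← SetLike.mem_coe, Submodule.topologicalClosure_coe] at hy ⊢
  refine map_mem_closure (Z S D a σ).continuous hy fun z hz => ?_
  rw [SetLike.mem_coe] at hz ⊢
  rw [Submodule.mem_iSup_of_directed _ (Sys.E_mono _).directed_le] at hz
  obtain ⟨M, hM⟩ := hz
  exact Submodule.mem_iSup_of_mem _ (Z_E S D a σ hM)

/-! ## Representable functionals -/

/-- representable functionals -/
def Rep {κ : Type} (φ : Li κ → ℝ) : Prop := ∃ c : L1 κ, ∀ y, φ y = pair c y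

lemma Rep.congr {κ : Type} {φ ψ : Li κ → ℝ} (h : Rep φ) (hh : ∀ y, ψ y = φ y) : Rep ψ := by
  obtain ⟨c, hc⟩ := h
  exact ⟨c, fun y => (hh y).trans (hc y)⟩

lemma Rep.add {κ : Type} {φ ψ : Li κ → ℝ} (h : Rep φ) (h' : Rep ψ) :
    Rep (fun y => φ y + ψ y) := by
  obtain ⟨c, hc⟩ := h
  obtain ⟨c', hc'⟩ := h'
  refine ⟨c + c', fun y => ?_⟩
  rw [pair_add_left, ← hc, ← hc']

lemma Rep.smul {κ : Type} {φ : Li κ → ℝ} (h : Rep φ) (t : ℝ) : Rep (fun y => t * φ y) := by
  obtain ⟨c, hc⟩ := h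
  refine ⟨t • c, fun y => ?_⟩
  rw [pair_smul_left, ← hc]

lemma Rep.eval {κ : Type} (n : κ) : Rep (fun y : Li κ => y n) :=
  ⟨L1.fin (Finsupp.single n 1), fun y => by rw [pair_fin, fs_single, one_mul]⟩

lemma Rep.sub {κ : Type} {φ ψ : Li κ → ℝ} (h : Rep φ) (h' : Rep ψ) :
    Rep (fun y => φ y - ψ y) :=
  (h.add (h'.smul (-1))).congr fun y => by ring

lemma Rep.sum {κ J : Type} (s : Finset J) {φ : J → Li κ → ℝ} (h : ∀ j ∈ s, Rep (φ j)) :
    Rep (fun y => ∑ j ∈ s, φ j y) := by
  classical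
  induction s using Finset.induction with
  | empty =>
    simp only [Finset.sum_empty]
    exact ⟨0, fun y => by rw [pair_zero_left]⟩
  | insert i s hi IH =>
    exact ((h i (Finset.mem_insert_self _ _)).add
      (IH fun j hj => h j (Finset.mem_insert_of_mem hj))).congr fun y => Finset.sum_insert hi

/-- push forward of a vector of l_1 along an injection -/
lemma Rep.push {κ : Type} {f : ι → κ} (hf : Function.Injective f) (c : L1 ι) :
    Rep (fun y : Li κ => ∑' j, c j * y (f j)) := by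
  have h0 : ∀ j, Function.extend f (fun j => c j) 0 (f j) = c j := fun j => hf.extend_apply _ _ _
  have h1 : ∀ n, n ∉ Set.range f → Function.extend f (fun j => c j) (0 : κ → ℝ) n = 0 := by
    intro n hn
    rw [Function.extend_apply' _ _ _ (by simpa using hn)]
    rfl
  have hs : Summable fun n => |Function.extend f (fun j => c j) (0 : κ → ℝ) n| := by
    rw [← hf.summable_iff (f := fun n => |Function.extend f (fun j => c j) (0 : κ → ℝ) n|)
      fun n hn => by rw [h1 n hn, abs_zero]]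
    refine (L1.summable_abs c).congr fun j => ?_
    simp only [Function.comp_apply, h0]
  refine ⟨L1.mk' _ hs, fun y => ?_⟩
  unfold pair
  rw [← hf.tsum_eq]
  · refine tsum_congr fun j => ?_
    rw [L1.mk'_apply, h0]
  · intro n hn
    by_contra hcon
    apply hn
    show Function.extend f (fun j => c j) (0 : κ → ℝ) n * y n = 0
    rw [h1 n hcon, zero_mul]

lemma Rep.Z (S : Sys ι) (D : AData ι A) (a : A) (σ : Bool) (c : L1 ι) :
    Rep (fun y => pair c (Z S D a σ y)) := by
  classical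
  have hs : Summable fun j => |(if D.lv a < S.rk j then c j else 0)| := by
    refine Summable.of_nonneg_of_le (fun j => abs_nonneg _) (fun j => ?_) (L1.summable_abs c)
    split_ifs
    · exact le_rfl
    · rw [abs_zero]
      exact abs_nonneg _
  set c' : L1 ι := L1.mk' _ hs with hc'
  have hf : Function.Injective (fun j : ι => (Sum.inr (a, j, σ) : Nd ι A)) := by
    intro i j h
    simpa using h
  have h1 := (Rep.push hf c').sub ((Rep.eval (Sum.inl a : Nd ι A)).smul (∑' j, c' j))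
  refine h1.congr fun y => ?_
  have h2 : Summable fun j => c' j * y (Sum.inr (a, j, σ)) := by
    refine Summable.of_norm_bounded ((L1.summable_abs c').mul_right ‖y‖) fun j => ?_
    rw [Real.norm_eq_abs, abs_mul]
    exact mul_le_mul_of_nonneg_left (Li.abs_le y _) (abs_nonneg _)
  have h3 : Summable fun j => c' j * y (Sum.inl a) := (L1.summable c').mul_right _
  rw [← tsum_mul_right, ← h2.tsum_sub h3]
  unfold pair
  refine tsum_congr fun j => ?_
  rw [Z_apply, Zf, hc', L1.mk'_apply]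
  split_ifs
  · ring
  · ring

/-- limits of bounded numbers along an ultrafilter -/
lemma exists_lim {J : Type} (𝒰 : Ultrafilter J) (g : J → ℝ) (h0 : ∀ i, 0 ≤ g i)
    (h1 : ∀ i, g i ≤ 1) : ∃ x, Tendsto g 𝒰 (𝓝 x) := by
  obtain ⟨x, _, hx⟩ := (isCompact_Icc (a := (0 : ℝ)) (b := 1)).ultrafilter_le_nhds' (𝒰.map g)
    (by
      rw [Ultrafilter.mem_map]
      exact Filter.univ_mem' fun i => ⟨h0 i, h1 i⟩)
  exact ⟨x, hx⟩

lemma lim_one (hLIM : StmtLIM) {S : Sys ι} (hS : S.Ok) (hd : S.DualL1) (D : AData ι A)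
    {J : Type} (𝒰 : Ultrafilter J) (a : A) (σ : Bool) (d : J → ι →₀ ℝ) (h0 : ∀ i j, 0 ≤ d i j)
    (h1 : ∀ i, mass (d i) ≤ 1) :
    ∃ c : L1 (Nd ι A), ∀ y ∈ (D.sys S).Y,
      Tendsto (fun i => fs (d i) (fun j => y (Sum.inr (a, j, σ)))) 𝒰 (𝓝 (pair c y)) := by
  classical
  obtain ⟨κ', _, hκ'⟩ := hLIM ι S hS hd J 𝒰 (fun i => L1.fin (d i)) 1 fun i => by
    rw [L1.norm_fin, nrm_eq_mass (h0 i)]
    exact h1 i
  have hm0 : ∀ i, 0 ≤ mass (d i) := fun i => Finset.sum_nonneg fun j _ => h0 i j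
  obtain ⟨m, hm⟩ := exists_lim 𝒰 (fun i => mass (d i)) hm0 h1
  have hj : ∀ j, ∃ x, Tendsto (fun i => d i j) 𝒰 (𝓝 x) := fun j =>
    exists_lim 𝒰 _ (fun i => h0 i j) fun i => (le_mass (h0 i) j).trans (h1 i)
  choose x hx using hj
  have hrep : Rep (fun y : Li (Nd ι A) =>
      (∑ j ∈ hS.B (D.lv a), x j * (y (Sum.inr (a, j, σ)) - y (Sum.inl a))) +
        m * y (Sum.inl a) + pair κ' (Z S D a σ y)) :=
    ((Rep.sum _ fun j _ => ((Rep.eval _).sub (Rep.eval _)).smul (x j)).add
      ((Rep.eval _).smul m)).add (Rep.Z S D a σ κ')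
  obtain ⟨c, hc⟩ := hrep
  refine ⟨c, fun y hy => ?_⟩
  rw [← hc y]
  have hdec : ∀ i, fs (d i) (fun j => y (Sum.inr (a, j, σ))) =
      (∑ j ∈ hS.B (D.lv a), d i j * (y (Sum.inr (a, j, σ)) - y (Sum.inl a))) +
        mass (d i) * y (Sum.inl a) + pair (L1.fin (d i)) (Z S D a σ y) := by
    intro i
    rw [pair_fin]
    set s : Finset ι := (d i).support ∪ hS.B (D.lv a) with hs
    have hs1 : (d i).support ⊆ s := Finset.subset_union_left
    rw [fs_eq_sum hs1, fs_eq_sum hs1, mass_eq_sum hs1, Finset.sum_mul]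
    have h2 : ∑ j ∈ hS.B (D.lv a), d i j * (y (Sum.inr (a, j, σ)) - y (Sum.inl a)) =
        ∑ j ∈ s, if S.rk j ≤ D.lv a then d i j * (y (Sum.inr (a, j, σ)) - y (Sum.inl a))
          else 0 := by
      rw [← Finset.sum_filter]
      refine Finset.sum_congr ?_ fun _ _ => rfl
      ext j
      rw [Finset.mem_filter, hs, Finset.mem_union, hS.mem_B]
      tauto
    rw [h2, ← Finset.sum_add_distrib, ← Finset.sum_add_distrib]
    refine Finset.sum_congr rfl fun j _ => ?_
    rw [Z_apply, Zf]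
    by_cases h : S.rk j ≤ D.lv a
    · rw [if_pos h, if_neg (not_lt.2 h)]
      ring
    · rw [if_neg h, if_pos (not_le.1 h)]
      ring
  simp only [hdec]
  refine Tendsto.add (Tendsto.add ?_ ?_) (hκ' _ (Z_Y S D a σ hy))
  · exact tendsto_finsetSum _ fun j _ => (hx j).mul_const _
  · exact hm.mul_const _

end DN1

open DN1 in
theorem stmtDN1 (hLIM : StmtLIM) : StmtDN1 := by
  intro ι S hS hdual _ A D hD
  refine ⟨fun M0 a hM0 y hy => ?_, ⟨BL D, fun c => ⟨BL_ms hD c, BL_pos hD c,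
    fun R M0 hM0 hR y hy => BL_val hS hD hM0 hy c hR⟩⟩, fun J 𝒰 a d e hd0 he0 hde => ?_⟩
  · have h1 : ∀ (j : ι) (σ : Bool), y (Sum.inr (a, j, σ)) = y (Sum.inl a) :=
      fun j σ => node_eq hS (by omega) hy j σ
    exact ⟨h1, fun d => fs_susp_const a d y _ h1, val_inl hM0 hy⟩
  · have hm0 : ∀ (b : ι →₀ ℝ), (∀ j, 0 ≤ b j) → 0 ≤ mass b :=
      fun b hb => Finset.sum_nonneg fun j _ => hb j
    obtain ⟨c, hc⟩ := lim_one hLIM hS hdual D 𝒰 a true d hd0 fun i => by
      have := hde i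
      have := hm0 (e i) (he0 i)
      linarith
    obtain ⟨c', hc'⟩ := lim_one hLIM hS hdual D 𝒰 a false e he0 fun i => by
      have := hde i
      have := hm0 (d i) (hd0 i)
      linarith
    refine ⟨c + c', fun y hy => ?_⟩
    rw [pair_add_left]
    exact (hc y hy).add (hc' y hy)

end

end PB
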