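import Pool.Agent.PB57.Stmts

/-!
# Module DUALN (6.3): the dual condition of the glued system (MP_b57e2f_an)
-/

set_option autoImplicit false

open Filter Topology Set

namespace PB

noncomputable section

namespace DUALN

/-! ### finite vectors -/

theorem fs_add {ι : Type} (a b : ι →₀ ℝ) (y : ι → ℝ) : fs (a + b) y = fs a y + fs b y := by
  unfold fs
  exact Finsupp.sum_add_index' (by simp) (by intros; ring)

theorem fs_smul {ι : Type} (r : ℝ) (a : ι →₀ ℝ) (y : ι → ℝ) : fs (r • a) y = r * fs a y := by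
  unfold fs
  rw [Finsupp.sum_smul_index' (by simp), Finsupp.mul_sum]
  refine Finset.sum_congr rfl fun j _ => ?_
  simp only [smul_eq_mul]
  ring

theorem fs_zero {ι : Type} (y : ι → ℝ) : fs (0 : ι →₀ ℝ) y = 0 := by simp [fs]

theorem fs_sum {ι κ : Type} (s : Finset κ) (f : κ → ι →₀ ℝ) (y : ι → ℝ) :
    fs (∑ i ∈ s, f i) y = ∑ i ∈ s, fs (f i) y := by
  classical
  induction s using Finset.induction_on with
  | empty => simp [fs_zero]
  | insert a s ha ih => rw [Finset.sum_insert ha, Finset.sum_insert ha, fs_add, ih]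

theorem mass_eq {ι : Type} (a : ι →₀ ℝ) : mass a = fs a (fun _ => 1) := by
  unfold mass fs
  exact Finset.sum_congr rfl fun j _ => by simp

theorem mass_add {ι : Type} (a b : ι →₀ ℝ) : mass (a + b) = mass a + mass b := by
  simp only [mass_eq, fs_add]

theorem mass_smul {ι : Type} (r : ℝ) (a : ι →₀ ℝ) : mass (r • a) = r * mass a := by
  simp only [mass_eq, fs_smul]

theorem mass_zero {ι : Type} : mass (0 : ι →₀ ℝ) = 0 := by simp only [mass_eq, fs_zero]

theorem mass_sum {ι κ : Type} (s : Finset κ) (f : κ → ι →₀ ℝ) :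
    mass (∑ i ∈ s, f i) = ∑ i ∈ s, mass (f i) := by
  simp only [mass_eq, fs_sum]

theorem mass_nonneg {ι : Type} (a : ι →₀ ℝ) (h : ∀ j, 0 ≤ a j) : 0 ≤ mass a :=
  Finset.sum_nonneg fun j _ => h j

theorem abs_fs_le {ι : Type} (u : ι →₀ ℝ) (h : ∀ j, 0 ≤ u j) (y : ι → ℝ) (C : ℝ)
    (hy : ∀ j, |y j| ≤ C) : |fs u y| ≤ mass u * C := by
  unfold fs mass Finsupp.sum
  rw [Finset.sum_mul]
  refine (Finset.abs_sum_le_sum_abs _ _).trans (Finset.sum_le_sum fun j _ => ?_)
  rw [abs_mul, abs_of_nonneg (h j)]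
  exact mul_le_mul_of_nonneg_left (hy j) (h j)

/-- positive part -/
def ps {ι : Type} (d : ι →₀ ℝ) : ι →₀ ℝ := d.mapRange (fun t => max t 0) (by simp)

/-- negative part -/
def ng {ι : Type} (d : ι →₀ ℝ) : ι →₀ ℝ := d.mapRange (fun t => max (-t) 0) (by simp)

theorem ps_nonneg {ι : Type} (d : ι →₀ ℝ) (j : ι) : 0 ≤ ps d j := by
  simp [ps]

theorem ng_nonneg {ι : Type} (d : ι →₀ ℝ) (j : ι) : 0 ≤ ng d j := by
  simp [ng]

theorem fs_ps {ι : Type} (d : ι →₀ ℝ) (y : ι → ℝ) :
    fs (ps d) y = d.sum fun j t => max t 0 * y j := by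
  unfold fs ps
  rw [Finsupp.sum_mapRange_index (by simp)]

theorem fs_ng {ι : Type} (d : ι →₀ ℝ) (y : ι → ℝ) :
    fs (ng d) y = d.sum fun j t => max (-t) 0 * y j := by
  unfold fs ng
  rw [Finsupp.sum_mapRange_index (by simp)]

theorem mass_psng {ι : Type} (d : ι →₀ ℝ) : mass (ps d) + mass (ng d) = nrm d := by
  rw [mass_eq, mass_eq, fs_ps, fs_ng]
  unfold nrm Finsupp.sum
  rw [← Finset.sum_add_distrib]
  refine Finset.sum_congr rfl fun j _ => ?_
  dsimp only
  rcases le_total 0 (d j) with h | h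
  · rw [max_eq_left h, max_eq_right (by linarith), abs_of_nonneg h]; ring
  · rw [max_eq_right h, max_eq_left (by linarith), abs_of_nonpos h]; ring

/-- value of a vector on the suspended nodes of o -/
def bs {ι A : Type} (o : A) (p q : ι →₀ ℝ) (y : Nd ι A → ℝ) : ℝ :=
  fs p (fun j => y (Sum.inr (o, j, true))) + fs q (fun j => y (Sum.inr (o, j, false)))

theorem fs_susp {ι A : Type} (a : A) (d : ι →₀ ℝ) (y : Nd ι A → ℝ) :
    fs (susp a d) y = bs a (ps d) (ng d) y := by
  unfold bs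
  rw [fs_ps, fs_ng]
  unfold fs susp
  rw [Finsupp.sum_sum_index (by intro i; simp) (by intros; ring)]
  have e : ∀ (j : ι) (t : ℝ), (Finsupp.single (Sum.inr (a, j, decide (0 ≤ t)) : Nd ι A) |t|).sum
      (fun n s => s * y n) = |t| * y (Sum.inr (a, j, decide (0 ≤ t))) := by
    intro j t
    rw [Finsupp.sum_single_index (by simp)]
  unfold Finsupp.sum at e ⊢
  rw [← Finset.sum_add_distrib]
  refine Finset.sum_congr rfl fun j _ => ?_
  dsimp only
  rw [e]
  by_cases h : 0 ≤ d j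
  · simp only [h, decide_true]
    rw [max_eq_left h, max_eq_right (by linarith), abs_of_nonneg h]; ring
  · simp only [h, decide_false]
    have h' : d j ≤ 0 := le_of_lt (not_le.mp h)
    rw [max_eq_right h', max_eq_left (by linarith), abs_of_nonpos h']; ring

theorem bs_add {ι A : Type} (o : A) (p q p' q' : ι →₀ ℝ) (y : Nd ι A → ℝ) :
    bs o (p + p') (q + q') y = bs o p q y + bs o p' q' y := by
  unfold bs
  rw [fs_add, fs_add]; ring

theorem bs_smul {ι A : Type} (o : A) (r : ℝ) (p q : ι →₀ ℝ) (y : Nd ι A → ℝ) :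
    bs o (r • p) (r • q) y = r * bs o p q y := by
  unfold bs
  rw [fs_smul, fs_smul]; ring

theorem bs_zero {ι A : Type} (o : A) (y : Nd ι A → ℝ) :
    bs o (0 : ι →₀ ℝ) 0 y = 0 := by
  unfold bs
  rw [fs_zero, fs_zero]; ring

/-! ### ancestors -/

/-- b is an ancestor of c, or equal to c -/
def Anc {ι A : Type} (D : AData ι A) (b c : A) : Prop :=
  Relation.ReflTransGen (fun x z => D.par x = some z) c b

/-- first part of DN1 -/
def P1 {ι A : Type} (S : Sys ι) (D : AData ι A) : Prop :=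
  ∀ (M0 : ℕ) (a : A), M0 < 2 * D.lv a + 1 → ∀ y ∈ (D.sys S).E M0,
        (∀ (j : ι) (σ : Bool), y (Sum.inr (a, j, σ)) = y (Sum.inl a)) ∧
        (∀ d : ι →₀ ℝ, fs (susp a d) y = nrm d * y (Sum.inl a)) ∧
        y (Sum.inl a) =
          (match D.par a with
            | none => 0
            | some b => D.m a * ((1 - nrm (D.d a)) * y (Sum.inl b) + fs (susp b (D.d a)) y)) +
          fs (D.up a) (fun a' => y (Sum.inl a')) + fs (susp D.o (D.β a)) y

/-- second part of DN1, with two vectors -/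
def P2 {ι A : Type} (S : Sys ι) (D : AData ι A) (Bt Bf : A → ι →₀ ℝ) : Prop :=
  ∀ c, mass (Bt c) + mass (Bf c) ≤ 1 ∧ (∀ j, 0 ≤ Bt c j) ∧ (∀ j, 0 ≤ Bf c j) ∧
    ∀ (R M0 : ℕ), M0 < 2 * R + 1 → R ≤ D.M c → ∀ y ∈ (D.sys S).E M0,
      y (Sum.inl c) = bs D.o (Bt c) (Bf c) y

theorem p2_of {ι A : Type} {S : Sys ι} {D : AData ι A}
    (h : ∃ B : A → ι →₀ ℝ × ℝ, ∀ c,
        (((B c).sum fun _ t => t.1 + t.2) ≤ 1) ∧ (∀ j, 0 ≤ (B c j).1 ∧ 0 ≤ (B c j).2) ∧
        ∀ (R M0 : ℕ), M0 < 2 * R + 1 → R ≤ D.M c → ∀ y ∈ (D.sys S).E M0,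
          y (Sum.inl c) = (B c).sum fun j t =>
            t.1 * y (Sum.inr (D.o, j, true)) + t.2 * y (Sum.inr (D.o, j, false))) :
    ∃ Bt Bf : A → ι →₀ ℝ, P2 S D Bt Bf := by
  obtain ⟨B, hB⟩ := h
  have key1 : ∀ (c : A) (f : ι → ℝ), fs ((B c).mapRange Prod.fst rfl) f =
      (B c).sum fun j t => t.1 * f j := by
    intro c f
    unfold fs
    rw [Finsupp.sum_mapRange_index (by simp)]
  have key2 : ∀ (c : A) (f : ι → ℝ), fs ((B c).mapRange Prod.snd rfl) f =
      (B c).sum fun j t => t.2 * f j := by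
    intro c f
    unfold fs
    rw [Finsupp.sum_mapRange_index (by simp)]
  refine ⟨fun c => (B c).mapRange Prod.fst rfl, fun c => (B c).mapRange Prod.snd rfl, ?_⟩
  intro c
  obtain ⟨h1, h2, h3⟩ := hB c
  refine ⟨?_, ?_, ?_, ?_⟩
  · dsimp only
    rw [mass_eq, mass_eq, key1, key2]
    refine le_trans (le_of_eq ?_) h1
    unfold Finsupp.sum
    rw [← Finset.sum_add_distrib]
    exact Finset.sum_congr rfl fun j _ => by ring
  · intro j
    exact (h2 j).1
  · intro j
    exact (h2 j).2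
  · intro R M0 hR hM y hy
    rw [h3 R M0 hR hM y hy]
    unfold bs
    dsimp only
    rw [key1, key2]
    unfold Finsupp.sum
    rw [← Finset.sum_add_distrib]

/-- one step of the expansion, when the parent exists -/
theorem step_some {ι A : Type} {S : Sys ι} {D : AData ι A} (hD : D.Ok S) (h1 : P1 S D)
    {c a : A} (hc : D.par c = some a) (M0 : ℕ) (hM : M0 < 2 * D.lv a + 1)
    (y : Li (Nd ι A)) (hy : y ∈ (D.sys S).E M0) :
    y (Sum.inl c) = D.m c * y (Sum.inl a) + fs (D.up c) (fun a' => y (Sum.inl a')) +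
      bs D.o (ps (D.β c)) (ng (D.β c)) y := by
  have hl := hD.plv c a hc
  obtain ⟨-, -, h3⟩ := h1 M0 c (by omega) y hy
  obtain ⟨-, h5, -⟩ := h1 M0 a hM y hy
  rw [hc] at h3
  dsimp only at h3
  rw [h5, fs_susp] at h3
  rw [h3]
  ring

theorem step_a {ι A : Type} {S : Sys ι} {D : AData ι A} (h1 : P1 S D)
    {c a : A} (hc : D.par c = some a) (M0 : ℕ) (hM : M0 < 2 * D.lv c + 1)
    (y : Li (Nd ι A)) (hy : y ∈ (D.sys S).E M0) :
    y (Sum.inl c) = D.m c * ((1 - nrm (D.d c)) * y (Sum.inl a) +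
      bs a (ps (D.d c)) (ng (D.d c)) y) + fs (D.up c) (fun a' => y (Sum.inl a')) +
      bs D.o (ps (D.β c)) (ng (D.β c)) y := by
  obtain ⟨-, -, h3⟩ := h1 M0 c hM y hy
  rw [hc] at h3
  dsimp only at h3
  rw [fs_susp, fs_susp] at h3
  exact h3

theorem step_none {ι A : Type} {S : Sys ι} {D : AData ι A} (hD : D.Ok S) (h1 : P1 S D)
    {c : A} (hc : D.par c = none) (M0 : ℕ) (hM : M0 < 2 * D.lv c + 1)
    (y : Li (Nd ι A)) (hy : y ∈ (D.sys S).E M0) :
    y (Sum.inl c) = bs D.o (ps (D.β c)) (ng (D.β c)) y := by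
  obtain ⟨-, -, h3⟩ := h1 M0 c hM y hy
  rw [hc] at h3
  dsimp only at h3
  rw [(hD.none_up c hc).1, fs_susp, fs_zero] at h3
  rw [h3]
  ring

/-- conversion of an upper part into a base combination -/
theorem conv {ι A : Type} {S : Sys ι} {D : AData ι A} {Bt Bf : A → ι →₀ ℝ}
    (h2 : P2 S D Bt Bf) (R : ℕ) (u : A →₀ ℝ) (hu : ∀ a, 0 ≤ u a)
    (hR : ∀ a ∈ u.support, R ≤ D.M a) :
    ∃ p q : ι →₀ ℝ, (∀ j, 0 ≤ p j) ∧ (∀ j, 0 ≤ q j) ∧ mass p + mass q ≤ mass u ∧
      ∀ M0, M0 < 2 * R + 1 → ∀ y ∈ (D.sys S).E M0,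
        fs u (fun a => y (Sum.inl a)) = bs D.o p q y := by
  refine ⟨∑ a ∈ u.support, u a • Bt a, ∑ a ∈ u.support, u a • Bf a, ?_, ?_, ?_, ?_⟩
  · intro j
    rw [Finsupp.finsetSum_apply]
    exact Finset.sum_nonneg fun a _ => mul_nonneg (hu a) ((h2 a).2.1 j)
  · intro j
    rw [Finsupp.finsetSum_apply]
    exact Finset.sum_nonneg fun a _ => mul_nonneg (hu a) ((h2 a).2.2.1 j)
  · rw [mass_sum, mass_sum, ← Finset.sum_add_distrib]
    unfold mass Finsupp.sum
    refine Finset.sum_le_sum fun a _ => ?_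
    have h := (h2 a).1
    have e1 := mass_smul (u a) (Bt a)
    have e2 := mass_smul (u a) (Bf a)
    unfold mass Finsupp.sum at e1 e2 h
    rw [e1, e2]
    have := mul_le_mul_of_nonneg_left h (hu a)
    linarith
  · intro M0 hM y hy
    unfold bs
    rw [fs_sum, fs_sum, ← Finset.sum_add_distrib]
    conv_lhs => unfold fs Finsupp.sum
    refine Finset.sum_congr rfl fun a ha => ?_
    dsimp only
    rw [(h2 a).2.2.2 R M0 hM (hR a ha) y hy, fs_smul, fs_smul]
    unfold bs
    ring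

/-- the path lemma -/
theorem path {ι A : Type} {S : Sys ι} {D : AData ι A} (hD : D.Ok S) (h1 : P1 S D)
    {Bt Bf : A → ι →₀ ℝ} (h2 : P2 S D Bt Bf) (d c : A) (h : Anc D d c) :
    D.lv d ≤ D.lv c ∧ ∃ (m : ℝ) (p q : ι →₀ ℝ) (u : A →₀ ℝ), 0 ≤ m ∧ (∀ j, 0 ≤ p j) ∧
      (∀ j, 0 ≤ q j) ∧ (∀ a, 0 ≤ u a) ∧ m + (mass p + mass q) + mass u ≤ 1 ∧
      mass u ≤ 9 / 20 ∧ (D.lv d ≤ D.M' c ∨ (D.M' c = D.M' d ∧ u = 0)) ∧
      (D.M' d = D.lv d → u = 0) ∧
      ∀ M0, M0 < 2 * D.lv d + 1 → ∀ y ∈ (D.sys S).E M0,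
        y (Sum.inl c) = m * y (Sum.inl d) + bs D.o p q y + fs u (fun a => y (Sum.inl a)) := by
  unfold Anc at h
  induction h using Relation.ReflTransGen.head_induction_on with
  | refl =>
    refine ⟨le_rfl, 1, 0, 0, 0, zero_le_one, fun _ => le_rfl, fun _ => le_rfl, fun _ => le_rfl,
      ?_, ?_, Or.inr ⟨rfl, rfl⟩, fun _ => rfl, ?_⟩
    · rw [mass_zero, mass_zero]; norm_num
    · rw [mass_zero]; norm_num
    · intro M0 _ y _
      rw [bs_zero, fs_zero]; ring
  | head hc hanc ih =>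
    rename_i c c1
    obtain ⟨hlv, m, p, q, u, hm, hp, hq, hu, hsum, hu9, hor, hu0, hrep⟩ := ih
    have hl := hD.plv c c1 hc
    have hmc := hD.mpos c
    have htot := hD.tot c
    have hmass0 : 0 ≤ mass (D.up c) := mass_nonneg _ (hD.uppos c)
    have hps := mass_nonneg _ (ps_nonneg (D.β c))
    have hng := mass_nonneg _ (ng_nonneg (D.β c))
    have hpn := mass_psng (D.β c)
    have hmp := mass_nonneg _ hp
    have hmq := mass_nonneg _ hq
    have hmu := mass_nonneg _ hu
    have hmc1 : D.m c ≤ 1 := by linarith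
    have hkey : D.m c * (m + (mass p + mass q) + mass u) ≤ D.m c := by
      calc D.m c * (m + (mass p + mass q) + mass u) ≤ D.m c * 1 :=
            mul_le_mul_of_nonneg_left hsum hmc
        _ = D.m c := mul_one _
    refine ⟨by omega, ?_⟩
    rcases hD.some_or c c1 hc with ⟨hup, hM'⟩ | ⟨hM', hup9, hupM⟩
    · refine ⟨D.m c * m, D.m c • p + ps (D.β c), D.m c • q + ng (D.β c), D.m c • u,
        mul_nonneg hmc hm, ?_, ?_, ?_, ?_, ?_, ?_, ?_, ?_⟩
      · intro j
        exact add_nonneg (mul_nonneg hmc (hp j)) (ps_nonneg _ j)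
      · intro j
        exact add_nonneg (mul_nonneg hmc (hq j)) (ng_nonneg _ j)
      · intro j
        exact mul_nonneg hmc (hu j)
      · rw [mass_add, mass_add, mass_smul, mass_smul, mass_smul]
        nlinarith
      · rw [mass_smul]
        nlinarith
      · rcases hor with h | ⟨h, h'⟩
        · left; omega
        · right
          refine ⟨by omega, by rw [h', smul_zero]⟩
      · intro h
        rw [hu0 h, smul_zero]
      · intro M0 hM y hy
        rw [step_some hD h1 hc M0 (by omega) y hy, hrep M0 hM y hy, hup, fs_zero, bs_add,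
          bs_smul, fs_smul]
        ring
    · by_cases hR : D.lv d ≤ D.M' c1
      · obtain ⟨p', q', hp', hq', hpq', hrep'⟩ := conv h2 (D.lv d) (D.up c) (hD.uppos c)
          (fun a' ha' => le_trans hR (hupM a' ha'))
        refine ⟨D.m c * m, D.m c • p + ps (D.β c) + p', D.m c • q + ng (D.β c) + q', D.m c • u,
          mul_nonneg hmc hm, ?_, ?_, ?_, ?_, ?_, ?_, ?_, ?_⟩
        · intro j
          exact add_nonneg (add_nonneg (mul_nonneg hmc (hp j)) (ps_nonneg _ j)) (hp' j)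
        · intro j
          exact add_nonneg (add_nonneg (mul_nonneg hmc (hq j)) (ng_nonneg _ j)) (hq' j)
        · intro j
          exact mul_nonneg hmc (hu j)
        · rw [mass_add, mass_add, mass_add, mass_add, mass_smul, mass_smul, mass_smul]
          nlinarith
        · rw [mass_smul]
          nlinarith
        · left; omega
        · intro h
          rw [hu0 h, smul_zero]
        · intro M0 hM y hy
          rw [step_some hD h1 hc M0 (by omega) y hy, hrep M0 hM y hy, hrep' M0 hM y hy, bs_add,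
            bs_add, bs_smul, fs_smul]
          ring
      · have hor' : D.M' c1 = D.M' d ∧ u = 0 := by
          rcases hor with h | h
          · exact absurd h hR
          · exact h
        obtain ⟨hMd, hu00⟩ := hor'
        refine ⟨D.m c * m, D.m c • p + ps (D.β c), D.m c • q + ng (D.β c), D.up c,
          mul_nonneg hmc hm, ?_, ?_, hD.uppos c, ?_, hup9, ?_, ?_, ?_⟩
        · intro j
          exact add_nonneg (mul_nonneg hmc (hp j)) (ps_nonneg _ j)
        · intro j
          exact add_nonneg (mul_nonneg hmc (hq j)) (ng_nonneg _ j)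
        · rw [mass_add, mass_add, mass_smul, mass_smul]
          nlinarith
        · left; omega
        · intro h
          exact absurd (by omega) hR
        · intro M0 hM y hy
          rw [step_some hD h1 hc M0 (by omega) y hy, hrep M0 hM y hy, hu00, fs_zero, bs_add,
            bs_smul]
          ring

/-- the representation of an anchor, with a fixed anchor a0 -/
theorem rep {ι A : Type} {S : Sys ι} {D : AData ι A} (hD : D.Ok S) (h1 : P1 S D)
    {Bt Bf : A → ι →₀ ℝ} (h2 : P2 S D Bt Bf) (a0 d c : A) (h : Anc D d c)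
    (hd : D.par d = none ∨ D.par d = some a0) :
    ∃ (x : ℝ) (p q p' q' : ι →₀ ℝ) (u : A →₀ ℝ), 0 ≤ x ∧ x ≤ 1 ∧ (∀ j, 0 ≤ p j) ∧
      (∀ j, 0 ≤ q j) ∧ (∀ j, 0 ≤ p' j) ∧ (∀ j, 0 ≤ q' j) ∧ (∀ a, 0 ≤ u a) ∧
      mass p + mass q ≤ 1 ∧ mass p' + mass q' ≤ 1 ∧ mass u ≤ 9 / 20 ∧
      ∀ M0, M0 < 2 * D.lv d + 1 → ∀ y ∈ (D.sys S).E M0,
        y (Sum.inl c) = x * y (Sum.inl a0) + bs a0 p q y + bs D.o p' q' y +
          fs u (fun a => y (Sum.inl a)) := by
  obtain ⟨hlv, m, p, q, u, hm, hp, hq, hu, hsum, hu9, hor, hu0, hrep⟩ := path hD h1 h2 d c h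
  have hmc := hD.mpos d
  have htot := hD.tot d
  have hmass0 : 0 ≤ mass (D.up d) := mass_nonneg _ (hD.uppos d)
  have hps := mass_nonneg _ (ps_nonneg (D.β d))
  have hng := mass_nonneg _ (ng_nonneg (D.β d))
  have hpn := mass_psng (D.β d)
  have hdp := mass_nonneg _ (ps_nonneg (D.d d))
  have hdn := mass_nonneg _ (ng_nonneg (D.d d))
  have hdpn := mass_psng (D.d d)
  have hdle := hD.dle d
  have hmp := mass_nonneg _ hp
  have hmq := mass_nonneg _ hq
  have hmu := mass_nonneg _ hu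
  have hmd1 : D.m d ≤ 1 := by linarith
  have hm1 : m ≤ 1 := by linarith
  have hmm0 : 0 ≤ m * D.m d := mul_nonneg hm hmc
  have hmm1 : m * D.m d ≤ 1 := mul_le_one₀ hm1 hmc hmd1
  have hβ : nrm (D.β d) ≤ 1 := by linarith
  have hβ0 : 0 ≤ nrm (D.β d) := by linarith
  have hmβ : m * nrm (D.β d) ≤ m := by nlinarith
  rcases hd with hd | hd
  · have hud := hu0 (hD.none_up d hd).2
    refine ⟨0, 0, 0, p + m • ps (D.β d), q + m • ng (D.β d), 0, le_rfl, zero_le_one,
      fun _ => le_rfl, fun _ => le_rfl, ?_, ?_, fun _ => le_rfl, ?_, ?_, ?_, ?_⟩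
    · intro j
      exact add_nonneg (hp j) (mul_nonneg hm (ps_nonneg _ j))
    · intro j
      exact add_nonneg (hq j) (mul_nonneg hm (ng_nonneg _ j))
    · rw [mass_zero]; norm_num
    · rw [mass_add, mass_add, mass_smul, mass_smul]
      have : m * mass (ps (D.β d)) + m * mass (ng (D.β d)) = m * nrm (D.β d) := by
        rw [← hpn]; ring
      linarith
    · rw [mass_zero]; norm_num
    · intro M0 hM y hy
      rw [hrep M0 hM y hy, step_none hD h1 hd M0 hM y hy, hud, fs_zero, bs_zero, bs_add, bs_smul]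
      ring
  · have hcom : ∀ (u' : A →₀ ℝ), (∀ a, 0 ≤ u' a) → mass u' ≤ 9 / 20 →
        (∀ M0, M0 < 2 * D.lv d + 1 → ∀ y ∈ (D.sys S).E M0,
          fs u' (fun a => y (Sum.inl a)) = fs u (fun a => y (Sum.inl a)) +
            m * fs (D.up d) (fun a => y (Sum.inl a))) →
        ∃ (x : ℝ) (p q p' q' : ι →₀ ℝ) (u : A →₀ ℝ), 0 ≤ x ∧ x ≤ 1 ∧ (∀ j, 0 ≤ p j) ∧
          (∀ j, 0 ≤ q j) ∧ (∀ j, 0 ≤ p' j) ∧ (∀ j, 0 ≤ q' j) ∧ (∀ a, 0 ≤ u a) ∧
          mass p + mass q ≤ 1 ∧ mass p' + mass q' ≤ 1 ∧ mass u ≤ 9 / 20 ∧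
          ∀ M0, M0 < 2 * D.lv d + 1 → ∀ y ∈ (D.sys S).E M0,
            y (Sum.inl c) = x * y (Sum.inl a0) + bs a0 p q y + bs D.o p' q' y +
              fs u (fun a => y (Sum.inl a)) := by
      intro u' hu' hmu' hy'
      refine ⟨m * D.m d * (1 - nrm (D.d d)), (m * D.m d) • ps (D.d d), (m * D.m d) • ng (D.d d),
        p + m • ps (D.β d), q + m • ng (D.β d), u', ?_, ?_, ?_, ?_, ?_, ?_, hu', ?_, ?_, hmu', ?_⟩
      · exact mul_nonneg hmm0 (by linarith)
      · exact mul_le_one₀ hmm1 (by linarith) (by linarith)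
      · intro j
        exact mul_nonneg hmm0 (ps_nonneg _ j)
      · intro j
        exact mul_nonneg hmm0 (ng_nonneg _ j)
      · intro j
        exact add_nonneg (hp j) (mul_nonneg hm (ps_nonneg _ j))
      · intro j
        exact add_nonneg (hq j) (mul_nonneg hm (ng_nonneg _ j))
      · rw [mass_smul, mass_smul, ← mul_add, hdpn]
        exact mul_le_one₀ hmm1 (by linarith) hdle
      · rw [mass_add, mass_add, mass_smul, mass_smul]
        have : m * mass (ps (D.β d)) + m * mass (ng (D.β d)) = m * nrm (D.β d) := by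
          rw [← hpn]; ring
        linarith
      · intro M0 hM y hy
        rw [hrep M0 hM y hy, step_a h1 hd M0 hM y hy, hy' M0 hM y hy, bs_add, bs_smul, bs_smul]
        ring
    rcases hD.some_or d a0 hd with ⟨hup, -⟩ | ⟨hM', hup9, -⟩
    · refine hcom u hu hu9 ?_
      intro M0 hM y hy
      rw [hup, fs_zero]; ring
    · refine hcom (m • D.up d) (fun a => mul_nonneg hm (hD.uppos d a)) ?_ ?_
      · rw [mass_smul]
        nlinarith
      · intro M0 hM y hy
        rw [hu0 hM', fs_zero, fs_smul]; ring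

/-! ### the pairing -/

theorem pair_summable {ι : Type} (c : L1 ι) (y : Li ι) : Summable fun n => c n * y n := by
  have h1 : Summable fun n => ‖c n‖ := by
    have := (lp.memℓp c).summable (by norm_num : (0:ℝ) < (1 : ENNReal).toReal)
    simpa using this
  refine Summable.of_norm_bounded (g := fun n => ‖c n‖ * ‖y‖) (h1.mul_right _) fun n => ?_
  rw [norm_mul]
  exact mul_le_mul_of_nonneg_left (lp.norm_apply_le_norm ENNReal.top_ne_zero y n) (norm_nonneg _)

theorem pair_add {ι : Type} (c d : L1 ι) (y : Li ι) : pair (c + d) y = pair c y + pair d y := by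
  unfold pair
  rw [← (pair_summable c y).tsum_add (pair_summable d y)]
  exact tsum_congr fun n => by simp [add_mul]

theorem pair_smul {ι : Type} (r : ℝ) (c : L1 ι) (y : Li ι) : pair (r • c) y = r * pair c y := by
  unfold pair
  rw [← tsum_mul_left]
  exact tsum_congr fun n => by simp [mul_assoc]

theorem pair_sub_right {ι : Type} (c : L1 ι) (y z : Li ι) :
    pair c (y - z) = pair c y - pair c z := by
  unfold pair
  rw [← (pair_summable c y).tsum_sub (pair_summable c z)]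
  exact tsum_congr fun n => by simp [mul_sub]

theorem pair_single {ι : Type} [DecidableEq ι] (n : ι) (y : Li ι) :
    pair (lp.single 1 n (1 : ℝ)) y = y n := by
  unfold pair
  rw [tsum_eq_single n]
  · simp
  · intro m hm
    rw [lp.single_apply_ne _ _ _ hm, zero_mul]

theorem abs_apply_le {ι : Type} (y : Li ι) (n : ι) : |y n| ≤ ‖y‖ :=
  lp.norm_apply_le_norm ENNReal.top_ne_zero y n

/-! ### the ultrafilter part -/

/-- every anchor has a root -/
theorem root {ι A : Type} {S : Sys ι} {D : AData ι A} (hD : D.Ok S) (n : ℕ) :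
    ∀ c, D.lv c ≤ n → ∃ r, Anc D r c ∧ D.par r = none := by
  induction n with
  | zero =>
    intro c hc
    rcases hpar : D.par c with _ | a
    · exact ⟨c, Relation.ReflTransGen.refl, hpar⟩
    · have := hD.plv c a hpar
      omega
  | succ n ih =>
    intro c hc
    rcases hpar : D.par c with _ | a
    · exact ⟨c, Relation.ReflTransGen.refl, hpar⟩
    · have := hD.plv c a hpar
      obtain ⟨r, hr, hr'⟩ := ih a (by omega)
      exact ⟨r, Relation.ReflTransGen.head hpar hr, hr'⟩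

theorem last {ι A : Type} {S : Sys ι} {D : AData ι A} (hD : D.Ok S) (𝒱 : Ultrafilter A)
    (hV : ∀ N : ℕ, ∀ᶠ a in (𝒱 : Filter A), N < D.lv a) :
    ∃ (a0 : A) (d : A → A), (∀ᶠ c in (𝒱 : Filter A), Anc D (d c) c ∧
      (D.par (d c) = none ∨ D.par (d c) = some a0)) ∧
      ∀ N : ℕ, ∀ᶠ c in (𝒱 : Filter A), N < D.lv (d c) := by
  classical
  by_cases hT : ∃ b, ∀ᶠ c in (𝒱 : Filter A), Anc D b c
  · -- a last element of the chain
    have hlast : ∃ a, (∀ᶠ c in (𝒱 : Filter A), Anc D a c) ∧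
        ∀ b, D.par b = some a → ¬ ∀ᶠ c in (𝒱 : Filter A), Anc D b c := by
      by_contra hcon
      push Not at hcon
      choose! f hf1 hf2 using hcon
      obtain ⟨b, hb⟩ := hT
      have hall : ∀ i : ℕ, ∀ᶠ c in (𝒱 : Filter A), Anc D (f^[i] b) c := by
        intro i
        induction i with
        | zero => exact hb
        | succ i ih =>
          rw [Function.iterate_succ_apply']
          exact hf2 _ ih
      refine hD.wf ⟨fun i => f^[i] b, fun i => ?_⟩
      dsimp only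
      rw [Function.iterate_succ_apply']
      exact hf1 _ (hall i)
    obtain ⟨a0, ha0, hchild⟩ := hlast
    have hex : ∀ c, ∃ e, (Anc D a0 c ∧ D.lv a0 < D.lv c) → (Anc D e c ∧ D.par e = some a0) := by
      intro c
      by_cases h : Anc D a0 c ∧ D.lv a0 < D.lv c
      · rcases Relation.ReflTransGen.cases_tail h.1 with h' | ⟨e, he1, he2⟩
        · exact absurd h.2 (by rw [h']; exact lt_irrefl _)
        · exact ⟨e, fun _ => ⟨he1, he2⟩⟩
      · exact ⟨c, fun h' => absurd h' h⟩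
    choose d hd using hex
    have hgood : ∀ᶠ c in (𝒱 : Filter A), Anc D (d c) c ∧ D.par (d c) = some a0 := by
      filter_upwards [ha0, hV (D.lv a0)] with c h1 h2
      exact hd c ⟨h1, h2⟩
    refine ⟨a0, d, ?_, ?_⟩
    · filter_upwards [hgood] with c hc
      exact ⟨hc.1, Or.inr hc.2⟩
    · intro N
      have hfin : ∀ᶠ c in (𝒱 : Filter A), ∀ b ∈ {b | D.lv b ≤ N}, D.par b = some a0 →
          ¬ Anc D b c := by
        rw [Filter.eventually_all_finite (hD.fin N)]
        intro b _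
        by_cases hb : D.par b = some a0
        · filter_upwards [Ultrafilter.eventually_not.mpr (hchild b hb)] with c hc _
          exact hc
        · exact Filter.Eventually.of_forall fun c h => absurd h hb
      filter_upwards [hgood, hfin] with c h1 h2
      by_contra hcon
      exact h2 (d c) (not_lt.mp hcon) h1.2 h1.1
  · have hT' : ∀ b, ¬ ∀ᶠ c in (𝒱 : Filter A), Anc D b c := fun b hb => hT ⟨b, hb⟩
    have hex : ∀ c, ∃ r, Anc D r c ∧ D.par r = none := fun c => root hD (D.lv c) c le_rfl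
    choose d hd1 hd2 using hex
    refine ⟨D.o, d, Filter.Eventually.of_forall fun c => ⟨hd1 c, Or.inl (hd2 c)⟩, ?_⟩
    intro N
    have hfin : ∀ᶠ c in (𝒱 : Filter A), ∀ b ∈ {b | D.lv b ≤ N}, ¬ Anc D b c := by
      rw [Filter.eventually_all_finite (hD.fin N)]
      intro b _
      exact Ultrafilter.eventually_not.mpr (hT' b)
    filter_upwards [hfin] with c h2
    by_contra hcon
    exact h2 (d c) (not_lt.mp hcon) (hd1 c)

/-- third part of DN1 -/
def P3 {ι A : Type} (S : Sys ι) (D : AData ι A) : Prop :=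
  ∀ (J : Type) (𝒰 : Ultrafilter J) (a : A) (d e : J → ι →₀ ℝ), (∀ i j, 0 ≤ d i j) →
        (∀ i j, 0 ≤ e i j) → (∀ i, mass (d i) + mass (e i) ≤ 1) →
        ∃ c : L1 (Nd ι A), ∀ y ∈ (D.sys S).Y,
          Tendsto (fun i => fs (d i) (fun j => y (Sum.inr (a, j, true))) +
            fs (e i) (fun j => y (Sum.inr (a, j, false)))) 𝒰 (𝓝 (pair c y))

theorem mem_Y {ι : Type} (S : Sys ι) (M0 : ℕ) (y : Li ι) (hy : y ∈ S.E M0) : y ∈ S.Y :=
  Submodule.le_topologicalClosure _ (Submodule.mem_iSup_of_mem M0 hy)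

theorem anchors {ι A : Type} {S : Sys ι} {D : AData ι A} (hD : D.Ok S) (h1 : P1 S D)
    {Bt Bf : A → ι →₀ ℝ} (h2 : P2 S D Bt Bf) (h3 : P3 S D) (𝒱 : Ultrafilter A)
    (hV : ∀ N : ℕ, ∀ᶠ a in (𝒱 : Filter A), N < D.lv a) :
    ∃ c : L1 (Nd ι A), ∀ M0, ∀ y ∈ (D.sys S).E M0, ∀ t : ℝ,
      Tendsto (fun a => y (Sum.inl a)) 𝒱 (𝓝 t) → |t - pair c y| ≤ 9 / 20 * ‖y‖ := by
  classical
  obtain ⟨a0, d, hd, hN⟩ := last hD 𝒱 hV
  have hrep : ∀ c, ∃ (x : ℝ) (p q p' q' : ι →₀ ℝ) (u : A →₀ ℝ), 0 ≤ x ∧ x ≤ 1 ∧ (∀ j, 0 ≤ p j) ∧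
      (∀ j, 0 ≤ q j) ∧ (∀ j, 0 ≤ p' j) ∧ (∀ j, 0 ≤ q' j) ∧ (∀ a, 0 ≤ u a) ∧
      mass p + mass q ≤ 1 ∧ mass p' + mass q' ≤ 1 ∧ mass u ≤ 9 / 20 ∧
      ((Anc D (d c) c ∧ (D.par (d c) = none ∨ D.par (d c) = some a0)) →
      ∀ M0, M0 < 2 * D.lv (d c) + 1 → ∀ y ∈ (D.sys S).E M0,
        y (Sum.inl c) = x * y (Sum.inl a0) + bs a0 p q y + bs D.o p' q' y +
          fs u (fun a => y (Sum.inl a))) := by
    intro c
    by_cases h : Anc D (d c) c ∧ (D.par (d c) = none ∨ D.par (d c) = some a0)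
    · obtain ⟨x, p, q, p', q', u, e1, e2, e3, e4, e5, e6, e7, e8, e9, e10, e11⟩ :=
        rep hD h1 h2 a0 (d c) c h.1 h.2
      exact ⟨x, p, q, p', q', u, e1, e2, e3, e4, e5, e6, e7, e8, e9, e10, fun _ => e11⟩
    · refine ⟨0, 0, 0, 0, 0, 0, le_rfl, zero_le_one, fun _ => le_rfl, fun _ => le_rfl,
        fun _ => le_rfl, fun _ => le_rfl, fun _ => le_rfl, ?_, ?_, ?_, fun h' => absurd h' h⟩
      · rw [mass_zero]; norm_num
      · rw [mass_zero]; norm_num
      · rw [mass_zero]; norm_num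
  choose x p q p' q' u hx0 hx1 hp hq hp' hq' hu hpq hpq' hu9 hr using hrep
  obtain ⟨x0, -, hx⟩ := (isCompact_Icc (a := (0 : ℝ)) (b := 1)).ultrafilter_le_nhds (𝒱.map x)
    (by
      rw [Filter.le_principal_iff, Ultrafilter.coe_map, Filter.mem_map]
      exact Filter.Eventually.of_forall fun c => ⟨hx0 c, hx1 c⟩)
  have hxt : Tendsto x (𝒱 : Filter A) (𝓝 x0) := hx
  obtain ⟨c1, hc1⟩ := h3 A 𝒱 a0 p q hp hq hpq
  obtain ⟨c2, hc2⟩ := h3 A 𝒱 D.o p' q' hp' hq' hpq'
  refine ⟨x0 • lp.single 1 (Sum.inl a0 : Nd ι A) (1 : ℝ) + c1 + c2, ?_⟩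
  intro M0 y hy t ht
  have hyY : y ∈ (D.sys S).Y := mem_Y _ M0 y hy
  have hG : Tendsto (fun c => x c * y (Sum.inl a0) + bs a0 (p c) (q c) y +
      bs D.o (p' c) (q' c) y) 𝒱
      (𝓝 (pair (x0 • lp.single 1 (Sum.inl a0 : Nd ι A) (1 : ℝ) + c1 + c2) y)) := by
    rw [pair_add, pair_add, pair_smul, pair_single]
    exact ((hxt.mul_const _).add (hc1 y hyY)).add (hc2 y hyY)
  refine le_of_tendsto (ht.sub hG).abs ?_
  filter_upwards [hd, hN M0] with c hc hcN
  rw [hr c hc M0 (by omega) y hy]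
  have e : ∀ X Z : ℝ, X + Z - X = Z := fun X Z => by ring
  rw [e]
  refine (abs_fs_le (u c) (hu c) _ ‖y‖ fun j => abs_apply_le y _).trans ?_
  exact mul_le_mul_of_nonneg_right (hu9 c) (norm_nonneg _)

/-- extension from the union of the E_M to Y -/
theorem extend {ι : Type} (hLND : StmtLND) (S : Sys ι) (hS : S.Ok) (𝒰 : Ultrafilter ι)
    (c : L1 ι)
    (h : ∀ M0, ∀ y ∈ S.E M0, ∀ t : ℝ, Tendsto (fun n => y n) 𝒰 (𝓝 t) →
      |t - pair c y| ≤ 9 / 20 * ‖y‖) :
    ∀ y ∈ S.Y, ∀ t : ℝ, Tendsto (fun n => y n) 𝒰 (𝓝 t) → |t - pair c y| ≤ 9 / 20 * ‖y‖ := by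
  obtain ⟨-, -, -, -, -, -, hmono, -, -, hpair, -⟩ := hLND ι S hS
  intro y hy t ht
  refine le_of_forall_pos_le_add fun ε hε => ?_
  have hδ : 0 < ε / (‖c‖ + 2) := by positivity
  obtain ⟨z, hz, hzy⟩ := Metric.mem_closure_iff.mp hy _ hδ
  obtain ⟨M0, hM0⟩ : ∃ M0, z ∈ S.E M0 := by
    have hz' : z ∈ ⨆ M, S.E M := hz
    rwa [Submodule.mem_iSup_of_directed _ hmono.directed_le] at hz'
  rw [dist_eq_norm] at hzy
  obtain ⟨t', -, ht'⟩ := (isCompact_Icc (a := -‖z‖) (b := ‖z‖)).ultrafilter_le_nhds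
    (𝒰.map fun n => z n)
    (by
      rw [Filter.le_principal_iff, Ultrafilter.coe_map, Filter.mem_map]
      exact Filter.Eventually.of_forall fun n => abs_le.mp (abs_apply_le z n))
  have htt : Tendsto (fun n => z n) (𝒰 : Filter ι) (𝓝 t') := ht'
  have h1 := h M0 z hM0 t' htt
  have h2 : |t - t'| ≤ ‖y - z‖ := by
    refine le_of_tendsto (ht.sub htt).abs (Filter.Eventually.of_forall fun n => ?_)
    have := abs_apply_le (y - z) n
    simpa using this
  have h3 : |pair c y - pair c z| ≤ ‖c‖ * ‖y - z‖ := by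
    rw [← pair_sub_right]
    exact hpair c (y - z)
  have h4 : ‖z‖ ≤ ‖y‖ + ‖y - z‖ := by
    have := norm_sub_le y (y - z)
    rwa [sub_sub_cancel] at this
  have h5 : |t - pair c y| ≤ |t - t'| + |t' - pair c z| + |pair c y - pair c z| := by
    have e : t - pair c y = (t - t') + (t' - pair c z) - (pair c y - pair c z) := by ring
    rw [e]
    exact (abs_sub _ _).trans (by gcongr; exact abs_add_le _ _)
  have h6 : (‖c‖ + 2) * ‖y - z‖ ≤ ε := by
    have := mul_le_mul_of_nonneg_left hzy.le (by positivity : 0 ≤ ‖c‖ + 2)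
    rwa [mul_div_cancel₀ _ (by positivity : (‖c‖ + 2) ≠ 0)] at this
  nlinarith [norm_nonneg (y - z)]

end DUALN

open DUALN

/-- MODULE DUALN -/
theorem stmtDUALN (hLND : StmtLND) (hGT : StmtGT) (hSYSN : StmtSYSN) (hDN1 : StmtDN1) :
    StmtDUALN := by
  classical
  intro ι S hS hdual hrk A D hD
  obtain ⟨h1, hB, h3⟩ := hDN1 ι S hS hdual hrk A D hD
  obtain ⟨Bt, Bf, h2⟩ := p2_of hB
  have hN := hSYSN ι S hS hrk A D hD
  refine hGT _ (D.sys S) hN (9 / 20) (by norm_num) (by norm_num) ?_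
  intro 𝒰
  suffices hs : ∃ c : L1 (Nd ι A), ∀ M0, ∀ y ∈ (D.sys S).E M0, ∀ t : ℝ,
      Tendsto (fun n => y n) 𝒰 (𝓝 t) → |t - pair c y| ≤ 9 / 20 * ‖y‖ by
    obtain ⟨c, hc⟩ := hs
    exact ⟨c, extend hLND (D.sys S) hN 𝒰 c hc⟩
  -- the anchor of a node
  let α : Nd ι A → A := fun n => match n with
    | Sum.inl a => a
    | Sum.inr (a, _, _) => a
  by_cases hfix : ∃ a0, ∀ᶠ n in (𝒰 : Filter (Nd ι A)), α n = a0
  · obtain ⟨a0, ha0⟩ := hfix
    by_cases hpr : ∀ᶠ n in (𝒰 : Filter (Nd ι A)), n = Sum.inl a0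
    · refine ⟨lp.single 1 (Sum.inl a0 : Nd ι A) (1 : ℝ), ?_⟩
      intro M0 y hy t ht
      have : t = y (Sum.inl a0) := by
        refine tendsto_nhds_unique ht (tendsto_const_nhds.congr' ?_)
        filter_upwards [hpr] with n hn
        rw [hn]
      rw [pair_single, this, sub_self, abs_zero]
      positivity
    · have hsus : ∀ᶠ n in (𝒰 : Filter (Nd ι A)), ∃ (j : ι) (σ : Bool), n = Sum.inr (a0, j, σ) := by
        filter_upwards [ha0, Ultrafilter.eventually_not.mpr hpr] with n hn1 hn2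
        rcases n with a | ⟨a, j, σ⟩
        · exact absurd (congrArg Sum.inl hn1) hn2
        · exact ⟨j, σ, by rw [show a = a0 from hn1]⟩
      obtain ⟨c, hc⟩ := h3 (Nd ι A) 𝒰 a0
        (fun n => match n with
          | Sum.inl _ => 0
          | Sum.inr (_, j, σ) => if σ then Finsupp.single j 1 else 0)
        (fun n => match n with
          | Sum.inl _ => 0
          | Sum.inr (_, j, σ) => if σ then 0 else Finsupp.single j 1)
        (by
          intro n i
          rcases n with a | ⟨a, j, σ⟩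
          · exact le_rfl
          · cases σ
            · exact le_rfl
            · simp only [if_true]
              rw [Finsupp.single_apply]
              split_ifs <;> norm_num)
        (by
          intro n i
          rcases n with a | ⟨a, j, σ⟩
          · exact le_rfl
          · cases σ
            · simp only [Bool.false_eq_true, if_false]
              rw [Finsupp.single_apply]
              split_ifs <;> norm_num
            · exact le_rfl)
        (by
          intro n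
          rcases n with a | ⟨a, j, σ⟩
          · dsimp only
            rw [mass_zero]; norm_num
          · cases σ
            · simp [mass]
            · simp [mass])
      refine ⟨c, ?_⟩
      intro M0 y hy t ht
      have hlim := hc y (mem_Y _ M0 y hy)
      have : t = pair c y := by
        refine tendsto_nhds_unique ht (hlim.congr' ?_)
        filter_upwards [hsus] with n hn
        obtain ⟨j, σ, rfl⟩ := hn
        cases σ
        · simp [fs]
        · simp [fs]
      rw [this, sub_self, abs_zero]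
      positivity
  · have hV : ∀ N : ℕ, ∀ᶠ a in ((𝒰.map α : Ultrafilter A) : Filter A), N < D.lv a := by
      intro N
      have hfin : ∀ᶠ n in (𝒰 : Filter (Nd ι A)), ∀ b ∈ {b | D.lv b ≤ N}, ¬ α n = b := by
        rw [Filter.eventually_all_finite (hD.fin N)]
        intro b _
        exact Ultrafilter.eventually_not.mpr fun h => hfix ⟨b, h⟩
      rw [Ultrafilter.coe_map, Filter.eventually_map]
      filter_upwards [hfin] with n hn
      by_contra hcon
      exact hn (α n) (not_lt.mp hcon) rfl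
    obtain ⟨c, hc⟩ := anchors hD h1 h2 h3 (𝒰.map α) hV
    refine ⟨c, ?_⟩
    intro M0 y hy t ht
    refine hc M0 y hy t ?_
    rw [Ultrafilter.coe_map, Filter.tendsto_map'_iff]
    refine ht.congr' ?_
    have hVM := hV M0
    rw [Ultrafilter.coe_map, Filter.eventually_map] at hVM
    filter_upwards [hVM] with n hn
    rcases n with a | ⟨a, j, σ⟩
    · rfl
    · have hn' : M0 < D.lv a := hn
      exact (h1 M0 a (by omega) y hy).1 j σ

end

end PB
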