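import Pool.Agent.PB57.LND

/-!
# MODULE EXN (5.3, 5.5): exactness of the glued system  (helper74)
-/

set_option autoImplicit false

open Filter Topology Set

namespace PB

noncomputable section

namespace EXN

variable {ι A X : Type} [NormedAddCommGroup X] [NormedSpace ℝ X]

/-- value of a suspended vector -/
lemma fs_susp (a : A) (d : ι →₀ ℝ) (y : Nd ι A → ℝ) :
    fs (susp a d) y = d.sum fun j t => |t| * y (Sum.inr (a, j, decide (0 ≤ t))) := by
  unfold susp Finsupp.sum
  rw [fs_finset_sum]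
  exact Finset.sum_congr rfl fun j _ => fs_single _ _ _

lemma hJ_apply (S : Sys ι) (h : ι → X →L[ℝ] ℝ) (K : ℕ) (j : ι) (x : X) :
    hJ S h K j x = h j x - fs (S.land K j) (fun i => h i x) := by
  unfold hJ fs
  rw [sub_apply, Finsupp.sum, Finsupp.sum, ContinuousLinearMap.sum_apply]
  rfl

lemma hJ_low (S : Sys ι) (h : ι → X →L[ℝ] ℝ) {K : ℕ} {j : ι} (hj : S.rk j ≤ K) (x : X) :
    hJ S h K j x = 0 := by
  rw [hJ_apply, land_low S hj, fs_single]
  ring

lemma land_zero {S : Sys ι} (hS : S.Ok) (h1 : ∀ j, 1 ≤ S.rk j) (j : ι) : S.land 0 j = 0 := by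
  rw [← Finsupp.support_eq_empty, Finset.eq_empty_iff_forall_notMem]
  intro i hi
  have := land_support hS 0 j i hi
  have := h1 i
  omega

lemma hJ_zero {S : Sys ι} (hS : S.Ok) (h1 : ∀ j, 1 ≤ S.rk j) (h : ι → X →L[ℝ] ℝ) (j : ι) (x : X) :
    hJ S h 0 j x = h j x := by
  rw [hJ_apply, land_zero hS h1, fs_zero, sub_zero]

/-- exactness of the tails -/
lemma hJ_exact {S : Sys ι} (hS : S.Ok) (F : ℕ → Submodule ℝ X) (h : ι → X →L[ℝ] ℝ) {K k : ℕ}
    {j : ι} (hj : K < S.rk j) (he : Exact F S h k j) {x : X} (hx : x ∈ F k) :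
    hJ S h K j x = fs (S.r j) (fun i => hJ S h K i x) := by
  rw [hJ_apply, he x hx, land_high hS hj, fs_sum]
  have e : (fun i => hJ S h K i x) =
      fun i => h i x - fs (S.land K i) (fun i => h i x) := funext fun i => hJ_apply S h K i x
  rw [e]
  simp only [fs, Finsupp.sum, mul_sub, Finset.sum_sub_distrib]

lemma norm_hJ_le {S : Sys ι} (hS : S.Ok) {h : ι → X →L[ℝ] ℝ} {H : ℝ} (hH : ∀ n, ‖h n‖ ≤ H)
    (hH0 : 0 ≤ H) (K : ℕ) (j : ι) : ‖hJ S h K j‖ ≤ 2 * H := by
  refine ContinuousLinearMap.opNorm_le_bound _ (by positivity) fun x => ?_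
  have h1 : ∀ n, |h n x| ≤ H * ‖x‖ := fun n => by
    have := (h n).le_opNorm x
    rw [Real.norm_eq_abs] at this
    exact this.trans (mul_le_mul_of_nonneg_right (hH n) (norm_nonneg x))
  rw [hJ_apply, Real.norm_eq_abs]
  have h2 : |fs (S.land K j) (fun i => h i x)| ≤ 1 * (H * ‖x‖) := by
    refine (abs_fs_le fun i _ => h1 i).trans ?_
    refine mul_le_mul_of_nonneg_right ?_ (by positivity)
    rw [nrm_eq_mass (land_nonneg hS K j)]
    exact land_mass hS K j
  calc |h j x - fs (S.land K j) (fun i => h i x)| ≤ |h j x| + |fs (S.land K j) (fun i => h i x)| :=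
        abs_sub _ _
    _ ≤ H * ‖x‖ + 1 * (H * ‖x‖) := add_le_add (h1 j) h2
    _ = 2 * H * ‖x‖ := by ring

/-- value of a suspended vector under the functionals of the glued system -/
lemma fs_susp_hN (S : Sys ι) (h : ι → X →L[ℝ] ℝ) (lv : A → ℕ) (ω : A → ℝ) (v : A → X →L[ℝ] ℝ)
    (a : A) (d : ι →₀ ℝ) (x : X) :
    fs (susp a d) (fun n => hN S h lv ω v n x) =
      ω a * (nrm d * v a x + fs d (fun j => hJ S h (lv a) j x)) := by
  rw [fs_susp]
  unfold nrm fs Finsupp.sum
  rw [Finset.sum_mul, ← Finset.sum_add_distrib, Finset.mul_sum]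
  refine Finset.sum_congr rfl fun j _ => ?_
  simp only [hN, smul_apply, add_apply, smul_eq_mul]
  by_cases hd : 0 ≤ d j
  · rw [decide_eq_true hd, if_pos rfl, abs_of_nonneg hd]; ring
  · rw [decide_eq_false hd, abs_of_neg (not_le.1 hd)]
    simp only [Bool.false_eq_true, if_false]
    ring

lemma fs_mapDomain {α β : Type} (f : α → β) (a : α →₀ ℝ) (y : β → ℝ) :
    fs (a.mapDomain f) y = fs a (fun i => y (f i)) := by
  unfold fs
  rw [Finsupp.sum_mapDomain_index (by simp) (fun _ _ _ => by ring)]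

lemma exact_inl {S : Sys ι} (hS : S.Ok) (h1 : ∀ j, 1 ≤ S.rk j) (F : ℕ → Submodule ℝ X)
    (h : ι → X →L[ℝ] ℝ) (D : AData ι A) (hlo : D.lv D.o = 0) (ω : A → ℝ) (v : A → X →L[ℝ] ℝ)
    (hωo : ω D.o = 1) (hvo : v D.o = 0) {k : ℕ} {c : A} (hc : AEx F S h D ω v k c) :
    Exact F (D.sys S) (hN S h D.lv ω v) k (Sum.inl c) := by
  intro x hx
  have e1 : (D.sys S).r (Sum.inl c) = D.ex c := rfl
  rw [e1]
  have e2 : hN S h D.lv ω v (Sum.inl c) x = ω c * v c x := rfl
  rw [e2, hc x hx]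
  unfold AData.ex
  rw [fs_add, fs_add, fs_mapDomain, fs_susp_hN, hωo, hvo, hlo]
  have e3 : fs (D.β c) (fun j => hJ S h 0 j x) = fs (D.β c) (fun j => h j x) :=
    fs_congr fun j _ => hJ_zero hS h1 h j x
  rw [e3]
  have e4 : fs (D.up c) (fun i => hN S h D.lv ω v (Sum.inl i) x) =
      fs (D.up c) (fun a => ω a * v a x) := rfl
  rw [e4]
  cases hp : D.par c with
  | none => simp
  | some a =>
    simp only [fs_smul, fs_add, fs_single, fs_susp_hN]
    have e5 : hN S h D.lv ω v (Sum.inl a) x = ω a * v a x := rfl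
    rw [e5]
    simp only [zero_apply]
    ring

lemma exact_inr {S : Sys ι} (hS : S.Ok) (F : ℕ → Submodule ℝ X)
    (h : ι → X →L[ℝ] ℝ) (D : AData ι A) (ω : A → ℝ) (v : A → X →L[ℝ] ℝ) {k : ℕ} {a : A} {j : ι}
    {σ : Bool} (hj : D.lv a < S.rk j → Exact F S h k j) :
    Exact F (D.sys S) (hN S h D.lv ω v) k (Sum.inr (a, j, σ)) := by
  classical
  intro x hx
  set fl := (S.r j).filter fun i => D.lv a < S.rk i with hfl
  have e1 : (D.sys S).r (Sum.inr (a, j, σ)) = fl.mapDomain (fun i => Sum.inr (a, i, σ)) +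
        Finsupp.single (Sum.inl a) (1 - mass fl) := by
    rw [hfl]
    rfl
  have hfa : ∀ i, fl i = if D.lv a < S.rk i then S.r j i else 0 := fun i => by
    rw [hfl, Finsupp.filter_apply]
  rw [e1, fs_add, fs_mapDomain, fs_single]
  have key : hJ S h (D.lv a) j x = fs fl (fun i => hJ S h (D.lv a) i x) := by
    by_cases hlt : D.lv a < S.rk j
    · rw [hJ_exact hS F h hlt (hj hlt) hx]
      rw [fs_eq_sum (a := fl) (s := (S.r j).support) (by
        rw [hfl, Finsupp.support_filter]; exact Finset.filter_subset _ _),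
        fs_eq_sum (subset_refl (S.r j).support)]
      refine Finset.sum_congr rfl fun i _ => ?_
      by_cases hi : D.lv a < S.rk i
      · rw [hfa, if_pos hi]
      · rw [hfa, if_neg hi, hJ_low S h (not_lt.1 hi)]
        ring
    · rw [hJ_low S h (not_lt.1 hlt)]
      have : fl = 0 := by
        refine Finsupp.ext fun i => ?_
        rw [hfa]
        by_cases hi : D.lv a < S.rk i
        · rw [if_pos hi]
          by_contra hcon
          have := hS.low j i hcon
          omega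
        · rw [if_neg hi]; rfl
      rw [this, fs_zero]
  set s : ℝ := if σ then (1 : ℝ) else -1 with hs
  have e2 : ∀ i, hN S h D.lv ω v (Sum.inr (a, i, σ)) x = ω a * (v a x + s * hJ S h (D.lv a) i x) :=
    fun i => rfl
  have e3 : hN S h D.lv ω v (Sum.inl a) x = ω a * v a x := rfl
  rw [e2, e3, key]
  simp_rw [e2]
  have e4 : fs fl (fun i => ω a * (v a x + s * hJ S h (D.lv a) i x)) =
      ω a * (mass fl * v a x + s * fs fl (fun i => hJ S h (D.lv a) i x)) := by
    unfold fs mass Finsupp.sum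
    rw [Finset.sum_mul, Finset.mul_sum, ← Finset.sum_add_distrib, Finset.mul_sum]
    exact Finset.sum_congr rfl fun i _ => by ring
  rw [e4]
  ring

end EXN

open EXN in
theorem stmtEXN (hSYS : StmtSYSN) : StmtEXN := by
  intro X _ _ F hF ι S h hN1 h1 A D hD ω v hω hv hωo hvo hA
  have hS := hN1.ok
  obtain ⟨H0, hH0⟩ := hN1.bdd
  set H := max H0 0 with hHd
  have hH : ∀ n, ‖h n‖ ≤ H := fun n => (hH0 n).trans (le_max_left _ _)
  have hHn : 0 ≤ H := le_max_right _ _
  -- bounds
  have hbd : ∀ n, ‖hN S h D.lv ω v n‖ ≤ 2 * (1 + 2 * H) := by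
    intro n
    rcases n with a | ⟨a, j, σ⟩
    · have e : hN S h D.lv ω v (Sum.inl a) = ω a • v a := rfl
      rw [e, norm_smul, Real.norm_eq_abs, abs_of_nonneg (hω a).1]
      have := (hω a).2
      have := hv a
      nlinarith [norm_nonneg (v a), (hω a).1]
    · have e : hN S h D.lv ω v (Sum.inr (a, j, σ)) =
          ω a • (v a + (if σ then (1 : ℝ) else -1) • hJ S h (D.lv a) j) := rfl
      rw [e, norm_smul, Real.norm_eq_abs, abs_of_nonneg (hω a).1]
      have h2 : ‖v a + (if σ then (1 : ℝ) else -1) • hJ S h (D.lv a) j‖ ≤ 1 + 2 * H := by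
        refine (norm_add_le _ _).trans (add_le_add (hv a) ?_)
        rw [norm_smul]
        have : ‖(if σ then (1 : ℝ) else -1)‖ = 1 := by split_ifs <;> simp
        rw [this, one_mul]
        exact norm_hJ_le hS hH hHn _ _
      exact mul_le_mul (hω a).2 h2 (norm_nonneg _) (by norm_num)
  have hba : ∀ x, BddAbove (Set.range fun n => |hN S h D.lv ω v n x|) := by
    intro x
    refine ⟨2 * (1 + 2 * H) * ‖x‖, ?_⟩
    rintro _ ⟨n, rfl⟩
    have := (hN S h D.lv ω v n).le_opNorm x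
    rw [Real.norm_eq_abs] at this
    exact this.trans (mul_le_mul_of_nonneg_right (hbd n) (norm_nonneg x))
  have hle : ∀ n x, |hN S h D.lv ω v n x| ≤ ph (hN S h D.lv ω v) x := fun n x =>
    le_ciSup (hba x) n
  refine ⟨⟨hSYS ι S hS h1 A D hD, ⟨_, hbd⟩, fun k => ?_⟩, fun x => ?_, fun a x ha => ?_⟩
  · -- exactness
    have hf1 := hA k
    have hf2 := hN1.ex k
    have hf3 : ({j | ¬ Exact F S h k j}).Finite := hf2
    have hfin : ((fun c : A => (Sum.inl c : Nd ι A)) '' {c | ¬ AEx F S h D ω v k c} ∪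
        (⋃ j ∈ {j | ¬ Exact F S h k j}, (fun p : A × Bool => (Sum.inr (p.1, j, p.2) : Nd ι A)) ''
          ({a | D.lv a ≤ S.rk j} ×ˢ Set.univ))).Finite := by
      refine (hf1.image _).union (hf3.biUnion fun j _ => ?_)
      exact ((hD.fin (S.rk j)).prod Set.finite_univ).image _
    refine hfin.subset fun n hn => ?_
    rcases n with c | ⟨a, j, σ⟩
    · left
      refine ⟨c, ?_, rfl⟩
      intro hc
      exact hn (exact_inl hS h1 F h D hD.lvo ω v hωo hvo hc)
    · right
      have h2 : ¬ (D.lv a < S.rk j → Exact F S h k j) := fun hc =>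
        hn (exact_inr hS F h D ω v hc)
      push Not at h2
      refine Set.mem_biUnion (x := j) h2.2 ⟨(a, σ), ⟨h2.1.le, trivial⟩, rfl⟩
  · -- ph h ≤ ph hN
    refine Real.iSup_le (fun j => ?_) ?_
    · have := hle (Sum.inr (D.o, j, true)) x
      have e : hN S h D.lv ω v (Sum.inr (D.o, j, true)) x = h j x := by
        change ω D.o * (v D.o x + (1 : ℝ) * hJ S h (D.lv D.o) j x) = h j x
        rw [hωo, hvo, hD.lvo, hJ_zero hS h1]
        simp
      rwa [e] at this
    · exact (abs_nonneg _).trans (hle (Sum.inl D.o) x)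
  · have h2 := hle (Sum.inl a) x
    have e : hN S h D.lv ω v (Sum.inl a) x = ω a * v a x := rfl
    rw [e, abs_mul, abs_of_nonneg (hω a).1] at h2
    nlinarith [abs_nonneg (v a x)]

end

end PB
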