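import Pool.Agent.PB57.Stmts

/-!
# Module GT (1.2): the criterion for the dual condition
-/

set_option autoImplicit false

open Filter Topology Set

namespace PB

noncomputable section

namespace GTm

variable {ι : Type}

lemma sum_abs (c : L1 ι) : Summable (fun n => |c n|) := by
  have h := (lp.memℓp c).summable (by norm_num)
  simpa using h

lemma le_norm (y : Li ι) (n : ι) : |y n| ≤ ‖y‖ := by
  have := lp.norm_apply_le_norm (E := fun _ : ι => ℝ) ENNReal.top_ne_zero y n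
  simpa using this

lemma sum_pair (c : L1 ι) (y : Li ι) : Summable (fun n => c n * y n) := by
  refine Summable.of_norm_bounded ((sum_abs c).mul_right ‖y‖) fun n => ?_
  rw [Real.norm_eq_abs, abs_mul]
  exact mul_le_mul_of_nonneg_left (le_norm y n) (abs_nonneg _)

lemma pair_add (c : L1 ι) (y y' : Li ι) : pair c (y + y') = pair c y + pair c y' := by
  unfold pair
  rw [← (sum_pair c y).tsum_add (sum_pair c y')]
  refine tsum_congr fun n => ?_
  rw [lp.coeFn_add, Pi.add_apply]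
  ring

lemma pair_smul (c : L1 ι) (a : ℝ) (y : Li ι) : pair c (a • y) = a * pair c y := by
  unfold pair
  rw [← tsum_mul_left]
  refine tsum_congr fun n => ?_
  rw [lp.coeFn_smul, Pi.smul_apply, smul_eq_mul]
  ring

lemma add_pair (c c' : L1 ι) (y : Li ι) : pair (c + c') y = pair c y + pair c' y := by
  unfold pair
  rw [← (sum_pair c y).tsum_add (sum_pair c' y)]
  refine tsum_congr fun n => ?_
  rw [lp.coeFn_add, Pi.add_apply]
  ring

lemma smul_pair (c : L1 ι) (a : ℝ) (y : Li ι) : pair (a • c) y = a * pair c y := by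
  unfold pair
  rw [← tsum_mul_left]
  refine tsum_congr fun n => ?_
  rw [lp.coeFn_smul, Pi.smul_apply, smul_eq_mul]
  ring

open Classical in
lemma single_pair (n : ι) (y : Li ι) : pair (lp.single 1 n (1 : ℝ)) y = y n := by
  unfold pair
  rw [tsum_eq_single n]
  · rw [lp.single_apply_self, one_mul]
  · intro m hm
    rw [lp.single_apply_ne _ _ _ hm, zero_mul]

section core

variable {Y : Type} [NormedAddCommGroup Y] [NormedSpace ℝ Y]

/-- the functional of a vector of l_1 -/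
def J (i : Y →ₗᵢ[ℝ] Li ι) (hb : ∀ (c : L1 ι) (y : Li ι), |pair c y| ≤ ‖c‖ * ‖y‖) :
    L1 ι →ₗ[ℝ] (Y →L[ℝ] ℝ) where
  toFun c := LinearMap.mkContinuous
    { toFun := fun y : Y => pair c (i y)
      map_add' := fun y y' => by rw [map_add, pair_add]
      map_smul' := fun a y => by rw [map_smul, pair_smul]; rfl } ‖c‖
    (fun y => by
      rw [Real.norm_eq_abs]
      have := hb c (i y)
      rwa [i.norm_map] at this)
  map_add' c c' := by
    ext y
    exact add_pair c c' (i y)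
  map_smul' a c := by
    ext y
    exact smul_pair c a (i y)

lemma J_apply (i : Y →ₗᵢ[ℝ] Li ι) (hb : ∀ (c : L1 ι) (y : Li ι), |pair c y| ≤ ‖c‖ * ‖y‖)
    (c : L1 ι) (y : Y) : J i hb c y = pair c (i y) := rfl

/-- functionals vanishing on the vectors which vanish on finitely many nodes come from l_1 -/
lemma mem_range (i : Y →ₗᵢ[ℝ] Li ι) (A : Set ι) (hA : A.Finite) (K : Y →L[ℝ] ℝ)
    (hK : ∀ y : Y, (∀ n ∈ A, i y n = 0) → K y = 0) :
    ∃ c : L1 ι, ∀ y : Y, K y = pair c (i y) := by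
  classical
  have := hA.to_subtype
  let L : A → Y →ₗ[ℝ] ℝ := fun n =>
    { toFun := fun y => i y n
      map_add' := fun y y' => by rw [map_add, lp.coeFn_add, Pi.add_apply]
      map_smul' := fun a y => by rw [map_smul, lp.coeFn_smul, Pi.smul_apply]; rfl }
  have h1 : (K : Y →ₗ[ℝ] ℝ) ∈ Submodule.span ℝ (Set.range L) := by
    refine mem_span_of_iInf_ker_le_ker fun y hy => ?_
    rw [LinearMap.mem_ker]
    refine hK y fun n hn => ?_
    rw [Submodule.mem_iInf] at hy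
    exact hy ⟨n, hn⟩
  have key : ∀ K' ∈ Submodule.span ℝ (Set.range L), ∃ c : L1 ι, ∀ y : Y, K' y = pair c (i y) := by
    intro K' hK'
    induction hK' using Submodule.span_induction with
    | mem x hx =>
      obtain ⟨n, rfl⟩ := hx
      exact ⟨lp.single 1 (n : ι) (1 : ℝ), fun y => (single_pair (n : ι) (i y)).symm⟩
    | zero => exact ⟨0, fun y => by simp [pair]⟩
    | add x z _ _ hx hz =>
      obtain ⟨c, hc⟩ := hx
      obtain ⟨c', hc'⟩ := hz
      exact ⟨c + c', fun y => by rw [LinearMap.add_apply, hc, hc', add_pair]⟩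
    | smul a x _ hx =>
      obtain ⟨c, hc⟩ := hx
      exact ⟨a • c, fun y => by rw [LinearMap.smul_apply, hc, smul_pair]; rfl⟩
  exact key _ h1

/-- the criterion for an abstract subspace -/
theorem core (hCVX : StmtCVX) (i : Y →ₗᵢ[ℝ] Li ι) (rk : ι → ℕ)
    (hfin : ∀ M : ℕ, {n | rk n ≤ M}.Finite)
    (h9 : ∀ c : L1 ι, ∀ ε : ℝ, 0 < ε → ∃ y : Y, ‖y‖ ≤ 1 ∧ ‖c‖ - ε ≤ pair c (i y))
    (hb : ∀ (c : L1 ι) (y : Li ι), |pair c y| ≤ ‖c‖ * ‖y‖) (q : ℝ) (hq0 : 0 ≤ q) (hq1 : q < 1)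
    (hU : ∀ 𝒰 : Ultrafilter ι, ∃ c : L1 ι, ∀ y : Y, ∀ a : ℝ,
      Tendsto (fun n => i y n) 𝒰 (𝓝 a) → |a - pair c (i y)| ≤ q * ‖y‖) (φ' : Y →L[ℝ] ℝ) :
    ∃ c : L1 ι, ∀ y : Y, φ' y = pair c (i y) := by
  by_contra hD
  -- the range of J
  have hJnorm : ∀ c : L1 ι, ‖J i hb c‖ = ‖c‖ := by
    intro c
    refine le_antisymm ?_ ?_
    · refine ContinuousLinearMap.opNorm_le_bound _ (norm_nonneg _) fun y => ?_
      rw [J_apply, Real.norm_eq_abs]
      have := hb c (i y)
      rwa [i.norm_map] at this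
    · refine le_of_forall_pos_sub_le fun ε hε => ?_
      obtain ⟨y, hy1, hy2⟩ := h9 c ε hε
      have h1 := (J i hb c).le_opNorm y
      rw [J_apply, Real.norm_eq_abs] at h1
      have h3 := le_abs_self (pair c (i y))
      have h4 : ‖J i hb c‖ * ‖y‖ ≤ ‖J i hb c‖ * 1 :=
        mul_le_mul_of_nonneg_left hy1 (norm_nonneg _)
      linarith
  let Ji : L1 ι →ₗᵢ[ℝ] (Y →L[ℝ] ℝ) := ⟨J i hb, hJnorm⟩
  have hclosed : IsClosed ((LinearMap.range (J i hb) : Submodule ℝ (Y →L[ℝ] ℝ)) :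
      Set (Y →L[ℝ] ℝ)) := by
    have h1 : IsClosed (Set.range Ji) := (Isometry.isClosedEmbedding Ji.isometry).isClosed_range
    have h2 : ((LinearMap.range (J i hb) : Submodule ℝ (Y →L[ℝ] ℝ)) : Set (Y →L[ℝ] ℝ)) =
        Set.range Ji := LinearMap.coe_range _
    rw [h2]
    exact h1
  have hex : ∃ φ : Y →L[ℝ] ℝ, φ ∉ LinearMap.range (J i hb) := by
    refine ⟨φ', fun h => hD ?_⟩
    obtain ⟨c, hc⟩ := h
    exact ⟨c, fun y => by rw [← hc, J_apply]⟩
  obtain ⟨r, hqr, hr1⟩ := exists_between hq1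
  obtain ⟨θ, hqθ, hθr⟩ := exists_between hqr
  obtain ⟨x0, hx0, hx0'⟩ := riesz_lemma hclosed hex hr1
  have hx0n : 0 < ‖x0‖ := by
    rw [norm_pos_iff]
    rintro rfl
    exact hx0 (Submodule.zero_mem _)
  set φ : Y →L[ℝ] ℝ := ‖x0‖⁻¹ • x0 with hφ
  have hφ1 : ‖φ‖ = 1 := by
    rw [hφ, norm_smul, norm_inv, norm_norm, inv_mul_cancel₀ hx0n.ne']
  have hφd : ∀ z ∈ LinearMap.range (J i hb), r ≤ ‖φ - z‖ := by
    intro z hz
    have h1 := hx0' (‖x0‖ • z) (Submodule.smul_mem _ _ hz)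
    have h2 : φ - z = ‖x0‖⁻¹ • (x0 - ‖x0‖ • z) := by
      rw [smul_sub, smul_smul, inv_mul_cancel₀ hx0n.ne', one_smul]
    rw [h2, norm_smul, norm_inv, norm_norm]
    calc r = ‖x0‖⁻¹ * (r * ‖x0‖) := by field_simp
      _ ≤ ‖x0‖⁻¹ * ‖x0 - ‖x0‖ • z‖ := mul_le_mul_of_nonneg_left h1 (by positivity)
  -- vectors vanishing on the nodes of small rank
  have hy : ∀ N : ℕ, ∃ y : Y, ‖y‖ ≤ 1 ∧ (∀ n, rk n ≤ N → i y n = 0) ∧ θ < φ y := by
    intro N
    let W : Submodule ℝ Y :=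
      { carrier := {y | ∀ n, rk n ≤ N → i y n = 0}
        add_mem' := by
          intro a b ha hb' n hn
          rw [map_add, lp.coeFn_add, Pi.add_apply, ha n hn, hb' n hn, add_zero]
        zero_mem' := by
          intro n _
          simp
        smul_mem' := by
          intro a y hy n hn
          rw [map_smul, lp.coeFn_smul, Pi.smul_apply, hy n hn, smul_zero] }
    obtain ⟨ψ, hψ1, hψ2⟩ := exists_extension_norm_eq W (φ.comp W.subtypeL)
    have h1 : ∃ c : L1 ι, ∀ y : Y, (φ - ψ) y = pair c (i y) := by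
      refine mem_range i {n | rk n ≤ N} (hfin N) (φ - ψ) fun y hy => ?_
      have h2 := hψ1 ⟨y, hy⟩
      rw [ContinuousLinearMap.sub_apply]
      have h3 : ψ y = φ y := h2
      rw [h3, sub_self]
    obtain ⟨c, hc⟩ := h1
    have h4 : φ - ψ = J i hb c := by
      ext y
      rw [hc, J_apply]
    have h5 : r ≤ ‖ψ‖ := by
      have h6 := hφd (J i hb c) ⟨c, rfl⟩
      rw [← h4, sub_sub_cancel] at h6
      exact h6
    rw [hψ2] at h5
    obtain ⟨w, hw1, hw2⟩ := (φ.comp W.subtypeL).exists_lt_apply_of_lt_opNorm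
      (lt_of_lt_of_le hθr h5)
    have hw3 : (φ.comp W.subtypeL) w = φ (w : Y) := rfl
    rw [hw3, Real.norm_eq_abs] at hw2
    have hw1' : ‖(w : Y)‖ ≤ 1 := hw1.le
    rcases le_or_gt 0 (φ (w : Y)) with h6 | h6
    · rw [abs_of_nonneg h6] at hw2
      exact ⟨w, hw1', w.2, hw2⟩
    · rw [abs_of_neg h6] at hw2
      refine ⟨-(w : Y), by rwa [norm_neg], (-w).2, ?_⟩
      rwa [map_neg]
  choose y hy1 hy2 hy3 using hy
  -- convexification
  have hcvx := hCVX ι (fun N => i (y N)) q hq0 (fun N => by rw [i.norm_map]; exact hy1 N) ?_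
    ((θ - q) / 2) (by linarith)
  · obtain ⟨s, t, ht0, ht1, hn⟩ := hcvx
    have h1 : φ (∑ N ∈ s, t N • y N) ≤ q + (θ - q) / 2 := by
      have h2 := φ.le_opNorm (∑ N ∈ s, t N • y N)
      rw [hφ1, one_mul] at h2
      have h3 : ‖∑ N ∈ s, t N • y N‖ = ‖∑ N ∈ s, t N • i (y N)‖ := by
        rw [← i.norm_map, map_sum]
        simp only [map_smul]
      rw [h3] at h2
      exact (le_abs_self _).trans (h2.trans hn)
    have h4 : θ ≤ φ (∑ N ∈ s, t N • y N) := by
      rw [map_sum]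
      simp only [map_smul, smul_eq_mul]
      calc θ = ∑ N ∈ s, t N * θ := by rw [← Finset.sum_mul, ht1, one_mul]
        _ ≤ ∑ N ∈ s, t N * φ (y N) := Finset.sum_le_sum fun N _ =>
            mul_le_mul_of_nonneg_left (hy3 N).le (ht0 N)
    linarith
  · intro 𝒰 a ha e he
    obtain ⟨c, hc⟩ := hU 𝒰
    have h1 : Tendsto (fun N => pair c (i (y N))) atTop (𝓝 (∑' _ : ι, (0 : ℝ))) := by
      refine tendsto_tsum_of_dominated_convergence (sum_abs c) (fun n => ?_) ?_
      · refine tendsto_const_nhds.congr' ?_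
        filter_upwards [eventually_ge_atTop (rk n)] with N hN
        rw [hy2 N n hN, mul_zero]
      · refine Eventually.of_forall fun N n => ?_
        rw [Real.norm_eq_abs, abs_mul]
        have h7 : |i (y N) n| ≤ 1 := by
          refine (le_norm _ n).trans ?_
          rw [i.norm_map]
          exact hy1 N
        calc |c n| * |i (y N) n| ≤ |c n| * 1 := mul_le_mul_of_nonneg_left h7 (abs_nonneg _)
          _ = |c n| := mul_one _
    rw [tsum_zero] at h1
    have h2 := h1.abs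
    rw [abs_zero] at h2
    filter_upwards [h2.eventually_le_const he] with N hN
    have h3 := hc (y N) (a N) (ha N)
    have h4 : q * ‖y N‖ ≤ q * 1 := mul_le_mul_of_nonneg_left (hy1 N) hq0
    have h5 := abs_sub_abs_le_abs_sub (a N) (pair c (i (y N)))
    linarith

end core

lemma E_le_Y (S : Sys ι) (M : ℕ) : S.E M ≤ S.Y :=
  (le_iSup S.E M).trans (Submodule.le_topologicalClosure _)

end GTm

open GTm

/-- MODULE GT (1.2): the criterion -/
theorem stmtGT (hLND : StmtLND) (hCVX : StmtCVX) : StmtGT := by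
  intro ι S hS q hq0 hq1 hU φ
  obtain ⟨-, -, -, -, -, -, -, -, h9, hb, -⟩ := hLND ι S hS
  refine core hCVX (S.Y.subtypeₗᵢ) S.rk hS.fin (fun c ε hε => ?_) hb q hq0 hq1 (fun 𝒰 => ?_) φ
  · obtain ⟨M, y, hyE, hy1, hy2⟩ := h9 c ε hε
    exact ⟨⟨y, E_le_Y S M hyE⟩, hy1, hy2⟩
  · obtain ⟨c, hc⟩ := hU 𝒰
    exact ⟨c, fun y a ha => hc y y.2 a ha⟩

end

end PB
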