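import Pool.Agent.PB57.Stmts

/-!
# Module ISO: the dual of Y is isometric to l_1(N)   (helper62)
-/

set_option autoImplicit false

open Filter Topology Set

namespace PB

noncomputable section

namespace ISO

variable {ι : Type}

theorem sum_norm (c : L1 ι) : Summable fun n => ‖c n‖ := by
  have h := (lp.memℓp c).summable (by simp)
  simpa using h

theorem sum_pair (c : L1 ι) (y : Li ι) : Summable fun n => c n * y n := by
  apply Summable.of_norm_bounded (g := fun n => ‖c n‖ * ‖y‖) ((sum_norm c).mul_right _)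
  intro n
  rw [norm_mul]
  exact mul_le_mul_of_nonneg_left (lp.norm_apply_le_norm ENNReal.top_ne_zero y n) (norm_nonneg _)

theorem pair_add_right (c : L1 ι) (y z : Li ι) : pair c (y + z) = pair c y + pair c z := by
  unfold pair
  rw [← (sum_pair c y).tsum_add (sum_pair c z)]
  apply tsum_congr
  intro n
  rw [lp.coeFn_add, Pi.add_apply]; ring

theorem pair_smul_right (c : L1 ι) (t : ℝ) (y : Li ι) : pair c (t • y) = t * pair c y := by
  unfold pair
  rw [← tsum_mul_left]
  apply tsum_congr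
  intro n
  rw [lp.coeFn_smul, Pi.smul_apply, smul_eq_mul]; ring

theorem pair_add_left (c c' : L1 ι) (y : Li ι) : pair (c + c') y = pair c y + pair c' y := by
  unfold pair
  rw [← (sum_pair c y).tsum_add (sum_pair c' y)]
  apply tsum_congr
  intro n
  rw [lp.coeFn_add, Pi.add_apply]; ring

theorem pair_smul_left (c : L1 ι) (t : ℝ) (y : Li ι) : pair (t • c) y = t * pair c y := by
  unfold pair
  rw [← tsum_mul_left]
  apply tsum_congr
  intro n
  rw [lp.coeFn_smul, Pi.smul_apply, smul_eq_mul]; ring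

theorem mem_Y (S : Sys ι) (M : ℕ) {y : Li ι} (hy : y ∈ S.E M) : y ∈ S.Y :=
  (⨆ M, S.E M).le_topologicalClosure (le_iSup S.E M hy)

/-- the functional of a vector of l_1 -/
def phi (S : Sys ι) (hb : ∀ (c : L1 ι) (y : Li ι), |pair c y| ≤ ‖c‖ * ‖y‖) :
    L1 ι →ₗ[ℝ] (S.Y →L[ℝ] ℝ) where
  toFun c := LinearMap.mkContinuous
    { toFun := fun y : S.Y => pair c (y : Li ι)
      map_add' := fun y z => pair_add_right c y z
      map_smul' := fun t y => pair_smul_right c t y } ‖c‖ (fun y => hb c y)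
  map_add' c c' := by
    ext y
    exact pair_add_left c c' y
  map_smul' t c := by
    ext y
    exact pair_smul_left c t y

theorem phi_apply (S : Sys ι) (hb : ∀ (c : L1 ι) (y : Li ι), |pair c y| ≤ ‖c‖ * ‖y‖) (c : L1 ι)
    (y : S.Y) : phi S hb c y = pair c (y : Li ι) := rfl

/-- reindexing -/
def reidx {κ : Type} (e : ι ≃ κ) : L1 ι →ₗ[ℝ] L1 κ where
  toFun f := ⟨fun n => f (e.symm n), by
    apply memℓp_gen
    have h := (lp.memℓp f).summable (by simp)
    exact (e.symm.summable_iff (f := fun i => ‖f i‖ ^ (1 : ENNReal).toReal)).2 h⟩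
  map_add' f g := rfl
  map_smul' t f := rfl

theorem reidx_apply {κ : Type} (e : ι ≃ κ) (f : L1 ι) (n : κ) : reidx e f n = f (e.symm n) := rfl

theorem norm_eq (f : L1 ι) : ‖f‖ = ∑' i, ‖f i‖ := by
  rw [lp.norm_eq_tsum_rpow (by simp)]
  simp

theorem norm_reidx {κ : Type} (e : ι ≃ κ) (f : L1 ι) : ‖reidx e f‖ = ‖f‖ := by
  rw [norm_eq, norm_eq]
  exact e.symm.tsum_eq (fun i => ‖f i‖)

end ISO

open ISO

/-- module ISO -/
theorem stmtISO (hL : StmtLND) : StmtISO := by
  intro ι S hS hD hinf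
  obtain ⟨-, -, -, -, -, -, -, -, hatt, hb, -⟩ := hL ι S hS
  -- isometry onto
  have hnorm : ∀ c : L1 ι, ‖phi S hb c‖ = ‖c‖ := by
    intro c
    apply le_antisymm
    · exact ContinuousLinearMap.opNorm_le_bound _ (norm_nonneg _) (fun y => hb c y)
    · apply le_of_forall_pos_le_add
      intro e he
      obtain ⟨M, y, hy, hy1, hc⟩ := hatt c e he
      have h1 : phi S hb c ⟨y, mem_Y S M hy⟩ = pair c y := rfl
      have h2 := (phi S hb c).le_opNorm ⟨y, mem_Y S M hy⟩
      have h3 : ‖(⟨y, mem_Y S M hy⟩ : S.Y)‖ = ‖y‖ := rfl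
      rw [h1, h3] at h2
      have h4 : pair c y ≤ ‖pair c y‖ := Real.le_norm_self _
      have h6 : 0 ≤ ‖phi S hb c‖ := (phi S hb c).opNorm_nonneg
      have h5 : ‖phi S hb c‖ * ‖y‖ ≤ ‖phi S hb c‖ := mul_le_of_le_one_right h6 hy1
      linarith
  have hsurj : Function.Surjective (phi S hb) := by
    intro φ
    obtain ⟨c, hc⟩ := hD φ
    exact ⟨c, by ext y; exact (hc y).symm⟩
  -- countable
  have hcount : Countable ι := by
    rw [← Set.countable_univ_iff]
    have h1 : (univ : Set ι) = ⋃ M : ℕ, {n | S.rk n ≤ M} := by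
      ext n
      simp only [mem_univ, mem_iUnion, true_iff]
      exact ⟨S.rk n, le_refl (S.rk n)⟩
    rw [h1]
    exact Set.countable_iUnion fun M => (hS.fin M).countable
  obtain ⟨e⟩ : Nonempty (ι ≃ ℕ) := nonempty_equiv_of_countable
  let P : L1 ι →ₗᵢ[ℝ] (S.Y →L[ℝ] ℝ) := ⟨phi S hb, hnorm⟩
  let Q : L1 ι →ₗᵢ[ℝ] lp (fun _ : ℕ => ℝ) 1 := ⟨reidx e, norm_reidx e⟩
  have hQ : Function.Surjective Q := by
    intro f
    refine ⟨reidx e.symm f, ?_⟩
    apply lp.ext
    funext n
    change reidx e (reidx e.symm f) n = f n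
    rw [reidx_apply, reidx_apply]
    simp
  exact ⟨(LinearIsometryEquiv.ofSurjective P hsurj).symm.trans
    (LinearIsometryEquiv.ofSurjective Q hQ)⟩

end

end PB
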