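import Pool.Agent.PB57.Stmts

/-!
# MP_b57e2f_an: module LIM (limits of bounded l_1 vectors, the operator T, lifts, representation
of small functionals on F_k)
-/

set_option autoImplicit false

open Filter Topology Set

namespace PB

noncomputable section

namespace LIMaux

theorem summable_pair {ι : Type} (c : L1 ι) (y : Li ι) : Summable fun n => c n * y n := by
  have hc : Summable fun n => ‖c n‖ := by
    have := (lp.memℓp c).summable (by norm_num : (0:ℝ) < (1:ENNReal).toReal)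
    simpa using this
  refine Summable.of_norm_bounded (g := fun n => ‖c n‖ * ‖y‖) (hc.mul_right _) ?_
  intro n
  rw [norm_mul]
  exact mul_le_mul_of_nonneg_left (lp.norm_apply_le_norm (by simp) y n) (norm_nonneg _)

theorem pair_add_right {ι : Type} (c : L1 ι) (y z : Li ι) :
    pair c (y + z) = pair c y + pair c z := by
  unfold pair
  rw [← (summable_pair c y).tsum_add (summable_pair c z)]
  refine tsum_congr fun n => ?_
  simp only [lp.coeFn_add, Pi.add_apply]
  ring

theorem pair_smul_right {ι : Type} (c : L1 ι) (t : ℝ) (y : Li ι) :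
    pair c (t • y) = t * pair c y := by
  unfold pair
  rw [← tsum_mul_left]
  refine tsum_congr fun n => ?_
  simp only [lp.coeFn_smul, Pi.smul_apply, smul_eq_mul]
  ring

theorem E_le_Y {ι : Type} (S : Sys ι) (M : ℕ) : S.E M ≤ S.Y :=
  le_trans (le_iSup S.E M) (Submodule.le_topologicalClosure _)

theorem norm_le_of_pair (hL : StmtLND) {ι : Type} (S : Sys ι) (hS : S.Ok) (c : L1 ι) (C : ℝ)
    (hC : 0 ≤ C) (h : ∀ y ∈ S.Y, |pair c y| ≤ C * ‖y‖) : ‖c‖ ≤ C := by
  obtain ⟨-, -, -, -, -, -, -, -, h9, -, -⟩ := hL ι S hS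
  refine le_of_forall_pos_le_add fun ε hε => ?_
  obtain ⟨M, y, hy, hy1, hy2⟩ := h9 c ε hε
  have h1 := h y (E_le_Y S M hy)
  have h2 := le_abs_self (pair c y)
  have h3 : C * ‖y‖ ≤ C * 1 := mul_le_mul_of_nonneg_left hy1 hC
  linarith

end LIMaux

open LIMaux

theorem stmtLIM (hL : StmtLND) : StmtLIM := by
  intro ι S hS hD J 𝒰 κ C hκ
  have h10 : ∀ (c : L1 ι) (y : Li ι), |pair c y| ≤ ‖c‖ * ‖y‖ := (hL ι S hS).2.2.2.2.2.2.2.2.2.1
  have hC : 0 ≤ C := by
    obtain ⟨i⟩ := 𝒰.nonempty_of_neBot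
    exact le_trans (norm_nonneg _) (hκ i)
  have hlim : ∀ y : Li ι, ∃ a : ℝ, |a| ≤ C * ‖y‖ ∧ Tendsto (fun i => pair (κ i) y) 𝒰 (𝓝 a) := by
    intro y
    have hb : ∀ i, pair (κ i) y ∈ Set.Icc (-(C * ‖y‖)) (C * ‖y‖) := by
      intro i
      have h1 := le_trans (h10 (κ i) y) (mul_le_mul_of_nonneg_right (hκ i) (norm_nonneg y))
      exact abs_le.mp h1
    have hc : IsCompact (Set.Icc (-(C * ‖y‖)) (C * ‖y‖)) := isCompact_Icc
    obtain ⟨a, ha, ha2⟩ := hc.ultrafilter_le_nhds (𝒰.map fun i => pair (κ i) y) (by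
      rw [le_principal_iff]
      exact Filter.mem_map.mpr (Filter.univ_mem' hb))
    exact ⟨a, abs_le.mpr ha, ha2⟩
  choose φ hφ1 hφ2 using hlim
  let φl : S.Y →ₗ[ℝ] ℝ :=
    { toFun := fun y => φ y
      map_add' := by
        intro y z
        refine tendsto_nhds_unique (hφ2 _) ?_
        have := (hφ2 y).add (hφ2 z)
        refine this.congr fun i => ?_
        exact (pair_add_right _ _ _).symm
      map_smul' := by
        intro t y
        refine tendsto_nhds_unique (hφ2 _) ?_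
        have := (hφ2 y).const_mul t
        refine this.congr fun i => ?_
        exact (pair_smul_right _ _ _).symm }
  let φc : S.Y →L[ℝ] ℝ := φl.mkContinuous C fun y => by
    rw [Real.norm_eq_abs]
    exact hφ1 y
  obtain ⟨κ', hκ'⟩ := hD φc
  have hκ2 : ∀ y ∈ S.Y, φ y = pair κ' y := fun y hy => hκ' ⟨y, hy⟩
  refine ⟨κ', ?_, ?_⟩
  · refine norm_le_of_pair hL S hS κ' C hC fun y hy => ?_
    rw [← hκ2 y hy]
    exact hφ1 y
  · intro y hy
    rw [← hκ2 y hy]
    exact hφ2 y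

namespace LIMaux

section TM

variable {X : Type} [NormedAddCommGroup X] [NormedSpace ℝ X]

theorem summable_hc {ι : Type} (h : ι → X →L[ℝ] ℝ) (H : ℝ) (hH : ∀ n, ‖h n‖ ≤ H) (c : L1 ι) :
    Summable fun n => c n • h n := by
  have hc : Summable fun n => ‖c n‖ := by
    have := (lp.memℓp c).summable (by norm_num : (0:ℝ) < (1:ENNReal).toReal)
    simpa using this
  refine Summable.of_norm_bounded (g := fun n => ‖c n‖ * H) (hc.mul_right _) ?_
  intro n
  rw [norm_smul]
  exact mul_le_mul_of_nonneg_left (hH n) (norm_nonneg _)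

theorem hc_apply {ι : Type} (h : ι → X →L[ℝ] ℝ) (H : ℝ) (hH : ∀ n, ‖h n‖ ≤ H) (c : L1 ι)
    (x : X) : hc h c x = ∑' n, c n * h n x := by
  have := (ContinuousLinearMap.apply ℝ ℝ x).map_tsum (summable_hc h H hH c)
  simpa [hc] using this

theorem memT {ι : Type} (h : ι → X →L[ℝ] ℝ) (H : ℝ) (hH : ∀ n, ‖h n‖ ≤ H) (x : X) :
    Memℓp (fun n => h n x) (⊤ : ENNReal) := by
  refine memℓp_infty ⟨H * ‖x‖, ?_⟩
  rintro _ ⟨n, rfl⟩
  exact le_trans ((h n).le_opNorm x) (mul_le_mul_of_nonneg_right (hH n) (norm_nonneg _))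

/-- the operator T with values in l_infinity -/
def T0 {ι : Type} (h : ι → X →L[ℝ] ℝ) (H : ℝ) (hH : ∀ n, ‖h n‖ ≤ H) : X →L[ℝ] Li ι :=
  LinearMap.mkContinuous
    { toFun := fun x => (⟨fun n => h n x, memT h H hH x⟩ : Li ι)
      map_add' := by
        intro x y
        ext n
        simp
      map_smul' := by
        intro t x
        ext n
        simp }
    (max H 0)
    (by
      intro x
      refine lp.norm_le_of_forall_le (by positivity) ?_
      intro n
      exact le_trans ((h n).le_opNorm x)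
        (mul_le_mul_of_nonneg_right (le_trans (hH n) (le_max_left _ _)) (norm_nonneg _)))

theorem T0_apply {ι : Type} (h : ι → X →L[ℝ] ℝ) (H : ℝ) (hH : ∀ n, ‖h n‖ ≤ H) (x : X) (n : ι) :
    T0 h H hH x n = h n x := rfl

theorem T0_memE {ι : Type} (F : ℕ → Submodule ℝ X) (S : Sys ι) (h : ι → X →L[ℝ] ℝ) (H : ℝ)
    (hH : ∀ n, ‖h n‖ ≤ H) (k K : ℕ) (hk : ∀ j, K < S.rk j → Exact F S h k j) (x : X)
    (hx : x ∈ F k) : T0 h H hH x ∈ S.E K := by
  intro n hn
  exact hk n hn x hx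

theorem T0_memY {ι : Type} (F : ℕ → Submodule ℝ X) (hF : Chain F) (S : Sys ι)
    (h : ι → X →L[ℝ] ℝ) (hN : NSys F S h) (H : ℝ) (hH : ∀ n, ‖h n‖ ≤ H) (x : X) :
    T0 h H hH x ∈ S.Y := by
  have hcl : IsClosed {x | T0 h H hH x ∈ S.Y} := by
    have h1 : IsClosed (S.Y : Set (Li ι)) := Submodule.isClosed_topologicalClosure _
    exact h1.preimage (T0 h H hH).continuous
  have hsub : (⋃ k, (F k : Set X)) ⊆ {x | T0 h H hH x ∈ S.Y} := by
    intro x hx
    obtain ⟨k, hk⟩ := Set.mem_iUnion.mp hx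
    obtain ⟨K, hK⟩ := ((hN.ex k).image S.rk).bddAbove
    refine E_le_Y S K (T0_memE F S h H hH k K ?_ x hk)
    intro j hj
    by_contra hne
    exact absurd (hK ⟨j, hne, rfl⟩) (not_le.mpr hj)
  have := closure_minimal hsub hcl
  rw [hF.dense.closure_eq] at this
  exact this (Set.mem_univ x)

end TM

end LIMaux

theorem stmtTMAP : StmtTMAP := by
  intro X _ _ F hF ι S h hN
  obtain ⟨H, hH⟩ := hN.bdd
  refine ⟨(T0 h H hH).codRestrict S.Y (T0_memY F hF S h hN H hH), ?_, ?_, ?_, ?_⟩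
  · intro x n
    rfl
  · intro x
    change ‖T0 h H hH x‖ = ph h x
    rw [lp.norm_eq_ciSup]
    rfl
  · intro c x
    rw [hc_apply h H hH]
    rfl
  · intro k K hk x hx
    exact T0_memE F S h H hH k K hk x hx

namespace LIMaux

/-- a functional dominated by C times the norm of T x factors through T -/
theorem factor {E G : Type} [AddCommGroup E] [Module ℝ E] [NormedAddCommGroup G] [NormedSpace ℝ G]
    (T : E →ₗ[ℝ] G) (v : E →ₗ[ℝ] ℝ) (C : ℝ) (hC : 0 ≤ C) (h : ∀ x, |v x| ≤ C * ‖T x‖) :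
    ∃ φ : G →L[ℝ] ℝ, ‖φ‖ ≤ C ∧ ∀ x, φ (T x) = v x := by
  have key : ∀ x x' : E, T x = T x' → v x = v x' := by
    intro x x' hx
    have h1 := h (x - x')
    rw [map_sub, map_sub, hx, sub_self, norm_zero, mul_zero] at h1
    have h2 := abs_nonpos_iff.mp h1
    linarith
  have hch : ∀ z : LinearMap.range T, ∃ x : E, T x = z := fun z => z.2
  choose g hg using hch
  let φ0 : LinearMap.range T →ₗ[ℝ] ℝ :=
    { toFun := fun z => v (g z)
      map_add' := by
        intro z w
        rw [← map_add]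
        apply key
        rw [map_add, hg, hg, hg]
        rfl
      map_smul' := by
        intro t z
        rw [RingHom.id_apply, ← map_smul]
        apply key
        rw [map_smul, hg, hg]
        rfl }
  let φ1 : LinearMap.range T →L[ℝ] ℝ := φ0.mkContinuous C fun z => by
    have h1 := h (g z)
    rw [hg] at h1
    exact h1
  obtain ⟨φ, hφ1, hφ2⟩ := exists_extension_norm_eq (LinearMap.range T) φ1
  refine ⟨φ, ?_, ?_⟩
  · rw [hφ2]
    exact φ0.mkContinuous_norm_le hC _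
  · intro x
    have h1 := hφ1 ⟨T x, x, rfl⟩
    change φ (T x) = v (g ⟨T x, x, rfl⟩) at h1
    rw [h1]
    exact key _ _ (hg _)

end LIMaux

theorem stmtLIFT (hL : StmtLND) : StmtLIFT := by
  intro X _ _ F hF ι S h hN hD v C hC hv
  obtain ⟨T, hT1, hT2, hT3, -⟩ := stmtTMAP X F hF ι S h hN
  obtain ⟨φ, hφ1, hφ2⟩ := factor (T : X →ₗ[ℝ] S.Y) (v : X →ₗ[ℝ] ℝ) C hC (by
    intro x
    change |v x| ≤ C * ‖T x‖
    rw [hT2]
    exact hv x)
  obtain ⟨κ, hκ⟩ := hD φ
  refine ⟨κ, ?_, ?_⟩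
  · refine norm_le_of_pair hL S hN.ok κ C hC fun y hy => ?_
    have h1 := φ.le_opNorm ⟨y, hy⟩
    rw [hκ ⟨y, hy⟩, Real.norm_eq_abs] at h1
    exact le_trans h1 (mul_le_mul_of_nonneg_right hφ1 (norm_nonneg _))
  · ext x
    rw [hT3, ← hκ (T x)]
    exact hφ2 x

theorem stmtREPF (hL : StmtLND) : StmtREPF := by
  classical
  intro X _ _ F hF ι S h hN k K hk φ τ hτ hφ
  obtain ⟨T, hT1, hT2, hT3, hT4⟩ := stmtTMAP X F hF ι S h hN
  obtain ⟨-, -, h3, h4, h5, h6, -, -, -, -, -⟩ := hL ι S hN.ok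
  have hfin : {n | S.rk n ≤ K}.Finite := hN.ok.fin K
  have : Fintype {n // S.rk n ≤ K} := hfin.fintype
  let R : F k →ₗ[ℝ] ({n // S.rk n ≤ K} → ℝ) :=
    { toFun := fun x n => h n x
      map_add' := by
        intro x y
        ext n
        simp
      map_smul' := by
        intro t x
        ext n
        simp }
  have hR : ∀ x : F k, ph h x ≤ ‖R x‖ := by
    intro x
    refine Real.iSup_le (fun n => ?_) (norm_nonneg _)
    have hx := hT4 k K hk x x.2
    have h7 := h6 K n _ hx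
    rw [hT1] at h7
    rw [h7]
    unfold fs Finsupp.sum
    calc |∑ j ∈ (S.land K n).support, S.land K n j * (T x : Li ι) j|
        ≤ ∑ j ∈ (S.land K n).support, |S.land K n j * (T x : Li ι) j| :=
          Finset.abs_sum_le_sum_abs _ _
      _ ≤ ∑ j ∈ (S.land K n).support, S.land K n j * ‖R x‖ := by
          refine Finset.sum_le_sum fun j hj => ?_
          rw [abs_mul, abs_of_nonneg (h3 K n j), hT1]
          refine mul_le_mul_of_nonneg_left ?_ (h3 K n j)
          exact norm_le_pi_norm (R x) ⟨j, h5 K n j hj⟩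
      _ = mass (S.land K n) * ‖R x‖ := by
          rw [← Finset.sum_mul]
          rfl
      _ ≤ 1 * ‖R x‖ := mul_le_mul_of_nonneg_right (h4 K n) (norm_nonneg _)
      _ = ‖R x‖ := one_mul _
  obtain ⟨ψ, hψ1, hψ2⟩ := factor R ((φ : X →ₗ[ℝ] ℝ).comp (F k).subtype) τ hτ (by
    intro x
    exact le_trans (hφ x x.2) (mul_le_mul_of_nonneg_left (hR x) hτ))
  let b : {n // S.rk n ≤ K} → ℝ := fun j => ψ (Pi.single j 1)
  have hψb : ∀ w : {n // S.rk n ≤ K} → ℝ, ψ w = ∑ j, b j * w j := by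
    intro w
    conv_lhs => rw [pi_eq_sum_univ' w]
    rw [map_sum]
    refine Finset.sum_congr rfl fun j _ => ?_
    rw [map_smul, smul_eq_mul, mul_comm]
  let β : ι →₀ ℝ := Finsupp.onFinset hfin.toFinset
    (fun j => if hj : S.rk j ≤ K then b ⟨j, hj⟩ else 0) (by
      intro j hj
      by_contra hne
      rw [Set.Finite.mem_toFinset] at hne
      exact hj (dif_neg hne))
  have hβ : ∀ g : ι → ℝ → ℝ, (∀ j, g j 0 = 0) → β.sum g = ∑ j : {n // S.rk n ≤ K}, g j (b j) := by
    intro g hg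
    rw [Finsupp.onFinset_sum _ hg]
    rw [Finset.sum_subtype hfin.toFinset (p := fun n => S.rk n ≤ K) (by
      intro n
      rw [Set.Finite.mem_toFinset]
      rfl)]
    refine Finset.sum_congr rfl fun j _ => ?_
    rw [dif_pos j.2]
  refine ⟨β, ?_, ?_, ?_⟩
  · intro j hj
    by_contra hne
    exact (Finsupp.mem_support_iff.mp hj) (dif_neg hne)
  · have h8 : nrm β = ∑ j, |b j| := hβ (fun _ t => |t|) (fun _ => abs_zero)
    have h9 : ψ (fun j => SignType.sign (b j)) = ∑ j, |b j| := by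
      rw [hψb]
      refine Finset.sum_congr rfl fun j _ => ?_
      rw [mul_comm, sign_mul_self]
    have h10 : ‖(fun j => (SignType.sign (b j) : ℝ))‖ ≤ 1 := by
      refine (pi_norm_le_iff_of_nonneg zero_le_one).mpr fun j => ?_
      rw [Real.norm_eq_abs]
      rcases lt_trichotomy (b j) 0 with h | h | h <;> simp [h]
    have h11 := ψ.le_opNorm (fun j => (SignType.sign (b j) : ℝ))
    rw [h8, ← h9]
    have h12 : ‖ψ‖ * ‖(fun j => (SignType.sign (b j) : ℝ))‖ ≤ τ * 1 :=
      mul_le_mul hψ1 h10 (norm_nonneg _) hτ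
    have h13 := le_abs_self (ψ fun j => (SignType.sign (b j) : ℝ))
    rw [Real.norm_eq_abs] at h11
    linarith
  · intro x hx
    have h8 : fs β (fun j => h j x) = ∑ j : {n // S.rk n ≤ K}, b j * h j x :=
      hβ (fun j t => t * h j x) (fun _ => zero_mul _)
    have h9 := hψ2 ⟨x, hx⟩
    rw [hψb] at h9
    rw [h8]
    exact h9.symm

end

end PB
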