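import Pool.Agent.PB57.Stmts

/-!
# MODULE LND (1.1): landing vectors, extension from level M, norm of l_1 on Y  (helper74)

Also the basic API of lp 1 and lp infinity used by the other modules.
-/

set_option autoImplicit false

open Filter Topology Set

namespace PB

noncomputable section

variable {ι : Type}

/-! ## Basic API of l_1 and l_infinity -/

lemma L1.summable_abs (c : L1 ι) : Summable fun n => |c n| := by
  have h := lp.memℓp c
  have h1 := h.summable (by simp : 0 < (1 : ENNReal).toReal)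
  simpa using h1

lemma L1.summable (c : L1 ι) : Summable fun n => c n := (L1.summable_abs c).of_abs

lemma L1.norm_eq (c : L1 ι) : ‖c‖ = ∑' n, |c n| := by
  have h := lp.norm_eq_tsum_rpow (p := 1) (by simp : 0 < (1 : ENNReal).toReal) c
  simpa using h

lemma L1.abs_le (c : L1 ι) (n : ι) : |c n| ≤ ‖c‖ := by
  have := lp.norm_apply_le_norm (p := 1) one_ne_zero c n
  simpa using this

lemma L1.sum_le (c : L1 ι) (s : Finset ι) : ∑ n ∈ s, |c n| ≤ ‖c‖ := by
  rw [L1.norm_eq]
  exact (L1.summable_abs c).sum_le_tsum s fun n _ => abs_nonneg _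

/-- an element of l_1 from a summable function -/
def L1.mk' (a : ι → ℝ) (h : Summable fun n => |a n|) : L1 ι :=
  ⟨a, memℓp_gen (by simpa using h)⟩

@[simp] lemma L1.mk'_apply (a : ι → ℝ) (h : Summable fun n => |a n|) (n : ι) :
    (L1.mk' a h) n = a n := rfl

lemma L1.norm_mk' (a : ι → ℝ) (h : Summable fun n => |a n|) :
    ‖L1.mk' a h‖ = ∑' n, |a n| := by
  rw [L1.norm_eq]
  rfl

/-- a finitely supported vector as an element of l_1 -/
def L1.fin (a : ι →₀ ℝ) : L1 ι := L1.mk' a (summable_of_hasFiniteSupport (by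
  refine a.hasFiniteSupport.subset fun n hn => ?_
  simpa using hn))

@[simp] lemma L1.fin_apply (a : ι →₀ ℝ) (n : ι) : (L1.fin a) n = a n := rfl

lemma Li.abs_le (y : Li ι) (n : ι) : |y n| ≤ ‖y‖ := by
  have := lp.norm_apply_le_norm (p := ⊤) (by simp) y n
  simpa using this

/-- an element of l_infinity from a bounded function -/
def Li.mk' (v : ι → ℝ) (h : ∃ C, ∀ n, |v n| ≤ C) : Li ι :=
  ⟨v, memℓp_infty (by
    obtain ⟨C, hC⟩ := h
    exact ⟨C, by rintro _ ⟨n, rfl⟩; exact hC n⟩)⟩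

@[simp] lemma Li.mk'_apply (v : ι → ℝ) (h : ∃ C, ∀ n, |v n| ≤ C) (n : ι) :
    (Li.mk' v h) n = v n := rfl

lemma Li.norm_le {y : Li ι} {C : ℝ} (hC : 0 ≤ C) (h : ∀ n, |y n| ≤ C) : ‖y‖ ≤ C :=
  lp.norm_le_of_forall_le hC h

lemma Li.ext' {y z : Li ι} (h : ∀ n, y n = z n) : y = z := lp.ext (funext h)

lemma L1.ext' {c d : L1 ι} (h : ∀ n, c n = d n) : c = d := lp.ext (funext h)

/-! ## The pairing -/

lemma pair_summable_abs (c : L1 ι) (y : Li ι) : Summable fun n => |c n * y n| := by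
  refine Summable.of_nonneg_of_le (fun n => abs_nonneg _) (fun n => ?_)
    ((L1.summable_abs c).mul_right ‖y‖)
  rw [abs_mul]
  exact mul_le_mul_of_nonneg_left (Li.abs_le y n) (abs_nonneg _)

lemma pair_summable (c : L1 ι) (y : Li ι) : Summable fun n => c n * y n :=
  (pair_summable_abs c y).of_abs

lemma pair_le (c : L1 ι) (y : Li ι) : |pair c y| ≤ ‖c‖ * ‖y‖ := by
  unfold pair
  calc |∑' n, c n * y n| ≤ ∑' n, |c n * y n| := by
        have h := pair_summable_abs c y
        have := norm_tsum_le_tsum_norm (f := fun n => c n * y n) (by simpa using h)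
        simpa using this
    _ ≤ ∑' n, |c n| * ‖y‖ := by
        refine (pair_summable_abs c y).tsum_le_tsum (fun n => ?_)
          ((L1.summable_abs c).mul_right ‖y‖)
        rw [abs_mul]
        exact mul_le_mul_of_nonneg_left (Li.abs_le y n) (abs_nonneg _)
    _ = ‖c‖ * ‖y‖ := by rw [tsum_mul_right, L1.norm_eq]

lemma pair_add_left (c d : L1 ι) (y : Li ι) : pair (c + d) y = pair c y + pair d y := by
  unfold pair
  rw [← (pair_summable c y).tsum_add (pair_summable d y)]
  congr 1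
  ext n
  simp only [lp.coeFn_add, Pi.add_apply]
  ring

lemma pair_sub_left (c d : L1 ι) (y : Li ι) : pair (c - d) y = pair c y - pair d y := by
  unfold pair
  rw [← (pair_summable c y).tsum_sub (pair_summable d y)]
  congr 1
  ext n
  simp only [lp.coeFn_sub, Pi.sub_apply]
  ring

lemma pair_neg_left (c : L1 ι) (y : Li ι) : pair (-c) y = -pair c y := by
  unfold pair
  rw [← tsum_neg]
  congr 1
  ext n
  simp only [lp.coeFn_neg, Pi.neg_apply]
  ring

lemma pair_smul_left (t : ℝ) (c : L1 ι) (y : Li ι) : pair (t • c) y = t * pair c y := by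
  unfold pair
  rw [← tsum_mul_left]
  congr 1
  ext n
  simp only [lp.coeFn_smul, Pi.smul_apply, smul_eq_mul]
  ring

lemma pair_add_right (c : L1 ι) (y z : Li ι) : pair c (y + z) = pair c y + pair c z := by
  unfold pair
  rw [← (pair_summable c y).tsum_add (pair_summable c z)]
  congr 1
  ext n
  simp only [lp.coeFn_add, Pi.add_apply]
  ring

lemma pair_sub_right (c : L1 ι) (y z : Li ι) : pair c (y - z) = pair c y - pair c z := by
  unfold pair
  rw [← (pair_summable c y).tsum_sub (pair_summable c z)]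
  congr 1
  ext n
  simp only [lp.coeFn_sub, Pi.sub_apply]
  ring

lemma pair_neg_right (c : L1 ι) (y : Li ι) : pair c (-y) = -pair c y := by
  unfold pair
  rw [← tsum_neg]
  congr 1
  ext n
  simp only [lp.coeFn_neg, Pi.neg_apply]
  ring

lemma pair_smul_right (t : ℝ) (c : L1 ι) (y : Li ι) : pair c (t • y) = t * pair c y := by
  unfold pair
  rw [← tsum_mul_left]
  congr 1
  ext n
  simp only [lp.coeFn_smul, Pi.smul_apply, smul_eq_mul]
  ring

@[simp] lemma pair_zero_left (y : Li ι) : pair (0 : L1 ι) y = 0 := by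
  have := pair_smul_left 0 (0 : L1 ι) y
  simpa using this

@[simp] lemma pair_zero_right (c : L1 ι) : pair c (0 : Li ι) = 0 := by
  have := pair_smul_right 0 c (0 : Li ι)
  simpa using this

/-- pairing as a continuous functional on l_infinity -/
def pairL (c : L1 ι) : Li ι →L[ℝ] ℝ :=
  LinearMap.mkContinuous
    { toFun := pair c
      map_add' := pair_add_right c
      map_smul' := fun t y => by simp [pair_smul_right] } ‖c‖
    (fun y => by simpa using pair_le c y)

@[simp] lemma pairL_apply (c : L1 ι) (y : Li ι) : pairL c y = pair c y := rfl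

lemma pair_continuous (c : L1 ι) : Continuous (pair c) := (pairL c).continuous

/-! ## Finitely supported vectors -/

lemma fs_eq_sum {a : ι →₀ ℝ} {s : Finset ι} (hs : a.support ⊆ s) (y : ι → ℝ) :
    fs a y = ∑ j ∈ s, a j * y j := by
  unfold fs
  exact Finsupp.sum_of_support_subset a hs _ fun _ _ => by simp

lemma mass_eq_sum {a : ι →₀ ℝ} {s : Finset ι} (hs : a.support ⊆ s) :
    mass a = ∑ j ∈ s, a j := by
  unfold mass
  exact Finsupp.sum_of_support_subset a hs _ fun _ _ => rfl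

lemma nrm_eq_sum {a : ι →₀ ℝ} {s : Finset ι} (hs : a.support ⊆ s) :
    nrm a = ∑ j ∈ s, |a j| := by
  unfold nrm
  exact Finsupp.sum_of_support_subset a hs _ fun _ _ => by simp

@[simp] lemma fs_zero (y : ι → ℝ) : fs 0 y = 0 := by simp [fs]

@[simp] lemma mass_zero : mass (0 : ι →₀ ℝ) = 0 := by simp [mass]

@[simp] lemma nrm_zero : nrm (0 : ι →₀ ℝ) = 0 := by simp [nrm]

lemma fs_add (a b : ι →₀ ℝ) (y : ι → ℝ) : fs (a + b) y = fs a y + fs b y := by
  unfold fs
  exact Finsupp.sum_add_index' (by simp) (fun _ _ _ => by ring)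

lemma fs_smul (t : ℝ) (a : ι →₀ ℝ) (y : ι → ℝ) : fs (t • a) y = t * fs a y := by
  unfold fs
  rw [Finsupp.sum_smul_index (by simp), Finsupp.mul_sum]
  exact Finsupp.sum_congr fun _ _ => by ring

lemma mass_add (a b : ι →₀ ℝ) : mass (a + b) = mass a + mass b := by
  unfold mass
  exact Finsupp.sum_add_index' (by simp) (fun _ _ _ => rfl)

lemma mass_smul (t : ℝ) (a : ι →₀ ℝ) : mass (t • a) = t * mass a := by
  unfold mass
  rw [Finsupp.sum_smul_index (by simp), Finsupp.mul_sum]

lemma nrm_smul (t : ℝ) (a : ι →₀ ℝ) : nrm (t • a) = |t| * nrm a := by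
  unfold nrm
  rw [Finsupp.sum_smul_index (by simp), Finsupp.mul_sum]
  exact Finsupp.sum_congr fun _ _ => abs_mul _ _

lemma nrm_nonneg (a : ι →₀ ℝ) : 0 ≤ nrm a := Finset.sum_nonneg fun _ _ => abs_nonneg _

lemma nrm_add_le (a b : ι →₀ ℝ) : nrm (a + b) ≤ nrm a + nrm b := by
  classical
  set s := a.support ∪ b.support with hs
  rw [nrm_eq_sum (a := a + b) (s := s) Finsupp.support_add,
    nrm_eq_sum (a := a) (s := s) Finset.subset_union_left,
    nrm_eq_sum (a := b) (s := s) Finset.subset_union_right, ← Finset.sum_add_distrib]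
  exact Finset.sum_le_sum fun j _ => by
    rw [Finsupp.add_apply]; exact abs_add_le _ _

@[simp] lemma fs_single (n : ι) (t : ℝ) (y : ι → ℝ) : fs (Finsupp.single n t) y = t * y n := by
  simp [fs]

@[simp] lemma mass_single (n : ι) (t : ℝ) : mass (Finsupp.single n t) = t := by
  simp [mass]

@[simp] lemma nrm_single (n : ι) (t : ℝ) : nrm (Finsupp.single n t) = |t| := by
  simp [nrm]

lemma fs_finset_sum {J : Type} (s : Finset J) (a : J → ι →₀ ℝ) (y : ι → ℝ) :
    fs (∑ j ∈ s, a j) y = ∑ j ∈ s, fs (a j) y := by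
  classical
  induction s using Finset.induction with
  | empty => simp
  | insert i s hi IH => rw [Finset.sum_insert hi, Finset.sum_insert hi, fs_add, IH]

lemma mass_finset_sum {J : Type} (s : Finset J) (a : J → ι →₀ ℝ) :
    mass (∑ j ∈ s, a j) = ∑ j ∈ s, mass (a j) := by
  classical
  induction s using Finset.induction with
  | empty => simp
  | insert i s hi IH => rw [Finset.sum_insert hi, Finset.sum_insert hi, mass_add, IH]

/-- fs of a combination -/
lemma fs_sum (a : ι →₀ ℝ) (l : ι → ι →₀ ℝ) (y : ι → ℝ) :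
    fs (a.sum fun j t => t • l j) y = fs a (fun j => fs (l j) y) := by
  unfold Finsupp.sum
  rw [fs_finset_sum, fs_eq_sum (subset_refl a.support)]
  exact Finset.sum_congr rfl fun j _ => fs_smul _ _ _

lemma mass_sum (a : ι →₀ ℝ) (l : ι → ι →₀ ℝ) :
    mass (a.sum fun j t => t • l j) = fs a (fun j => mass (l j)) := by
  unfold Finsupp.sum
  rw [mass_finset_sum, fs_eq_sum (subset_refl a.support)]
  exact Finset.sum_congr rfl fun j _ => mass_smul _ _

lemma fs_congr {a : ι →₀ ℝ} {y z : ι → ℝ} (h : ∀ j ∈ a.support, y j = z j) :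
    fs a y = fs a z := by
  rw [fs_eq_sum (subset_refl a.support), fs_eq_sum (subset_refl a.support)]
  exact Finset.sum_congr rfl fun j hj => by rw [h j hj]

lemma fs_mono {a : ι →₀ ℝ} (ha : ∀ j, 0 ≤ a j) {y z : ι → ℝ} (h : ∀ j ∈ a.support, y j ≤ z j) :
    fs a y ≤ fs a z := by
  rw [fs_eq_sum (subset_refl a.support), fs_eq_sum (subset_refl a.support)]
  exact Finset.sum_le_sum fun j hj => mul_le_mul_of_nonneg_left (h j hj) (ha j)

lemma fs_const (a : ι →₀ ℝ) (C : ℝ) : fs a (fun _ => C) = mass a * C := by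
  rw [fs_eq_sum (subset_refl a.support), mass_eq_sum (subset_refl a.support), Finset.sum_mul]

lemma abs_fs_le {a : ι →₀ ℝ} {y : ι → ℝ} {C : ℝ} (h : ∀ j ∈ a.support, |y j| ≤ C) :
    |fs a y| ≤ nrm a * C := by
  rw [fs_eq_sum (subset_refl a.support), nrm_eq_sum (subset_refl a.support), Finset.sum_mul]
  refine (Finset.abs_sum_le_sum_abs _ _).trans (Finset.sum_le_sum fun j hj => ?_)
  rw [abs_mul]
  exact mul_le_mul_of_nonneg_left (h j hj) (abs_nonneg _)

lemma nrm_eq_mass {a : ι →₀ ℝ} (ha : ∀ j, 0 ≤ a j) : nrm a = mass a := by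
  rw [nrm_eq_sum (subset_refl a.support), mass_eq_sum (subset_refl a.support)]
  exact Finset.sum_congr rfl fun j _ => abs_of_nonneg (ha j)

lemma le_mass {a : ι →₀ ℝ} (ha : ∀ j, 0 ≤ a j) (j : ι) : a j ≤ mass a := by
  by_cases hj : j ∈ a.support
  · rw [mass_eq_sum (subset_refl a.support)]
    exact Finset.single_le_sum (f := fun j => a j) (fun i _ => ha i) hj
  · rw [Finsupp.notMem_support_iff.1 hj]
    exact Finset.sum_nonneg fun i _ => ha i

lemma pair_fin (a : ι →₀ ℝ) (y : Li ι) : pair (L1.fin a) y = fs a y := by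
  unfold pair
  rw [fs_eq_sum (subset_refl a.support), tsum_eq_sum (s := a.support)]
  · rfl
  · intro n hn
    rw [L1.fin_apply, Finsupp.notMem_support_iff.1 hn, zero_mul]

lemma L1.norm_fin (a : ι →₀ ℝ) : ‖L1.fin a‖ = nrm a := by
  rw [L1.norm_eq, nrm_eq_sum (subset_refl a.support), tsum_eq_sum (s := a.support)]
  · rfl
  · intro n hn
    rw [L1.fin_apply, Finsupp.notMem_support_iff.1 hn, abs_zero]

/-! ## Landing vectors -/

lemma Sys.mem_E {S : Sys ι} {M : ℕ} {y : Li ι} :
    y ∈ S.E M ↔ ∀ n, M < S.rk n → y n = fs (S.r n) y := Iff.rfl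

lemma land_low (S : Sys ι) {M : ℕ} {n : ι} (h : S.rk n ≤ M) :
    S.land M n = Finsupp.single n 1 := by
  unfold Sys.land
  rw [WellFounded.fix_eq]
  rw [if_pos h]

lemma land_high {S : Sys ι} (hS : S.Ok) {M : ℕ} {n : ι} (h : M < S.rk n) :
    S.land M n = (S.r n).sum (fun j t => t • S.land M j) := by
  unfold Sys.land
  rw [WellFounded.fix_eq]
  rw [if_neg (not_le.2 h)]
  refine Finsupp.sum_congr fun j hj => ?_
  rw [dif_pos (hS.low n j (Finsupp.mem_support_iff.1 hj))]

/-- induction over the rank -/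
lemma Sys.ind (S : Sys ι) {P : ι → Prop} (h : ∀ n, (∀ j, S.rk j < S.rk n → P j) → P n) (n : ι) :
    P n := (measure S.rk).wf.induction n h

lemma land_nonneg {S : Sys ι} (hS : S.Ok) (M : ℕ) (n : ι) : ∀ j, 0 ≤ S.land M n j := by
  classical
  refine S.ind (P := fun n => ∀ j, 0 ≤ S.land M n j) (fun n IH j => ?_) n
  rcases le_or_gt (S.rk n) M with h | h
  · rw [land_low S h, Finsupp.single_apply]
    split_ifs <;> norm_num
  · rw [land_high hS h, Finsupp.sum, Finsupp.finsetSum_apply]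
    refine Finset.sum_nonneg fun i hi => ?_
    rw [Finsupp.smul_apply, smul_eq_mul]
    exact mul_nonneg (hS.pos n i) (IH i (hS.low n i (Finsupp.mem_support_iff.1 hi)) j)

lemma land_mass {S : Sys ι} (hS : S.Ok) (M : ℕ) (n : ι) : mass (S.land M n) ≤ 1 := by
  refine S.ind (P := fun n => mass (S.land M n) ≤ 1) (fun n IH => ?_) n
  rcases le_or_gt (S.rk n) M with h | h
  · rw [land_low S h, mass_single]
  · rw [land_high hS h, mass_sum]
    calc fs (S.r n) (fun j => mass (S.land M j)) ≤ fs (S.r n) (fun _ => 1) :=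
          fs_mono (hS.pos n) fun j hj => IH j (hS.low n j (Finsupp.mem_support_iff.1 hj))
      _ = mass (S.r n) := by rw [fs_const, mul_one]
      _ ≤ 1 := hS.le1 n

lemma land_support {S : Sys ι} (hS : S.Ok) (M : ℕ) (n : ι) :
    ∀ j ∈ (S.land M n).support, S.rk j ≤ M := by
  classical
  refine S.ind (P := fun n => ∀ j ∈ (S.land M n).support, S.rk j ≤ M) (fun n IH j hj => ?_) n
  rcases le_or_gt (S.rk n) M with h | h
  · rw [land_low S h] at hj
    have : j = n := by
      have := Finsupp.support_single_subset hj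
      simpa using this
    rw [this]; exact h
  · rw [land_high hS h] at hj
    by_contra hcon
    rw [Finsupp.mem_support_iff] at hj
    apply hj
    rw [Finsupp.sum, Finsupp.finsetSum_apply]
    refine Finset.sum_eq_zero fun i hi => ?_
    rw [Finsupp.smul_apply, smul_eq_mul]
    have h1 : j ∉ (S.land M i).support := fun h2 =>
      hcon (IH i (hS.low n i (Finsupp.mem_support_iff.1 hi)) j h2)
    rw [Finsupp.notMem_support_iff.1 h1, mul_zero]

lemma land_eval {S : Sys ι} (hS : S.Ok) (M : ℕ) {y : Li ι} (hy : y ∈ S.E M) (n : ι) :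
    y n = fs (S.land M n) y := by
  refine S.ind (P := fun n => y n = fs (S.land M n) y) (fun n IH => ?_) n
  rcases le_or_gt (S.rk n) M with h | h
  · rw [land_low S h, fs_single, one_mul]
  · rw [land_high hS h, fs_sum, hy n h]
    exact fs_congr fun j hj => IH j (hS.low n j (Finsupp.mem_support_iff.1 hj))

lemma Sys.E_mono (S : Sys ι) : Monotone S.E := fun _ _ h _ hy n hn => hy n (lt_of_le_of_lt h hn)

/-- extension from level M -/
def Sys.extf (S : Sys ι) (M : ℕ) (v : ι → ℝ) (n : ι) : ℝ := fs (S.land M n) v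

lemma extf_low (S : Sys ι) {M : ℕ} (v : ι → ℝ) {n : ι} (h : S.rk n ≤ M) : S.extf M v n = v n := by
  unfold Sys.extf
  rw [land_low S h, fs_single, one_mul]

lemma extf_bound {S : Sys ι} (hS : S.Ok) {M : ℕ} {v : ι → ℝ} {C : ℝ} (hC : 0 ≤ C)
    (hv : ∀ n, S.rk n ≤ M → |v n| ≤ C) (n : ι) : |S.extf M v n| ≤ C := by
  unfold Sys.extf
  refine (abs_fs_le fun j hj => hv j (land_support hS M n j hj)).trans ?_
  rw [nrm_eq_mass (land_nonneg hS M n)]
  have := land_mass hS M n
  nlinarith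

lemma extf_high {S : Sys ι} (hS : S.Ok) {M : ℕ} (v : ι → ℝ) {n : ι} (h : M < S.rk n) :
    S.extf M v n = fs (S.r n) (S.extf M v) := by
  unfold Sys.extf
  rw [land_high hS h, fs_sum]

lemma exists_ext {S : Sys ι} (hS : S.Ok) (M : ℕ) (v : ι → ℝ) {C : ℝ} (hC : 0 ≤ C)
    (hv : ∀ n, S.rk n ≤ M → |v n| ≤ C) :
    ∃ y ∈ S.E M, ‖y‖ ≤ C ∧ ∀ n, S.rk n ≤ M → y n = v n := by
  refine ⟨Li.mk' (S.extf M v) ⟨C, extf_bound hS hC hv⟩, fun n hn => ?_, ?_, fun n hn => ?_⟩
  · exact extf_high hS v hn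
  · exact Li.norm_le hC (extf_bound hS hC hv)
  · exact extf_low S v hn

/-- the finite set of nodes of rank at most M -/
def Sys.Ok.B {S : Sys ι} (hS : S.Ok) (M : ℕ) : Finset ι := (hS.fin M).toFinset

@[simp] lemma Sys.Ok.mem_B {S : Sys ι} (hS : S.Ok) {M : ℕ} {n : ι} :
    n ∈ hS.B M ↔ S.rk n ≤ M := by
  simp [Sys.Ok.B]

/-- tails of summable families -/
lemma tail_small {S : Sys ι} (hS : S.Ok) (c : L1 ι) {ε : ℝ} (hε : 0 < ε) :
    ∃ M : ℕ, ∀ K, M ≤ K → ‖c‖ - ε ≤ ∑ n ∈ hS.B K, |c n| := by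
  classical
  have h1 := (L1.summable_abs c).hasSum
  rw [← L1.norm_eq] at h1
  have h2 : ∀ᶠ s : Finset ι in atTop, ‖c‖ - ε < ∑ n ∈ s, |c n| :=
    h1.eventually (lt_mem_nhds (by linarith))
  obtain ⟨s, hs⟩ := h2.exists
  refine ⟨s.sup S.rk, fun K hK => hs.le.trans ?_⟩
  refine Finset.sum_le_sum_of_subset_of_nonneg (fun n hn => ?_) fun n _ _ => abs_nonneg _
  rw [hS.mem_B]
  exact (Finset.le_sup (f := S.rk) hn).trans hK

lemma exists_norming {S : Sys ι} (hS : S.Ok) (c : L1 ι) {ε : ℝ} (hε : 0 < ε) :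
    ∃ M, ∃ y ∈ S.E M, ‖y‖ ≤ 1 ∧ ‖c‖ - ε ≤ pair c y := by
  classical
  obtain ⟨M, hM⟩ := tail_small hS c (half_pos hε)
  have hMM := hM M le_rfl
  have hsg : ∀ x : ℝ, |(if 0 ≤ x then (1 : ℝ) else -1)| ≤ 1 := fun x => by
    split_ifs <;> simp
  obtain ⟨y, hy, hy1, hyv⟩ := exists_ext hS M (fun n => if 0 ≤ c n then (1 : ℝ) else -1)
    zero_le_one (fun n _ => hsg _)
  refine ⟨M, y, hy, hy1, ?_⟩
  have hsum := pair_summable c y
  have habs := L1.summable_abs c
  unfold pair
  rw [← hsum.sum_add_tsum_compl (s := hS.B M)]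
  have h1 : ∑ n ∈ hS.B M, c n * y n = ∑ n ∈ hS.B M, |c n| := by
    refine Finset.sum_congr rfl fun n hn => ?_
    rw [hyv n (hS.mem_B.1 hn)]
    by_cases h : 0 ≤ c n
    · rw [if_pos h, abs_of_nonneg h, mul_one]
    · rw [if_neg h, abs_of_neg (not_le.1 h)]; ring
  have h2 : ‖c‖ = ∑ n ∈ hS.B M, |c n| + ∑' n : ↑((hS.B M : Set ι)ᶜ), |c n| := by
    rw [L1.norm_eq, ← habs.sum_add_tsum_compl (s := hS.B M)]
  have h3 : |∑' n : ↑((hS.B M : Set ι)ᶜ), c n * y n| ≤ ∑' n : ↑((hS.B M : Set ι)ᶜ), |c n| := by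
    have hs' : Summable fun n : ↑((hS.B M : Set ι)ᶜ) => |c n * y n| :=
      (pair_summable_abs c y).subtype _
    have h4 := norm_tsum_le_tsum_norm (f := fun n : ↑((hS.B M : Set ι)ᶜ) => c n * y n)
      (by simpa using hs')
    refine (by simpa using h4 : _ ≤ ∑' n : ↑((hS.B M : Set ι)ᶜ), |c n| * |y n|).trans ?_
    refine Summable.tsum_le_tsum (fun n => ?_) (by simpa [abs_mul] using hs') (habs.subtype _)
    have h5 := (Li.abs_le y n).trans hy1
    nlinarith [abs_nonneg (c n)]
  have h6 := neg_abs_le (∑' n : ↑((hS.B M : Set ι)ᶜ), c n * y n)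
  rw [h1]
  linarith

lemma land_apply_le {S : Sys ι} (hS : S.Ok) (K : ℕ) (n j : ι) : |S.land K n j| ≤ 1 := by
  rw [abs_of_nonneg (land_nonneg hS K n j)]
  exact (le_mass (land_nonneg hS K n) j).trans (land_mass hS K n)

/-- the projection of c to level K -/
def Sys.Ok.proj {S : Sys ι} (hS : S.Ok) (K : ℕ) (c : L1 ι) : ι →₀ ℝ :=
  Finsupp.onFinset (hS.B K) (fun j => ∑' n, c n * S.land K n j) (by
    intro j hj
    rw [hS.mem_B]
    by_contra hcon
    apply hj
    have : ∀ n, c n * S.land K n j = 0 := fun n => by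
      have h1 : j ∉ (S.land K n).support := fun h2 => hcon (land_support hS K n j h2)
      rw [Finsupp.notMem_support_iff.1 h1, mul_zero]
    simp [this])

lemma proj_support {S : Sys ι} (hS : S.Ok) (K : ℕ) (c : L1 ι) :
    ∀ j ∈ (hS.proj K c).support, S.rk j ≤ K := by
  intro j hj
  exact hS.mem_B.1 (Finsupp.support_onFinset_subset hj)

lemma pair_proj {S : Sys ι} (hS : S.Ok) (K : ℕ) (c : L1 ι) {y : Li ι} (hy : y ∈ S.E K) :
    pair c y = fs (hS.proj K c) y := by
  have hsub : (hS.proj K c).support ⊆ hS.B K := Finsupp.support_onFinset_subset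
  rw [fs_eq_sum hsub]
  have hs : ∀ j, Summable fun n => c n * S.land K n j := by
    intro j
    refine Summable.of_norm_bounded (L1.summable_abs c) fun n => ?_
    rw [Real.norm_eq_abs, abs_mul]
    have := land_apply_le hS K n j
    nlinarith [abs_nonneg (c n)]
  have h1 : ∀ n, c n * y n = ∑ j ∈ hS.B K, (c n * S.land K n j) * y j := by
    intro n
    rw [land_eval hS K hy n, fs_eq_sum (s := hS.B K), Finset.mul_sum]
    · exact Finset.sum_congr rfl fun j _ => by ring
    · intro j hj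
      exact hS.mem_B.2 (land_support hS K n j hj)
  unfold pair
  rw [tsum_congr h1, Summable.tsum_finsetSum fun j _ => (hs j).mul_right (y j)]
  refine Finset.sum_congr rfl fun j _ => ?_
  rw [tsum_mul_right]
  rfl

lemma nrm_proj_le {S : Sys ι} (hS : S.Ok) {K : ℕ} {c : L1 ι} {τ : ℝ} (hn : Near S K c τ)
    (hτ : 0 ≤ τ) : nrm (hS.proj K c) ≤ τ := by
  classical
  have hsg : ∀ x : ℝ, |(if 0 ≤ x then (1 : ℝ) else -1)| ≤ 1 := fun x => by
    split_ifs <;> simp
  obtain ⟨y, hy, hy1, hyv⟩ := exists_ext hS K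
    (fun n => if 0 ≤ hS.proj K c n then (1 : ℝ) else -1) zero_le_one (fun n _ => hsg _)
  have h1 : pair c y = nrm (hS.proj K c) := by
    rw [pair_proj hS K c hy, fs_eq_sum (subset_refl _), nrm_eq_sum (subset_refl _)]
    refine Finset.sum_congr rfl fun j hj => ?_
    rw [hyv j (proj_support hS K c j hj)]
    by_cases h : 0 ≤ hS.proj K c j
    · rw [if_pos h, abs_of_nonneg h, mul_one]
    · rw [if_neg h, abs_of_neg (not_le.1 h)]; ring
  rw [← h1]
  refine (le_abs_self _).trans ((hn y hy).trans ?_)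
  nlinarith

theorem stmtLND : StmtLND := by
  intro ι S hS
  refine ⟨fun M n h => land_low S h, fun M n h => land_high hS h, land_nonneg hS, land_mass hS,
    land_support hS, fun M n y hy => land_eval hS M hy n, S.E_mono,
    fun M v C hC hv => exists_ext hS M v hC hv, fun c ε hε => exists_norming hS c hε,
    pair_le, fun K c τ hτ hn => ?_⟩
  exact ⟨hS.proj K c, proj_support hS K c, nrm_proj_le hS hn hτ, fun y hy => pair_proj hS K c hy⟩

end

end PB
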