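import Pool.Agent.PB57.Stmts

set_option autoImplicit false

open Filter Topology Set

namespace PB

theorem stmtMAIN (hFONF : StmtFONF) (hREN : StmtREN) (hCHAIN : StmtCHAIN) (hRED : StmtRED)
    (hUT : StmtUT) (hSIG : StmtSIG) (hISO : StmtISO) (hTMAP : StmtTMAP) : StmtMAIN := by
  intro X _ _ _ _ hP
  obtain ⟨f, hf1, hf2⟩ := hFONF X hP
  obtain ⟨X', _, _, _, _, ⟨e⟩, hGap⟩ := hREN X f hf1 hf2
  obtain ⟨F, hF⟩ := hCHAIN X'
  have hGood : Good F (fun x : X' => ‖x‖) := hRED X' F hF hGap (hUT X' F hF)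
  obtain ⟨ι, S, h, hN, hD, hInf, -, -, hC⟩ := (hSIG X' F hF).2 (fun _ => fun x => ‖x‖)
    (fun _ => hGood)
  obtain ⟨C, hC0, hC1⟩ := hC 0
  obtain ⟨T, -, hT, -, -⟩ := hTMAP X' F hF ι S h hN
  have hcomp : CompleteSpace S.Y := Submodule.topologicalClosure.completeSpace _
  refine ⟨S.Y, inferInstance, inferInstance, hcomp, hISO ι S hN.ok hD hInf, T.comp (e : X →L[ℝ] X'),
    (C * (‖(e.symm : X' →L[ℝ] X)‖ + 1))⁻¹, by positivity, fun x => ?_⟩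
  have h1 : ‖x‖ ≤ (‖(e.symm : X' →L[ℝ] X)‖ + 1) * ‖e x‖ := by
    have h2 : ‖(e.symm : X' →L[ℝ] X) (e x)‖ ≤ ‖(e.symm : X' →L[ℝ] X)‖ * ‖e x‖ :=
      ContinuousLinearMap.le_opNorm _ _
    have h3 : (e.symm : X' →L[ℝ] X) (e x) = x := by simp
    rw [h3] at h2
    nlinarith [norm_nonneg (e x)]
  have h4 : ‖e x‖ ≤ C * ‖T (e x)‖ := by
    rw [hT]
    exact hC1 (e x)
  have h5 : 0 < ‖(e.symm : X' →L[ℝ] X)‖ + 1 := by positivity
  rw [inv_mul_le_iff₀ (by positivity)]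
  calc ‖x‖ ≤ (‖(e.symm : X' →L[ℝ] X)‖ + 1) * ‖e x‖ := h1
    _ ≤ (‖(e.symm : X' →L[ℝ] X)‖ + 1) * (C * ‖T (e x)‖) :=
        mul_le_mul_of_nonneg_left h4 h5.le
    _ = C * (‖(e.symm : X' →L[ℝ] X)‖ + 1) * ‖(T.comp (e : X →L[ℝ] X')) x‖ := by
        simp only [ContinuousLinearMap.comp_apply, ContinuousLinearEquiv.coe_coe]
        ring

end PB
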