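import Pool.Agent.PB57.Stmts

/-!
# MP_b57e2f_an: module RED (3.1, 3.2, 3.4)

Construction of the Setup from sigma-directedness and the stuck point, and the end of the
reduction.
-/

set_option autoImplicit false

open Filter Topology Set

namespace PB

noncomputable section

variable {X : Type} [NormedAddCommGroup X] [NormedSpace ℝ X]

private lemma red_ph_nonneg {ι : Type} (h : ι → X →L[ℝ] ℝ) (x : X) : 0 ≤ ph h x :=
  Real.iSup_nonneg (fun _ => abs_nonneg _)

private lemma red_val {ι : Type} {h : ι → X →L[ℝ] ℝ} {H : ℝ} (hH : ∀ n, ‖h n‖ ≤ H) (x : X)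
    (n : ι) : |h n x| ≤ H * ‖x‖ := by
  have h1 := (h n).le_opNorm x
  rw [Real.norm_eq_abs] at h1
  exact h1.trans (mul_le_mul_of_nonneg_right (hH n) (norm_nonneg _))

private lemma red_bdd {ι : Type} {h : ι → X →L[ℝ] ℝ} {H : ℝ} (hH : ∀ n, ‖h n‖ ≤ H) (x : X) :
    BddAbove (range fun n => |h n x|) := by
  refine ⟨H * ‖x‖, ?_⟩
  rintro _ ⟨n, rfl⟩
  exact red_val hH x n

/-- the seminorm `ph h` -/
private def redSemi {ι : Type} [Nonempty ι] (h : ι → X →L[ℝ] ℝ) (H : ℝ) (hH : ∀ n, ‖h n‖ ≤ H) :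
    Seminorm ℝ X :=
  Seminorm.of (ph h)
    (by
      intro x y
      refine ciSup_le (fun n => ?_)
      rw [map_add]
      refine (abs_add_le _ _).trans ?_
      exact add_le_add (le_ciSup (red_bdd hH x) n) (le_ciSup (red_bdd hH y) n))
    (by
      intro a x
      simp only [ph, map_smul, smul_eq_mul, abs_mul, Real.norm_eq_abs]
      rw [Real.mul_iSup_of_nonneg (abs_nonneg a)])

private lemma redSemi_apply {ι : Type} [Nonempty ι] (h : ι → X →L[ℝ] ℝ) (H : ℝ)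
    (hH : ∀ n, ‖h n‖ ≤ H) (x : X) : redSemi h H hH x = ph h x := rfl

/-- finitely many good functions are dominated by one -/
private lemma red_fin (hSIG : StmtSIG) {F : ℕ → Submodule ℝ X} (hF : Chain F) {α : Type}
    (s : Finset α) (q : α → X → ℝ) (hq : ∀ a ∈ s, Good F (q a)) :
    ∃ Q : X → ℝ, Good F Q ∧ (∀ x, 0 ≤ Q x) ∧ ∃ C : ℝ, 0 < C ∧ ∀ a ∈ s, ∀ x, q a x ≤ C * Q x := by
  classical
  obtain ⟨hS1, hS2⟩ := hSIG X F hF
  let p : ℕ → X → ℝ := fun i =>
    if hi : i < s.card then q (s.equivFin.symm ⟨i, hi⟩ : s) else fun x => |(0 : X →L[ℝ] ℝ) x|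
  have hp : ∀ i, Good F (p i) := by
    intro i
    by_cases hi : i < s.card
    · simp only [p, dif_pos hi]
      exact hq _ (s.equivFin.symm ⟨i, hi⟩ : s).2
    · simp only [p, dif_neg hi]
      exact hS1 0
  obtain ⟨ι, S, h, hN, hD, _, _, _, hC⟩ := hS2 p hp
  choose C hCpos hC using hC
  refine ⟨ph h, ⟨ι, S, h, hN, hD, 1, fun x => by rw [one_mul]⟩, red_ph_nonneg h,
    1 + ∑ i ∈ Finset.range s.card, C i, ?_, ?_⟩
  · have : 0 ≤ ∑ i ∈ Finset.range s.card, C i := Finset.sum_nonneg (fun i _ => (hCpos i).le)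
    linarith
  · intro a ha x
    set i := s.equivFin ⟨a, ha⟩ with hi
    have h1 : p i = q a := by
      simp only [p, dif_pos i.2]
      congr 1
      rw [hi]
      simp
    have h2 := hC i x
    rw [h1] at h2
    refine h2.trans (mul_le_mul_of_nonneg_right ?_ (red_ph_nonneg h x))
    have h3 : C i ≤ ∑ i ∈ Finset.range s.card, C i :=
      Finset.single_le_sum (f := C) (fun i _ => (hCpos i).le) (Finset.mem_range.mpr i.2)
    linarith

private lemma red_pos_min {α : Type} (s : Finset α) (d : α → ℝ) (hd : ∀ a ∈ s, 0 < d a) :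
    ∃ e : ℝ, 0 < e ∧ ∀ a ∈ s, e ≤ d a := by
  classical
  induction s using Finset.induction_on with
  | empty => exact ⟨1, one_pos, by simp⟩
  | insert a s ha ih =>
    obtain ⟨e, he, h⟩ := ih (fun b hb => hd b (Finset.mem_insert_of_mem hb))
    refine ⟨min e (d a), lt_min he (hd a (Finset.mem_insert_self _ _)), ?_⟩
    intro b hb
    rcases Finset.mem_insert.mp hb with rfl | hb
    · exact min_le_right _ _
    · exact (min_le_left _ _).trans (h b hb)

private lemma red_compact (E : Submodule ℝ X) [FiniteDimensional ℝ E] (R : ℝ) :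
    IsCompact {x : X | x ∈ E ∧ ‖x‖ ≤ R} := by
  have : ProperSpace E := FiniteDimensional.proper ℝ E
  have h1 : IsCompact (Metric.closedBall (0 : E) R) := isCompact_closedBall _ _
  have h2 := h1.image (continuous_subtype_val (p := fun x : X => x ∈ E))
  have h3 : (Subtype.val '' Metric.closedBall (0 : E) R) = {x : X | x ∈ E ∧ ‖x‖ ≤ R} := by
    ext x
    constructor
    · rintro ⟨v, hv, rfl⟩
      refine ⟨v.2, ?_⟩
      rw [mem_closedBall_zero_iff] at hv
      exact hv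
    · rintro ⟨hx, hxR⟩
      refine ⟨⟨x, hx⟩, ?_, rfl⟩
      rw [mem_closedBall_zero_iff]
      exact hxR
  rw [← h3]
  exact h2

private lemma red_norming (E : Submodule ℝ X) [FiniteDimensional ℝ E] :
    ∃ G : Finset (X →L[ℝ] ℝ), (∀ g ∈ G, ‖g‖ ≤ 1) ∧
      ∀ x ∈ E, ∃ g ∈ G, 9 / 10 * ‖x‖ ≤ |g x| := by
  classical
  obtain ⟨t, htK, htfin, hcov⟩ := (red_compact E 1).finite_cover_balls
    (show (0 : ℝ) < 1 / 40 by norm_num)
  have hex : ∀ x : X, ∃ g : X →L[ℝ] ℝ, ‖g‖ ≤ 1 ∧ g x = ‖x‖ := fun x => by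
    obtain ⟨g, hg, hgx⟩ := exists_dual_vector'' ℝ x
    exact ⟨g, hg, by simpa using hgx⟩
  choose f hf1 hf2 using hex
  refine ⟨insert 0 (htfin.toFinset.image f), ?_, ?_⟩
  · intro g hg
    rcases Finset.mem_insert.mp hg with rfl | hg
    · simp
    · obtain ⟨x, _, rfl⟩ := Finset.mem_image.mp hg
      exact hf1 x
  · intro x hx
    by_cases hx0 : x = 0
    · exact ⟨0, Finset.mem_insert_self _ _, by simp [hx0]⟩
    · have hn : 0 < ‖x‖ := norm_pos_iff.mpr hx0
      set u : X := ‖x‖⁻¹ • x with hu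
      have hun : ‖u‖ = 1 := by
        rw [hu, norm_smul, norm_inv, norm_norm]
        exact inv_mul_cancel₀ hn.ne'
      have huE : u ∈ {x : X | x ∈ E ∧ ‖x‖ ≤ 1} := ⟨E.smul_mem _ hx, hun.le⟩
      obtain ⟨a, ha, hua⟩ := Set.mem_iUnion₂.mp (hcov huE)
      rw [Metric.mem_ball, dist_eq_norm] at hua
      refine ⟨f a, Finset.mem_insert_of_mem (Finset.mem_image.mpr ⟨a, by simpa using ha, rfl⟩), ?_⟩
      have h1 : |f a (u - a)| ≤ 1 / 40 := by
        have := (f a).le_opNorm (u - a)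
        rw [Real.norm_eq_abs] at this
        have h2 : ‖f a‖ * ‖u - a‖ ≤ 1 * (1 / 40) :=
          mul_le_mul (hf1 a) hua.le (norm_nonneg _) zero_le_one
        linarith
      have h2 : f a u = f a a + f a (u - a) := by
        rw [← map_add]; congr 1; abel
      have h3 : ‖a‖ ≥ 1 - 1 / 40 := by
        have : ‖u‖ ≤ ‖a‖ + ‖u - a‖ := by
          calc ‖u‖ = ‖a + (u - a)‖ := by congr 1; abel
            _ ≤ _ := norm_add_le _ _
        linarith
      have h4 : 9 / 10 ≤ f a u := by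
        rw [h2, hf2 a]
        have := (abs_le.mp h1).1
        linarith
      have h5 : f a x = ‖x‖ * f a u := by
        rw [hu, map_smul, smul_eq_mul, ← mul_assoc, mul_inv_cancel₀ hn.ne', one_mul]
      rw [h5]
      refine le_trans ?_ (le_abs_self _)
      nlinarith

/-- uniform version of the stuck point property on `F m` -/
private lemma red_stk (hSIG : StmtSIG) {F : ℕ → Submodule ℝ X} (hF : Chain F) {y : X} {r : ℝ}
    (hr0 : 0 < r) (hr1 : r ≤ 1)
    (hst : ∀ x : X, ‖x‖ ≤ 5 → ∀ η : ℝ, 0 < η → ∃ q : X → ℝ, Good F q ∧ ∃ δ : ℝ, 0 < δ ∧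
        ∀ z : X, ‖z‖ ≤ 1 → q z ≤ δ →
          ‖y + r • (x + (1 / 4 : ℝ) • z)‖ ≤ max 1 ‖y + r • x‖ + η)
    (m : ℕ) (η : ℝ) (hη : 0 < η) :
    ∃ Q : X → ℝ, Good F Q ∧ ∃ δ : ℝ, 0 < δ ∧ ∀ x ∈ F m, ‖x‖ ≤ 5 → ∀ z : X, ‖z‖ ≤ 1 → Q z ≤ δ →
      ‖y + r • (x + (1 / 4 : ℝ) • z)‖ ≤ max 1 ‖y + r • x‖ + η := by
  classical
  have := hF.fd m
  obtain ⟨t, htK, htfin, hcov⟩ := (red_compact (F m) 5).finite_cover_balls
    (show (0 : ℝ) < η / 4 by linarith)
  have hst' : ∀ a : X, ∃ q : X → ℝ, ∃ δ : ℝ, a ∈ t → Good F q ∧ 0 < δ ∧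
        ∀ z : X, ‖z‖ ≤ 1 → q z ≤ δ →
          ‖y + r • (a + (1 / 4 : ℝ) • z)‖ ≤ max 1 ‖y + r • a‖ + η / 2 := by
    intro a
    by_cases ha : a ∈ t
    · obtain ⟨q, hq, δ, hδ, h⟩ := hst a (htK ha).2 (η / 2) (by linarith)
      exact ⟨q, δ, fun _ => ⟨hq, hδ, h⟩⟩
    · exact ⟨fun _ => 0, 0, fun h => absurd h ha⟩
  choose q d hqd using hst'
  obtain ⟨Q, hQ, hQ0, C, hC, hdom⟩ := red_fin hSIG hF htfin.toFinset q
    (fun a ha => (hqd a (by simpa using ha)).1)
  obtain ⟨e, he, hed⟩ := red_pos_min htfin.toFinset d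
    (fun a ha => (hqd a (by simpa using ha)).2.1)
  refine ⟨Q, hQ, e / C, div_pos he hC, ?_⟩
  intro x hx hx5 z hz hQz
  obtain ⟨a, ha, hxa⟩ := Set.mem_iUnion₂.mp (hcov (show x ∈ {x : X | x ∈ F m ∧ ‖x‖ ≤ 5} from ⟨hx, hx5⟩))
  rw [Metric.mem_ball, dist_eq_norm] at hxa
  have hat : a ∈ htfin.toFinset := by simpa using ha
  have h1 : q a z ≤ d a := by
    refine (hdom a hat z).trans ?_
    calc C * Q z ≤ C * (e / C) := mul_le_mul_of_nonneg_left hQz hC.le
      _ = e := by field_simp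
      _ ≤ d a := hed a hat
  have h2 := (hqd a ha).2.2 z hz h1
  have h3 : ‖y + r • (x + (1 / 4 : ℝ) • z)‖ ≤ ‖y + r • (a + (1 / 4 : ℝ) • z)‖ + η / 4 := by
    have e1 : y + r • (x + (1 / 4 : ℝ) • z) = (y + r • (a + (1 / 4 : ℝ) • z)) + r • (x - a) := by
      module
    rw [e1]
    refine (norm_add_le _ _).trans ?_
    have : ‖r • (x - a)‖ ≤ η / 4 := by
      rw [norm_smul, Real.norm_eq_abs, abs_of_pos hr0]
      calc r * ‖x - a‖ ≤ 1 * ‖x - a‖ := mul_le_mul_of_nonneg_right hr1 (norm_nonneg _)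
        _ ≤ η / 4 := by linarith
    linarith
  have h4 : ‖y + r • a‖ ≤ ‖y + r • x‖ + η / 4 := by
    have e1 : y + r • a = (y + r • x) + r • (a - x) := by
      module
    rw [e1]
    refine (norm_add_le _ _).trans ?_
    have : ‖r • (a - x)‖ ≤ η / 4 := by
      rw [norm_smul, Real.norm_eq_abs, abs_of_pos hr0, norm_sub_rev]
      calc r * ‖x - a‖ ≤ 1 * ‖x - a‖ := mul_le_mul_of_nonneg_right hr1 (norm_nonneg _)
        _ ≤ η / 4 := by linarith
    linarith
  have h5 : max 1 ‖y + r • a‖ ≤ max 1 ‖y + r • x‖ + η / 4 := by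
    refine max_le ?_ ?_
    · have := le_max_left 1 ‖y + r • x‖
      linarith
    · have := le_max_right 1 ‖y + r • x‖
      linarith
  linarith

/-- antitone minimum -/
private def redMin (d : ℕ → ℝ) : ℕ → ℝ
  | 0 => d 0
  | (m + 1) => min (redMin d m) (d (m + 1))

private lemma redMin_pos {d : ℕ → ℝ} (hd : ∀ m, 0 < d m) (m : ℕ) : 0 < redMin d m := by
  induction m with
  | zero => exact hd 0
  | succ m ih => exact lt_min ih (hd _)

private lemma redMin_anti (d : ℕ → ℝ) : Antitone (redMin d) :=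
  antitone_nat_of_succ_le (fun _ => min_le_left _ _)

private lemma redMin_le (d : ℕ → ℝ) (m : ℕ) : redMin d m ≤ d m := by
  cases m with
  | zero => exact le_refl _
  | succ m => exact min_le_right _ _

/-- the Setup of 3.1 -/
private lemma red_setup (hSIG : StmtSIG) {F : ℕ → Submodule ℝ X} (hF : Chain F) {y : X} {r : ℝ}
    (hr0 : 0 < r) (hr1 : r ≤ 1)
    (hst : ∀ x : X, ‖x‖ ≤ 5 → ∀ η : ℝ, 0 < η → ∃ q : X → ℝ, Good F q ∧ ∃ δ : ℝ, 0 < δ ∧
        ∀ z : X, ‖z‖ ≤ 1 → q z ≤ δ →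
          ‖y + r • (x + (1 / 4 : ℝ) • z)‖ ≤ max 1 ‖y + r • x‖ + η)
    (η : ℝ) (hη : 0 < η) :
    ∃ (ι : Type) (S : Sys ι) (h : ι → X →L[ℝ] ℝ) (p : Seminorm ℝ X) (δ : ℕ → ℝ)
      (G : ℕ → Finset (X →L[ℝ] ℝ)), NSys F S h ∧ S.DualL1 ∧ (∀ n, 1 ≤ S.rk n) ∧
      (∀ x, p x = ph h x) ∧ Setup F p δ G ∧
      ∀ m, ∀ x ∈ F m, ‖x‖ ≤ 5 → ∀ z : X, ‖z‖ ≤ 1 → p z ≤ δ m →
        ‖y + r • (x + (1 / 4 : ℝ) • z)‖ ≤ max 1 ‖y + r • x‖ + η * (1 / 2 : ℝ) ^ (m + 1) := by
  classical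
  have hηm : ∀ m : ℕ, 0 < η * (1 / 2 : ℝ) ^ (m + 1) := fun m => by positivity
  have hnorm : ∀ m, ∃ G : Finset (X →L[ℝ] ℝ), (∀ g ∈ G, ‖g‖ ≤ 1) ∧
      ∀ x ∈ F m, ∃ g ∈ G, 9 / 10 * ‖x‖ ≤ |g x| := fun m => by
    have := hF.fd m
    exact red_norming (F m)
  choose G' hG'1 hG'2 using hnorm
  let G : ℕ → Finset (X →L[ℝ] ℝ) := fun m => (Finset.range (m + 1)).biUnion G'
  have hGmem : ∀ m g, g ∈ G m ↔ ∃ i, i < m + 1 ∧ g ∈ G' i := by
    intro m g
    simp [G]
  choose Q1 hQ1 d1 hd1 hst1 using fun m => red_stk hSIG hF hr0 hr1 hst m _ (hηm m)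
  -- one good function for the level m
  let qq : ∀ m : ℕ, Option (X →L[ℝ] ℝ) → X → ℝ := fun m o =>
    match o with
    | none => Q1 m
    | some g => fun x => |g x|
  have hqq : ∀ m, ∀ o ∈ insert none ((G m).image some), Good F (qq m o) := by
    intro m o _
    cases o with
    | none => exact hQ1 m
    | some g => exact (hSIG X F hF).1 g
  choose R hR hR0 C hC hdom using fun m => red_fin hSIG hF (insert none ((G m).image some))
    (qq m) (hqq m)
  obtain ⟨ι, S, h, hN, hD, hinf, hrk, hker, hdomR⟩ := (hSIG X F hF).2 R hR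
  choose D hDpos hD2 using hdomR
  obtain ⟨H, hH⟩ := hN.bdd
  have : Nonempty ι := inferInstance
  let p : Seminorm ℝ X := redSemi h H hH
  have hp : ∀ x, p x = ph h x := fun x => redSemi_apply h H hH x
  have hCD : ∀ m, 0 < C m * D m := fun m => mul_pos (hC m) (hDpos m)
  have hQ1p : ∀ m x, Q1 m x ≤ C m * D m * p x := by
    intro m x
    have h1 := hdom m none (Finset.mem_insert_self _ _) x
    have h2 := hD2 m x
    rw [hp x]
    calc Q1 m x ≤ C m * R m x := h1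
      _ ≤ C m * (D m * ph h x) := mul_le_mul_of_nonneg_left h2 (hC m).le
      _ = _ := by ring
  have hGp : ∀ m, ∀ g ∈ G m, ∀ x, |g x| ≤ C m * D m * p x := by
    intro m g hg x
    have h1 := hdom m (some g) (Finset.mem_insert_of_mem (Finset.mem_image.mpr ⟨g, hg, rfl⟩)) x
    have h2 := hD2 m x
    rw [hp x]
    calc |g x| ≤ C m * R m x := h1
      _ ≤ C m * (D m * ph h x) := mul_le_mul_of_nonneg_left h2 (hC m).le
      _ = _ := by ring
  let d : ℕ → ℝ := fun m => min (d1 m / (C m * D m)) ((1 / 2 : ℝ) ^ (m + 1) / (C m * D m))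
  have hd : ∀ m, 0 < d m := fun m => lt_min (div_pos (hd1 m) (hCD m))
    (div_pos (by positivity) (hCD m))
  refine ⟨ι, S, h, p, redMin d, G, hN, hD, hrk, hp, ?_, ?_⟩
  · refine ⟨hF, redMin_pos hd, redMin_anti d, ?_, ?_, ?_, ?_, ?_, ?_, ?_⟩
    · refine ⟨|H| + 1, by positivity, ?_⟩
      intro x
      rw [hp x]
      refine ciSup_le (fun n => (red_val hH x n).trans ?_)
      refine mul_le_mul_of_nonneg_right ?_ (norm_nonneg _)
      have := le_abs_self H
      linarith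
    · intro m g hg
      obtain ⟨i, _, hgi⟩ := (hGmem m g).mp hg
      exact hG'1 i g hgi
    · intro m n hmn g hg
      obtain ⟨i, hi, hgi⟩ := (hGmem m g).mp hg
      exact (hGmem n g).mpr ⟨i, by omega, hgi⟩
    · intro m x hx
      obtain ⟨g, hg, hgx⟩ := hG'2 m x hx
      exact ⟨g, (hGmem m g).mpr ⟨m, by omega, hg⟩, hgx⟩
    · intro m
      exact ⟨C m * D m, hCD m, hGp m⟩
    · intro m g hg z hz hpz
      have h1 := hGp m g hg z
      have h2 : p z ≤ (1 / 2 : ℝ) ^ (m + 1) / (C m * D m) :=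
        hpz.trans ((redMin_le d m).trans (min_le_right _ _))
      rw [le_div_iff₀ (hCD m)] at h2
      linarith
    · intro k x hx hpx
      rw [hp x] at hpx
      exact hker k x hx hpx
  · intro m x hx hx5 z hz hpz
    refine hst1 m x hx hx5 z hz ?_
    have h1 := hQ1p m z
    have h2 : p z ≤ d1 m / (C m * D m) :=
      hpz.trans ((redMin_le d m).trans (min_le_left _ _))
    rw [le_div_iff₀ (hCD m)] at h2
    linarith

private lemma red_convex (y : X) (r : ℝ) : ConvexOn ℝ univ (fun x : X => ‖y + r • x‖) := by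
  refine ⟨convex_univ, ?_⟩
  intro a _ b _ s t hs ht hst
  have e1 : y + r • (s • a + t • b) = s • (y + r • a) + t • (y + r • b) := by
    have : y = (s + t) • y := by rw [hst, one_smul]
    calc y + r • (s • a + t • b) = (s + t) • y + r • (s • a + t • b) := by rw [← this]
      _ = _ := by module
  simp only [smul_eq_mul]
  rw [e1]
  refine (norm_add_le _ _).trans ?_
  rw [norm_smul, norm_smul, Real.norm_of_nonneg hs, Real.norm_of_nonneg ht]

/-- MODULE RED -/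
theorem stmtRED (hSIG : StmtSIG) (hSTK : StmtSTK) (hRES : StmtRES) (hWB : StmtWB) : StmtRED := by
  intro X _ _ _ F hF hgap hUT
  by_contra hnot
  obtain ⟨y, r, hy1, hr0, hr1, hPP, hst⟩ := hSTK X F hF hgap hnot
  apply hPP
  intro η hη
  obtain ⟨ι, S, h, p, δ, G, hN, hD, hrk, hp, hset, hg⟩ :=
    red_setup hSIG hF hr0 hr1 hst (η / 2) (by linarith)
  have hgood := hUT ι S h hN hD hrk p hp δ G hset
  refine ⟨NW F p δ, hgood, 1 / 17, by norm_num, ?_⟩
  intro z hz hNz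
  obtain ⟨_, _, hconv, hsymm, _, _, _, _, _, _, _, hclos, hfN, _⟩ := hWB X F p δ G hset
  have hres := hRES X F p δ G hset (fun x => ‖y + r • x‖) (η / 2) (by linarith)
    (red_convex y r) (by simp [hy1]) hg
  have hcl : (16 : ℝ) • z ∈ closure (WA F p δ) := by
    refine hclos _ (fun f hf => ?_)
    have h1 := hfN z f hf
    rw [map_smul, smul_eq_mul]
    linarith
  set e : ℝ := η / 2 with he
  have hepos : 0 < e := by linarith
  obtain ⟨b, hb, hdist⟩ := Metric.mem_closure_iff.mp hcl e hepos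
  rw [dist_eq_norm] at hdist
  set c : ℝ := 16 / (16 + e) with hc
  have h16 : 0 < 16 + e := by linarith
  have hc0 : 0 ≤ c := by positivity
  have hc1 : c ≤ 1 := by
    rw [hc, div_le_one h16]; linarith
  have hc2 : c * (16 + e) = 16 := by
    rw [hc]; field_simp
  have hzero : (0 : X) ∈ WA F p δ := by
    have h1 := hconv hb (hsymm b hb) (show (0 : ℝ) ≤ 1 / 2 by norm_num)
      (show (0 : ℝ) ≤ 1 / 2 by norm_num) (by norm_num)
    have h2 : (1 / 2 : ℝ) • b + (1 / 2 : ℝ) • -b = 0 := by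
      rw [smul_neg, add_neg_cancel]
    rwa [h2] at h1
  have hcb : c • b ∈ WA F p δ := by
    have h1 := hconv hb hzero hc0 (show 0 ≤ 1 - c by linarith) (by ring)
    rwa [smul_zero, add_zero] at h1
  have hbn : ‖b‖ ≤ 16 + e := by
    have h1 : ‖b‖ ≤ ‖(16 : ℝ) • z‖ + ‖(16 : ℝ) • z - b‖ := by
      calc ‖b‖ = ‖(16 : ℝ) • z - ((16 : ℝ) • z - b)‖ := by congr 1; abel
        _ ≤ _ := norm_sub_le _ _
    have h2 : ‖(16 : ℝ) • z‖ ≤ 16 := by
      rw [norm_smul, Real.norm_of_nonneg (by norm_num)]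
      linarith
    linarith
  have hcbn : ‖c • b‖ ≤ 16 := by
    rw [norm_smul, Real.norm_of_nonneg hc0, ← hc2]
    exact mul_le_mul_of_nonneg_left hbn hc0
  have h1 := hres _ hcb hcbn
  have h2 : ‖(16 : ℝ) • z - c • b‖ ≤ 2 * e := by
    have e1 : (16 : ℝ) • z - c • b = ((16 : ℝ) • z - b) + (1 - c) • b := by module
    rw [e1]
    refine (norm_add_le _ _).trans ?_
    rw [norm_smul, Real.norm_of_nonneg (show 0 ≤ 1 - c by linarith)]
    have h3 : (1 - c) * ‖b‖ ≤ (1 - c) * (16 + e) :=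
      mul_le_mul_of_nonneg_left hbn (by linarith)
    have h4 : (1 - c) * (16 + e) = e := by
      rw [sub_mul, hc2]; ring
    linarith
  have e2 : y + (4 / 3 * r) • z =
      (y + r • ((1 / 12 : ℝ) • (c • b))) + (r / 12) • ((16 : ℝ) • z - c • b) := by
    module
  rw [e2]
  refine (norm_add_le _ _).trans ?_
  have h5 : ‖(r / 12) • ((16 : ℝ) • z - c • b)‖ ≤ e := by
    rw [norm_smul, Real.norm_of_nonneg (show 0 ≤ r / 12 by linarith)]
    have h6 : r / 12 * ‖(16 : ℝ) • z - c • b‖ ≤ r / 12 * (2 * e) :=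
      mul_le_mul_of_nonneg_left h2 (by linarith)
    nlinarith
  have h6 : ‖y + r • ((1 / 12 : ℝ) • (c • b))‖ ≤ 1 + e := h1
  linarith

end

end PB
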