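import Pool.Agent.PB57.Stmts

set_option autoImplicit false

/-!
Modules REN and CHAIN (0.5, 0.6 of the paper proof of S05883): the renorming with the gap
property, and the existence of a chain of finite dimensional subspaces.
-/

open Metric Set Filter Topology

namespace PB

namespace REN

section renorm

variable {X : Type*} [NormedAddCommGroup X] [NormedSpace ℝ X]

/-- the new norm -/
noncomputable def nn (f : ℕ → (X →L[ℝ] ℝ)) (x : X) : ℝ :=
  ⨆ i : ℕ, (1 + (1 / 2 : ℝ) ^ (i + 1)) * |f i x|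

lemma half_pow_pos (i : ℕ) : (0 : ℝ) < (1 / 2 : ℝ) ^ i := by positivity

lemma half_pow_le (i : ℕ) : (1 / 2 : ℝ) ^ i ≤ 1 := pow_le_one₀ (by norm_num) (by norm_num)

lemma abs_le_norm {g : (X →L[ℝ] ℝ)} (hg : ‖g‖ ≤ 1) (x : X) : |g x| ≤ ‖x‖ := by
  have h1 : ‖g x‖ ≤ ‖g‖ * ‖x‖ := g.le_opNorm x
  have h2 : ‖g‖ * ‖x‖ ≤ 1 * ‖x‖ := mul_le_mul_of_nonneg_right hg (norm_nonneg x)
  rw [Real.norm_eq_abs] at h1
  linarith

variable {f : ℕ → (X →L[ℝ] ℝ)} (hf : ∀ i, ‖f i‖ ≤ 1)

include hf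

lemma term_le (i : ℕ) (x : X) : (1 + (1 / 2 : ℝ) ^ (i + 1)) * |f i x| ≤ 2 * ‖x‖ := by
  have h1 := half_pow_le (i + 1)
  have h2 := abs_le_norm (hf i) x
  have h3 := abs_nonneg (f i x)
  have h4 := half_pow_pos (i + 1)
  nlinarith

lemma bdd (x : X) : BddAbove (range fun i : ℕ => (1 + (1 / 2 : ℝ) ^ (i + 1)) * |f i x|) :=
  ⟨2 * ‖x‖, by rintro _ ⟨i, rfl⟩; exact term_le hf i x⟩

lemma nn_le (x : X) : nn f x ≤ 2 * ‖x‖ := ciSup_le fun i => term_le hf i x

lemma le_nn (i : ℕ) (x : X) : (1 + (1 / 2 : ℝ) ^ (i + 1)) * |f i x| ≤ nn f x :=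
  le_ciSup (bdd hf x) i

lemma nn_nonneg (x : X) : 0 ≤ nn f x :=
  le_trans (by positivity) (le_nn hf 0 x)

lemma nn_add (x y : X) : nn f (x + y) ≤ nn f x + nn f y := by
  refine ciSup_le fun i => ?_
  have h1 := le_nn hf i x
  have h2 := le_nn hf i y
  have h3 : |f i (x + y)| ≤ |f i x| + |f i y| := by rw [map_add]; exact abs_add_le _ _
  have h4 := half_pow_pos (i + 1)
  nlinarith

lemma nn_smul_le (c : ℝ) (x : X) : nn f (c • x) ≤ |c| * nn f x := by
  refine ciSup_le fun i => ?_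
  have h1 := le_nn hf i x
  rw [map_smul, smul_eq_mul, abs_mul]
  have := mul_le_mul_of_nonneg_left h1 (abs_nonneg c)
  linarith

lemma nn_smul (c : ℝ) (x : X) : nn f (c • x) = |c| * nn f x := by
  by_cases hc : c = 0
  · subst hc
    refine le_antisymm (nn_smul_le hf _ _) ?_
    rw [abs_zero, zero_mul]
    exact nn_nonneg hf _
  · refine le_antisymm (nn_smul_le hf _ _) ?_
    have h1 := nn_smul_le hf c⁻¹ (c • x)
    rw [smul_smul, inv_mul_cancel₀ hc, one_smul, abs_inv] at h1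
    have hc' : 0 < |c| := abs_pos.2 hc
    have := mul_le_mul_of_nonneg_left h1 hc'.le
    rwa [← mul_assoc, mul_inv_cancel₀ hc'.ne', one_mul] at this

lemma lt_nn (hb : ∀ x, ∃ i, f i x = ‖x‖) {x : X} (hx : x ≠ 0) : ‖x‖ < nn f x := by
  obtain ⟨i, hi⟩ := hb x
  have h1 := le_nn hf i x
  have h2 : 0 < ‖x‖ := norm_pos_iff.2 hx
  rw [hi, abs_of_pos h2] at h1
  have h3 := half_pow_pos (i + 1)
  nlinarith

lemma norm_le_nn (hb : ∀ x, ∃ i, f i x = ‖x‖) (x : X) : ‖x‖ ≤ nn f x := by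
  by_cases hx : x = 0
  · subst hx; rw [norm_zero]; exact nn_nonneg hf _
  · exact (lt_nn hf hb hx).le

/-- 0.6 -/
lemma gap_aux (hb : ∀ x, ∃ i, f i x = ‖x‖) {y : X} (hy : nn f y = 1) {t : ℝ} (ht0 : 0 ≤ t)
    (ht : t < nn f y - ‖y‖) {η : ℝ} (hη : 0 < η) :
    ∃ (N : ℕ) (δ : ℝ), 0 < δ ∧ ∀ z, nn f z ≤ 1 → (∀ i, i < N → |f i z| ≤ δ) →
      nn f (y + t • z) ≤ 1 + η := by
  set a : ℝ := ‖y‖ + t with ha
  have ha1 : a < 1 := by rw [ha]; linarith
  have ha0 : 0 ≤ a := by rw [ha]; positivity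
  have ht1 : t ≤ 1 := by have := norm_nonneg y; linarith
  obtain ⟨N, hN⟩ := exists_pow_lt_of_lt_one (sub_pos.2 ha1) (show (1 / 2 : ℝ) < 1 by norm_num)
  refine ⟨N, η / 2, by positivity, ?_⟩
  intro z hz hzN
  refine ciSup_le fun i => ?_
  by_cases hi : i < N
  · have h1 := le_nn hf i y
    have h2 := hzN i hi
    have h3 : |f i (y + t • z)| ≤ |f i y| + t * |f i z| := by
      rw [map_add, map_smul, smul_eq_mul]
      refine (abs_add_le _ _).trans ?_
      rw [abs_mul, abs_of_nonneg ht0]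
    have h4 := half_pow_le (i + 1)
    have h5 := half_pow_pos (i + 1)
    have h6 : t * |f i z| ≤ 1 * (η / 2) :=
      mul_le_mul ht1 h2 (abs_nonneg _) zero_le_one
    have h7 : 0 ≤ t * |f i z| := by positivity
    calc (1 + (1 / 2 : ℝ) ^ (i + 1)) * |f i (y + t • z)|
        ≤ (1 + (1 / 2 : ℝ) ^ (i + 1)) * (|f i y| + t * |f i z|) := by
          apply mul_le_mul_of_nonneg_left h3; positivity
      _ = (1 + (1 / 2 : ℝ) ^ (i + 1)) * |f i y| + (1 + (1 / 2 : ℝ) ^ (i + 1)) * (t * |f i z|) := by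
          ring
      _ ≤ 1 + 2 * (t * |f i z|) := by
          rw [hy] at h1
          have : (1 + (1 / 2 : ℝ) ^ (i + 1)) * (t * |f i z|) ≤ 2 * (t * |f i z|) :=
            mul_le_mul_of_nonneg_right (by linarith) h7
          linarith
      _ ≤ 1 + η := by linarith
  · push Not at hi
    have h1 : |f i (y + t • z)| ≤ a := by
      refine (abs_le_norm (hf i) _).trans ?_
      refine (norm_add_le _ _).trans ?_
      rw [norm_smul, Real.norm_of_nonneg ht0, ha]
      have : ‖z‖ ≤ 1 := (norm_le_nn hf hb z).trans hz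
      have := mul_le_mul_of_nonneg_left this ht0
      linarith
    have h2 : (1 / 2 : ℝ) ^ (i + 1) ≤ (1 / 2 : ℝ) ^ N :=
      pow_le_pow_of_le_one (by norm_num) (by norm_num) (by omega)
    have h3 : (1 / 2 : ℝ) ^ (i + 1) ≤ 1 - a := h2.trans hN.le
    have h5 := half_pow_pos (i + 1)
    have h6 : (1 + (1 / 2 : ℝ) ^ (i + 1)) * |f i (y + t • z)| ≤
        (1 + (1 / 2 : ℝ) ^ (i + 1)) * a := by
      apply mul_le_mul_of_nonneg_left h1; positivity
    have h7 : (1 / 2 : ℝ) ^ (i + 1) * a ≤ (1 - a) * 1 :=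
      mul_le_mul h3 ha1.le ha0 (by linarith)
    nlinarith

end renorm

/-- the type carrying the new norm -/
def Ren (X : Type*) : Type _ := X

section
variable {X : Type*} [NormedAddCommGroup X] [NormedSpace ℝ X]

instance : AddCommGroup (Ren X) := inferInstanceAs (AddCommGroup X)

instance : Module ℝ (Ren X) := inferInstanceAs (Module ℝ X)

end


end REN

open REN in
/-- Module PB_REN (0.5, 0.6). -/
theorem stmtREN : StmtREN := by
  intro X _ _ _ _ f hf hb
  have hzero : ∀ x : X, nn f x = 0 ↔ x = 0 := by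
    intro x
    constructor
    · intro h
      by_contra hx
      have h1 := lt_nn hf hb hx
      have h2 : 0 ≤ ‖x‖ := norm_nonneg _
      linarith
    · intro h
      subst h
      have h1 := nn_smul hf 0 (0 : X)
      rwa [zero_smul, abs_zero, zero_mul] at h1
  let _ : Norm (Ren X) := ⟨fun x => nn f (x : X)⟩
  have hcore : NormedSpace.Core ℝ (Ren X) :=
    { norm_nonneg := fun x => nn_nonneg hf (X := X) x
      norm_smul := fun c x => nn_smul hf (X := X) c x
      norm_triangle := fun x y => nn_add hf (X := X) x y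
      norm_eq_zero_iff := fun x => hzero x }
  let _ : NormedAddCommGroup (Ren X) := NormedAddCommGroup.ofCore hcore
  let _ : NormedSpace ℝ (Ren X) := NormedSpace.ofCore hcore
  let e0 : X ≃ₗ[ℝ] Ren X := LinearEquiv.refl ℝ X
  let e : X ≃L[ℝ] Ren X := e0.toContinuousLinearEquivOfBounds 2 1
    (fun x => nn_le hf x) (fun x => by rw [one_mul]; exact norm_le_nn hf hb _)
  have hcomp : CompleteSpace (Ren X) :=
    (e.isUniformEmbedding.completeSpace_congr e.surjective).1 inferInstance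
  have hsep : TopologicalSpace.SeparableSpace (Ren X) :=
    e.surjective.denseRange.separableSpace e.continuous
  refine ⟨Ren X, inferInstance, inferInstance, hcomp, hsep, ⟨e⟩, ?_⟩
  refine ⟨fun y => ‖y‖ - ‖e.symm y‖, ?_, ?_, ?_⟩
  · exact continuous_norm.sub (continuous_norm.comp e.symm.continuous)
  · intro y hy
    have hy0 : (y : X) ≠ 0 := by
      intro h
      have : ‖y‖ = 0 := (hzero y).2 h
      rw [this] at hy
      exact zero_ne_one hy
    exact sub_pos.2 (lt_nn hf hb (x := (y : X)) hy0)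
  · intro y hy t ht0 ht η hη
    classical
    obtain ⟨N, δ, hδ, h⟩ := gap_aux hf hb (y := (y : X)) hy ht0 ht hη
    refine ⟨(Finset.range N).image fun i => (f i).comp (e.symm : Ren X →L[ℝ] X), δ, hδ, ?_⟩
    intro z hz hzG
    refine h z hz fun i hi => ?_
    exact hzG _ (Finset.mem_image_of_mem _ (Finset.mem_range.2 hi))

/-- part of module PB_REN: existence of a chain. -/
theorem stmtCHAIN : StmtCHAIN := by
  intro X _ _ _
  classical
  let u : ℕ → X := TopologicalSpace.denseSeq X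
  refine ⟨fun k => Submodule.span ℝ (u '' Set.Iio k), ?_, ?_, ?_, ?_⟩
  · intro k
    exact FiniteDimensional.span_of_finite ℝ ((Set.finite_Iio k).image u)
  · intro a b hab
    exact Submodule.span_mono (Set.image_mono (Set.Iio_subset_Iio hab))
  · simp
  · have h1 : Dense (range u) := TopologicalSpace.denseRange_denseSeq X
    refine h1.mono ?_
    rintro _ ⟨i, rfl⟩
    refine mem_iUnion.2 ⟨i + 1, ?_⟩
    exact Submodule.subset_span ⟨i, Nat.lt_succ_self i, rfl⟩

end PB
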