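import Pool.Agent.PB57.Stmts

/-!
# MODULE RES (3.3): the reservoir lemma   (helper46)
-/

set_option autoImplicit false

open Filter Topology Set

namespace PB

namespace RES

variable {X : Type} [NormedAddCommGroup X] [NormedSpace ℝ X]

section Rec

variable {k : ℕ} (a : Fin k → ℝ) (z : Fin k → X) (m n : Fin k → ℕ)

/-- active blocks -/
def act (t : ℕ) : Finset (Fin k) := Finset.univ.filter fun i => m i < t ∧ t < n i

/-- finished blocks -/
def fin (t : ℕ) : Finset (Fin k) := Finset.univ.filter fun i => n i ≤ t

/-- blocks finished at time t -/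
def now (t : ℕ) : Finset (Fin k) := Finset.univ.filter fun i => n i = t

/-- the recursion for R -/
def IsR (R : ℕ → X) (t : ℕ) : Prop :=
  (1 - ∑ i ∈ act m n t, a i / 3) • R t =
    (1 / 12 : ℝ) • (∑ i ∈ fin n t, a i • z i) - ∑ i ∈ act m n t, (a i / 3) • R (m i)

theorem exists_R (hD : ∀ t, (2 / 3 : ℝ) ≤ 1 - ∑ i ∈ act m n t, a i / 3) (T : ℕ) :
    ∃ R : ℕ → X, ∀ t ≤ T, IsR a z m n R t := by
  induction T with
  | zero =>
    refine ⟨fun _ => (1 - ∑ i ∈ act m n 0, a i / 3)⁻¹ •
      ((1 / 12 : ℝ) • (∑ i ∈ fin n 0, a i • z i)), fun t ht => ?_⟩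
    obtain rfl : t = 0 := by omega
    have h0 : act m n 0 = ∅ := by
      unfold act
      refine Finset.filter_eq_empty_iff.mpr fun i _ h => ?_
      omega
    unfold IsR
    rw [h0]
    simp
  | succ T ih =>
    obtain ⟨R, hR⟩ := ih
    classical
    refine ⟨Function.update R (T + 1) ((1 - ∑ i ∈ act m n (T + 1), a i / 3)⁻¹ •
      ((1 / 12 : ℝ) • (∑ i ∈ fin n (T + 1), a i • z i)
        - ∑ i ∈ act m n (T + 1), (a i / 3) • R (m i))), fun t ht => ?_⟩
    have hsum : ∀ t ≤ T + 1, ∀ v : X, ∑ i ∈ act m n t, (a i / 3) •
        Function.update R (T + 1) v (m i) = ∑ i ∈ act m n t, (a i / 3) • R (m i) := by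
      intro t ht v
      refine Finset.sum_congr rfl fun i hi => ?_
      have : m i < t := (Finset.mem_filter.mp hi).2.1
      rw [Function.update_of_ne (by omega)]
    rcases Nat.lt_or_ge t (T + 1) with h | h
    · unfold IsR
      rw [hsum t (by omega), Function.update_of_ne (by omega)]
      exact hR t (by omega)
    · obtain rfl : t = T + 1 := by omega
      unfold IsR
      rw [hsum _ le_rfl, Function.update_self, smul_smul, mul_inv_cancel₀, one_smul]
      have := hD (T + 1)
      exact ne_of_gt (by linarith)

/-- the step identity (i) -/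
theorem step {R : ℕ → X} {t : ℕ} (hmn : ∀ i, m i < n i) (h0 : IsR a z m n R t)
    (h1 : IsR a z m n R (t + 1)) :
    (1 - ∑ i ∈ act m n (t + 1), a i / 3) • R (t + 1) =
      (1 - ∑ i with m i ≤ t ∧ t < n i, a i / 3) • R t +
        ∑ i ∈ now n (t + 1), (a i / 3) • (R (m i) + (1 / 4 : ℝ) • z i) := by
  unfold IsR at h0 h1
  have e1 : (∑ i ∈ fin n (t + 1), a i • z i) =
      (∑ i ∈ fin n t, a i • z i) + ∑ i ∈ now n (t + 1), a i • z i := by
    simp only [fin, now, Finset.sum_filter, ← Finset.sum_add_distrib]
    refine Finset.sum_congr rfl fun i _ => ?_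
    rcases Nat.lt_trichotomy (n i) (t + 1) with h | h | h
    · rw [if_pos (by omega), if_pos (by omega), if_neg (by omega), add_zero]
    · rw [if_pos (by omega), if_neg (by omega), if_pos (by omega), zero_add]
    · rw [if_neg (by omega), if_neg (by omega), if_neg (by omega), add_zero]
  have e2 : (∑ i ∈ act m n t, (a i / 3) • R (m i)) - (∑ i ∈ act m n (t + 1), (a i / 3) • R (m i))
      = (∑ i ∈ now n (t + 1), (a i / 3) • R (m i)) -
        ∑ i with m i = t, (a i / 3) • R t := by
    simp only [act, now, Finset.sum_filter, ← Finset.sum_sub_distrib]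
    refine Finset.sum_congr rfl fun i _ => ?_
    have hi := hmn i
    by_cases c1 : m i = t
    · rw [if_neg (by omega), if_pos c1, c1]
      by_cases c2 : n i = t + 1
      · rw [if_neg (by omega), if_pos c2]; simp
      · rw [if_pos (by omega), if_neg c2]
    · rw [if_neg c1, sub_zero]
      by_cases c3 : m i < t
      · rcases Nat.lt_trichotomy (n i) (t + 1) with h | h | h
        · rw [if_neg (by omega), if_neg (by omega), if_neg (by omega)]; simp
        · rw [if_pos (by omega), if_neg (by omega), if_pos (by omega)]; simp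
        · rw [if_pos (by omega), if_pos (by omega), if_neg (by omega)]; simp
      · rw [if_neg (by omega), if_neg (by omega), if_neg (by omega)]; simp
  have e3 : (∑ i with m i ≤ t ∧ t < n i, a i / 3) =
      (∑ i ∈ act m n t, a i / 3) + ∑ i with m i = t, a i / 3 := by
    simp only [act, Finset.sum_filter, ← Finset.sum_add_distrib]
    refine Finset.sum_congr rfl fun i _ => ?_
    have hi := hmn i
    by_cases c1 : m i = t
    · rw [if_pos (by omega), if_neg (by omega), if_pos c1, zero_add]
    · rw [if_neg c1, add_zero]
      by_cases c3 : m i ≤ t ∧ t < n i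
      · rw [if_pos c3, if_pos (by omega)]
      · rw [if_neg c3, if_neg (by omega)]
  have e4 : (∑ i ∈ now n (t + 1), (a i / 3) • (R (m i) + (1 / 4 : ℝ) • z i)) =
      (∑ i ∈ now n (t + 1), (a i / 3) • R (m i)) +
        (1 / 12 : ℝ) • ∑ i ∈ now n (t + 1), a i • z i := by
    rw [Finset.smul_sum, ← Finset.sum_add_distrib]
    refine Finset.sum_congr rfl fun i _ => ?_
    rw [smul_add, smul_smul, smul_smul]
    congr 2
    ring
  rw [h1, e1, e3, e4, ← sub_sub, sub_smul, h0, smul_add, Finset.sum_smul]
  have e2' := sub_eq_iff_eq_add.mp e2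
  rw [e2']
  abel

end Rec

end RES

open RES in
/-- MODULE RES -/
theorem stmtRES : StmtRES := by
  intro X _ _ F p δ G hS g η hη hg hg0 hstep x hx hx16
  obtain ⟨N, hxN⟩ := Set.mem_iUnion.mp hx
  obtain ⟨k, a, z, m, n, ha, hleg, hnN, hsum, hxe⟩ := hxN
  have hmn : ∀ i, m i < n i := fun i => (hleg i).1
  -- sums over active blocks
  have hact : ∀ t, ∑ i ∈ act m n t, a i ≤ 1 := by
    intro t
    refine le_trans (Finset.sum_le_sum_of_subset_of_nonneg ?_ fun i _ _ => ha i) (hsum t)
    intro i hi
    simp only [act, Finset.mem_filter, Finset.mem_univ, true_and] at hi ⊢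
    exact ⟨hi.1.le, hi.2⟩
  have hact3 : ∀ t, ∑ i ∈ act m n t, a i / 3 = (∑ i ∈ act m n t, a i) / 3 := fun t =>
    (Finset.sum_div _ _ _).symm
  have hact0 : ∀ t, 0 ≤ ∑ i ∈ act m n t, a i / 3 := fun t =>
    Finset.sum_nonneg fun i _ => div_nonneg (ha i) (by norm_num)
  have hD : ∀ t, (2 / 3 : ℝ) ≤ 1 - ∑ i ∈ act m n t, a i / 3 := by
    intro t
    rw [hact3]
    have := hact t
    linarith
  obtain ⟨R, hR⟩ := exists_R a z m n hD N
  -- membership
  have hyF : ∀ t, (∑ i ∈ fin n t, a i • z i) ∈ F t := by
    intro t
    refine Submodule.sum_mem _ fun i hi => Submodule.smul_mem _ _ ?_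
    have : n i ≤ t := (Finset.mem_filter.mp hi).2
    exact hS.chain.mono this (hleg i).2.1
  have hRF : ∀ t ≤ N, R t ∈ F t := by
    intro t
    induction t using Nat.strong_induction_on with
    | _ t ih =>
      intro ht
      have h1 := hR t ht
      unfold IsR at h1
      have hne : (1 - ∑ i ∈ act m n t, a i / 3) ≠ 0 := ne_of_gt (by linarith [hD t])
      have h2 : R t = (1 - ∑ i ∈ act m n t, a i / 3)⁻¹ •
          ((1 / 12 : ℝ) • (∑ i ∈ fin n t, a i • z i) - ∑ i ∈ act m n t, (a i / 3) • R (m i)) := by
        rw [← h1, smul_smul, inv_mul_cancel₀ hne, one_smul]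
      rw [h2]
      refine Submodule.smul_mem _ _ (Submodule.sub_mem _ (Submodule.smul_mem _ _ (hyF t)) ?_)
      refine Submodule.sum_mem _ fun i hi => Submodule.smul_mem _ _ ?_
      have hi' : m i < t := (Finset.mem_filter.mp hi).2.1
      exact hS.chain.mono hi'.le (ih (m i) hi' (by omega))
  -- the bound of y(t)
  have hy : ∀ t, ‖∑ i ∈ fin n t, a i • z i‖ ≤ 20 := by
    intro t
    obtain ⟨g', hg', hnorm⟩ := hS.Gnorm t _ (hyF t)
    have hdec : (∑ i ∈ fin n t, a i • z i) = x - (∑ i ∈ act m n t, a i • z i)
        - ∑ i with t ≤ m i, a i • z i := by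
      rw [hxe, sub_sub, eq_sub_iff_add_eq]
      simp only [fin, act, Finset.sum_filter, ← Finset.sum_add_distrib]
      refine Finset.sum_congr rfl fun i _ => ?_
      have hi := hmn i
      by_cases c1 : n i ≤ t
      · rw [if_pos c1, if_neg (by omega), if_neg (by omega)]; simp
      · rw [if_neg c1]
        by_cases c2 : m i < t
        · rw [if_pos (by omega), if_neg (by omega)]; simp
        · rw [if_neg (by omega), if_pos (by omega)]; simp
    have hgn : ‖g'‖ ≤ 1 := hS.Gle t g' hg'
    have b1 : |g' x| ≤ 16 := by
      have := g'.le_opNorm x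
      rw [Real.norm_eq_abs] at this
      nlinarith [norm_nonneg x, norm_nonneg g']
    have b2 : |g' (∑ i ∈ act m n t, a i • z i)| ≤ 1 := by
      rw [map_sum]
      refine le_trans (Finset.abs_sum_le_sum_abs _ _) (le_trans (Finset.sum_le_sum
        (g := fun i => a i) fun i _ => ?_) (hact t))
      rw [map_smul, smul_eq_mul, abs_mul, abs_of_nonneg (ha i)]
      have h3 := g'.le_opNorm (z i)
      rw [Real.norm_eq_abs] at h3
      have h4 : ‖z i‖ ≤ 1 := (hleg i).2.2.1
      have h5 : |g' (z i)| ≤ 1 := by
        nlinarith [norm_nonneg (z i), norm_nonneg g']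
      nlinarith [ha i]
    have b3 : |g' (∑ i with t ≤ m i, a i • z i)| ≤ 1 := by
      rw [map_sum]
      have h6 : ∀ i ∈ Finset.univ.filter (fun i => t ≤ m i), |g' (a i • z i)| ≤
          a i * (1 / 2 : ℝ) ^ (m i + 1) := by
        intro i hi
        have hi' : t ≤ m i := (Finset.mem_filter.mp hi).2
        rw [map_smul, smul_eq_mul, abs_mul, abs_of_nonneg (ha i)]
        exact mul_le_mul_of_nonneg_left
          (hS.Gflat (m i) g' (hS.Gmono hi' hg') (z i) (hleg i).2.2.1 (hleg i).2.2.2) (ha i)
      refine le_trans (Finset.abs_sum_le_sum_abs _ _) (le_trans (Finset.sum_le_sum h6) ?_)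
      have h7 : (∑ i with t ≤ m i, a i * (1 / 2 : ℝ) ^ (m i + 1)) ≤
          ∑ s ∈ Finset.range N, (1 / 2 : ℝ) ^ (s + 1) := by
        have h8 : ∀ i ∈ Finset.univ.filter (fun i => t ≤ m i), m i ∈ Finset.range N := by
          intro i _
          have h1 := hmn i
          have h2 := hnN i
          exact Finset.mem_range.mpr (by omega)
        rw [← Finset.sum_fiberwise_of_maps_to h8]
        refine Finset.sum_le_sum fun s _ => ?_
        have h9 : (∑ i ∈ (Finset.univ.filter (fun i => t ≤ m i)) with m i = s,
            a i * (1 / 2 : ℝ) ^ (m i + 1)) =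
            (∑ i ∈ (Finset.univ.filter (fun i => t ≤ m i)) with m i = s, a i) *
              (1 / 2 : ℝ) ^ (s + 1) := by
          rw [Finset.sum_mul]
          refine Finset.sum_congr rfl fun i hi => ?_
          rw [(Finset.mem_filter.mp hi).2]
        rw [h9]
        have h10 : (∑ i ∈ (Finset.univ.filter (fun i => t ≤ m i)) with m i = s, a i) ≤ 1 := by
          refine le_trans (Finset.sum_le_sum_of_subset_of_nonneg ?_ fun i _ _ => ha i) (hsum s)
          intro i hi
          have h11 := (Finset.mem_filter.mp hi).2
          simp only [Finset.mem_filter, Finset.mem_univ, true_and]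
          have := hmn i
          omega
        calc _ ≤ 1 * (1 / 2 : ℝ) ^ (s + 1) :=
              mul_le_mul_of_nonneg_right h10 (by positivity)
          _ = _ := one_mul _
      refine le_trans h7 ?_
      have h12 : ∀ N : ℕ, ∑ s ∈ Finset.range N, (1 / 2 : ℝ) ^ (s + 1) = 1 - (1 / 2) ^ N := by
        intro N
        induction N with
        | zero => simp
        | succ N ih => rw [Finset.sum_range_succ, ih, pow_succ]; ring
      rw [h12]
      have : (0 : ℝ) ≤ (1 / 2) ^ N := by positivity
      linarith
    have h13 : |g' (∑ i ∈ fin n t, a i • z i)| ≤ 18 := by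
      rw [hdec, map_sub, map_sub]
      have t1 := abs_sub (g' x - g' (∑ i ∈ act m n t, a i • z i)) (g' (∑ i with t ≤ m i, a i • z i))
      have t2 := abs_sub (g' x) (g' (∑ i ∈ act m n t, a i • z i))
      linarith
    linarith
  -- the bound of R(t)
  have hR5 : ∀ t ≤ N, ‖R t‖ ≤ 5 := by
    intro t
    induction t using Nat.strong_induction_on with
    | _ t ih =>
      intro ht
      have h1 := hR t ht
      unfold IsR at h1
      set D : ℝ := 1 - ∑ i ∈ act m n t, a i / 3 with hDdef
      have hDt : (2 / 3 : ℝ) ≤ D := hD t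
      have h2 : ‖D • R t‖ ≤ 20 / 12 + (1 - D) * 5 := by
        rw [h1]
        refine le_trans (norm_sub_le _ _) (add_le_add ?_ ?_)
        · rw [norm_smul, Real.norm_of_nonneg (by norm_num)]
          have := hy t
          linarith
        · refine le_trans (norm_sum_le _ _) ?_
          have h3 : 1 - D = ∑ i ∈ act m n t, a i / 3 := by rw [hDdef]; ring
          rw [h3, Finset.sum_mul]
          refine Finset.sum_le_sum fun i hi => ?_
          have hi' : m i < t := (Finset.mem_filter.mp hi).2.1
          rw [norm_smul, Real.norm_of_nonneg (div_nonneg (ha i) (by norm_num))]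
          exact mul_le_mul_of_nonneg_left (ih (m i) hi' (by omega))
            (div_nonneg (ha i) (by norm_num))
      rw [norm_smul, Real.norm_of_nonneg (by linarith)] at h2
      by_contra hc
      push Not at hc
      nlinarith
  -- the values of g
  have hG : ∀ t ≤ N, max 1 (g (R t)) ≤ 1 + η * ∑ s ∈ Finset.range t, (1 / 2 : ℝ) ^ (s + 1) := by
    have hmono : ∀ s t : ℕ, s ≤ t → (1 + η * ∑ s ∈ Finset.range s, (1 / 2 : ℝ) ^ (s + 1)) ≤
        1 + η * ∑ s ∈ Finset.range t, (1 / 2 : ℝ) ^ (s + 1) := by
      intro s t hst
      have : (∑ s ∈ Finset.range s, (1 / 2 : ℝ) ^ (s + 1)) ≤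
          ∑ s ∈ Finset.range t, (1 / 2 : ℝ) ^ (s + 1) :=
        Finset.sum_le_sum_of_subset_of_nonneg (Finset.range_mono hst) fun i _ _ => by positivity
      have := mul_le_mul_of_nonneg_left this hη
      linarith
    intro t
    induction t using Nat.strong_induction_on with
    | _ t ih =>
      intro ht
      rcases Nat.eq_zero_or_pos t with h0 | hpos
      · subst h0
        have h1 := hR 0 ht
        unfold IsR at h1
        have ea : act m n 0 = ∅ := by
          unfold act
          refine Finset.filter_eq_empty_iff.mpr fun i _ h => ?_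
          omega
        have ef : fin n 0 = ∅ := by
          unfold fin
          refine Finset.filter_eq_empty_iff.mpr fun i _ h => ?_
          have := hmn i
          omega
        rw [ea, ef] at h1
        simp only [Finset.sum_empty, sub_zero, one_smul, smul_zero] at h1
        rw [h1]
        simpa using hg0
      · obtain ⟨r, rfl⟩ : ∃ r, t = r + 1 := ⟨t - 1, by omega⟩
        refine max_le ?_ ?_
        · have : 0 ≤ η * ∑ s ∈ Finset.range (r + 1), (1 / 2 : ℝ) ^ (s + 1) :=
            mul_nonneg hη (Finset.sum_nonneg fun i _ => by positivity)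
          linarith
        set B : ℝ := 1 + η * ∑ s ∈ Finset.range (r + 1), (1 / 2 : ℝ) ^ (s + 1) with hB
        have hst := step a z m n hmn (hR r (by omega)) (hR (r + 1) ht)
        set D : ℝ := 1 - ∑ i ∈ act m n (r + 1), a i / 3 with hDdef
        have hDt : (2 / 3 : ℝ) ≤ D := hD (r + 1)
        set c0 : ℝ := 1 - ∑ i with m i ≤ r ∧ r < n i, a i / 3 with hc0
        have hc0n : 0 ≤ c0 := by
          rw [hc0, ← Finset.sum_div]
          have := hsum r
          linarith
        have hcoef : c0 + ∑ i ∈ now n (r + 1), a i / 3 = D := by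
          rw [hc0, hDdef]
          have e : (∑ i with m i ≤ r ∧ r < n i, a i / 3) =
              (∑ i ∈ now n (r + 1), a i / 3) + ∑ i ∈ act m n (r + 1), a i / 3 := by
            simp only [now, act, Finset.sum_filter, ← Finset.sum_add_distrib]
            refine Finset.sum_congr rfl fun i _ => ?_
            have hi := hmn i
            rcases Nat.lt_trichotomy (n i) (r + 1) with h | h | h
            · rw [if_neg (by omega), if_neg (by omega), if_neg (by omega), add_zero]
            · rw [if_pos (by omega), if_pos (by omega), if_neg (by omega), add_zero]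
            · by_cases c : m i ≤ r
              · rw [if_pos (by omega), if_neg (by omega), if_pos (by omega), zero_add]
              · rw [if_neg (by omega), if_neg (by omega), if_neg (by omega), add_zero]
          rw [e]; ring
        -- convex combination indexed by Option (Fin k)
        classical
        let w : Option (Fin k) → ℝ := fun o => Option.elim o (c0 / D) fun i => a i / 3 / D
        let v : Option (Fin k) → X := fun o => Option.elim o (R r) fun i =>
          R (m i) + (1 / 4 : ℝ) • z i
        have hDpos : 0 < D := by linarith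
        have hRe : R (r + 1) = ∑ o ∈ Finset.insertNone (now n (r + 1)), w o • v o := by
          rw [Finset.sum_insertNone]
          have : R (r + 1) = D⁻¹ • (D • R (r + 1)) := by
            rw [smul_smul, inv_mul_cancel₀ hDpos.ne', one_smul]
          rw [this, hst, smul_add, Finset.smul_sum, smul_smul]
          congr 1
          · change (D⁻¹ * c0) • R r = (c0 / D) • R r
            rw [div_eq_inv_mul]
          · refine Finset.sum_congr rfl fun i _ => ?_
            change D⁻¹ • ((a i / 3) • (R (m i) + (1 / 4 : ℝ) • z i)) =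
              (a i / 3 / D) • (R (m i) + (1 / 4 : ℝ) • z i)
            rw [smul_smul, div_eq_inv_mul (a i / 3) D]
        have hw0 : ∀ o ∈ Finset.insertNone (now n (r + 1)), 0 ≤ w o := by
          intro o _
          cases o with
          | none => exact div_nonneg hc0n hDpos.le
          | some i => exact div_nonneg (div_nonneg (ha i) (by norm_num)) hDpos.le
        have hw1 : ∑ o ∈ Finset.insertNone (now n (r + 1)), w o = 1 := by
          rw [Finset.sum_insertNone]
          change c0 / D + ∑ i ∈ now n (r + 1), a i / 3 / D = 1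
          rw [← Finset.sum_div, ← add_div, hcoef, div_self hDpos.ne']
        have hjen := hg.map_sum_le hw0 hw1 (fun o _ => Set.mem_univ (v o))
        rw [← hRe] at hjen
        refine le_trans hjen ?_
        have hvB : ∀ o ∈ Finset.insertNone (now n (r + 1)), w o • g (v o) ≤ w o * B := by
          intro o ho
          rw [smul_eq_mul]
          refine mul_le_mul_of_nonneg_left ?_ (hw0 o ho)
          cases o with
          | none =>
            have h1 := ih r (by omega) (by omega)
            exact le_trans (le_max_right _ _) (le_trans h1 (hmono r (r + 1) (by omega)))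
          | some i =>
            have hi : n i = r + 1 := by
              rw [Finset.some_mem_insertNone] at ho
              exact (Finset.mem_filter.mp ho).2
            have him := hmn i
            have h1 := hstep (m i) (R (m i)) (hRF (m i) (by omega)) (hR5 (m i) (by omega)) (z i)
              (hleg i).2.2.1 (hleg i).2.2.2
            have h2 := ih (m i) (by omega) (by omega)
            change g (R (m i) + (1 / 4 : ℝ) • z i) ≤ B
            refine le_trans h1 (le_trans (add_le_add_left h2 _) ?_)
            refine le_trans (le_of_eq ?_) (hmono (m i + 1) (r + 1) (by omega))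
            rw [Finset.sum_range_succ]
            ring
        refine le_trans (Finset.sum_le_sum hvB) ?_
        rw [← Finset.sum_mul, hw1, one_mul]
  -- the end
  have hfinal := hG N le_rfl
  have hRN : R N = (1 / 12 : ℝ) • x := by
    have h1 := hR N le_rfl
    unfold IsR at h1
    have ea : act m n N = ∅ := by
      unfold act
      refine Finset.filter_eq_empty_iff.mpr fun i _ h => ?_
      have := hnN i
      omega
    have ef : fin n N = Finset.univ := by
      unfold fin
      exact Finset.filter_true_of_mem fun i _ => hnN i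
    rw [ea, ef] at h1
    simp only [Finset.sum_empty, sub_zero, one_smul] at h1
    rw [h1, hxe]
  rw [← hRN]
  refine le_trans (le_max_right 1 _) (le_trans hfinal ?_)
  have h12 : ∀ N : ℕ, ∑ s ∈ Finset.range N, (1 / 2 : ℝ) ^ (s + 1) = 1 - (1 / 2) ^ N := by
    intro N
    induction N with
    | zero => simp
    | succ N ih => rw [Finset.sum_range_succ, ih, pow_succ]; ring
  rw [h12]
  have : (0 : ℝ) ≤ (1 / 2) ^ N := by positivity
  nlinarith

end PB
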