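import Pool.Agent.PB57.Stmts

/-!
# Module ROOT (5.4): the claim on root anchors   (helper69)
-/

set_option autoImplicit false

open Filter Topology Set

namespace PB

noncomputable section

namespace ROOT

/-! ## finitely supported vectors -/

section fin

variable {ι : Type}

theorem fs_add (a b : ι →₀ ℝ) (y : ι → ℝ) : fs (a + b) y = fs a y + fs b y := by
  unfold fs
  exact Finsupp.sum_add_index' (fun _ => zero_mul _) (fun _ _ _ => add_mul _ _ _)

theorem fs_single (j : ι) (t : ℝ) (y : ι → ℝ) : fs (Finsupp.single j t) y = t * y j := by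
  unfold fs
  exact Finsupp.sum_single_index (zero_mul _)

theorem fs_zero (y : ι → ℝ) : fs (0 : ι →₀ ℝ) y = 0 := by
  unfold fs
  exact Finsupp.sum_zero_index

theorem fs_smul (t : ℝ) (a : ι →₀ ℝ) (y : ι → ℝ) : fs (t • a) y = t * fs a y := by
  unfold fs
  rw [Finsupp.sum_smul_index' (fun _ => zero_mul _), Finsupp.sum, Finsupp.sum, Finset.mul_sum]
  exact Finset.sum_congr rfl fun j _ => by rw [smul_eq_mul, mul_assoc]

theorem fs_sum {κ : Type} (s : Finset κ) (a : κ → ι →₀ ℝ) (y : ι → ℝ) :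
    fs (∑ k ∈ s, a k) y = ∑ k ∈ s, fs (a k) y := by
  classical
  induction s using Finset.induction_on with
  | empty => simp [fs_zero]
  | insert k s hk ih => rw [Finset.sum_insert hk, Finset.sum_insert hk, fs_add, ih]

theorem mass_eq (a : ι →₀ ℝ) : mass a = fs a (fun _ => 1) := by
  unfold mass fs
  exact Finset.sum_congr rfl fun j _ => (mul_one _).symm

theorem nrm_add (a b : ι →₀ ℝ) : nrm (a + b) ≤ nrm a + nrm b := by
  classical
  unfold nrm
  rw [Finsupp.sum_of_support_subset (a + b) (Finsupp.support_add) _ (fun _ _ => abs_zero),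
    Finsupp.sum_of_support_subset a (Finset.subset_union_left (s₂ := b.support)) _
      (fun _ _ => abs_zero),
    Finsupp.sum_of_support_subset b (Finset.subset_union_right (s₁ := a.support)) _
      (fun _ _ => abs_zero), ← Finset.sum_add_distrib]
  exact Finset.sum_le_sum fun j _ => abs_add_le _ _

theorem nrm_smul (t : ℝ) (a : ι →₀ ℝ) : nrm (t • a) = |t| * nrm a := by
  unfold nrm
  rw [Finsupp.sum_smul_index' (fun _ => abs_zero), Finsupp.sum, Finsupp.sum, Finset.mul_sum]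
  exact Finset.sum_congr rfl fun j _ => by rw [smul_eq_mul, abs_mul]

theorem nrm_zero : nrm (0 : ι →₀ ℝ) = 0 := by
  unfold nrm
  exact Finsupp.sum_zero_index

theorem nrm_nonneg (a : ι →₀ ℝ) : 0 ≤ nrm a := by
  unfold nrm
  exact Finset.sum_nonneg fun j _ => abs_nonneg _

theorem nrm_sum {κ : Type} (s : Finset κ) (a : κ → ι →₀ ℝ) :
    nrm (∑ k ∈ s, a k) ≤ ∑ k ∈ s, nrm (a k) := by
  classical
  induction s using Finset.induction_on with
  | empty => simp [nrm_zero]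
  | insert k s hk ih =>
    rw [Finset.sum_insert hk, Finset.sum_insert hk]
    exact (nrm_add _ _).trans (by linarith)

theorem supp_sum {κ : Type} (s : Finset κ) (a : κ → ι →₀ ℝ) (P : ι → Prop)
    (h : ∀ k ∈ s, ∀ j ∈ (a k).support, P j) : ∀ j ∈ (∑ k ∈ s, a k).support, P j := by
  classical
  intro j hj
  have h1 := Finsupp.support_finsetSum hj
  rw [Finset.mem_biUnion] at h1
  obtain ⟨k, hk, hj'⟩ := h1
  exact h k hk j hj'

theorem supp_add (a b : ι →₀ ℝ) (P : ι → Prop) (ha : ∀ j ∈ a.support, P j)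
    (hb : ∀ j ∈ b.support, P j) : ∀ j ∈ (a + b).support, P j := by
  classical
  intro j hj
  rcases Finset.mem_union.1 (Finsupp.support_add hj) with h | h
  · exact ha j h
  · exact hb j h

theorem supp_smul (t : ℝ) (a : ι →₀ ℝ) (P : ι → Prop) (ha : ∀ j ∈ a.support, P j) :
    ∀ j ∈ (t • a).support, P j := fun j hj => ha j (Finsupp.support_smul hj)

end fin

/-! ## functionals which are small on a finite dimensional space -/

theorem findim {X : Type} [NormedAddCommGroup X] [NormedSpace ℝ X] (E : Submodule ℝ X)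
    (hE : FiniteDimensional ℝ E) :
    ∃ (d : ℕ) (e : Fin d → X) (C : ℝ), 0 < C ∧ (∀ l, e l ∈ E) ∧
      ∀ (f : X →L[ℝ] ℝ) (η : ℝ), 0 ≤ η → (∀ l, |f (e l)| ≤ η) → ∀ x ∈ E, |f x| ≤ C * η * ‖x‖ := by
  let b := Module.finBasis ℝ E
  let co : Fin (Module.finrank ℝ E) → E →L[ℝ] ℝ := fun l => (b.coord l).toContinuousLinearMap
  refine ⟨Module.finrank ℝ E, fun l => (b l : X), (∑ l, ‖co l‖) + 1, by positivity,
    fun l => (b l).2, fun f η hη hf x hx => ?_⟩
  have h1 : x = ∑ l, (co l ⟨x, hx⟩) • (b l : X) := by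
    have h2 := b.sum_repr ⟨x, hx⟩
    have h3 := congrArg (Submodule.subtype E) h2
    rw [map_sum] at h3
    simp only [map_smul, Submodule.subtype_apply] at h3
    exact h3.symm
  have h4 : f x = ∑ l, (co l ⟨x, hx⟩) * f (b l : X) := by
    conv_lhs => rw [h1]
    rw [map_sum]
    exact Finset.sum_congr rfl fun l _ => by rw [map_smul, smul_eq_mul]
  rw [h4]
  calc |∑ l, (co l ⟨x, hx⟩) * f (b l : X)| ≤ ∑ l, |(co l ⟨x, hx⟩) * f (b l : X)| :=
        Finset.abs_sum_le_sum_abs _ _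
    _ ≤ ∑ l, (‖co l‖ * ‖x‖) * η := by
        refine Finset.sum_le_sum fun l _ => ?_
        rw [abs_mul]
        refine mul_le_mul ?_ (hf l) (abs_nonneg _) (by positivity)
        exact (co l).le_opNorm ⟨x, hx⟩
    _ = (∑ l, ‖co l‖) * η * ‖x‖ := by
        rw [Finset.sum_mul, Finset.sum_mul]
        exact Finset.sum_congr rfl fun l _ => by ring
    _ ≤ ((∑ l, ‖co l‖) + 1) * η * ‖x‖ := by
        gcongr
        linarith

theorem normeq {X : Type} [NormedAddCommGroup X] [NormedSpace ℝ X] {ι : Type}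
    (E : Submodule ℝ X) (hE : FiniteDimensional ℝ E) (S : Sys ι) (h : ι → X →L[ℝ] ℝ)
    (T : X →L[ℝ] S.Y) (hT : ∀ x, ‖T x‖ = ph h x) (h0 : ∀ x ∈ E, ph h x = 0 → x = 0) :
    ∃ C : ℝ, 0 < C ∧ ∀ x ∈ E, ‖x‖ ≤ C * ph h x := by
  let f : E →ₗ[ℝ] S.Y := (T : X →ₗ[ℝ] S.Y).comp E.subtype
  have hk : LinearMap.ker f = ⊥ := by
    rw [LinearMap.ker_eq_bot']
    intro x hx
    have h1 : T (x : X) = 0 := hx
    have h2 : ph h (x : X) = 0 := by rw [← hT, h1, norm_zero]
    exact Subtype.ext (h0 x x.2 h2)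
  obtain ⟨K, hK0, hK⟩ := f.exists_antilipschitzWith hk
  refine ⟨K, by exact_mod_cast hK0, fun x hx => ?_⟩
  have h1 := hK.le_mul_dist ⟨x, hx⟩ 0
  rw [dist_zero_right, map_zero, dist_zero_right] at h1
  rw [← hT]
  exact h1

theorem single_nonneg_apply {A : Type} (a a' : A) (t : ℝ) (ht : 0 ≤ t) :
    0 ≤ (Finsupp.single a t : A →₀ ℝ) a' := by
  classical
  rw [Finsupp.single_apply]
  split_ifs
  · exact ht
  · exact le_rfl

/-- the cluster property gives representations of almost all roots of a sequence -/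
theorem key (hTMAP : StmtTMAP) (hREPF : StmtREPF) (hSTEP : StmtSTEP)
    (X : Type) [NormedAddCommGroup X] [NormedSpace ℝ X] (F : ℕ → Submodule ℝ X) (hF : Chain F)
    (ι : Type) (S : Sys ι) (h : ι → X →L[ℝ] ℝ) (hN : NSys F S h)
    (h0 : ∀ k, ∀ x ∈ F k, ph h x = 0 → x = 0)
    (𝒮 : Type) (M lev cls : 𝒮 → ℕ) (Lb : 𝒮 → ℝ) (ε ζ : ℕ → ℝ)
    (V : 𝒮 → Set ((X →L[ℝ] ℝ) × ℝ)) (hG : GLData F h M lev cls Lb ε ζ V)
    (τ : 𝒮 → ℕ → ℝ) (hτ0 : ∀ s K, 0 < τ s K) (hτ : ∀ s, Tendsto (τ s) atTop (𝓝 0))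
    (hτε : ∀ s K, τ s K ≤ ε (cls s) / 16)
    (A : Type) (T : Tree ι 𝒮 A) (hT : T.Ok S h lev V τ) (k : ℕ)
    (𝒰 : Ultrafilter ℕ) (c : ℕ → A) (hlv : Tendsto (fun i => T.lv (c i)) 𝒰 atTop) (m : ℕ)
    (hMc : ∀ i, M (T.s (c i)) = m)
    (t : 𝒮) (q : (X →L[ℝ] ℝ) × ℝ) (b : ℝ) (bj : ℕ → ℝ) (sj : ℕ → 𝒮)
    (qj : ℕ → (X →L[ℝ] ℝ) × ℝ) (w0 : ℝ) (hMt : M t = m)
    (hcls : ∀ᶠ i in (𝒰 : Filter ℕ), cls (T.s (c i)) = cls t) (hq : q ∈ V t) (hb : 0 ≤ b)
    (hbj : ∀ j, 0 ≤ bj j) (hqj : ∀ j, qj j ∈ V (sj j)) (hlevM : ∀ j, lev t ≤ M (sj j))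
    (hsum : Summable bj) (htot : b + ∑' j, bj j ≤ 1 - ζ (cls t)) (hup : ∑' j, bj j ≤ 2 / 5)
    (hw : Tendsto (fun i => T.w (c i)) 𝒰 (𝓝 w0)) (hq2 : q.2 ≤ w0 - ε (cls t))
    (hlim : ∀ x, Tendsto (fun i => hc h (T.κ (c i)) x) 𝒰
      (𝓝 (b * q.1 x + ∑' j, bj j * (qj j).1 x))) :
    ∀ᶠ i in (𝒰 : Filter ℕ), RootRep F S h M lev cls ε ζ T k (c i) := by
  classical
  obtain ⟨Tm, -, hTm2, -, -⟩ := hTMAP X F hF ι S h hN
  obtain ⟨C1, hC1, hn⟩ := normeq (F k) (hF.fd k) S h Tm hTm2 (h0 k)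
  obtain ⟨d, e, C2, hC2, -, hfd⟩ := findim (F k) (hF.fd k)
  obtain ⟨K0, hK0⟩ : ∃ K0, ∀ j, K0 < S.rk j → Exact F S h k j := by
    obtain ⟨K0, hK0⟩ := ((hN.ex k).image S.rk).bddAbove
    refine ⟨K0, fun j hj => ?_⟩
    by_contra hne
    exact absurd (hK0 (Set.mem_image_of_mem S.rk hne)) (not_le.2 hj)
  set z := ζ (cls t) with hz
  have hz0 : 0 < z := hG.ζpos t
  have hε0 : 0 < ε (cls t) := hG.εpos t
  set η := z / (16 * C2 * C1) with hη
  have hη0 : 0 < η := by positivity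
  set R := (∑ l, ‖e l‖) + 1 with hR
  have hR0 : 0 < R := by positivity
  have heR : ∀ l, ‖e l‖ ≤ R := fun l => by
    have := Finset.single_le_sum (f := fun l => ‖e l‖) (fun l _ => norm_nonneg _)
      (Finset.mem_univ l)
    linarith
  obtain ⟨J, hJ⟩ : ∃ J : ℕ, ∑' j, bj (j + J) ≤ η / (2 * R) :=
    (((tendsto_sum_nat_add bj).eventually (ge_mem_nhds (show (0 : ℝ) < η / (2 * R) by
      positivity)))).exists
  have hz16 : 0 < z / 16 := by positivity
  obtain ⟨K, hKK0, hKt, hKτ, hKj⟩ : ∃ K, K0 ≤ K ∧ lev t ≤ K ∧ τ t K ≤ z / 16 ∧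
      ∀ j ∈ Finset.range J, lev (sj j) ≤ K ∧ τ (sj j) K ≤ z / 16 := by
    have e1 : ∀ᶠ K in atTop, τ t K ≤ z / 16 := (hτ t).eventually (ge_mem_nhds hz16)
    have e2 : ∀ᶠ K in atTop, ∀ j ∈ Finset.range J, lev (sj j) ≤ K ∧ τ (sj j) K ≤ z / 16 := by
      rw [Filter.eventually_all_finset]
      intro j _
      exact (eventually_ge_atTop (lev (sj j))).and ((hτ (sj j)).eventually (ge_mem_nhds hz16))
    obtain ⟨K, hK⟩ := ((eventually_ge_atTop K0).and
      ((eventually_ge_atTop (lev t)).and (e1.and e2))).exists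
    exact ⟨K, hK.1, hK.2.1, hK.2.2.1, hK.2.2.2⟩
  have hex : ∀ j, K < S.rk j → Exact F S h k j := fun j hj => hK0 j (lt_of_le_of_lt hKK0 hj)
  -- anchors near a point of V s
  have near : ∀ s, lev s ≤ K → ∀ q ∈ V s, ∃ (a : A) (β : ι →₀ ℝ), T.s a = s ∧ T.lv a = K ∧
      |q.2 - T.w a| ≤ τ s K ∧ (∀ i ∈ β.support, S.rk i ≤ K) ∧ nrm β ≤ τ s K ∧
      ∀ x ∈ F k, q.1 x = hc h (T.κ a) x + fs β (fun j => h j x) := by
    intro s hs q hq
    obtain ⟨a, ha1, ha2, ⟨κ, hκ1, hκ2⟩, ha4⟩ := hT.cover s K hs q hq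
    obtain ⟨β, hβ1, hβ2, hβ3⟩ := (hSTEP X F hF ι S h hN κ (T.κ a) K (τ s K) (hτ0 s K).le hκ2).1
    refine ⟨a, β, ha1, ha2, ha4, hβ1, hβ2, fun x hx => ?_⟩
    rw [← hκ1]
    exact hβ3 k hex x hx
  obtain ⟨a, β0, has, hal, haw, hβ0s, hβ0n, hβ0⟩ := near t hKt q hq
  have hex2 : ∀ j : ℕ, ∃ (a' : A) (β' : ι →₀ ℝ), j ∈ Finset.range J → (T.s a' = sj j ∧
      T.lv a' = K ∧ (∀ i ∈ β'.support, S.rk i ≤ K) ∧ nrm β' ≤ z / 16 ∧
      ∀ x ∈ F k, (qj j).1 x = hc h (T.κ a') x + fs β' (fun j => h j x)) := by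
    intro j
    by_cases hj : j ∈ Finset.range J
    · obtain ⟨a', β', h1, h2, -, h4, h5, h6⟩ := near (sj j) (hKj j hj).1 (qj j) (hqj j)
      exact ⟨a', β', fun _ => ⟨h1, h2, h4, h5.trans (hKj j hj).2, h6⟩⟩
    · exact ⟨a, 0, fun h => absurd h hj⟩
  choose aj βj haj using hex2
  -- partial sums
  have hps : ∑ j ∈ Finset.range J, bj j ≤ ∑' j, bj j := hsum.sum_le_tsum _ fun j _ => hbj j
  have hps0 : 0 ≤ ∑ j ∈ Finset.range J, bj j := Finset.sum_nonneg fun j _ => hbj j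
  -- the error functional
  let φ : ℕ → X →L[ℝ] ℝ := fun i => hc h (T.κ (c i)) - b • q.1 -
    ∑ j ∈ Finset.range J, bj j • (qj j).1
  have hφ : ∀ i x, φ i x = hc h (T.κ (c i)) x - b * q.1 x -
      ∑ j ∈ Finset.range J, bj j * (qj j).1 x := by
    intro i x
    simp only [φ, sub_apply, smul_apply, smul_eq_mul, sum_apply]
  have hsm : ∀ x, Summable fun j => bj j * (qj j).1 x := by
    intro x
    refine Summable.of_norm_bounded (g := fun j => bj j * ‖x‖) (hsum.mul_right _) fun j => ?_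
    rw [norm_mul, Real.norm_of_nonneg (hbj j)]
    refine mul_le_mul_of_nonneg_left ?_ (hbj j)
    have h1 := (qj j).1.le_opNorm x
    have h2 := mul_le_mul_of_nonneg_right (hG.norm_le (sj j) _ (hqj j)) (norm_nonneg x)
    linarith
  have htail : ∀ x, |∑' j, bj (j + J) * (qj (j + J)).1 x| ≤ (∑' j, bj (j + J)) * ‖x‖ := by
    intro x
    have hs1 : Summable fun j => bj (j + J) := (summable_nat_add_iff J).2 hsum
    have hs2 : Summable fun j => bj (j + J) * (qj (j + J)).1 x :=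
      (summable_nat_add_iff (f := fun j => bj j * (qj j).1 x) J).2 (hsm x)
    rw [← tsum_mul_right, ← Real.norm_eq_abs]
    refine tsum_of_norm_bounded (hs1.mul_right _).hasSum fun j => ?_
    rw [norm_mul, Real.norm_of_nonneg (hbj _)]
    refine mul_le_mul_of_nonneg_left ?_ (hbj _)
    have h1 := (qj (j + J)).1.le_opNorm x
    have h2 := mul_le_mul_of_nonneg_right (hG.norm_le (sj (j + J)) _ (hqj (j + J)))
      (norm_nonneg x)
    linarith
  have hsmall : ∀ᶠ i in (𝒰 : Filter ℕ), ∀ l, |φ i (e l)| ≤ η := by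
    rw [Filter.eventually_all]
    intro l
    have h1 : ∀ᶠ i in (𝒰 : Filter ℕ), |hc h (T.κ (c i)) (e l) -
        (b * q.1 (e l) + ∑' j, bj j * (qj j).1 (e l))| ≤ η / 2 := by
      have h2 := (hlim (e l)).sub_const (b * q.1 (e l) + ∑' j, bj j * (qj j).1 (e l))
      rw [sub_self] at h2
      have h3 := h2.abs
      rw [abs_zero] at h3
      exact h3.eventually (ge_mem_nhds (by positivity))
    filter_upwards [h1] with i hi
    have h4 := (hsm (e l)).sum_add_tsum_nat_add J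
    have h5 : φ i (e l) = (hc h (T.κ (c i)) (e l) -
        (b * q.1 (e l) + ∑' j, bj j * (qj j).1 (e l))) +
        ∑' j, bj (j + J) * (qj (j + J)).1 (e l) := by
      rw [hφ, ← h4]
      ring
    have h6 : |∑' j, bj (j + J) * (qj (j + J)).1 (e l)| ≤ η / 2 := by
      refine (htail (e l)).trans ?_
      calc (∑' j, bj (j + J)) * ‖e l‖ ≤ (η / (2 * R)) * R :=
            mul_le_mul hJ (heR l) (norm_nonneg _) (by positivity)
        _ = η / 2 := by
            field_simp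
    rw [h5]
    calc _ ≤ _ := abs_add_le _ _
      _ ≤ η / 2 + η / 2 := add_le_add hi h6
      _ = η := by ring
  have hwe : ∀ᶠ i in (𝒰 : Filter ℕ), w0 - ε (cls t) / 16 ≤ T.w (c i) :=
    hw.eventually (le_mem_nhds (by linarith))
  filter_upwards [hsmall, hwe, hcls, hlv.eventually (eventually_gt_atTop K)] with i hi1 hi2 hi3 hi4
  obtain ⟨β', hβ's, hβ'n, hβ'⟩ := hREPF X F hF ι S h hN k K hex (φ i) (z / 16) hz16.le (by
    intro x hx
    refine (hfd (φ i) η hη0.le hi1 x hx).trans ?_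
    calc C2 * η * ‖x‖ ≤ C2 * η * (C1 * ph h x) := by
          have := hn x hx
          gcongr
      _ = z / 16 * ph h x := by
          rw [hη]
          field_simp)
  refine Or.inr ⟨a, b, ∑ j ∈ Finset.range J, Finsupp.single (aj j) (bj j),
    b • β0 + ∑ j ∈ Finset.range J, bj j • βj j + β', ?_, ?_, ?_, ?_, hb, ?_, ?_, ?_, ?_, ?_, ?_, ?_⟩
  · rw [has, hi3]
  · rw [has, hMt, hMc]
  · rw [hal]
    exact hi4
  · rw [hi3]
    have h1 := (abs_le.1 haw).1
    have h2 := hτε t K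
    linarith
  · intro a'
    rw [Finsupp.finsetSum_apply]
    exact Finset.sum_nonneg fun j _ => single_nonneg_apply _ _ _ (hbj j)
  · refine supp_sum _ _ (fun a' => T.lv a' < T.lv (c i) ∧ lev (T.s a) ≤ M (T.s a')) ?_
    intro j hj a' ha'
    have h1 : a' = aj j := Finset.mem_singleton.1 (Finsupp.support_single_subset ha')
    subst h1
    rw [(haj j hj).2.1, (haj j hj).1, has]
    exact ⟨hi4, hlevM j⟩
  · rw [hi3, mass_eq, fs_sum]
    simp only [fs_single, mul_one]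
    linarith
  · rw [mass_eq, fs_sum]
    simp only [fs_single, mul_one]
    linarith
  · have h1 : ∀ j ∈ (b • β0 + ∑ j ∈ Finset.range J, bj j • βj j + β').support, S.rk j ≤ K := by
      refine supp_add _ _ _ (supp_add _ _ _ (supp_smul _ _ _ hβ0s) ?_) hβ's
      exact supp_sum _ _ _ fun j hj => supp_smul _ _ _ (haj j hj).2.2.1
    exact fun j hj => (h1 j hj).trans hi4.le
  · rw [hi3]
    have h1 : nrm (∑ j ∈ Finset.range J, bj j • βj j) ≤
        (∑ j ∈ Finset.range J, bj j) * (z / 16) := by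
      rw [Finset.sum_mul]
      refine (nrm_sum _ _).trans (Finset.sum_le_sum fun j hj => ?_)
      rw [nrm_smul, abs_of_nonneg (hbj j)]
      exact mul_le_mul_of_nonneg_left (haj j hj).2.2.2.1 (hbj j)
    have h2 : nrm (b • β0) ≤ b * (z / 16) := by
      rw [nrm_smul, abs_of_nonneg hb]
      exact mul_le_mul_of_nonneg_left (hβ0n.trans hKτ) hb
    have h3 := nrm_add (b • β0 + ∑ j ∈ Finset.range J, bj j • βj j) β'
    have h4 := nrm_add (b • β0) (∑ j ∈ Finset.range J, bj j • βj j)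
    have h5 : (b + ∑ j ∈ Finset.range J, bj j) * (z / 16) ≤ 1 * (z / 16) :=
      mul_le_mul_of_nonneg_right (by linarith) hz16.le
    rw [← hz]
    linarith
  · intro x hx
    have h1 := hβ' x hx
    rw [hφ] at h1
    have h2 : ∑ j ∈ Finset.range J, bj j * (qj j).1 x =
        ∑ j ∈ Finset.range J, bj j * hc h (T.κ (aj j)) x +
        ∑ j ∈ Finset.range J, bj j * fs (βj j) (fun j => h j x) := by
      rw [← Finset.sum_add_distrib]
      refine Finset.sum_congr rfl fun j hj => ?_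
      rw [(haj j hj).2.2.2.2 x hx]
      ring
    rw [fs_add, fs_add, fs_smul, fs_sum, fs_sum]
    simp only [fs_single, fs_smul]
    rw [hβ0 x hx, h2] at h1
    linarith

end ROOT

/-- Module ROOT (5.4 of the paper) -/
theorem stmtROOT (hTMAP : StmtTMAP) (hREPF : StmtREPF) (hSTEP : StmtSTEP) : StmtROOT := by
  intro X _ _ F hF ι S h hN hD h0 𝒮 M lev cls Lb ε ζ V hG τ hτ0 hτ hτε A T hT k
  by_contra hinf
  have hMk : ∀ c, (T.lv c = lev (T.s c) ∧ ¬ RootRep F S h M lev cls ε ζ T k c) →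
      M (T.s c) < k := by
    intro c hc
    by_contra hle
    rw [not_lt] at hle
    exact hc.2 (Or.inl fun x hx => hG.vanish (T.s c) _ (hT.mem c) x (hF.mono hle hx))
  obtain ⟨m, hm⟩ : ∃ m, {c | (T.lv c = lev (T.s c) ∧ ¬ RootRep F S h M lev cls ε ζ T k c) ∧
      M (T.s c) = m}.Infinite := by
    by_contra hno
    rw [not_exists] at hno
    apply hinf
    refine ((Set.finite_Iio k).biUnion (fun m _ => Set.not_infinite.1 (hno m))).subset ?_
    intro c hc
    exact Set.mem_biUnion (hMk c hc) ⟨hc, rfl⟩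
  have hI : Infinite {c | (T.lv c = lev (T.s c) ∧ ¬ RootRep F S h M lev cls ε ζ T k c) ∧
      M (T.s c) = m} := hm.to_subtype
  let emb := Infinite.natEmbedding {c | (T.lv c = lev (T.s c) ∧
    ¬ RootRep F S h M lev cls ε ζ T k c) ∧ M (T.s c) = m}
  let c : ℕ → A := fun i => (emb i : A)
  have hcinj : Function.Injective c := fun i j hij => emb.injective (Subtype.ext hij)
  have hcB : ∀ i, (T.lv (c i) = lev (T.s (c i)) ∧ ¬ RootRep F S h M lev cls ε ζ T k (c i)) ∧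
      M (T.s (c i)) = m := fun i => (emb i).2
  let 𝒰 : Ultrafilter ℕ := hyperfilter ℕ
  have hlv : Tendsto (fun i => T.lv (c i)) (𝒰 : Filter ℕ) atTop := by
    refine Tendsto.mono_left ?_ (hyperfilter_le_cofinite (α := ℕ))
    rw [tendsto_atTop]
    intro N
    rw [Filter.eventually_cofinite]
    refine ((hT.fin N).preimage hcinj.injOn).subset fun i hi => ?_
    exact (not_le.1 hi).le
  obtain ⟨t, q, b, bj, sj, qj, w0, h1, h2, h3, h4, h5, h6, h7, h8, h9, h10, h11, h12, h13⟩ :=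
    hG.clus 𝒰 (fun i => T.s (c i)) (fun i => hc h (T.κ (c i))) (fun i => T.w (c i)) m
      (fun i => hT.mem (c i)) (fun i => (hcB i).2)
      (hlv.congr fun i => (hcB i).1.1)
  have hev := ROOT.key hTMAP hREPF hSTEP X F hF ι S h hN h0 𝒮 M lev cls Lb ε ζ V hG τ hτ0 hτ hτε
    A T hT k 𝒰 c hlv m (fun i => (hcB i).2) t q b bj sj qj w0 h1 h2 h3 h4 h5 h6 h7 h8 h9 h10 h11
    h12 h13
  obtain ⟨i, hi⟩ := hev.exists
  exact (hcB i).1.2 hi

end

end PB
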