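import Pool.Agent.PB57.Stmts

/-!
# Module PB_SIG: sigma-directedness of the class E (1.3-1.5)
-/

set_option autoImplicit false

open Filter Topology Set

namespace PB

noncomputable section

namespace SIG

/-! ### Finitely supported vectors -/

section FS

variable {ι κ : Type}

lemma fs_mapDomain (f : ι → κ) (a : ι →₀ ℝ) (y : κ → ℝ) :
    fs (a.mapDomain f) y = fs a (fun i => y (f i)) := by
  unfold fs
  exact Finsupp.sum_mapDomain_index (by simp) (by intros; ring)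

lemma mass_mapDomain (f : ι → κ) (a : ι →₀ ℝ) : mass (a.mapDomain f) = mass a := by
  unfold mass
  exact Finsupp.sum_mapDomain_index (by simp) (by simp)

lemma mapDomain_nonneg {f : ι → κ} (hf : Function.Injective f) {a : ι →₀ ℝ}
    (ha : ∀ i, 0 ≤ a i) (k : κ) : 0 ≤ a.mapDomain f k := by
  by_cases hk : k ∈ range f
  · obtain ⟨i, rfl⟩ := hk
    rw [Finsupp.mapDomain_apply hf]; exact ha i
  · rw [Finsupp.mapDomain_notin_range _ _ hk]

@[simp] lemma fs_zero (y : ι → ℝ) : fs (0 : ι →₀ ℝ) y = 0 := by simp [fs]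

@[simp] lemma mass_zero : mass (0 : ι →₀ ℝ) = 0 := by simp [mass]

lemma fs_add (a b : ι →₀ ℝ) (y : ι → ℝ) : fs (a + b) y = fs a y + fs b y := by
  unfold fs
  exact Finsupp.sum_add_index' (by simp) (by intros; ring)

lemma mass_add (a b : ι →₀ ℝ) : mass (a + b) = mass a + mass b := by
  unfold mass
  exact Finsupp.sum_add_index' (by simp) (by intros; ring)

lemma fs_smul (t : ℝ) (a : ι →₀ ℝ) (y : ι → ℝ) : fs (t • a) y = t * fs a y := by
  unfold fs
  rw [Finsupp.sum_smul_index (by simp), Finsupp.mul_sum]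
  exact Finsupp.sum_congr fun i _ => by ring

lemma mass_smul (t : ℝ) (a : ι →₀ ℝ) : mass (t • a) = t * mass a := by
  unfold mass
  rw [Finsupp.sum_smul_index (by simp), Finsupp.mul_sum]

lemma abs_fs_le {a : ι →₀ ℝ} (ha : ∀ i, 0 ≤ a i) {y : ι → ℝ} {B : ℝ}
    (hy : ∀ j ∈ a.support, |y j| ≤ B) : |fs a y| ≤ mass a * B := by
  unfold fs mass Finsupp.sum
  rw [Finset.sum_mul]
  refine (Finset.abs_sum_le_sum_abs _ _).trans (Finset.sum_le_sum fun j hj => ?_)
  rw [abs_mul, abs_of_nonneg (ha j)]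
  exact mul_le_mul_of_nonneg_left (hy j hj) (ha j)

end FS

/-! ### Pairing -/

section PR

variable {ι κ : Type}

lemma summable_l1 (c : L1 ι) : Summable fun n => |c n| := by
  have := (lp.memℓp c).summable (by norm_num)
  simpa using this

lemma abs_le_norm (y : Li ι) (n : ι) : |y n| ≤ ‖y‖ := by
  have := lp.norm_apply_le_norm (by simp : (⊤ : ENNReal) ≠ 0) y n
  simpa using this

lemma summable_pair (c : L1 ι) (y : Li ι) : Summable fun n => c n * y n := by
  refine Summable.of_norm_bounded ((summable_l1 c).mul_right ‖y‖) fun n => ?_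
  rw [Real.norm_eq_abs, abs_mul]
  exact mul_le_mul_of_nonneg_left (abs_le_norm y n) (abs_nonneg _)

lemma pair_sub (c : L1 ι) (y z : Li ι) : pair c (y - z) = pair c y - pair c z := by
  unfold pair
  rw [← (summable_pair c y).tsum_sub (summable_pair c z)]
  refine tsum_congr fun n => ?_
  have : (y - z) n = y n - z n := by simp
  rw [this]; ring

lemma pair_single [DecidableEq ι] (n : ι) (y : Li ι) :
    pair (lp.single 1 n (1 : ℝ) : L1 ι) y = y n := by
  unfold pair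
  rw [tsum_eq_single n]
  · simp
  · intro m hm
    simp [hm]

@[simp] lemma pair_zero (y : Li ι) : pair (0 : L1 ι) y = 0 := by
  simp [pair]

/-- restriction of a bounded function along a map -/
def res (f : κ → ι) (y : Li ι) : Li κ :=
  ⟨fun n => y (f n), memℓp_infty ⟨‖y‖, by
    rintro _ ⟨n, rfl⟩
    exact abs_le_norm y (f n)⟩⟩

@[simp] lemma res_apply (f : κ → ι) (y : Li ι) (n : κ) : res f y n = y (f n) := rfl

/-- extension of a summable function by zero -/
lemma exists_ext {f : κ → ι} (hf : Function.Injective f) (c : L1 κ) :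
    ∃ d : L1 ι, ∀ y : Li ι, pair d y = pair c (res f y) := by
  classical
  have happ : ∀ n, Function.extend f (fun n => c n) (fun _ => (0 : ℝ)) (f n) = c n :=
    fun n => hf.extend_apply _ _ n
  have hout : ∀ x, x ∉ range f → Function.extend f (fun n => c n) (fun _ => (0 : ℝ)) x = 0 := by
    intro x hx
    rw [Function.extend_apply' _ _ _ (fun ⟨a, ha⟩ => hx ⟨a, ha⟩)]
  have hmem : Memℓp (Function.extend f (fun n => c n) (fun _ => (0 : ℝ)) : ι → ℝ) 1 := by
    refine memℓp_gen ?_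
    have : Summable fun x => |Function.extend f (fun n => c n) (fun _ => (0 : ℝ)) x| := by
      refine (hf.summable_iff (f := fun x =>
        |Function.extend f (fun n => c n) (fun _ => (0 : ℝ)) x|) ?_).1 ?_
      · intro x hx
        show |_| = (0 : ℝ)
        rw [hout x hx, abs_zero]
      · refine (summable_l1 c).congr fun n => ?_
        show |c n| = |_|
        rw [happ]
    simpa using this
  refine ⟨⟨_, hmem⟩, fun y => ?_⟩
  unfold pair
  have hs : Function.support (fun x => Function.extend f (fun n => c n) (fun _ => (0 : ℝ)) x * y x)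
      ⊆ range f := by
    intro x hx
    by_contra hx'
    apply hx
    show _ * _ = (0 : ℝ)
    rw [hout x hx', zero_mul]
  have h1 := hf.tsum_eq hs
  show ∑' x, Function.extend f (fun n => c n) (fun _ => (0 : ℝ)) x * y x = _
  rw [← h1]
  refine tsum_congr fun n => ?_
  rw [happ]
  rfl

end PR

/-! ### The dual condition by limits -/

section DC

variable {ι : Type}

lemma approx (hLND : StmtLND) {S : Sys ι} (hS : S.Ok) {y : Li ι} (hy : y ∈ S.Y) {ε : ℝ}
    (hε : 0 < ε) : ∃ M, ∃ z ∈ S.E M, ‖y - z‖ < ε := by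
  have hmono : Monotone S.E := (hLND ι S hS).2.2.2.2.2.2.1
  have hcl : y ∈ closure ((⨆ M, S.E M : Submodule ℝ (Li ι)) : Set (Li ι)) := hy
  obtain ⟨z, hz, hyz⟩ := Metric.mem_closure_iff.1 hcl ε hε
  have hz' : z ∈ (⨆ M, S.E M : Submodule ℝ (Li ι)) := hz
  rw [Submodule.mem_iSup_of_directed _ hmono.directed_le] at hz'
  obtain ⟨M, hM⟩ := hz'
  exact ⟨M, z, hM, by rwa [dist_eq_norm] at hyz⟩

lemma dual_of_lim (hLND : StmtLND) (hGT : StmtGT) {S : Sys ι} (hS : S.Ok)
    (H : ∀ 𝒰 : Ultrafilter ι, ∃ c : L1 ι, ∀ M, ∀ y ∈ S.E M,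
      Tendsto (fun n => y n) 𝒰 (𝓝 (pair c y))) : S.DualL1 := by
  refine hGT ι S hS 0 le_rfl one_pos fun 𝒰 => ?_
  obtain ⟨c, hc⟩ := H 𝒰
  refine ⟨c, fun y hy a ha => ?_⟩
  rw [zero_mul]
  refine le_of_forall_pos_le_add fun e he => ?_
  rw [zero_add]
  have hpos : 0 < e / (1 + ‖c‖) := by positivity
  obtain ⟨M, z, hz, hyz⟩ := approx hLND hS hy hpos
  have h1 := hc M z hz
  have h2 : |a - pair c z| ≤ ‖y - z‖ := by
    have h3 : Tendsto (fun n => |y n - z n|) 𝒰 (𝓝 |a - pair c z|) := (ha.sub h1).abs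
    refine le_of_tendsto' h3 fun n => ?_
    have h4 : (y - z) n = y n - z n := by simp
    rw [← h4]
    exact abs_le_norm _ _
  have h5 : |pair c y - pair c z| ≤ ‖c‖ * ‖y - z‖ := by
    rw [← pair_sub]
    exact (hLND ι S hS).2.2.2.2.2.2.2.2.2.1 c (y - z)
  have h6 : |a - pair c y| ≤ |a - pair c z| + |pair c y - pair c z| := by
    have : a - pair c y = (a - pair c z) - (pair c y - pair c z) := by ring
    rw [this]
    exact abs_sub _ _
  have h7 : (1 + ‖c‖) * ‖y - z‖ ≤ e := by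
    have : (1 + ‖c‖) * ‖y - z‖ ≤ (1 + ‖c‖) * (e / (1 + ‖c‖)) :=
      mul_le_mul_of_nonneg_left hyz.le (by positivity)
    rwa [mul_div_cancel₀ e (by positivity)] at this
  nlinarith

end DC

/-! ### Frames -/

section FR

variable {X : Type} [NormedAddCommGroup X] [NormedSpace ℝ X]

/-- frame functionals -/
structure Frame (F : ℕ → Submodule ℝ X) (Fr : Type) (lv : Fr → ℕ) (ψ : Fr → X →L[ℝ] ℝ) :
    Prop where
  inf : Infinite Fr
  fin : ∀ N : ℕ, {a | lv a ≤ N}.Finite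
  pos : ∀ a, 1 ≤ lv a
  le1 : ∀ a, ‖ψ a‖ ≤ 1
  zero : ∀ a, ∀ x ∈ F (lv a - 1), ψ a x = 0
  sep : ∀ k, ∀ x ∈ F k, (∀ a, lv a ≤ k → ψ a x = 0) → x = 0

lemma exists_level (G K : Submodule ℝ X) [FiniteDimensional ℝ K] :
    ∃ Φ : Finset (X →L[ℝ] ℝ), (∀ ψ ∈ Φ, ‖ψ‖ ≤ 1) ∧ (∀ ψ ∈ Φ, ∀ x ∈ K, x ∈ G → ψ x = 0) ∧
      ∀ x ∈ K, (∀ ψ ∈ Φ, ψ x = 0) → x ∈ G := by
  classical
  set G' : Submodule ℝ K := G.comap K.subtype with hG'
  let b := Module.finBasis ℝ (K ⧸ G')
  have hext : ∀ j, ∃ ψ : X →L[ℝ] ℝ, ‖ψ‖ ≤ 1 ∧ ∃ c : ℝ, 0 < c ∧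
      ∀ x : K, ψ x = c * b.coord j (G'.mkQ x) := by
    intro j
    obtain ⟨g, hg, _⟩ := exists_extension_norm_eq K
      (((b.coord j).comp G'.mkQ).toContinuousLinearMap : K →L[ℝ] ℝ)
    refine ⟨(1 + ‖g‖)⁻¹ • g, ?_, (1 + ‖g‖)⁻¹, by positivity, ?_⟩
    · rw [norm_smul, norm_inv, Real.norm_of_nonneg (by positivity),
        inv_mul_le_iff₀ (by positivity)]
      linarith [norm_nonneg g]
    · intro x
      have := hg x
      simp only [smul_apply, smul_eq_mul]
      rw [this]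
      rfl
  choose ψ hψ1 c hc hψ using hext
  refine ⟨Finset.univ.image ψ, ?_, ?_, ?_⟩
  · intro φ hφ
    obtain ⟨j, _, rfl⟩ := Finset.mem_image.1 hφ
    exact hψ1 j
  · intro φ hφ x hxK hx
    obtain ⟨j, _, rfl⟩ := Finset.mem_image.1 hφ
    have h1 := hψ j ⟨x, hxK⟩
    have h2 : G'.mkQ ⟨x, hxK⟩ = 0 := by
      rw [Submodule.mkQ_apply, Submodule.Quotient.mk_eq_zero]
      exact hx
    rw [h2, map_zero, mul_zero] at h1
    exact h1
  · intro x hxK hx
    have h0 : G'.mkQ ⟨x, hxK⟩ = 0 := by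
      refine b.ext_elem fun j => ?_
      have h1 := hψ j ⟨x, hxK⟩
      have h2 : ψ j x = 0 := hx _ (Finset.mem_image_of_mem _ (Finset.mem_univ j))
      have h3 : c j * b.coord j (G'.mkQ ⟨x, hxK⟩) = 0 := by rw [← h1]; exact h2
      rcases mul_eq_zero.1 h3 with h | h
      · exact absurd h (hc j).ne'
      · rw [map_zero]
        exact h
    rw [Submodule.mkQ_apply, Submodule.Quotient.mk_eq_zero] at h0
    exact h0

lemma exists_frame {F : ℕ → Submodule ℝ X} (hF : Chain F) :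
    ∃ (Fr : Type) (lv : Fr → ℕ) (ψ : Fr → X →L[ℝ] ℝ), Frame F Fr lv ψ := by
  classical
  have hlev : ∀ t : ℕ, ∃ Φ : Finset (X →L[ℝ] ℝ), (∀ ψ ∈ Φ, ‖ψ‖ ≤ 1) ∧
      (∀ ψ ∈ Φ, ∀ x ∈ F (t + 1), x ∈ F t → ψ x = 0) ∧
      ∀ x ∈ F (t + 1), (∀ ψ ∈ Φ, ψ x = 0) → x ∈ F t := by
    intro t
    have := hF.fd (t + 1)
    exact exists_level (F t) (F (t + 1))
  choose Φ h1 h2 h3 using hlev
  refine ⟨Σ t : ℕ, {ψ : X →L[ℝ] ℝ // ψ ∈ insert 0 (Φ t)}, fun a => a.1 + 1, fun a => a.2.1, ?_⟩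
  refine ⟨?_, ?_, ?_, ?_, ?_, ?_⟩
  · exact Infinite.of_injective
      (fun t : ℕ => (⟨t, ⟨0, Finset.mem_insert_self _ _⟩⟩ :
        Σ t : ℕ, {ψ : X →L[ℝ] ℝ // ψ ∈ insert 0 (Φ t)}))
      (fun a b hab => congrArg Sigma.fst hab)
  · intro N
    have : {a : Σ t : ℕ, {ψ : X →L[ℝ] ℝ // ψ ∈ insert 0 (Φ t)} | a.1 + 1 ≤ N} ⊆
        ⋃ t ∈ Set.Iio N, range (fun p : {ψ : X →L[ℝ] ℝ // ψ ∈ insert 0 (Φ t)} =>
          (⟨t, p⟩ : Σ t : ℕ, {ψ : X →L[ℝ] ℝ // ψ ∈ insert 0 (Φ t)})) := by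
      rintro ⟨t, p⟩ hp
      have hp' : t + 1 ≤ N := hp
      simp only [mem_iUnion, mem_Iio]
      exact ⟨t, by omega, p, rfl⟩
    refine Set.Finite.subset ?_ this
    exact (Set.finite_Iio N).biUnion fun t _ => Set.finite_range _
  · intro a
    omega
  · rintro ⟨t, ψ, hψ⟩
    rcases Finset.mem_insert.1 hψ with rfl | h
    · simp
    · exact h1 t ψ h
  · rintro ⟨t, ψ, hψ⟩ x hx
    have hx' : x ∈ F t := by simpa using hx
    rcases Finset.mem_insert.1 hψ with rfl | h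
    · simp
    · exact h2 t ψ h x (hF.mono (Nat.le_succ t) hx') hx'
  · intro k
    induction k with
    | zero =>
        intro x hx _
        rw [hF.zero] at hx
        exact (Submodule.mem_bot ℝ).1 hx
    | succ k ih =>
        intro x hx hall
        refine ih x (h3 k x hx fun ψ hψ => ?_) fun a ha => hall a (by omega)
        exact hall ⟨k, ψ, Finset.mem_insert_of_mem hψ⟩ (le_refl (k + 1))

variable {F : ℕ → Submodule ℝ X} {Fr : Type} {lv : Fr → ℕ} {ψ : Fr → X →L[ℝ] ℝ}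

lemma frame_rep (hFr : Frame F Fr lv ψ) (k : ℕ) (g : X →L[ℝ] ℝ) :
    ∃ γ : Fr →₀ ℝ, (∀ a ∈ γ.support, lv a ≤ k) ∧
      ∀ x ∈ F k, g x = fs γ (fun a => ψ a x) := by
  classical
  have hfin : Finite {a // lv a ≤ k} := hFr.fin k
  have hsp : (g.toLinearMap.comp (F k).subtype) ∈ Submodule.span ℝ
      (range fun a : {a // lv a ≤ k} => (ψ a.1).toLinearMap.comp (F k).subtype) := by
    refine mem_span_of_iInf_ker_le_ker ?_
    intro x hx
    have h0 : (x : X) = 0 := by
      refine hFr.sep k x x.2 fun a ha => ?_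
      have := (Submodule.mem_iInf _).1 hx ⟨a, ha⟩
      exact this
    rw [LinearMap.mem_ker]
    show g (x : X) = 0
    rw [h0, map_zero]
  rw [Finsupp.mem_span_range_iff_exists_finsupp] at hsp
  obtain ⟨c, hc⟩ := hsp
  refine ⟨c.mapDomain Subtype.val, ?_, ?_⟩
  · intro a ha
    obtain ⟨b, _, rfl⟩ := Finset.mem_image.1 (Finsupp.mapDomain_support ha)
    exact b.2
  · intro x hx
    rw [fs_mapDomain]
    have h1 := congrArg (fun L : F k →ₗ[ℝ] ℝ => L ⟨x, hx⟩) hc
    simp only [Finsupp.sum, LinearMap.sum_apply] at h1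
    unfold fs Finsupp.sum
    exact h1.symm

/-- sign split -/
lemma sign_split (γ : Fr →₀ ℝ) : ∃ β : (Fr × Bool) →₀ ℝ, (∀ p, 0 ≤ β p) ∧
    (∀ p ∈ β.support, p.1 ∈ γ.support) ∧ mass β = nrm γ ∧
    ∀ y : Fr → ℝ, fs β (fun p => (if p.2 then (1 : ℝ) else -1) * y p.1) = fs γ y := by
  classical
  let P : Fr →₀ ℝ := γ.mapRange (fun t => max t 0) (by simp)
  let N : Fr →₀ ℝ := γ.mapRange (fun t => max (-t) 0) (by simp)
  have hPs : P.support ⊆ γ.support := Finsupp.support_mapRange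
  have hNs : N.support ⊆ γ.support := Finsupp.support_mapRange
  have hPv : ∀ a, P a = max (γ a) 0 := fun a => rfl
  have hNv : ∀ a, N a = max (-γ a) 0 := fun a => rfl
  have hit : Function.Injective fun a : Fr => (a, true) := fun a b h => (Prod.mk.inj h).1
  have hif : Function.Injective fun a : Fr => (a, false) := fun a b h => (Prod.mk.inj h).1
  refine ⟨P.mapDomain (fun a => (a, true)) + N.mapDomain (fun a => (a, false)), ?_, ?_, ?_, ?_⟩
  · intro p
    rw [Finsupp.add_apply]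
    refine add_nonneg (mapDomain_nonneg hit (fun a => ?_) p) (mapDomain_nonneg hif (fun a => ?_) p)
    · rw [hPv]; exact le_max_right _ _
    · rw [hNv]; exact le_max_right _ _
  · intro p hp
    rcases Finset.mem_union.1 (Finsupp.support_add hp) with h | h
    · obtain ⟨a, ha, rfl⟩ := Finset.mem_image.1 (Finsupp.mapDomain_support h)
      exact hPs ha
    · obtain ⟨a, ha, rfl⟩ := Finset.mem_image.1 (Finsupp.mapDomain_support h)
      exact hNs ha
  · rw [mass_add, mass_mapDomain, mass_mapDomain]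
    unfold mass nrm
    rw [Finsupp.sum_of_support_subset P hPs _ (by simp),
      Finsupp.sum_of_support_subset N hNs _ (by simp), ← Finset.sum_add_distrib]
    unfold Finsupp.sum
    refine Finset.sum_congr rfl fun a _ => ?_
    rw [hPv, hNv]
    rcases le_total 0 (γ a) with h | h
    · show _ = |γ a|
      rw [max_eq_left h, max_eq_right (by linarith), abs_of_nonneg h, add_zero]
    · show _ = |γ a|
      rw [max_eq_right h, max_eq_left (by linarith), abs_of_nonpos h, zero_add]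
  · intro y
    rw [fs_add, fs_mapDomain, fs_mapDomain]
    unfold fs
    rw [Finsupp.sum_of_support_subset P hPs _ (by simp),
      Finsupp.sum_of_support_subset N hNs _ (by simp), ← Finset.sum_add_distrib]
    unfold Finsupp.sum
    refine Finset.sum_congr rfl fun a _ => ?_
    rw [hPv, hNv]
    rcases le_total 0 (γ a) with h | h
    · rw [max_eq_left h, max_eq_right (by linarith)]; simp
    · rw [max_eq_right h, max_eq_left (by linarith)]; simp

lemma sys_data (hFr : Frame F Fr lv ψ) (i : ℕ) {ι : Type} {S : Sys ι} {h : ι → X →L[ℝ] ℝ}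
    (hN : NSys F S h) : ∃ (c : ℝ) (β : ι → (Fr × Bool) →₀ ℝ), 0 < c ∧ (∀ n, ‖c • h n‖ ≤ 1) ∧
      (∀ n p, 0 ≤ β n p) ∧ (∀ n, ∀ p ∈ (β n).support, lv p.1 ≤ i) ∧
      (∀ n, ¬ Exact F S h i n → mass (β n) ≤ (1 / 2 : ℝ) ^ i) ∧
      ∀ n, ∀ x ∈ F i, c * h n x = fs (β n) (fun p => (if p.2 then (1 : ℝ) else -1) * ψ p.1 x) := by
  classical
  have hrep : ∀ n, ∃ β : (Fr × Bool) →₀ ℝ, (∀ p, 0 ≤ β p) ∧ (∀ p ∈ β.support, lv p.1 ≤ i) ∧
      ∀ x ∈ F i, h n x = fs β (fun p => (if p.2 then (1 : ℝ) else -1) * ψ p.1 x) := by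
    intro n
    obtain ⟨γ, hγ1, hγ2⟩ := frame_rep hFr i (h n)
    obtain ⟨β, hβ0, hβ1, _, hβ3⟩ := sign_split γ
    refine ⟨β, hβ0, fun p hp => hγ1 _ (hβ1 p hp), fun x hx => ?_⟩
    rw [hγ2 x hx, ← hβ3]
  choose β hβ0 hβ1 hβ2 using hrep
  obtain ⟨H, hH⟩ := hN.bdd
  obtain ⟨B, hB⟩ : ∃ B : ℝ, ∀ n, ¬ Exact F S h i n → mass (β n) ≤ B := by
    have hfin := (hN.ex i).image fun n => mass (β n)
    obtain ⟨B, hB⟩ := hfin.bddAbove
    exact ⟨B, fun n hn => hB ⟨n, hn, rfl⟩⟩
  have hBpos : 0 < 1 + |B| := by positivity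
  have hHpos : 0 < 1 + |H| := by positivity
  set c : ℝ := (1 / 2 : ℝ) ^ i / ((1 + |B|) * (1 + |H|)) with hc
  have hc0 : 0 < c := by positivity
  have hcle : c ≤ (1 / 2 : ℝ) ^ i / (1 + |B|) := by
    rw [hc]
    apply div_le_div_of_nonneg_left (by positivity) hBpos
    nlinarith [abs_nonneg H, abs_nonneg B]
  have hcle' : c ≤ 1 / (1 + |H|) := by
    rw [hc, div_le_div_iff₀ (by positivity) hHpos]
    have h1 : (1 / 2 : ℝ) ^ i ≤ 1 := pow_le_one₀ (by norm_num) (by norm_num)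
    have h2 : (1 / 2 : ℝ) ^ i * (1 + |H|) ≤ 1 * (1 + |H|) := by gcongr
    nlinarith [abs_nonneg H, abs_nonneg B, mul_nonneg (abs_nonneg B) (abs_nonneg H)]
  refine ⟨c, fun n => c • β n, hc0, ?_, ?_, ?_, ?_, ?_⟩
  · intro n
    rw [norm_smul, Real.norm_of_nonneg hc0.le]
    calc c * ‖h n‖ ≤ (1 / (1 + |H|)) * (1 + |H|) := by
          refine mul_le_mul hcle' ?_ (norm_nonneg _) (by positivity)
          linarith [hH n, le_abs_self H]
      _ = 1 := by field_simp
  · intro n p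
    rw [Finsupp.smul_apply, smul_eq_mul]
    exact mul_nonneg hc0.le (hβ0 n p)
  · intro n p hp
    exact hβ1 n p (Finsupp.support_smul hp)
  · intro n hn
    rw [mass_smul]
    have h1 : mass (β n) ≤ 1 + |B| := by linarith [hB n hn, le_abs_self B]
    have h2 : c * mass (β n) ≤ c * (1 + |B|) := mul_le_mul_of_nonneg_left h1 hc0.le
    refine h2.trans ?_
    have h3 : c * (1 + |B|) ≤ (1 / 2 : ℝ) ^ i / (1 + |B|) * (1 + |B|) :=
      mul_le_mul_of_nonneg_right hcle hBpos.le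
    rwa [div_mul_cancel₀ _ hBpos.ne'] at h3
  · intro n x hx
    rw [fs_smul, ← hβ2 n x hx]

end FR

/-! ### The glued system -/

section Glue

variable {X : Type} [NormedAddCommGroup X] [NormedSpace ℝ X]

/-- nodes: frame nodes and the nodes of all systems -/
abbrev JJ (Fr : Type) (ι : ℕ → Type) := (Fr × Bool) ⊕ (Σ i : ℕ, ι i)

open Classical in
/-- the glued system -/
def sysJ (F : ℕ → Submodule ℝ X) {Fr : Type} (lv : Fr → ℕ) {ι : ℕ → Type}
    (S : ∀ i, Sys (ι i)) (h : ∀ i, ι i → X →L[ℝ] ℝ) (β : ∀ i, ι i → (Fr × Bool) →₀ ℝ) :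
    Sys (JJ Fr ι) where
  rk := Sum.elim (fun p => lv p.1) (fun x => x.1 + 1 + (S x.1).rk x.2)
  r := Sum.elim (fun _ => 0) (fun x =>
    if Exact F (S x.1) (h x.1) x.1 x.2 then
      ((S x.1).r x.2).mapDomain (fun m => (Sum.inr ⟨x.1, m⟩ : JJ Fr ι))
    else (β x.1 x.2).mapDomain Sum.inl)

/-- functionals of the glued system -/
def hh {Fr : Type} (ψ : Fr → X →L[ℝ] ℝ) {ι : ℕ → Type} (h : ∀ i, ι i → X →L[ℝ] ℝ)
    (c : ℕ → ℝ) : JJ Fr ι → X →L[ℝ] ℝ :=
  Sum.elim (fun p => (if p.2 then (1 : ℝ) else -1) • ψ p.1) (fun x => c x.1 • h x.1 x.2)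

variable {F : ℕ → Submodule ℝ X} {Fr : Type} {lv : Fr → ℕ} {ψ : Fr → X →L[ℝ] ℝ}
  {ι : ℕ → Type} {S : ∀ i, Sys (ι i)} {h : ∀ i, ι i → X →L[ℝ] ℝ}
  {β : ∀ i, ι i → (Fr × Bool) →₀ ℝ} {c : ℕ → ℝ}

lemma inj_inr (i : ℕ) : Function.Injective fun m : ι i => (Sum.inr ⟨i, m⟩ : JJ Fr ι) := by
  intro a b hab
  have := Sum.inr.inj hab
  simpa using this

lemma rk_inl (p : Fr × Bool) : (sysJ F lv S h β).rk (Sum.inl p) = lv p.1 := rfl

lemma rk_inr (i : ℕ) (n : ι i) :
    (sysJ F lv S h β).rk (Sum.inr ⟨i, n⟩) = i + 1 + (S i).rk n := rfl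

lemma r_inl (p : Fr × Bool) : (sysJ F lv S h β).r (Sum.inl p) = 0 := rfl

lemma r_exact {i : ℕ} {n : ι i} (hn : Exact F (S i) (h i) i n) :
    (sysJ F lv S h β).r (Sum.inr ⟨i, n⟩) =
      ((S i).r n).mapDomain (fun m => (Sum.inr ⟨i, m⟩ : JJ Fr ι)) := by
  exact if_pos hn

lemma r_nexact {i : ℕ} {n : ι i} (hn : ¬ Exact F (S i) (h i) i n) :
    (sysJ F lv S h β).r (Sum.inr ⟨i, n⟩) = (β i n).mapDomain Sum.inl := by
  exact if_neg hn

lemma okJ (hFr : Frame F Fr lv ψ) (hS : ∀ i, (S i).Ok) (hβ0 : ∀ i n p, 0 ≤ β i n p)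
    (hβ1 : ∀ i n, ∀ p ∈ (β i n).support, lv p.1 ≤ i)
    (hβ2 : ∀ i n, ¬ Exact F (S i) (h i) i n → mass (β i n) ≤ (1 / 2 : ℝ) ^ i) :
    (sysJ F lv S h β).Ok := by
  classical
  refine ⟨?_, ?_, ?_, ?_⟩
  · intro M
    have hsub : {n : JJ Fr ι | (sysJ F lv S h β).rk n ≤ M} ⊆
        (Sum.inl '' ({a | lv a ≤ M} ×ˢ (univ : Set Bool))) ∪
        ⋃ i ∈ Set.Iio M, (fun m : ι i => (Sum.inr ⟨i, m⟩ : JJ Fr ι)) '' {m | (S i).rk m ≤ M} := by
      rintro (⟨a, s⟩ | ⟨i, n⟩) hx
      · left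
        exact ⟨(a, s), ⟨hx, mem_univ _⟩, rfl⟩
      · right
        have hx' : i + 1 + (S i).rk n ≤ M := hx
        simp only [mem_iUnion, mem_Iio]
        exact ⟨i, by omega, n, by show (S i).rk n ≤ M; omega, rfl⟩
    refine Set.Finite.subset ?_ hsub
    refine Set.Finite.union (Set.Finite.image _ ((hFr.fin M).prod (Set.finite_univ))) ?_
    exact (Set.finite_Iio M).biUnion fun i _ => ((hS i).fin M).image _
  · rintro (p | ⟨i, n⟩) j
    · rw [r_inl]; simp
    · by_cases hn : Exact F (S i) (h i) i n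
      · rw [r_exact hn]
        exact mapDomain_nonneg (inj_inr i) ((hS i).pos n) j
      · rw [r_nexact hn]
        exact mapDomain_nonneg Sum.inl_injective (hβ0 i n) j
  · rintro (p | ⟨i, n⟩) j hj
    · rw [r_inl] at hj; simp at hj
    · by_cases hn : Exact F (S i) (h i) i n
      · rw [r_exact hn] at hj
        obtain ⟨m, hm, rfl⟩ := Finset.mem_image.1
          (Finsupp.mapDomain_support (Finsupp.mem_support_iff.2 hj))
        have := (hS i).low n m (Finsupp.mem_support_iff.1 hm)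
        rw [rk_inr, rk_inr]
        omega
      · rw [r_nexact hn] at hj
        obtain ⟨p, hp, rfl⟩ := Finset.mem_image.1
          (Finsupp.mapDomain_support (Finsupp.mem_support_iff.2 hj))
        have := hβ1 i n p hp
        rw [rk_inl, rk_inr]
        omega
  · rintro (p | ⟨i, n⟩)
    · rw [r_inl]; simp
    · by_cases hn : Exact F (S i) (h i) i n
      · rw [r_exact hn, mass_mapDomain]
        exact (hS i).le1 n
      · rw [r_nexact hn, mass_mapDomain]
        exact (hβ2 i n hn).trans (pow_le_one₀ (by norm_num) (by norm_num))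

lemma nsysJ (hF : Chain F) (hFr : Frame F Fr lv ψ) (hN : ∀ i, NSys F (S i) (h i))
    (hc1 : ∀ i n, ‖c i • h i n‖ ≤ 1) (hβ0 : ∀ i n p, 0 ≤ β i n p)
    (hβ1 : ∀ i n, ∀ p ∈ (β i n).support, lv p.1 ≤ i)
    (hβ2 : ∀ i n, ¬ Exact F (S i) (h i) i n → mass (β i n) ≤ (1 / 2 : ℝ) ^ i)
    (hβ3 : ∀ i n, ∀ x ∈ F i, c i * h i n x =
      fs (β i n) (fun p => (if p.2 then (1 : ℝ) else -1) * ψ p.1 x)) :
    NSys F (sysJ F lv S h β) (hh ψ h c) := by
  classical
  refine ⟨okJ hFr (fun i => (hN i).ok) hβ0 hβ1 hβ2, ⟨1, ?_⟩, ?_⟩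
  · rintro (⟨a, s⟩ | ⟨i, n⟩)
    · show ‖(if s then (1 : ℝ) else -1) • ψ a‖ ≤ 1
      rw [norm_smul]
      have : ‖(if s then (1 : ℝ) else -1)‖ = 1 := by cases s <;> simp
      rw [this, one_mul]
      exact hFr.le1 a
    · exact hc1 i n
  · intro k
    have hsub : {n : JJ Fr ι | ¬ Exact F (sysJ F lv S h β) (hh ψ h c) k n} ⊆
        (Sum.inl '' ({a | lv a ≤ k} ×ˢ (univ : Set Bool))) ∪
        ⋃ i ∈ Set.Iio k, (fun m : ι i => (Sum.inr ⟨i, m⟩ : JJ Fr ι)) ''
          ({m | ¬ Exact F (S i) (h i) i m} ∪ {m | ¬ Exact F (S i) (h i) k m}) := by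
      rintro (⟨a, s⟩ | ⟨i, n⟩) hx
      · left
        refine ⟨(a, s), ⟨?_, mem_univ _⟩, rfl⟩
        by_contra hlt
        apply hx
        intro x hxk
        rw [r_inl, fs_zero]
        show ((if s then (1 : ℝ) else -1) • ψ a) x = 0
        have hlt' : ¬ lv a ≤ k := hlt
        rw [smul_apply, hFr.zero a x (hF.mono (by omega) hxk), smul_zero]
      · right
        simp only [mem_iUnion, mem_Iio]
        have hex : k ≤ i → Exact F (sysJ F lv S h β) (hh ψ h c) k (Sum.inr ⟨i, n⟩) := by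
          intro hki x hxk
          have hxi : x ∈ F i := hF.mono hki hxk
          by_cases hn : Exact F (S i) (h i) i n
          · rw [r_exact hn, fs_mapDomain]
            show c i * h i n x = fs ((S i).r n) (fun m => c i * h i m x)
            rw [hn x hxi]
            unfold fs Finsupp.sum
            rw [Finset.mul_sum]
            exact Finset.sum_congr rfl fun j _ => by ring
          · rw [r_nexact hn, fs_mapDomain]
            show c i * h i n x = _
            rw [hβ3 i n x hxi]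
            rfl
        have hik : i < k := by
          by_contra hlt
          exact hx (hex (by omega))
        refine ⟨i, hik, n, ?_, rfl⟩
        by_contra hnot
        rw [mem_union] at hnot
        push Not at hnot
        obtain ⟨h1, h2⟩ := hnot
        have h1' : Exact F (S i) (h i) i n := by
          by_contra hcon
          exact h1 hcon
        have h2' : Exact F (S i) (h i) k n := by
          by_contra hcon
          exact h2 hcon
        apply hx
        intro x hxk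
        rw [r_exact h1', fs_mapDomain]
        show c i * h i n x = fs ((S i).r n) (fun m => c i * h i m x)
        rw [h2' x hxk]
        unfold fs Finsupp.sum
        rw [Finset.mul_sum]
        exact Finset.sum_congr rfl fun j _ => by ring
    refine Set.Finite.subset ?_ hsub
    refine Set.Finite.union (Set.Finite.image _ ((hFr.fin k).prod (Set.finite_univ))) ?_
    exact (Set.finite_Iio k).biUnion fun i _ => (((hN i).ex i).union ((hN i).ex k)).image _

/-- smallness of the nodes of the late systems -/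
lemma small_late (hS : ∀ i, (S i).Ok) (hβ0 : ∀ i n p, 0 ≤ β i n p)
    (hβ2 : ∀ i n, ¬ Exact F (S i) (h i) i n → mass (β i n) ≤ (1 / 2 : ℝ) ^ i)
    {M : ℕ} {y : Li (JJ Fr ι)} (hy : y ∈ (sysJ F lv S h β).E M) {i : ℕ} (hi : M ≤ i) :
    ∀ (R : ℕ) (n : ι i), (S i).rk n = R →
      |y (Sum.inr ⟨i, n⟩)| ≤ (1 / 2 : ℝ) ^ i * ‖y‖ := by
  intro R
  induction R using Nat.strong_induction_on with
  | _ R ih =>
    intro n hn
    have hrel := hy (Sum.inr ⟨i, n⟩) (by rw [rk_inr]; omega)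
    by_cases hex : Exact F (S i) (h i) i n
    · rw [r_exact hex, fs_mapDomain] at hrel
      rw [hrel]
      have h1 : ∀ j ∈ ((S i).r n).support,
          |y (Sum.inr ⟨i, j⟩)| ≤ (1 / 2 : ℝ) ^ i * ‖y‖ := by
        intro j hj
        have := (hS i).low n j (Finsupp.mem_support_iff.1 hj)
        exact ih _ (by omega) j rfl
      refine (abs_fs_le ((hS i).pos n) h1).trans ?_
      have h2 := (hS i).le1 n
      have h3 : 0 ≤ (1 / 2 : ℝ) ^ i * ‖y‖ := by positivity
      nlinarith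
    · rw [r_nexact hex, fs_mapDomain] at hrel
      rw [hrel]
      refine (abs_fs_le (hβ0 i n) (B := ‖y‖) fun p _ => abs_le_norm _ _).trans ?_
      exact mul_le_mul_of_nonneg_right (hβ2 i n hex) (norm_nonneg _)

lemma dualJ (hLND : StmtLND) (hLIM : StmtLIM) (hGT : StmtGT) (hFr : Frame F Fr lv ψ)
    (hN : ∀ i, NSys F (S i) (h i)) (hD : ∀ i, (S i).DualL1) (hβ0 : ∀ i n p, 0 ≤ β i n p)
    (hβ1 : ∀ i n, ∀ p ∈ (β i n).support, lv p.1 ≤ i)
    (hβ2 : ∀ i n, ¬ Exact F (S i) (h i) i n → mass (β i n) ≤ (1 / 2 : ℝ) ^ i) :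
    (sysJ F lv S h β).DualL1 := by
  classical
  have hS : ∀ i, (S i).Ok := fun i => (hN i).ok
  have hok := okJ hFr hS hβ0 hβ1 hβ2 (h := h)
  refine dual_of_lim hLND hGT hok fun 𝒰 => ?_
  -- principal ultrafilters
  by_cases hpr : ∃ n, ({n} : Set (JJ Fr ι)) ∈ 𝒰
  · obtain ⟨n, hn⟩ := hpr
    refine ⟨lp.single 1 n (1 : ℝ), fun M y _ => ?_⟩
    rw [pair_single]
    refine tendsto_const_nhds.congr' ?_
    filter_upwards [hn] with m hm
    rw [mem_singleton_iff.1 hm]
  push Not at hpr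
  have hfinite : ∀ A : Set (JJ Fr ι), A.Finite → A ∉ 𝒰 := by
    intro A hA hmem
    rw [← biUnion_of_singleton A] at hmem
    rw [Ultrafilter.finite_biUnion_mem_iff hA] at hmem
    obtain ⟨n, _, hn⟩ := hmem
    exact hpr n hn
  by_cases hfix : ∃ i : ℕ, range (fun m : ι i => (Sum.inr ⟨i, m⟩ : JJ Fr ι)) ∈ 𝒰
  · -- one system
    obtain ⟨i, hi⟩ := hfix
    set f : ι i → JJ Fr ι := fun m => Sum.inr ⟨i, m⟩ with hf
    have hinj : Function.Injective f := inj_inr i
    let 𝒱 : Ultrafilter (ι i) := 𝒰.comap hinj hi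
    have hmap : 𝒱.map f = 𝒰 := by
      apply Ultrafilter.coe_injective
      rw [Ultrafilter.coe_map, Ultrafilter.coe_comap]
      exact Filter.map_comap_of_mem hi
    obtain ⟨κ', _, hκ'⟩ := hLIM (ι i) (S i) (hS i) (hD i) (ι i) 𝒱
      (fun n => (lp.single 1 n (1 : ℝ) : L1 (ι i))) 1 (by
        intro n
        rw [lp.norm_single (by norm_num)]
        simp)
    obtain ⟨d, hd⟩ := exists_ext hinj κ'
    refine ⟨d, fun M y hy => ?_⟩
    -- the restriction is in `Y`
    have hres : res f y ∈ (S i).Y := by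
      obtain ⟨M', hM'⟩ : ∃ M', M ≤ M' ∧ ∀ m, ¬ Exact F (S i) (h i) i m → (S i).rk m ≤ M' := by
        have hfin := ((hN i).ex i).image fun m => (S i).rk m
        obtain ⟨B, hB⟩ := hfin.bddAbove
        exact ⟨max M B, le_max_left _ _, fun m hm => (hB ⟨m, hm, rfl⟩).trans (le_max_right _ _)⟩
      have hmem : res f y ∈ (S i).E M' := by
        intro n hn
        have hex : Exact F (S i) (h i) i n := by
          by_contra hcon
          have := hM'.2 n hcon
          omega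
        have hrel := hy (Sum.inr ⟨i, n⟩) (by rw [rk_inr]; have := hM'.1; omega)
        rw [r_exact hex, fs_mapDomain] at hrel
        exact hrel
      exact Submodule.le_topologicalClosure _ (Submodule.mem_iSup_of_mem M' hmem)
    have h1 := hκ' (res f y) hres
    rw [hd y]
    have h2 : (fun n => pair (lp.single 1 n (1 : ℝ) : L1 (ι i)) (res f y)) =
        (fun x => y x) ∘ f := by
      funext n
      rw [pair_single]
      rfl
    rw [h2] at h1
    have h3 : Tendsto (fun x => y x) ((𝒱.map f : Ultrafilter (JJ Fr ι)) : Filter (JJ Fr ι))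
        (𝓝 (pair κ' (res f y))) := by
      rw [Ultrafilter.coe_map]
      exact tendsto_map'_iff.2 h1
    rwa [hmap] at h3
  · push Not at hfix
    refine ⟨0, fun M y hy => ?_⟩
    rw [pair_zero]
    rw [Metric.tendsto_nhds]
    intro e he
    -- choose `N`
    obtain ⟨N, hMN, hNe⟩ : ∃ N, M ≤ N ∧ (1 / 2 : ℝ) ^ N * ‖y‖ < e := by
      have hlim : Tendsto (fun n : ℕ => (1 / 2 : ℝ) ^ n * ‖y‖) atTop (𝓝 (0 * ‖y‖)) :=
        (tendsto_pow_atTop_nhds_zero_of_lt_one (by norm_num) (by norm_num)).mul_const _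
      rw [zero_mul] at hlim
      obtain ⟨N, hN1, hN2⟩ := ((eventually_ge_atTop M).and (hlim.eventually_lt_const he)).exists
      exact ⟨N, hN1, hN2⟩
    by_contra hcon
    have hcon' : {x | dist (y x) 0 < e} ∉ 𝒰 := hcon
    have hcompl : {x | dist (y x) 0 < e}ᶜ ∈ 𝒰 := Ultrafilter.compl_mem_iff_notMem.2 hcon'
    have hsub : {x : JJ Fr ι | dist (y x) 0 < e}ᶜ ⊆
        (Sum.inl '' ({a | lv a ≤ M} ×ˢ (univ : Set Bool))) ∪
        ⋃ i ∈ Set.Iio N, range (fun m : ι i => (Sum.inr ⟨i, m⟩ : JJ Fr ι)) := by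
      rintro (⟨a, s⟩ | ⟨i, n⟩) hx
      · left
        refine ⟨(a, s), ⟨?_, mem_univ _⟩, rfl⟩
        by_contra hlt
        apply hx
        have hlt' : ¬ lv a ≤ M := hlt
        have hrel := hy (Sum.inl (a, s)) (by rw [rk_inl]; exact not_le.1 hlt')
        rw [r_inl, fs_zero] at hrel
        show dist (y (Sum.inl (a, s))) 0 < e
        rw [hrel, dist_self]
        exact he
      · right
        simp only [mem_iUnion, mem_Iio]
        refine ⟨i, ?_, n, rfl⟩
        by_contra hlt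
        apply hx
        show dist (y (Sum.inr ⟨i, n⟩)) 0 < e
        rw [Real.dist_eq, sub_zero]
        refine (small_late hS hβ0 hβ2 hy (by omega : M ≤ i) _ n rfl).trans_lt ?_
        refine lt_of_le_of_lt ?_ hNe
        refine mul_le_mul_of_nonneg_right ?_ (norm_nonneg _)
        exact pow_le_pow_of_le_one (by norm_num) (by norm_num) (by omega)
    have hbig := mem_of_superset hcompl hsub
    rcases Ultrafilter.union_mem_iff.1 hbig with h1 | h1
    · exact hfinite _ (Set.Finite.image _ ((hFr.fin M).prod (Set.finite_univ))) h1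
    · rw [Ultrafilter.finite_biUnion_mem_iff (Set.finite_Iio N)] at h1
      obtain ⟨i, _, hi⟩ := h1
      exact hfix i hi

end Glue

/-! ### One functional -/

section ONE

variable {X : Type} [NormedAddCommGroup X] [NormedSpace ℝ X]

/-- the system with one node -/
def sysU : Sys Unit where
  rk := fun _ => 0
  r := fun _ => 0

lemma okU : sysU.Ok := by
  refine ⟨fun M => Set.toFinite _, fun n j => ?_, fun n j hj => ?_, fun n => ?_⟩
  · simp [sysU]
  · simp [sysU] at hj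
  · simp [sysU]

lemma good_abs (hLND : StmtLND) (hGT : StmtGT) (F : ℕ → Submodule ℝ X) (g : X →L[ℝ] ℝ) :
    Good F (fun x => |g x|) := by
  refine ⟨Unit, sysU, fun _ => g, ⟨okU, ⟨‖g‖, fun _ => le_rfl⟩, fun k => Set.toFinite _⟩, ?_,
    1, fun x => ?_⟩
  · refine dual_of_lim hLND hGT okU fun 𝒰 => ⟨lp.single 1 () (1 : ℝ), fun M y _ => ?_⟩
    rw [pair_single]
    exact tendsto_const_nhds
  · rw [one_mul]
    show |g x| ≤ ⨆ _ : Unit, |g x|
    rw [ciSup_const]

end ONE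

end SIG

open SIG in
/-- Module PB_SIG. -/
theorem stmtSIG (hLND : StmtLND) (hLIM : StmtLIM) (hGT : StmtGT) : StmtSIG := by
  classical
  intro X _ _ F hF
  refine ⟨fun g => good_abs hLND hGT F g, fun p hp => ?_⟩
  choose ι S h hN hD C hC using hp
  obtain ⟨Fr, lv, ψ, hFr⟩ := exists_frame hF
  have hdata := fun i => sys_data hFr i (hN i)
  choose c β hc0 hc1 hβ0 hβ1 hβ2 hβ3 using hdata
  have hNJ : NSys F (sysJ F lv S h β) (hh ψ h c) := nsysJ hF hFr hN hc1 hβ0 hβ1 hβ2 hβ3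
  have hbdd : ∀ x, BddAbove (range fun n => |hh ψ h c n x|) := by
    intro x
    obtain ⟨H, hH⟩ := hNJ.bdd
    refine ⟨H * ‖x‖, ?_⟩
    rintro _ ⟨n, rfl⟩
    exact (hh ψ h c n).le_of_opNorm_le (hH n) x
  refine ⟨JJ Fr ι, sysJ F lv S h β, hh ψ h c, hNJ,
    dualJ hLND hLIM hGT hFr hN hD hβ0 hβ1 hβ2, ?_, ?_, ?_, ?_⟩
  · have := hFr.inf
    exact Infinite.of_injective (fun a : Fr => (Sum.inl (a, true) : JJ Fr ι))
      (fun a b hab => (Prod.mk.inj (Sum.inl.inj hab)).1)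
  · rintro (p | ⟨i, n⟩)
    · rw [rk_inl]; exact hFr.pos p.1
    · rw [rk_inr]; omega
  · intro k x hx hph
    refine hFr.sep k x hx fun a _ => ?_
    have h1 : |hh ψ h c (Sum.inl (a, true)) x| ≤ ph (hh ψ h c) x := le_ciSup (hbdd x) _
    rw [hph] at h1
    have h2 := abs_nonpos_iff.1 h1
    simpa [hh] using h2
  · intro i
    refine ⟨|C i| / c i + 1, by have := hc0 i; positivity, fun x => ?_⟩
    have hph0 : 0 ≤ ph (hh ψ h c) x := Real.iSup_nonneg fun n => abs_nonneg _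
    have h1 : ph (h i) x ≤ ph (hh ψ h c) x / c i := by
      refine Real.iSup_le (fun n => ?_) (div_nonneg hph0 (hc0 i).le)
      rw [le_div_iff₀ (hc0 i)]
      have h2 : |hh ψ h c (Sum.inr ⟨i, n⟩) x| ≤ ph (hh ψ h c) x := le_ciSup (hbdd x) _
      have h3 : |hh ψ h c (Sum.inr ⟨i, n⟩) x| = c i * |h i n x| := by
        show |(c i • h i n) x| = _
        rw [smul_apply, smul_eq_mul, abs_mul, abs_of_pos (hc0 i)]
      rw [h3] at h2
      linarith
    have hph1 : 0 ≤ ph (h i) x := Real.iSup_nonneg fun n => abs_nonneg _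
    calc p i x ≤ C i * ph (h i) x := hC i x
      _ ≤ |C i| * ph (h i) x := mul_le_mul_of_nonneg_right (le_abs_self _) hph1
      _ ≤ |C i| * (ph (hh ψ h c) x / c i) := mul_le_mul_of_nonneg_left h1 (abs_nonneg _)
      _ = |C i| / c i * ph (hh ψ h c) x := by ring
      _ ≤ (|C i| / c i + 1) * ph (hh ψ h c) x := by nlinarith

end

end PB
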