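import Pool.Agent.PB57.Stmts

/-!
# MP_b57e2f_an, module STK (2.1-2.3): the stuck point
-/

set_option autoImplicit false

open Filter Topology Set

namespace PB

noncomputable section

namespace STK

variable {X : Type} [NormedAddCommGroup X] [NormedSpace ℝ X]

lemma ph_smul {ι : Type} (h : ι → X →L[ℝ] ℝ) (c : ℝ) (x : X) : ph h (c • x) = |c| * ph h x := by
  unfold ph
  rw [Real.mul_iSup_of_nonneg (abs_nonneg c)]
  congr 1
  funext n
  rw [map_smul, smul_eq_mul, abs_mul]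

lemma ph_neg {ι : Type} (h : ι → X →L[ℝ] ℝ) (x : X) : ph h (-x) = ph h x := by
  unfold ph
  congr 1
  funext n
  rw [map_neg, abs_neg]

lemma ph_nonneg {ι : Type} (h : ι → X →L[ℝ] ℝ) (x : X) : 0 ≤ ph h x :=
  Real.iSup_nonneg fun _ => abs_nonneg _

/-- finite sums of good functions -/
lemma good_sum (hS : StmtSIG) {F : ℕ → Submodule ℝ X} (hF : Chain F) {κ : Type} (s : Finset κ)
    (p : κ → X → ℝ) (hp : ∀ i ∈ s, Good F (p i)) : Good F (fun x => ∑ i ∈ s, p i x) := by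
  classical
  obtain ⟨hg, hsig⟩ := hS X F hF
  have h0 : Good F (fun x : X => |(0 : X →L[ℝ] ℝ) x|) := hg 0
  -- enumerate s
  let e := s.equivFin
  let P : ℕ → X → ℝ := fun n => if hn : n < s.card then p (e.symm ⟨n, hn⟩) else
    fun x => |(0 : X →L[ℝ] ℝ) x|
  have hP : ∀ n, Good F (P n) := by
    intro n
    by_cases hn : n < s.card
    · simp only [P, hn, dif_pos]
      exact hp _ (e.symm ⟨n, hn⟩).2
    · simp only [P, hn, dif_neg, not_false_iff]
      exact h0
  obtain ⟨ι, S, h, hN, hD, -, -, -, hC⟩ := hsig P hP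
  choose C hCpos hC using hC
  refine ⟨ι, S, h, hN, hD, ∑ i : s, C (e i), fun x => ?_⟩
  show ∑ i ∈ s, p i x ≤ (∑ i : s, C (e i)) * ph h x
  rw [← Finset.sum_coe_sort s (fun i => p i x), Finset.sum_mul]
  refine Finset.sum_le_sum fun i _ => ?_
  have h1 := hC (e i) x
  have h2 : P (e i) = p i := by
    simp only [P, (e i).2, dif_pos, Fin.eta, Equiv.symm_apply_apply]
  rw [h2] at h1
  exact h1

/-- if the norm is not good then every good function is small at some unit vector and its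
opposite -/
lemma exists_flat {F : ℕ → Submodule ℝ X} (hng : ¬ Good F (fun x => ‖x‖)) {q : X → ℝ}
    (hq : Good F q) {δ : ℝ} (hδ : 0 < δ) : ∃ z : X, ‖z‖ = 1 ∧ q z ≤ δ ∧ q (-z) ≤ δ := by
  obtain ⟨ι, S, h, hN, hD, C, hC⟩ := hq
  by_contra hcon
  push_neg at hcon
  apply hng
  refine ⟨ι, S, h, hN, hD, C / δ, fun x => ?_⟩
  show ‖x‖ ≤ C / δ * ph h x
  by_cases hx : x = 0
  · subst hx
    have : ph h (0 : X) = 0 := by
      have := ph_smul h 0 (0 : X)
      simpa using this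
    rw [this]
    simp
  · have hnx : 0 < ‖x‖ := norm_pos_iff.2 hx
    set z := (‖x‖)⁻¹ • x with hz
    have hz1 : ‖z‖ = 1 := by
      rw [hz, norm_smul, norm_inv, norm_norm, inv_mul_cancel₀ hnx.ne']
    have hlt : δ < C * ph h z := by
      by_contra hle
      push_neg at hle
      have h1 := hcon z hz1 ((hC z).trans hle)
      have h2 : q (-z) ≤ δ := (hC (-z)).trans (by rw [ph_neg]; exact hle)
      linarith
    have h3 : ph h z = (‖x‖)⁻¹ * ph h x := by
      have h30 : 0 ≤ (‖x‖)⁻¹ := by positivity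
      rw [hz, ph_smul, abs_of_nonneg h30]
    rw [h3] at hlt
    have h4 : δ * ‖x‖ < C * ph h x := by
      have := mul_lt_mul_of_pos_right hlt hnx
      have e : C * ((‖x‖)⁻¹ * ph h x) * ‖x‖ = C * ph h x := by
        field_simp
      rwa [e] at this
    rw [div_mul_eq_mul_div, le_div_iff₀ hδ]
    linarith

/-- segments -/
lemma seg_le {y z : X} {t t' B : ℝ} (ht' : 0 ≤ t') (htt : t' ≤ t) (hy : ‖y‖ ≤ B)
    (h : ‖y + t • z‖ ≤ B) : ‖y + t' • z‖ ≤ B := by
  rcases eq_or_lt_of_le (ht'.trans htt) with h0 | h0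
  · have : t' = 0 := by linarith
    subst this
    simpa using hy
  · set a := t' / t with ha
    have ha0 : 0 ≤ a := by positivity
    have ha1 : a ≤ 1 := (div_le_one h0).2 htt
    have e : y + t' • z = (1 - a) • y + a • (y + t • z) := by
      have hat : a * t = t' := by rw [ha]; field_simp
      rw [smul_add, smul_smul, hat, sub_smul, one_smul]
      abel
    rw [e]
    calc ‖(1 - a) • y + a • (y + t • z)‖ ≤ ‖(1 - a) • y‖ + ‖a • (y + t • z)‖ := norm_add_le _ _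
      _ = (1 - a) * ‖y‖ + a * ‖y + t • z‖ := by
          rw [norm_smul, norm_smul, Real.norm_of_nonneg (by linarith), Real.norm_of_nonneg ha0]
      _ ≤ (1 - a) * B + a * B := by
          refine add_le_add (mul_le_mul_of_nonneg_left hy (by linarith))
            (mul_le_mul_of_nonneg_left h ha0)
      _ = B := by ring

lemma PP_mono {F : ℕ → Submodule ℝ X} {y : X} (hy : ‖y‖ = 1) {t t' : ℝ} (ht' : 0 ≤ t')
    (htt : t' ≤ t) (h : PP F y t) : PP F y t' := by
  intro η hη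
  obtain ⟨q, hq, δ, hδ, hz⟩ := h η hη
  refine ⟨q, hq, δ, hδ, fun z hz1 hqz => ?_⟩
  exact seg_le ht' htt (by linarith) (hz z hz1 hqz)

lemma PP_le_one {F : ℕ → Submodule ℝ X} (hng : ¬ Good F (fun x => ‖x‖)) {y : X} {t : ℝ}
    (h : PP F y t) : t ≤ 1 := by
  refine le_of_forall_pos_le_add fun η hη => ?_
  obtain ⟨q, hq, δ, hδ, hz⟩ := h η hη
  obtain ⟨z, hz1, hqz, hqz'⟩ := exists_flat hng hq hδ
  have h1 := hz z hz1.le hqz
  have h2 := hz (-z) (by rw [norm_neg]; exact hz1.le) hqz'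
  have h3 : ‖(2 * t) • z‖ ≤ (1 + η) + (1 + η) := by
    have e : (2 * t) • z = (y + t • z) - (y + t • (-z)) := by
      rw [smul_neg, two_mul, add_smul]
      abel
    rw [e]
    exact (norm_sub_le _ _).trans (add_le_add h1 h2)
  rw [norm_smul, hz1, mul_one] at h3
  have h4 := le_abs_self (2 * t)
  rw [← Real.norm_eq_abs] at h4
  linarith

lemma PP_gap (hS : StmtSIG) {F : ℕ → Submodule ℝ X} (hF : Chain F) {y : X} {t : ℝ}
    (h : ∀ η : ℝ, 0 < η → ∃ (G : Finset (X →L[ℝ] ℝ)) (δ : ℝ), 0 < δ ∧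
        ∀ z : X, ‖z‖ ≤ 1 → (∀ g ∈ G, |g z| ≤ δ) → ‖y + t • z‖ ≤ 1 + η) : PP F y t := by
  intro η hη
  obtain ⟨G, δ, hδ, hz⟩ := h η hη
  refine ⟨fun x => ∑ g ∈ G, |g x|, ?_, δ, hδ, fun z hz1 hq => hz z hz1 fun g hg => ?_⟩
  · exact good_sum hS hF G (fun g x => |g x|) fun g _ => (hS X F hF).1 g
  · exact (Finset.single_le_sum (f := fun g : X →L[ℝ] ℝ => |g z|) (fun _ _ => abs_nonneg _) hg).trans hq

/-- the radius r(y) -/
def rr (F : ℕ → Submodule ℝ X) (y : X) : ℝ := sSup {t | 0 ≤ t ∧ PP F y t}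

lemma rr_bdd {F : ℕ → Submodule ℝ X} (hng : ¬ Good F (fun x => ‖x‖)) (y : X) :
    BddAbove {t | 0 ≤ t ∧ PP F y t} := ⟨1, fun _ ht => PP_le_one hng ht.2⟩

lemma rr_le_one {F : ℕ → Submodule ℝ X} (hng : ¬ Good F (fun x => ‖x‖)) (y : X) :
    rr F y ≤ 1 := Real.sSup_le (fun _ ht => PP_le_one hng ht.2) zero_le_one

lemma PP_of_lt {F : ℕ → Submodule ℝ X} {y : X} (hy : ‖y‖ = 1)
    {t : ℝ} (ht : 0 ≤ t) (h : t < rr F y) : PP F y t := by
  have hne : {t | 0 ≤ t ∧ PP F y t}.Nonempty := by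
    by_contra hE
    rw [Set.not_nonempty_iff_eq_empty] at hE
    unfold rr at h
    rw [hE, Real.sSup_empty] at h
    linarith
  obtain ⟨s, hs, hts⟩ := exists_lt_of_lt_csSup hne h
  exact PP_mono hy ht hts.le hs.2

lemma not_PP_of_gt {F : ℕ → Submodule ℝ X} (hng : ¬ Good F (fun x => ‖x‖)) {y : X} {t : ℝ}
    (ht : 0 ≤ t) (h : rr F y < t) : ¬ PP F y t := fun hP =>
  absurd (le_csSup (rr_bdd hng y) ⟨ht, hP⟩) (not_le.2 h)

lemma gap_le_rr (hS : StmtSIG) {F : ℕ → Submodule ℝ X} (hF : Chain F)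
    (hng : ¬ Good F (fun x => ‖x‖)) {γ : X → ℝ}
    (hγ : ∀ y : X, ‖y‖ = 1 → ∀ t : ℝ, 0 ≤ t → t < γ y → ∀ η : ℝ, 0 < η →
      ∃ (G : Finset (X →L[ℝ] ℝ)) (δ : ℝ), 0 < δ ∧
        ∀ z : X, ‖z‖ ≤ 1 → (∀ g ∈ G, |g z| ≤ δ) → ‖y + t • z‖ ≤ 1 + η)
    {y : X} (hy : ‖y‖ = 1) : γ y ≤ rr F y := by
  refine le_of_forall_lt fun t ht => ?_
  rcases lt_or_ge t 0 with h0 | h0
  · refine lt_of_lt_of_le h0 (Real.sSup_nonneg fun _ hx => hx.1)
  · obtain ⟨s, hs1, hs2⟩ := exists_between ht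
    have hP : PP F y s := PP_gap hS hF (hγ y hy s (h0.trans hs1.le) hs2)
    exact lt_of_lt_of_le hs1 (le_csSup (rr_bdd hng y) ⟨h0.trans hs1.le, hP⟩)

end STK

open STK in
theorem stmtSTK (hS : StmtSIG) : StmtSTK := by
  intro X _ _ _ F hF hGap hng
  obtain ⟨γ, hγc, hγpos, hγ⟩ := hGap
  have hrpos : ∀ y : X, ‖y‖ = 1 → 0 < rr F y := fun y hy =>
    lt_of_lt_of_le (hγpos y hy) (gap_le_rr hS hF hng hγ hy)
  -- 2.2
  have h22 : ∃ y : X, ‖y‖ = 1 ∧ ∀ y' : X, ‖y'‖ = 1 → ‖y' - y‖ ≤ 10 * rr F y →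
      rr F y / 2 ≤ rr F y' := by
    by_contra hcon
    push_neg at hcon
    obtain ⟨y0, hy0, -, -⟩ := exists_flat hng ((hS X F hF).1 0) (one_pos)
    let Y := {y : X // ‖y‖ = 1}
    have hstep : ∀ y : Y, ∃ y' : Y, ‖(y' : X) - y‖ ≤ 10 * rr F (y : X) ∧
        rr F (y' : X) < rr F (y : X) / 2 := by
      rintro ⟨y, hy⟩
      obtain ⟨y', hy', h1, h2⟩ := hcon y hy
      exact ⟨⟨y', hy'⟩, h1, h2⟩
    choose nxt hn1 hn2 using hstep
    let s : ℕ → Y := fun n => nxt^[n] ⟨y0, hy0⟩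
    have hs : ∀ n, s (n + 1) = nxt (s n) := fun n => Function.iterate_succ_apply' nxt n _
    have hr : ∀ n, rr F (s n : X) ≤ (1 / 2 : ℝ) ^ n := by
      intro n
      induction n with
      | zero => simpa using rr_le_one hng (s 0 : X)
      | succ n ih =>
        rw [hs, pow_succ]
        have := hn2 (s n)
        linarith
    have hdist : ∀ n, dist (s n : X) (s (n + 1) : X) ≤ 10 * (1 / 2 : ℝ) ^ n := by
      intro n
      rw [dist_comm, dist_eq_norm, hs]
      exact (hn1 (s n)).trans (mul_le_mul_of_nonneg_left (hr n) (by norm_num))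
    have hcau : CauchySeq (fun n => (s n : X)) :=
      cauchySeq_of_le_geometric (1 / 2 : ℝ) 10 (by norm_num) hdist
    obtain ⟨y, hy⟩ := cauchySeq_tendsto_of_complete hcau
    have hy1 : ‖y‖ = 1 := by
      have h1 : Tendsto (fun n => ‖(s n : X)‖) atTop (𝓝 ‖y‖) := hy.norm
      have h2 : (fun n => ‖(s n : X)‖) = fun _ => (1 : ℝ) := funext fun n => (s n).2
      rw [h2] at h1
      exact tendsto_nhds_unique h1 tendsto_const_nhds |>.symm ▸ rfl
    have hγ0 : γ y ≤ 0 := by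
      have h1 : Tendsto (fun n => γ (s n : X)) atTop (𝓝 (γ y)) := (hγc.tendsto y).comp hy
      have h2 : Tendsto (fun n : ℕ => (1 / 2 : ℝ) ^ n) atTop (𝓝 0) :=
        tendsto_pow_atTop_nhds_zero_of_lt_one (by norm_num) (by norm_num)
      exact le_of_tendsto_of_tendsto' h1 h2 fun n =>
        (gap_le_rr hS hF hng hγ (s n).2).trans (hr n)
    exact absurd (hγpos y hy1) (not_lt.2 hγ0)
  obtain ⟨y, hy, hyr⟩ := h22
  set r := rr F y with hrdef
  have hr0 : 0 < r := hrpos y hy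
  have hr1 : r ≤ 1 := rr_le_one hng y
  refine ⟨y, r, hy, hr0, hr1, not_PP_of_gt hng (by positivity) (by linarith), ?_⟩
  intro x hx η hη
  obtain ⟨u, hu⟩ : ∃ u, u = y + r • x := ⟨_, rfl⟩
  obtain ⟨lam, hlam⟩ : ∃ lam, lam = ‖u‖ := ⟨_, rfl⟩
  have hform : ∀ z : X, y + r • (x + (1 / 4 : ℝ) • z) = u + (r / 4) • z := by
    intro z
    rw [hu, smul_add, smul_smul, ← add_assoc]
    congr 2
    ring
  simp only [hform]
  rw [← hu, ← hlam]
  have huy : ‖u - y‖ ≤ 5 * r := by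
    rw [hu, add_sub_cancel_left, norm_smul, Real.norm_of_nonneg hr0.le]
    nlinarith
  have hlamy : |1 - lam| ≤ ‖u - y‖ := by
    have := abs_norm_sub_norm_le u y
    rw [hy, ← hlam] at this
    rwa [abs_sub_comm]
  rcases eq_or_lt_of_le (norm_nonneg u) with h0 | h0
  · -- lam = 0
    refine ⟨fun x => |(0 : X →L[ℝ] ℝ) x|, (hS X F hF).1 0, 1, one_pos, fun z hz _ => ?_⟩
    have hu0 : u = 0 := norm_eq_zero.1 h0.symm
    rw [hu0, zero_add, norm_smul, Real.norm_of_nonneg (by positivity)]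
    have h1 : r / 4 * ‖z‖ ≤ 1 := by nlinarith
    have h2 : (1 : ℝ) ≤ max 1 lam := le_max_left _ _
    linarith
  · have hlam0 : 0 < lam := by rw [hlam]; exact h0
    obtain ⟨y', hy'⟩ : ∃ y', y' = lam⁻¹ • u := ⟨_, rfl⟩
    have hy'1 : ‖y'‖ = 1 := by
      rw [hy', norm_smul, norm_inv, Real.norm_of_nonneg hlam0.le, ← hlam,
        inv_mul_cancel₀ hlam0.ne']
    have hud : u = lam • y' := by
      rw [hy', smul_smul, mul_inv_cancel₀ hlam0.ne', one_smul]
    have hdist : ‖y' - y‖ ≤ 10 * r := by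
      have h1 : ‖y' - u‖ = |1 - lam| := by
        have e : y' - u = (1 - lam) • y' := by
          rw [sub_smul, one_smul, ← hud]
        rw [e, norm_smul, hy'1, mul_one, Real.norm_eq_abs]
      calc ‖y' - y‖ = ‖(y' - u) + (u - y)‖ := by congr 1; abel
        _ ≤ ‖y' - u‖ + ‖u - y‖ := norm_add_le _ _
        _ ≤ 10 * r := by rw [h1]; linarith
    have hr' := hyr y' hy'1 hdist
    have hPP : PP F y' (r / 4) := PP_of_lt hy'1 (by positivity) (by linarith)
    rcases le_total 1 lam with hl | hl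
    · -- lam ≥ 1
      obtain ⟨q, hq, δ, hδ, hz⟩ := hPP (η / lam) (by positivity)
      refine ⟨q, hq, δ, hδ, fun z hz1 hqz => ?_⟩
      have h1 := hz z hz1 hqz
      have h2 : ‖y' + (lam⁻¹ * (r / 4)) • z‖ ≤ 1 + η / lam := by
        refine seg_le (by positivity) ?_ (by rw [hy'1]; have : 0 < η / lam := by positivity
                                             linarith) h1
        have : lam⁻¹ ≤ 1 := inv_le_one_of_one_le₀ hl
        nlinarith
      have e : u + (r / 4) • z = lam • (y' + (lam⁻¹ * (r / 4)) • z) := by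
        rw [smul_add, ← hud, smul_smul, ← mul_assoc, mul_inv_cancel₀ hlam0.ne', one_mul]
      rw [e, norm_smul, Real.norm_of_nonneg hlam0.le]
      have h3 : lam * ‖y' + (lam⁻¹ * (r / 4)) • z‖ ≤ lam * (1 + η / lam) :=
        mul_le_mul_of_nonneg_left h2 hlam0.le
      have h4 : lam * (1 + η / lam) = lam + η := by field_simp
      have h5 : lam ≤ max 1 lam := le_max_right _ _
      linarith
    · -- lam ≤ 1
      obtain ⟨q, hq, δ, hδ, hz⟩ := hPP η hη
      refine ⟨q, hq, δ, hδ, fun z hz1 hqz => ?_⟩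
      have h1 := hz z hz1 hqz
      have e : u + (r / 4) • z = lam • (y' + (r / 4) • z) + ((1 - lam) * (r / 4)) • z := by
        have h7 : (r / 4) • z = (lam * (r / 4)) • z + ((1 - lam) * (r / 4)) • z := by
          rw [← add_smul]
          congr 1
          ring
        calc u + (r / 4) • z = lam • y' + ((lam * (r / 4)) • z + ((1 - lam) * (r / 4)) • z) := by
              rw [← hud, ← h7]
          _ = _ := by rw [smul_add, smul_smul]; abel
      rw [e]
      have h2 : ‖lam • (y' + (r / 4) • z)‖ ≤ lam * (1 + η) := by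
        rw [norm_smul, Real.norm_of_nonneg hlam0.le]
        exact mul_le_mul_of_nonneg_left h1 hlam0.le
      have h3 : ‖((1 - lam) * (r / 4)) • z‖ ≤ 1 - lam := by
        have h8 : r / 4 * ‖z‖ ≤ 1 := by nlinarith [norm_nonneg z]
        rw [norm_smul, Real.norm_of_nonneg (by nlinarith), mul_assoc]
        nlinarith
      have h4 := norm_add_le (lam • (y' + (r / 4) • z)) (((1 - lam) * (r / 4)) • z)
      have h5 : (1 : ℝ) ≤ max 1 lam := le_max_left _ _
      nlinarith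

end

end PB
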