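import Pool.Agent.PB57.Stmts

/-!
# Module SYSN: the glued system is a system
-/

set_option autoImplicit false

open Filter Topology Set

namespace PB

noncomputable section

namespace SYSN

variable {ι κ : Type}

/-- mass as an additive homomorphism -/
def massHom (ι : Type) : (ι →₀ ℝ) →+ ℝ := Finsupp.liftAddHom fun _ => AddMonoidHom.id ℝ

lemma massHom_apply (a : ι →₀ ℝ) : massHom ι a = mass a := rfl

lemma mass_add (a b : ι →₀ ℝ) : mass (a + b) = mass a + mass b := by
  rw [← massHom_apply, map_add]
  rfl

lemma mass_zero : mass (0 : ι →₀ ℝ) = 0 := by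
  rw [← massHom_apply, map_zero]

lemma mass_single (i : ι) (t : ℝ) : mass (Finsupp.single i t) = t := by
  unfold mass
  exact Finsupp.sum_single_index rfl

lemma mass_smul (c : ℝ) (a : ι →₀ ℝ) : mass (c • a) = c * mass a := by
  unfold mass
  rw [Finsupp.sum_smul_index (fun _ => rfl), Finsupp.mul_sum]

lemma mass_mapDomain (f : ι → κ) (a : ι →₀ ℝ) : mass (a.mapDomain f) = mass a := by
  unfold mass
  exact Finsupp.sum_mapDomain_index (fun _ => rfl) (fun _ _ _ => rfl)

lemma mass_finsum {J : Type} (d : J →₀ ℝ) (g : J → ℝ → ι →₀ ℝ) :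
    mass (d.sum g) = d.sum fun j t => mass (g j t) := by
  rw [← massHom_apply, map_finsuppSum]
  rfl

lemma mass_nonneg (a : ι →₀ ℝ) (h : ∀ j, 0 ≤ a j) : 0 ≤ mass a := by
  unfold mass Finsupp.sum
  exact Finset.sum_nonneg fun j _ => h j

lemma nrm_nonneg (a : ι →₀ ℝ) : 0 ≤ nrm a := by
  unfold nrm Finsupp.sum
  exact Finset.sum_nonneg fun j _ => abs_nonneg _

lemma mass_filter_le (a : ι →₀ ℝ) (h : ∀ j, 0 ≤ a j) (p : ι → Prop) [DecidablePred p] :
    mass (a.filter p) ≤ mass a := by
  have h1 : a = a.filter p + a.filter (fun x => ¬ p x) := (Finsupp.filter_add_filter_not a p).symm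
  have h2 : 0 ≤ mass (a.filter (fun x => ¬ p x)) := by
    refine mass_nonneg _ fun j => ?_
    rw [Finsupp.filter_apply]
    split_ifs
    · exact le_rfl
    · exact h j
  calc mass (a.filter p) ≤ mass (a.filter p) + mass (a.filter (fun x => ¬ p x)) := by linarith
    _ = mass (a.filter p + a.filter (fun x => ¬ p x)) := (mass_add _ _).symm
    _ = mass a := by rw [← h1]

lemma mapDomain_nonneg (f : ι → κ) (a : ι →₀ ℝ) (h : ∀ j, 0 ≤ a j) (n : κ) :
    0 ≤ a.mapDomain f n := by
  classical
  unfold Finsupp.mapDomain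
  rw [Finsupp.sum_apply]
  refine Finset.sum_nonneg fun j _ => ?_
  show 0 ≤ Finsupp.single (f j) (a j) n
  rw [Finsupp.single_apply]
  split_ifs
  · exact h j
  · exact le_rfl

lemma mapDomain_ne (f : ι → κ) (a : ι →₀ ℝ) (n : κ) (h : a.mapDomain f n ≠ 0) :
    ∃ j ∈ a.support, f j = n := by
  classical
  have h1 : n ∈ (a.mapDomain f).support := Finsupp.mem_support_iff.2 h
  have h2 := Finsupp.mapDomain_support h1
  rw [Finset.mem_image] at h2
  exact h2

variable {A : Type}

lemma susp_nonneg (a : A) (d : ι →₀ ℝ) (n : Nd ι A) : 0 ≤ susp a d n := by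
  classical
  unfold susp
  rw [Finsupp.sum_apply]
  refine Finset.sum_nonneg fun j _ => ?_
  show 0 ≤ Finsupp.single (Sum.inr (a, j, decide (0 ≤ d j))) |d j| n
  rw [Finsupp.single_apply]
  split_ifs
  · exact abs_nonneg _
  · exact le_rfl

lemma susp_ne (a : A) (d : ι →₀ ℝ) (n : Nd ι A) (h : susp a d n ≠ 0) :
    ∃ j ∈ d.support, ∃ σ : Bool, n = Sum.inr (a, j, σ) := by
  classical
  unfold susp at h
  rw [Finsupp.sum_apply] at h
  obtain ⟨j, hj, hj2⟩ := Finset.exists_ne_zero_of_sum_ne_zero h
  refine ⟨j, hj, decide (0 ≤ d j), ?_⟩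
  change Finsupp.single (Sum.inr (a, j, decide (0 ≤ d j))) |d j| n ≠ 0 at hj2
  rw [Finsupp.single_apply] at hj2
  split_ifs at hj2 with h1
  · exact h1.symm
  · exact absurd rfl hj2

lemma mass_susp (a : A) (d : ι →₀ ℝ) : mass (susp a d) = nrm d := by
  unfold susp
  rw [mass_finsum]
  unfold nrm
  refine Finset.sum_congr rfl fun j _ => ?_
  exact mass_single _ _

/-- the part of the expansion of an anchor which comes from the parent -/
def parPart (D : AData ι A) (c : A) : Nd ι A →₀ ℝ :=
  match D.par c with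
    | none => 0
    | some a => D.m c • (Finsupp.single (Sum.inl a) (1 - nrm (D.d c)) + susp a (D.d c))

lemma ex_eq (D : AData ι A) (c : A) :
    D.ex c = parPart D c + (D.up c).mapDomain Sum.inl + susp D.o (D.β c) := rfl

lemma parPart_none (D : AData ι A) (c : A) (h : D.par c = none) : parPart D c = 0 := by
  unfold parPart
  rw [h]

lemma parPart_some (D : AData ι A) (c a : A) (h : D.par c = some a) :
    parPart D c = D.m c • (Finsupp.single (Sum.inl a) (1 - nrm (D.d c)) + susp a (D.d c)) := by
  unfold parPart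
  rw [h]

variable {S : Sys ι} {D : AData ι A}

lemma parPart_nonneg (hD : D.Ok S) (c : A) (n : Nd ι A) : 0 ≤ parPart D c n := by
  classical
  cases hp : D.par c with
  | none => rw [parPart_none D c hp]; exact le_rfl
  | some a =>
    rw [parPart_some D c a hp, Finsupp.smul_apply, Finsupp.add_apply]
    refine mul_nonneg (hD.mpos c) (add_nonneg ?_ (susp_nonneg a _ n))
    rw [Finsupp.single_apply]
    split_ifs
    · have := hD.dle c
      linarith
    · exact le_rfl

lemma mass_parPart_le (hD : D.Ok S) (c : A) : mass (parPart D c) ≤ D.m c := by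
  cases hp : D.par c with
  | none => rw [parPart_none D c hp, mass_zero]; exact hD.mpos c
  | some a =>
    rw [parPart_some D c a hp, mass_smul, mass_add, mass_single, mass_susp]
    have : D.m c * (1 - nrm (D.d c) + nrm (D.d c)) = D.m c := by ring
    rw [this]

lemma rk_inl (S : Sys ι) (D : AData ι A) (a : A) : (D.sys S).rk (Sum.inl a) = 2 * D.lv a + 1 := rfl

lemma rk_inr (S : Sys ι) (D : AData ι A) (a : A) (j : ι) (σ : Bool) :
    (D.sys S).rk (Sum.inr (a, j, σ)) = 2 * max (S.rk j) (D.lv a + 1) := rfl

lemma r_inl (S : Sys ι) (D : AData ι A) (c : A) : (D.sys S).r (Sum.inl c) = D.ex c := rfl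

open Classical in
lemma r_inr (S : Sys ι) (D : AData ι A) (a : A) (j : ι) (σ : Bool) :
    (D.sys S).r (Sum.inr (a, j, σ)) =
      ((S.r j).filter fun i => D.lv a < S.rk i).mapDomain (fun i => Sum.inr (a, i, σ)) +
        Finsupp.single (Sum.inl a) (1 - mass ((S.r j).filter fun i => D.lv a < S.rk i)) := rfl

lemma parPart_low (hD : D.Ok S) (c : A) (n : Nd ι A) (h : parPart D c n ≠ 0) :
    (D.sys S).rk n < 2 * D.lv c + 1 := by
  classical
  cases hp : D.par c with
  | none => rw [parPart_none D c hp] at h; exact absurd rfl h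
  | some a =>
    have hlv := hD.plv c a hp
    rw [parPart_some D c a hp, Finsupp.smul_apply, Finsupp.add_apply, smul_eq_mul] at h
    have h1 := right_ne_zero_of_mul h
    by_cases h2 : susp a (D.d c) n = 0
    · rw [h2, add_zero, Finsupp.single_apply] at h1
      split_ifs at h1 with h3
      · rw [← h3, rk_inl]
        omega
      · exact absurd rfl h1
    · obtain ⟨j, hj, σ, rfl⟩ := susp_ne a _ n h2
      have h4 := hD.dlv c j hj
      rw [rk_inr]
      have h5 : max (S.rk j) (D.lv a + 1) ≤ D.lv c := max_le h4 hlv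
      omega

end SYSN

open SYSN in
/-- the glued system is a system -/
theorem stmtSYSN : StmtSYSN := by
  classical
  intro ι S hS hrk A D hD
  refine ⟨?_, ?_, ?_, ?_⟩
  · intro M
    have h1 : {a | D.lv a ≤ M}.Finite := hD.fin M
    have h2 : {j | S.rk j ≤ M}.Finite := hS.fin M
    have h3 : ((Sum.inl '' {a | D.lv a ≤ M}) ∪
        (Sum.inr '' ({a | D.lv a ≤ M} ×ˢ ({j | S.rk j ≤ M} ×ˢ (univ : Set Bool)))) :
          Set (Nd ι A)).Finite :=
      (h1.image _).union ((h1.prod (h2.prod (Set.finite_univ))).image _)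
    refine h3.subset ?_
    rintro (a | ⟨a, j, σ⟩) hn
    · left
      refine ⟨a, ?_, rfl⟩
      have hn' : 2 * D.lv a + 1 ≤ M := hn
      show D.lv a ≤ M
      omega
    · right
      refine ⟨(a, j, σ), ?_, rfl⟩
      have hn' : 2 * max (S.rk j) (D.lv a + 1) ≤ M := hn
      have h4 := le_max_left (S.rk j) (D.lv a + 1)
      have h5 := le_max_right (S.rk j) (D.lv a + 1)
      refine ⟨?_, ?_, mem_univ _⟩
      · show D.lv a ≤ M
        omega
      · show S.rk j ≤ M
        omega
  · rintro (c | ⟨a, j, σ⟩) n
    · rw [r_inl, ex_eq, Finsupp.add_apply, Finsupp.add_apply]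
      exact add_nonneg (add_nonneg (parPart_nonneg hD c n)
        (mapDomain_nonneg _ _ (hD.uppos c) n)) (susp_nonneg _ _ n)
    · rw [r_inr, Finsupp.add_apply]
      refine add_nonneg (mapDomain_nonneg _ _ (fun i => ?_) n) ?_
      · rw [Finsupp.filter_apply]
        split_ifs
        · exact hS.pos j i
        · exact le_rfl
      · rw [Finsupp.single_apply]
        split_ifs
        · have h1 := mass_filter_le (S.r j) (hS.pos j) (fun i => D.lv a < S.rk i)
          have h2 := hS.le1 j
          linarith
        · exact le_rfl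
  · rintro (c | ⟨a, j, σ⟩) n hn
    · rw [r_inl, ex_eq, Finsupp.add_apply, Finsupp.add_apply] at hn
      rw [rk_inl]
      by_cases h1 : parPart D c n = 0
      · by_cases h2 : (D.up c).mapDomain Sum.inl n = 0
        · rw [h1, h2, zero_add, zero_add] at hn
          obtain ⟨j, hj, σ, rfl⟩ := susp_ne _ _ n hn
          have h3 := hD.βlv c j hj
          have h4 := hrk j
          rw [rk_inr, hD.lvo]
          have h5 : max (S.rk j) (0 + 1) = S.rk j := max_eq_left (by omega)
          rw [h5]
          omega
        · obtain ⟨a, ha, rfl⟩ := mapDomain_ne _ _ n h2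
          have h3 := hD.uplv c a ha
          rw [rk_inl]
          omega
      · exact parPart_low hD c n h1
    · rw [r_inr, Finsupp.add_apply] at hn
      rw [rk_inr]
      have h5 := le_max_right (S.rk j) (D.lv a + 1)
      have h6 := le_max_left (S.rk j) (D.lv a + 1)
      by_cases h1 : ((S.r j).filter fun i => D.lv a < S.rk i).mapDomain
          (fun i => (Sum.inr (a, i, σ) : Nd ι A)) n = 0
      · rw [h1, zero_add, Finsupp.single_apply] at hn
        split_ifs at hn with h2
        · rw [← h2, rk_inl]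
          omega
        · exact absurd rfl hn
      · obtain ⟨i, hi, rfl⟩ := mapDomain_ne _ _ n h1
        rw [Finsupp.mem_support_iff, Finsupp.filter_apply] at hi
        split_ifs at hi with h2
        · have h3 := hS.low j i hi
          rw [rk_inr]
          have h4 : max (S.rk i) (D.lv a + 1) = S.rk i := max_eq_left h2
          rw [h4]
          omega
        · exact absurd rfl hi
  · rintro (c | ⟨a, j, σ⟩)
    · rw [r_inl, ex_eq, mass_add, mass_add, mass_mapDomain, mass_susp]
      have h1 := mass_parPart_le hD c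
      have h2 := hD.tot c
      linarith
    · rw [r_inr, mass_add, mass_mapDomain, mass_single]
      linarith

end

end PB
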