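import Pool.Agent.PB57.Stmts

/-!
# MP_b57e2f_an, module TREE (5.1, 5.2): the tree of cells of all V_s
-/

set_option autoImplicit false

open Filter Topology Set

namespace PB

noncomputable section

/-- the seminorm ph is nonnegative -/
private theorem tree_ph_nonneg {ι X : Type} [NormedAddCommGroup X] [NormedSpace ℝ X]
    (h : ι → X →L[ℝ] ℝ) (x : X) : 0 ≤ ph h x :=
  Real.iSup_nonneg fun _ => abs_nonneg _

theorem stmtTREE (hTREE1 : StmtTREE1) (hLIFT : StmtLIFT) (hTMAP : StmtTMAP) (hLND : StmtLND) :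
    StmtTREE := by
  intro X _ _ F hF ι S h hN hD 𝒮 M lev cls Lb ε ζ V hG τ hτ0 hτ
  obtain ⟨T, hTv, hTn, hTc, -⟩ := hTMAP X F hF ι S h hN
  obtain ⟨-, -, -, -, -, -, -, -, hnorm, hpair, -⟩ := hLND ι S hN.ok
  -- the sets U_s
  have key : ∀ s : 𝒮, ∃ (A : Type) (lv : A → ℕ) (anc : A → ℕ → A) (κ : A → L1 ι) (w : A → ℝ),
      (∀ N : ℕ, {a | lv a ≤ N}.Finite) ∧ (∀ a, lev s ≤ lv a) ∧
      (∀ a K, lev s ≤ K → K ≤ lv a → lv (anc a K) = K) ∧ (∀ a, anc a (lv a) = a) ∧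
      (∀ a K K', lev s ≤ K' → K' ≤ K → K ≤ lv a → anc (anc a K) K' = anc a K') ∧
      (∀ a, (hc h (κ a), w a) ∈ V s) ∧
      (∀ a K, lev s ≤ K → K ≤ lv a →
        Near S K (κ a - κ (anc a K)) (τ s K) ∧ |w a - w (anc a K)| ≤ τ s K) ∧
      (∀ K, lev s ≤ K → ∀ q ∈ V s, ∃ a, lv a = K ∧
        (∃ κ' : L1 ι, hc h κ' = q.1 ∧ Near S K (κ' - κ a) (τ s K)) ∧ |q.2 - w a| ≤ τ s K) ∧
      (∀ P : ℕ → A, (∀ K, lev s ≤ K → lv (P K) = K) →
        (∀ K K', lev s ≤ K → K ≤ K' → anc (P K') K = P K) →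
        ∃ K0, lev s ≤ K0 ∧ ∀ K, K0 ≤ K → ‖κ (P K) - κ (P K0)‖ ≤ 1 / 2) := by
    intro s
    set C0 : ℝ := max (Lb s) 0 with hC0
    have hC0n : 0 ≤ C0 := le_max_right _ _
    let U : Set (L1 ι × ℝ) := {q | ‖q.1‖ ≤ C0 ∧ (hc h q.1, q.2) ∈ V s}
    have hUb : ∀ q ∈ U, ‖q.1‖ ≤ max C0 2 ∧ |q.2| ≤ max C0 2 := by
      rintro q ⟨h1, h2⟩
      refine ⟨h1.trans (le_max_left _ _), ?_⟩
      have h3 := hG.w_nonneg s _ h2
      have h4 := hG.w_le s _ h2
      rw [abs_of_nonneg h3]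
      exact h4.trans (le_max_right _ _)
    have hUc : ∀ (𝒰 : Ultrafilter ℕ) (κ : ℕ → L1 ι) (w : ℕ → ℝ) (κ' : L1 ι) (w' : ℝ),
        (∀ i, (κ i, w i) ∈ U) →
        (∀ y ∈ S.Y, Tendsto (fun i => pair (κ i) y) 𝒰 (𝓝 (pair κ' y))) →
        Tendsto w 𝒰 (𝓝 w') → (κ', w') ∈ U := by
      intro 𝒰 κ w κ' w' hκ hlim hw
      constructor
      · show ‖κ'‖ ≤ C0
        refine le_of_forall_pos_le_add fun e he => ?_
        obtain ⟨N, y, hy, hy1, hy2⟩ := hnorm κ' e he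
        have hyY : y ∈ S.Y :=
          Submodule.le_topologicalClosure _ (Submodule.mem_iSup_of_mem N hy)
        have h1 : pair κ' y ≤ C0 := by
          refine le_of_tendsto (hlim y hyY) (Eventually.of_forall fun i => ?_)
          have h2 := hpair (κ i) y
          have h3 : ‖κ i‖ ≤ C0 := (hκ i).1
          calc pair (κ i) y ≤ |pair (κ i) y| := le_abs_self _
            _ ≤ ‖κ i‖ * ‖y‖ := h2
            _ ≤ C0 * 1 := mul_le_mul h3 hy1 (norm_nonneg _) hC0n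
            _ = C0 := mul_one _
        linarith
      · refine hG.closed s 𝒰 (fun i => hc h (κ i)) w (hc h κ') w' (fun i => (hκ i).2) ?_ hw
        intro x
        simp only [hTc]
        exact hlim (T x) (T x).2
    obtain ⟨A, lv, anc, κ, w, h1, h2, h3, h4, h5, h6, h7, h8, h9⟩ :=
      hTREE1 ι S hN.ok hD U (max C0 2) hUb hUc (lev s) (τ s) (hτ0 s) (hτ s)
    refine ⟨A, lv, anc, κ, w, h1, h2, h3, h4, h5, fun a => (h6 a).2, h7, ?_, h9⟩
    intro K hK q hq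
    obtain ⟨κ', hκ1, hκ2⟩ := hLIFT X F hF ι S h hN hD q.1 C0 hC0n (fun x =>
      (hG.dom s q hq x).trans
        (mul_le_mul_of_nonneg_right (le_max_left _ _) (tree_ph_nonneg h x)))
    have hqU : (κ', q.2) ∈ U := ⟨hκ1, by show (hc h κ', q.2) ∈ V s; rw [hκ2]; exact hq⟩
    obtain ⟨a, ha1, ha2, ha3⟩ := h8 K hK _ hqU
    exact ⟨a, ha1, ⟨κ', hκ2, ha2⟩, ha3⟩
  choose A lv anc κ w k1 k2 k3 k4 k5 k6 k7 k8 k9 using key
  refine ⟨Σ s, A s, ⟨fun a => a.1, fun a => lv a.1 a.2, fun a K => ⟨a.1, anc a.1 a.2 K⟩,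
    fun a => κ a.1 a.2, fun a => w a.1 a.2⟩, ?_⟩
  refine
    { fin := ?_
      lev_le := fun a => k2 a.1 a.2
      anc_lv := fun a K h1 h2 => k3 a.1 a.2 K h1 h2
      anc_s := fun a K _ _ => rfl
      anc_self := fun a => ?_
      anc_anc := fun a K K' h1 h2 h3 => ?_
      mem := fun a => k6 a.1 a.2
      near := fun a K h1 h2 => (k7 a.1 a.2 K h1 h2).1
      wnear := fun a K h1 h2 => (k7 a.1 a.2 K h1 h2).2
      cover := ?_
      path := ?_ }
  · intro N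
    have h1 : {a : Σ s, A s | lv a.1 a.2 ≤ N} ⊆
        ⋃ s ∈ {s | lev s ≤ N}, (Sigma.mk s) '' {a : A s | lv s a ≤ N} := by
      rintro ⟨s, a⟩ ha
      have ha' : lv s a ≤ N := ha
      exact mem_biUnion (show s ∈ {s | lev s ≤ N} from (k2 s a).trans ha') ⟨a, ha', rfl⟩
    exact Set.Finite.subset
      (Set.Finite.biUnion (hG.levfin N) fun s _ => (k1 s N).image _) h1
  · exact Sigma.ext rfl (heq_of_eq (k4 a.1 a.2))
  · exact Sigma.ext rfl (heq_of_eq (k5 a.1 a.2 K K' h1 h2 h3))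
  · intro s K hK q hq
    obtain ⟨a, ha1, ha2, ha3⟩ := k8 s K hK q hq
    exact ⟨⟨s, a⟩, rfl, ha1, ha2, ha3⟩
  · intro s P hP1 hP2
    have hex : ∀ K, ∃ a : A s, P (max K (lev s)) = ⟨s, a⟩ := by
      intro K
      have h1 := (hP1 (max K (lev s)) (le_max_right _ _)).1
      have h1' : (P (max K (lev s))).1 = s := h1
      rcases hq : P (max K (lev s)) with ⟨s', a⟩
      rw [hq] at h1'
      have h2 : s' = s := h1'
      subst h2
      exact ⟨a, rfl⟩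
    choose P' hP' using hex
    have hPK : ∀ K, lev s ≤ K → P K = ⟨s, P' K⟩ := by
      intro K hK
      have := hP' K
      rwa [max_eq_left hK] at this
    obtain ⟨K0, hK0, hK1⟩ := k9 s P' (by
      intro K hK
      have h1 := (hP1 K hK).2
      have h2 : lv (P K).1 (P K).2 = K := h1
      rw [hPK K hK] at h2
      exact h2) (by
      intro K K' hK hKK'
      have h1 := hP2 K K' hK hKK'
      have h2 : (⟨(P K').1, anc (P K').1 (P K').2 K⟩ : Σ s, A s) = P K := h1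
      rw [hPK K hK, hPK K' (hK.trans hKK')] at h2
      exact eq_of_heq (Sigma.mk.inj h2).2)
    refine ⟨K0, hK0, fun K hK => ?_⟩
    have h1 := hK1 K hK
    show ‖κ (P K).1 (P K).2 - κ (P K0).1 (P K0).2‖ ≤ 1 / 2
    rw [hPK K (hK0.trans hK), hPK K0 hK0]
    exact h1

end

end PB
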