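import Pool.Agent.PB57.ISO

/-!
# MP_b57e2f_an: module TREE1 (5.1, 5.2), the tree of cells of one set  (helper15)
-/

set_option autoImplicit false

open Filter Topology Set

namespace PB

noncomputable section

namespace TR1

open ISO

variable {ι : Type}

theorem pair_sub_left (c c' : L1 ι) (y : Li ι) : pair (c - c') y = pair c y - pair c' y := by
  have h := pair_add_left (c - c') c' y
  rw [sub_add_cancel] at h
  linarith

theorem near_symm {S : Sys ι} {K : ℕ} {c c' : L1 ι} {τ : ℝ} (h : Near S K (c - c') τ) :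
    Near S K (c' - c) τ := by
  intro y hy
  have h1 := h y hy
  rw [pair_sub_left] at h1 ⊢
  rwa [abs_sub_comm]

theorem near_tri {S : Sys ι} {K : ℕ} {a b c : L1 ι} {τ τ' : ℝ} (h : Near S K (a - b) τ)
    (h' : Near S K (b - c) τ') : Near S K (a - c) (τ + τ') := by
  intro y hy
  have h1 := h y hy
  have h2 := h' y hy
  rw [pair_sub_left] at h1 h2 ⊢
  have h3 : pair a y - pair c y = (pair a y - pair b y) + (pair b y - pair c y) := by ring
  rw [h3, add_mul]
  exact (abs_add_le _ _).trans (add_le_add h1 h2)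

theorem near_le {S : Sys ι} {K : ℕ} {c : L1 ι} {τ τ' : ℝ} (h : Near S K c τ) (hτ : τ ≤ τ') :
    Near S K c τ' := fun y hy =>
  (h y hy).trans (mul_le_mul_of_nonneg_right hτ (norm_nonneg _))

theorem near_mono {S : Sys ι} (hm : Monotone S.E) {K K' : ℕ} (hK : K ≤ K') {c : L1 ι} {τ : ℝ}
    (h : Near S K' c τ) : Near S K c τ := fun y hy => h y (hm hK hy)

/-! ### tails -/

/-- the mass of c on the nodes of rank above K -/
def tail (S : Sys ι) (K : ℕ) (c : L1 ι) : ℝ := ∑' n, {n | K < S.rk n}.indicator (fun n => |c n|) n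

theorem sum_abs (c : L1 ι) : Summable fun n => |c n| := by
  simpa using sum_norm c

theorem norm_abs (c : L1 ι) : ‖c‖ = ∑' n, |c n| := by
  simpa using norm_eq c

theorem tail_nonneg (S : Sys ι) (K : ℕ) (c : L1 ι) : 0 ≤ tail S K c :=
  tsum_nonneg fun n => indicator_nonneg (fun _ _ => abs_nonneg _) n

theorem tail_sub (S : Sys ι) (K : ℕ) (c c' : L1 ι) :
    tail S K (c - c') ≤ tail S K c + tail S K c' := by
  unfold tail
  rw [← ((sum_abs c).indicator _).tsum_add ((sum_abs c').indicator _)]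
  refine ((sum_abs (c - c')).indicator _).tsum_le_tsum (fun n => ?_)
    (((sum_abs c).indicator _).add ((sum_abs c').indicator _))
  rw [lp.coeFn_sub]
  by_cases hn : n ∈ {n | K < S.rk n}
  · rw [indicator_of_mem hn, indicator_of_mem hn, indicator_of_mem hn, Pi.sub_apply]
    exact abs_sub _ _
  · rw [indicator_of_notMem hn, indicator_of_notMem hn, indicator_of_notMem hn, add_zero]

theorem tail_tendsto (S : Sys ι) (c : L1 ι) : Tendsto (fun K => tail S K c) atTop (𝓝 0) := by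
  have h := tendsto_tsum_of_dominated_convergence (𝓕 := atTop)
    (f := fun (K : ℕ) n => {n | K < S.rk n}.indicator (fun n => |c n|) n) (g := fun _ => (0 : ℝ))
    (bound := fun n => |c n|) (sum_abs c) (fun n => by
      refine tendsto_const_nhds.congr' ?_
      filter_upwards [eventually_ge_atTop (S.rk n)] with K hK
      rw [indicator_of_notMem]
      simpa using hK) (Eventually.of_forall fun K n => by
      rw [Real.norm_eq_abs]
      by_cases hn : n ∈ {n | K < S.rk n}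
      · rw [indicator_of_mem hn, abs_abs]
      · rw [indicator_of_notMem hn, abs_zero]
        exact abs_nonneg _)
  simpa [tail] using h

/-- the norm is controlled by the functional on E_K and the tail -/
theorem norm_le_tail {S : Sys ι}
    (hext : ∀ (M : ℕ) (v : ι → ℝ) (C : ℝ), 0 ≤ C → (∀ n, S.rk n ≤ M → |v n| ≤ C) →
      ∃ y ∈ S.E M, ‖y‖ ≤ C ∧ ∀ n, S.rk n ≤ M → y n = v n) {K : ℕ} {d : L1 ι} {τ : ℝ}
    (hτ : 0 ≤ τ) (h : Near S K d τ) : ‖d‖ ≤ τ + 2 * tail S K d := by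
  obtain ⟨y, hy, hy1, hyv⟩ := hext K (fun n => SignType.sign (d n)) 1 zero_le_one (fun n _ => by
    rcases lt_trichotomy (d n) 0 with h0 | h0 | h0
    · rw [sign_neg h0]; simp
    · rw [h0]; simp
    · rw [sign_pos h0]; simp)
  have h1 := (abs_le.1 (h y hy)).2
  have h2 : τ * ‖y‖ ≤ τ := mul_le_of_le_one_right hτ hy1
  have h3 : ‖d‖ - 2 * tail S K d ≤ pair d y := by
    rw [norm_abs]
    unfold tail pair
    rw [← tsum_mul_left, ← (sum_abs d).tsum_sub (((sum_abs d).indicator _).mul_left 2)]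
    refine ((sum_abs d).sub (((sum_abs d).indicator _).mul_left 2)).tsum_le_tsum (fun n => ?_)
      (sum_pair d y)
    by_cases hn : n ∈ {n | K < S.rk n}
    · rw [indicator_of_mem hn]
      have h4 : |y n| ≤ 1 := by
        have := lp.norm_apply_le_norm ENNReal.top_ne_zero y n
        rw [Real.norm_eq_abs] at this
        exact this.trans hy1
      have h5 : |d n * y n| ≤ |d n| := by
        rw [abs_mul]
        exact mul_le_of_le_one_right (abs_nonneg _) h4
      have := (abs_le.1 h5).1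
      linarith
    · rw [indicator_of_notMem hn, mul_zero, sub_zero]
      have hn' : S.rk n ≤ K := by simpa using hn
      rw [hyv n hn', mul_comm]
      exact (sign_mul_self (d n)).ge
  linarith

/-! ### labels -/

theorem near_of_res {S : Sys ι} (hb : ∀ (c : L1 ι) (y : Li ι), |pair c y| ≤ ‖c‖ * ‖y‖) (K : ℕ) :
    ∃ R : L1 ι → (S.E K →L[ℝ] ℝ), (∀ c, ‖R c‖ ≤ ‖c‖) ∧ (∀ c c', R (c - c') = R c - R c') ∧
      ∀ c, Near S K c ‖R c‖ := by
  let R : L1 ι → (S.E K →L[ℝ] ℝ) := fun c => LinearMap.mkContinuous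
    { toFun := fun y : S.E K => pair c (y : Li ι)
      map_add' := fun y z => pair_add_right c y z
      map_smul' := fun t y => pair_smul_right c t y } ‖c‖ (fun y => hb c y)
  refine ⟨R, fun c => ?_, fun c c' => ?_, fun c y hy => ?_⟩
  · exact ContinuousLinearMap.opNorm_le_bound _ (norm_nonneg _) (fun y => hb c y)
  · ext y
    exact pair_sub_left c c' y
  · exact (R c).le_opNorm ⟨y, hy⟩

theorem finE {S : Sys ι} (hS : S.Ok)
    (hsup : ∀ M n, ∀ j ∈ (S.land M n).support, S.rk j ≤ M)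
    (hland : ∀ M n, ∀ y ∈ S.E M, y n = fs (S.land M n) y) (K : ℕ) :
    FiniteDimensional ℝ (S.E K) := by
  have : Finite {n // S.rk n ≤ K} := (hS.fin K).to_subtype
  let f : S.E K →ₗ[ℝ] ({n // S.rk n ≤ K} → ℝ) :=
    { toFun := fun y n => (y : Li ι) n
      map_add' := fun y z => rfl
      map_smul' := fun t y => rfl }
  refine FiniteDimensional.of_injective f fun y z hyz => ?_
  apply Subtype.ext
  apply lp.ext
  funext n
  rw [hland K n y y.2, hland K n z z.2]
  unfold fs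
  refine Finsupp.sum_congr fun j hj => ?_
  have := congrFun hyz ⟨j, hsup K n j hj⟩
  simp only [f, LinearMap.coe_mk, AddHom.coe_mk] at this
  rw [this]

theorem labels_aux {E Q : Type} [NormedAddCommGroup E] [NormedSpace ℝ E] [FiniteDimensional ℝ E]
    (f : Q → E) (g : Q → ℝ) (C δ : ℝ) (hδ : 0 < δ) :
    ∃ (Λ : Type) (_ : Finite Λ) (lab : Q → Λ), ∀ q q' : Q,
      ‖f q‖ ≤ C → |g q| ≤ C → ‖f q'‖ ≤ C → |g q'| ≤ C → lab q = lab q' →
        ‖f q - f q'‖ ≤ δ ∧ |g q - g q'| ≤ δ := by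
  classical
  have : ProperSpace E := FiniteDimensional.proper ℝ E
  have hc : IsCompact (Metric.closedBall (0 : E × ℝ) C) := isCompact_closedBall _ _
  obtain ⟨t, -, htf, ht⟩ := hc.finite_cover_balls (e := δ / 2) (by positivity)
  have : Finite t := htf.to_subtype
  have hex : ∀ q : Q, ‖f q‖ ≤ C → |g q| ≤ C → ∃ y : t, (f q, g q) ∈
      Metric.ball (y : E × ℝ) (δ / 2) := by
    intro q h1 h2
    have h3 : (f q, g q) ∈ Metric.closedBall (0 : E × ℝ) C := by
      rw [mem_closedBall_zero_iff, Prod.norm_def]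
      exact max_le h1 h2
    have h4 := ht h3
    simp only [mem_iUnion] at h4
    obtain ⟨y, hy, h5⟩ := h4
    exact ⟨⟨y, hy⟩, h5⟩
  refine ⟨Option t, inferInstance, fun q =>
    if h : ‖f q‖ ≤ C ∧ |g q| ≤ C then some (hex q h.1 h.2).choose else none, ?_⟩
  intro q q' h1 h2 h1' h2' he
  simp only [dif_pos (And.intro h1 h2), dif_pos (And.intro h1' h2'), Option.some.injEq] at he
  have h3 := (hex q h1 h2).choose_spec
  have h4 := (hex q' h1' h2').choose_spec
  rw [← he] at h4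
  have h5 : dist (f q, g q) (f q', g q') < δ := by
    have := dist_triangle_right (f q, g q) (f q', g q') ((hex q h1 h2).choose : E × ℝ)
    have h6 := Metric.mem_ball.1 h3
    have h7 := Metric.mem_ball.1 h4
    linarith
  rw [Prod.dist_eq] at h5
  constructor
  · rw [← dist_eq_norm]
    exact (le_max_left _ _).trans h5.le
  · have := (le_max_right _ _).trans h5.le
    simpa [Real.dist_eq] using this

theorem labels {S : Sys ι} (hS : S.Ok)
    (hsup : ∀ M n, ∀ j ∈ (S.land M n).support, S.rk j ≤ M)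
    (hland : ∀ M n, ∀ y ∈ S.E M, y n = fs (S.land M n) y)
    (hb : ∀ (c : L1 ι) (y : Li ι), |pair c y| ≤ ‖c‖ * ‖y‖) (K : ℕ) (C δ : ℝ) (hδ : 0 < δ) :
    ∃ (Λ : Type) (_ : Finite Λ) (lab : L1 ι × ℝ → Λ), ∀ q q' : L1 ι × ℝ,
      ‖q.1‖ ≤ C → |q.2| ≤ C → ‖q'.1‖ ≤ C → |q'.2| ≤ C → lab q = lab q' →
        Near S K (q.1 - q'.1) δ ∧ |q.2 - q'.2| ≤ δ := by
  have := finE hS hsup hland K
  obtain ⟨R, hR1, hR2, hR3⟩ := near_of_res (S := S) hb K
  obtain ⟨Λ, hΛ, lab, hlab⟩ := labels_aux (E := S.E K →L[ℝ] ℝ) (fun q : L1 ι × ℝ => R q.1)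
    (fun q => q.2) C δ hδ
  refine ⟨Λ, hΛ, lab, fun q q' h1 h2 h3 h4 h5 => ?_⟩
  have h6 := hlab q q' ((hR1 _).trans h1) h2 ((hR1 _).trans h3) h4 h5
  refine ⟨near_le (hR3 _) ?_, h6.2⟩
  rw [hR2]
  exact h6.1

/-- near minimal points -/
theorem near_min {α : Type} (Q : Set α) (hQ : Q.Nonempty) (f : α → ℝ) (hf : ∀ q, 0 ≤ f q) (e : ℝ)
    (he : 0 < e) : ∃ c ∈ Q, ∀ c' ∈ Q, f c ≤ f c' + e := by
  obtain ⟨a, ⟨c, hc, rfl⟩, h⟩ := exists_lt_of_csInf_lt (hQ.image f)
    (show sInf (f '' Q) < sInf (f '' Q) + e by linarith)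
  refine ⟨c, hc, fun c' hc' => ?_⟩
  have h1 : sInf (f '' Q) ≤ f c' :=
    csInf_le ⟨0, by rintro _ ⟨q, -, rfl⟩; exact hf q⟩ ⟨c', hc', rfl⟩
  linarith

/-- a decreasing positive sequence below half of τ -/
theorem exists_delta (τ : ℕ → ℝ) (hτ : ∀ K, 0 < τ K) :
    ∃ δ : ℕ → ℝ, (∀ K, 0 < δ K) ∧ Antitone δ ∧ ∀ K, δ K ≤ τ K / 2 := by
  refine ⟨fun K => (Finset.range (K + 1)).inf' ⟨0, by simp⟩ (fun i => τ i / 2), fun K => ?_,
    fun K K' hK => ?_, fun K => ?_⟩
  · rw [Finset.lt_inf'_iff]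
    intro i _
    have := hτ i
    positivity
  · exact Finset.inf'_mono _ (Finset.range_mono (by omega)) _
  · exact Finset.inf'_le _ (by simp)

end TR1

open ISO TR1

/-- module TREE1 -/
theorem stmtTREE1 (hL : StmtLND) (hLim : StmtLIM) : StmtTREE1 := by
  intro ι S hS hD U C hUC hUcl N0 τ hτ hτ0
  classical
  obtain ⟨-, -, -, -, hsup, hland, hmono, hext, -, hb, -⟩ := hL ι S hS
  obtain ⟨δ, hδ, hδa, hδτ⟩ := exists_delta τ hτ
  have hlab := fun K => labels hS hsup hland hb K C (δ K) (hδ K)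
  choose Λ hΛ lab hlab using hlab
  -- points of U with the same label
  have hlabU : ∀ K, ∀ q ∈ U, ∀ q' ∈ U, lab K q = lab K q' →
      Near S K (q.1 - q'.1) (δ K) ∧ |q.2 - q'.2| ≤ δ K := fun K q hq q' hq' h =>
    hlab K q q' (hUC q hq).1 (hUC q hq).2 (hUC q' hq').1 (hUC q' hq').2 h
  -- cells
  let cell : ℕ → L1 ι × ℝ → Set (L1 ι × ℝ) := fun K q =>
    {q' | q' ∈ U ∧ ∀ K', N0 ≤ K' → K' ≤ K → lab K' q' = lab K' q}
  have cell_self : ∀ K, ∀ q ∈ U, q ∈ cell K q := fun K q hq => ⟨hq, fun _ _ _ => rfl⟩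
  have cell_eq : ∀ K q q', (∀ K', N0 ≤ K' → K' ≤ K → lab K' q' = lab K' q) →
      cell K q' = cell K q := by
    intro K q q' h
    ext z
    constructor
    · rintro ⟨h1, h2⟩
      exact ⟨h1, fun K' h3 h4 => (h2 K' h3 h4).trans (h K' h3 h4)⟩
    · rintro ⟨h1, h2⟩
      exact ⟨h1, fun K' h3 h4 => (h2 K' h3 h4).trans (h K' h3 h4).symm⟩
  let A : Type := {p : ℕ × Set (L1 ι × ℝ) // N0 ≤ p.1 ∧ ∃ q ∈ U, p.2 = cell p.1 q}
  let lv : A → ℕ := fun a => a.1.1
  have hrep : ∀ a : A, ∃ q ∈ U, a.1.2 = cell a.1.1 q := fun a => a.2.2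
  choose rep repU hrep using hrep
  have rep_mem : ∀ a : A, rep a ∈ a.1.2 := by
    intro a
    rw [hrep a]
    exact cell_self _ _ (repU a)
  let mk : ∀ (K : ℕ) (q : L1 ι × ℝ), N0 ≤ K → q ∈ U → A := fun K q h1 h2 =>
    ⟨(K, cell K q), h1, q, h2, rfl⟩
  let anc : A → ℕ → A := fun a K => if h : N0 ≤ K then mk K (rep a) h (repU a) else a
  have anc_val : ∀ (a : A) (K : ℕ), N0 ≤ K → (anc a K).1 = (K, cell K (rep a)) := by
    intro a K h
    simp only [anc, dif_pos h, mk]
  have anc_lv : ∀ (a : A) (K : ℕ), N0 ≤ K → lv (anc a K) = K := by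
    intro a K h
    change (anc a K).1.1 = K
    rw [anc_val a K h]
  -- labels of members of an anchor
  have mem_lab : ∀ (a : A) (q : L1 ι × ℝ), q ∈ a.1.2 → ∀ K', N0 ≤ K' → K' ≤ lv a →
      lab K' q = lab K' (rep a) := by
    intro a q hq K' h1 h2
    rw [hrep a] at hq
    exact hq.2 K' h1 h2
  have mem_U : ∀ (a : A) (q : L1 ι × ℝ), q ∈ a.1.2 → q ∈ U := by
    intro a q hq
    rw [hrep a] at hq
    exact hq.1
  have mem_anc : ∀ (a : A) (K : ℕ), N0 ≤ K → K ≤ lv a → a.1.2 ⊆ (anc a K).1.2 := by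
    intro a K h1 h2 q hq
    rw [anc_val a K h1]
    exact ⟨mem_U a q hq, fun K' h3 h4 => mem_lab a q hq K' h3 (h4.trans h2)⟩
  -- the sets Q^+
  let Qp : A → Set (L1 ι × ℝ) := fun a =>
    {q | q ∈ U ∧ ∀ q' ∈ a.1.2, Near S (lv a) (q.1 - q'.1) (δ (lv a)) ∧ |q.2 - q'.2| ≤ δ (lv a)}
  have Qp_sub : ∀ a : A, a.1.2 ⊆ Qp a := by
    intro a q hq
    refine ⟨mem_U a q hq, fun q' hq' => ?_⟩
    refine hlabU (lv a) q (mem_U a q hq) q' (mem_U a q' hq') ?_
    rw [mem_lab a q hq (lv a) a.2.1 le_rfl, mem_lab a q' hq' (lv a) a.2.1 le_rfl]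
  have hcen : ∀ a : A, ∃ c ∈ Qp a, ∀ c' ∈ Qp a,
      tail S (lv a) c.1 ≤ tail S (lv a) c'.1 + (1 / 2 : ℝ) ^ (lv a) := fun a =>
    near_min (Qp a) ⟨rep a, Qp_sub a (rep_mem a)⟩ (fun c => tail S (lv a) c.1)
      (fun c => tail_nonneg S _ _) _ (by positivity)
  choose cen hcen1 hcen2 using hcen
  refine ⟨A, lv, anc, fun a => (cen a).1, fun a => (cen a).2, ?_, fun a => a.2.1,
    fun a K h1 _ => anc_lv a K h1, ?_, ?_, fun a => (hcen1 a).1, ?_, ?_, ?_⟩
  · -- finitely many anchors up to level N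
    intro N
    have hfin : Finite ((k : Fin (N + 1)) → Λ k) := by
      have := hΛ
      infer_instance
    let g : A → ℕ × ((k : Fin (N + 1)) → Λ k) := fun a => (lv a, fun k => lab k (rep a))
    have himg : (g '' {a | lv a ≤ N}).Finite := by
      refine ((finite_Iic N).prod (finite_univ (α := (k : Fin (N + 1)) → Λ k))).subset ?_
      rintro _ ⟨a, ha, rfl⟩
      exact ⟨ha, mem_univ _⟩
    refine himg.of_finite_image ?_
    intro a ha b hb hab
    have h1 : lv a = lv b := (Prod.ext_iff.1 hab).1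
    have h2 : ∀ k : Fin (N + 1), lab k (rep a) = lab k (rep b) := fun k =>
      congrFun (Prod.ext_iff.1 hab).2 k
    apply Subtype.ext
    apply Prod.ext h1
    rw [hrep a, hrep b]
    have h3 : a.1.1 = b.1.1 := h1
    rw [h3]
    refine cell_eq _ _ _ fun K' _ h4 => ?_
    have h5 : K' < N + 1 := by
      have : lv b ≤ N := hb
      have h6 : b.1.1 = lv b := rfl
      omega
    exact h2 ⟨K', h5⟩
  · -- anc a (lv a) = a
    intro a
    apply Subtype.ext
    rw [anc_val a (lv a) a.2.1]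
    exact Prod.ext rfl (hrep a).symm
  · -- anc (anc a K) K' = anc a K'
    intro a K K' h1 h2 h3
    apply Subtype.ext
    rw [anc_val _ K' h1, anc_val a K' h1]
    refine Prod.ext rfl ?_
    refine cell_eq _ _ _ fun K'' h4 h5 => ?_
    have h6 : rep (anc a K) ∈ (anc a K).1.2 := rep_mem _
    rw [anc_val a K (h1.trans h2)] at h6
    exact h6.2 K'' h4 (h5.trans h2)
  · -- near
    intro a K h1 h2
    have hl := anc_lv a K h1
    have h3 := (hcen1 a).2 (rep a) (rep_mem a)
    have h4 := (hcen1 (anc a K)).2 (rep a) (mem_anc a K h1 h2 (rep_mem a))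
    rw [hl] at h4
    have h5 : δ (lv a) ≤ δ K := hδa h2
    have h6 := hδτ K
    constructor
    · refine near_le (near_tri (near_le (near_mono hmono h2 h3.1) h5) (near_symm h4.1)) ?_
      linarith
    · have h7 := h3.2
      have h8 := h4.2
      rw [abs_le] at h7 h8 ⊢
      constructor <;> linarith [h7.1, h7.2, h8.1, h8.2]
  · -- cover
    intro K hK q hq
    refine ⟨mk K q hK hq, rfl, ?_⟩
    have h1 := (hcen1 (mk K q hK hq)).2 q (cell_self K q hq)
    have h2 := hδτ K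
    have h3 := hτ K
    constructor
    · exact near_le (near_symm h1.1) (by change δ K ≤ τ K; linarith)
    · have h4 : |(cen (mk K q hK hq)).2 - q.2| ≤ δ K := h1.2
      rw [abs_sub_comm] at h4
      exact h4.trans (by linarith)
  · -- paths
    intro P hP1 hP2
    let 𝒰 : Ultrafilter ℕ := hyperfilter ℕ
    have h𝒰 : (𝒰 : Filter ℕ) ≤ atTop := by
      rw [← Nat.cofinite_eq_atTop]
      exact hyperfilter_le_cofinite
    set r : ℕ → L1 ι × ℝ := fun i => rep (P i) with hr
    have hrU : ∀ i, r i ∈ U := fun i => repU _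
    obtain ⟨κ', hκ', hlimκ⟩ := hLim ι S hS hD ℕ 𝒰 (fun i => (r i).1) C (fun i => (hUC _ (hrU i)).1)
    obtain ⟨w', hw', hlimw⟩ := (isCompact_Icc (a := -C) (b := C)).ultrafilter_le_nhds
      (𝒰.map (fun i => (r i).2)) (by
        rw [le_principal_iff, Ultrafilter.mem_coe, Ultrafilter.mem_map]
        exact univ_mem' fun i => abs_le.1 (hUC _ (hrU i)).2)
    have hlimw' : Tendsto (fun i => (r i).2) 𝒰 (𝓝 w') := hlimw
    have hU' : (κ', w') ∈ U := hUcl 𝒰 (fun i => (r i).1) (fun i => (r i).2) κ' w' hrU hlimκ hlimw'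
    -- members of the cells
    have hmem : ∀ K i, N0 ≤ K → K ≤ i → r i ∈ (P K).1.2 := by
      intro K i h1 h2
      have h3 := hP2 K i h1 h2
      have h4 := mem_anc (P i) K h1 (by rw [hP1 i (h1.trans h2)]; exact h2) (rep_mem (P i))
      rw [h3] at h4
      exact h4
    have hQp : ∀ K, N0 ≤ K → (κ', w') ∈ Qp (P K) := by
      intro K hK
      refine ⟨hU', fun q' hq' => ?_⟩
      have hl := hP1 K hK
      have hall : ∀ᶠ i in (𝒰 : Filter ℕ), Near S (lv (P K)) ((r i).1 - q'.1) (δ (lv (P K))) ∧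
          |(r i).2 - q'.2| ≤ δ (lv (P K)) := by
        filter_upwards [h𝒰 (eventually_ge_atTop K)] with i hi
        exact (Qp_sub (P K) (hmem K i hK hi)).2 q' hq'
      constructor
      · intro y hy
        have h1 : Tendsto (fun i => |pair ((r i).1 - q'.1) y|) 𝒰 (𝓝 |pair (κ' - q'.1) y|) := by
          simp only [pair_sub_left]
          exact ((hlimκ y (mem_Y S _ hy)).sub_const _).abs
        refine le_of_tendsto h1 ?_
        filter_upwards [hall] with i hi
        exact hi.1 y hy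
      · have h1 : Tendsto (fun i => |(r i).2 - q'.2|) 𝒰 (𝓝 |w' - q'.2|) :=
          (hlimw'.sub_const _).abs
        refine le_of_tendsto h1 ?_
        filter_upwards [hall] with i hi
        exact hi.2
    -- convergence
    have hbd : ∀ K, N0 ≤ K → ‖(cen (P K)).1 - κ'‖ ≤
        τ K + 4 * tail S K κ' + 2 * (1 / 2 : ℝ) ^ K := by
      intro K hK
      have hl := hP1 K hK
      have h1 := (hcen1 (P K)).2 (r K) (hmem K K hK le_rfl)
      have h2 := (hQp K hK).2 (r K) (hmem K K hK le_rfl)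
      have h3 := hcen2 (P K) (κ', w') (hQp K hK)
      rw [hl] at h1 h2 h3
      have h4 : Near S K ((cen (P K)).1 - κ') (δ K + δ K) := near_tri h1.1 (near_symm h2.1)
      have h5 := norm_le_tail hext (by have := hδ K; linarith) h4
      have h6 := tail_sub S K (cen (P K)).1 κ'
      have h7 := hδτ K
      have h8 : tail S K (cen (P K)).1 ≤ tail S K κ' + (1 / 2 : ℝ) ^ K := h3
      linarith
    have hlim : Tendsto (fun K : ℕ => τ K + 4 * tail S K κ' + 2 * (1 / 2 : ℝ) ^ K) atTop (𝓝 0) := by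
      have h1 := ((hτ0.add ((tail_tendsto S κ').const_mul 4)).add
        ((tendsto_pow_atTop_nhds_zero_of_lt_one (r := (1 / 2 : ℝ)) (by norm_num)
          (by norm_num)).const_mul 2))
      simpa using h1
    obtain ⟨K1, hK1⟩ := (hlim.eventually_lt_const (show (0 : ℝ) < 1 / 4 by norm_num)).exists_forall_of_atTop
    refine ⟨max K1 N0, le_max_right _ _, fun K hK => ?_⟩
    have h1 := hbd K ((le_max_right _ _).trans hK)
    have h2 := hK1 K ((le_max_left _ _).trans hK)
    have h3 := hbd (max K1 N0) (le_max_right _ _)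
    have h4 := hK1 (max K1 N0) (le_max_left _ _)
    have h5 : (cen (P K)).1 - (cen (P (max K1 N0))).1 =
        ((cen (P K)).1 - κ') - ((cen (P (max K1 N0))).1 - κ') := by abel
    rw [h5]
    refine (norm_sub_le _ _).trans ?_
    linarith

end

end PB
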