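import Pool.Agent.PB57.Stmts

set_option autoImplicit false

open Filter Topology Set

namespace PB

theorem idx_fin (N : ℕ) : {s : Idx | s.m' ≤ N}.Finite := by
  have hinj : Function.Injective (fun s : Idx => (s.l, s.m, s.m')) := by
    rintro ⟨l, m, m', _, _, _, _⟩ ⟨l2, m2, m2', _, _, _, _⟩ h
    simp only [Prod.mk.injEq] at h
    obtain ⟨rfl, rfl, rfl⟩ := h
    rfl
  have hfin : ((Set.Iic N) ×ˢ ((Set.Iic N) ×ˢ (Set.Iic N)) : Set (ℕ × ℕ × ℕ)).Finite :=
    (Set.finite_Iic N).prod ((Set.finite_Iic N).prod (Set.finite_Iic N))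
  refine Set.Finite.subset (hfin.preimage (f := fun s : Idx => (s.l, s.m, s.m')) hinj.injOn) ?_
  intro s hs
  have h1 := s.hmm
  have h2 := s.hlm
  simp only [Set.mem_ofPred_eq] at hs
  simp only [Set.mem_preimage, Set.mem_prod, Set.mem_Iic]
  exact ⟨by omega, by omega, hs⟩

theorem ultra_const (𝒰 : Ultrafilter ℕ) (f : ℕ → ℕ) (B : ℕ) (hf : ∀ i, f i ≤ B) :
    ∃ l, ∀ᶠ i in (𝒰 : Filter ℕ), f i = l := by
  have hfin : (Set.Iic B).Finite := Set.finite_Iic B
  have hmem : (⋃ l ∈ Set.Iic B, {i | f i = l}) ∈ 𝒰 := by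
    have : (⋃ l ∈ Set.Iic B, {i | f i = l}) = Set.univ := by
      ext i
      simp only [Set.mem_iUnion, Set.mem_Iic, Set.mem_ofPred_eq, Set.mem_univ, iff_true]
      exact ⟨f i, hf i, rfl⟩
    rw [this]
    exact Filter.univ_mem
  rw [Ultrafilter.finite_biUnion_mem_iff hfin] at hmem
  obtain ⟨l, _, hl⟩ := hmem
  exact ⟨l, hl⟩

theorem stmtUT (hWB : StmtWB) (hCD : StmtCD) (hVB : StmtVB) (hDEC : StmtDEC) (hCLU : StmtCLU)
    (hASM : StmtASM) : StmtUT := by
  intro X _ _ F hF ι S h hN hD hrk p hp δ G hS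
  obtain ⟨hepos, hele, -, -, hdec⟩ := hDEC
  choose ν L hL using hCD X F p δ G hS
  have hCDh : CDh F p δ ν L := hL
  obtain ⟨-, -, -, -, hmono, hzero, hle, hOm1, -, -, hcont, -, hNW1, hNW2⟩ := hWB X F p δ G hS
  have hVBs := hVB X F p δ G hS ν L hCDh
  have hzetapos : ∀ l, 0 < zeta l := fun l => by
    unfold zeta
    have := hepos l
    positivity
  have GD : GLData F h (fun s : Idx => s.m) (fun s => s.m') (fun s => s.l)
      (fun s => (L s.m + L s.m') / eta s.l) eps zeta (VV F p δ ν L) := by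
    refine
      { levpos := fun s => le_trans s.hl s.hlm
        Mle := fun s => s.hmm
        levfin := idx_fin
        εpos := fun s => hepos _
        ζpos := fun s => hzetapos _
        ζle := ?_
        ζε := ?_
        norm_le := fun s q hq => ((hVBs s).1 q hq).1
        w_nonneg := fun s q hq => ((hVBs s).1 q hq).2.1
        w_le := fun s q hq => ((hVBs s).1 q hq).2.2.1
        vanish := fun s q hq => ((hVBs s).1 q hq).2.2.2.1
        dom := ?_
        closed := fun s => (hVBs s).2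
        clus := ?_ }
    · intro s
      have h1 := hele s.l
      have h2 := hepos s.l
      have h3 : ((1 : ℝ) / 2) ^ (s.l + 4) ≤ (1 / 2) ^ 5 :=
        pow_le_pow_of_le_one (by norm_num) (by norm_num) (by have := s.hl; omega)
      unfold zeta
      calc (1 / 2 : ℝ) ^ (s.l + 4) * eps s.l ≤ (1 / 2) ^ 5 * 1 :=
            mul_le_mul h3 h1 h2.le (by positivity)
        _ = 1 / 32 := by norm_num
    · intro s
      have h2 := hepos s.l
      have h3 : ((1 : ℝ) / 2) ^ (s.l + 4) ≤ 1 := pow_le_one₀ (by norm_num) (by norm_num)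
      unfold zeta
      nlinarith
    · intro s q hq x
      have := ((hVBs s).1 q hq).2.2.2.2 x
      rw [hp x] at this
      exact this
    · intro 𝒰 s v w m hv hm hlev
      obtain ⟨l, hl⟩ := ultra_const 𝒰 (fun i => (s i).l) (m + 1) (fun i => by
        have h1 := (s i).hm
        have h2 : (s i).m = m := hm i
        rw [h2] at h1
        exact h1)
      obtain ⟨t, q, b, bj, sj, qj, w0, h1, h2, h3, h4, h5, h6, h7, h8, h9, h10, h11, h12, h13⟩ :=
        hCLU X F p δ G hS ν L hCDh 𝒰 s v w l m hv hl (Filter.Eventually.of_forall hm) hlev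
      refine ⟨t, q, b, bj, sj, qj, w0, h2, ?_, h3, h4, h5, h6, h7, h8, ?_, h10, h11, ?_, h13⟩
      · filter_upwards [hl] with i hi
        show (s i).l = t.l
        rw [h1]
        exact hi
      · simp only [h1]
        exact h9
      · simp only [h1]
        exact h12
  obtain ⟨ι', S', h', hN', hD', hph, hV⟩ :=
    hASM X F hF ι S h hN hD hrk (fun k x hx h0 => hS.pnorm k x hx (by rw [hp x]; exact h0))
      Idx _ _ _ _ _ _ _ GD
  refine ⟨ι', S', h', hN', hD', L 0 + Ml 0, fun x => hNW2 x _ fun f hf => ?_⟩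
  -- decomposition of f
  obtain ⟨u0, hu0⟩ := (hCDh 0).2 f hf
  have hbdd : BddAbove (Set.range fun n => Om F p δ n f) :=
    ⟨1, by rintro _ ⟨n, rfl⟩; exact hOm1 f hf n⟩
  set w : ℝ := ⨆ n, Om F p δ n f with hw
  have hw1 : ∀ n, Om F p δ n f ≤ w := fun n => le_ciSup hbdd n
  have hw2 : w ≤ 1 := ciSup_le fun n => hOm1 f hf n
  have hw3 : ∀ e : ℝ, 0 < e → ∃ n, w - e ≤ Om F p δ n f := by
    intro e he
    obtain ⟨n, hn⟩ := exists_lt_of_lt_ciSup (show w - e < w by linarith)
    exact ⟨n, hn.le⟩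
  obtain ⟨b, s, v, hb, hbs, hbM, hv, -, hux⟩ :=
    hdec X F p δ G hS ν L hCDh f hf w hw1 hw3 0 0 le_rfl
      (by rw [hzero f]; simpa [eps] using hw2) u0 hu0
  have hdom := hu0.dom x
  have hphx : ∀ i, |v i x| ≤ ph h' x := fun i => hV (s i) (v i, w) (hv i) x
  have hph0 : 0 ≤ ph h' x := le_trans (abs_nonneg _) (hphx 0)
  have hL0 : 0 < L 0 := (hCDh 0).1
  have h1 : |u0 x| ≤ Ml 0 * ph h' x := by
    rw [hux x]
    have hsum : Summable fun i => b i * ph h' x := hbs.mul_right _
    have hle' : ∀ i, |b i * v i x| ≤ b i * ph h' x := fun i => by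
      rw [abs_mul, abs_of_nonneg (hb i)]
      exact mul_le_mul_of_nonneg_left (hphx i) (hb i)
    have hsab : Summable fun i => |b i * v i x| :=
      Summable.of_nonneg_of_le (fun i => abs_nonneg _) hle' hsum
    calc |∑' i, b i * v i x| ≤ ∑' i, |b i * v i x| := by
          have := norm_tsum_le_tsum_norm (f := fun i => b i * v i x) (by simpa using hsab)
          simpa using this
      _ ≤ ∑' i, b i * ph h' x := hsab.tsum_le_tsum hle' hsum
      _ = (∑' i, b i) * ph h' x := tsum_mul_right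
      _ ≤ Ml 0 * ph h' x := mul_le_mul_of_nonneg_right hbM hph0
  have h2 : |f x - u0 x| ≤ L 0 * ph h' x := by
    refine hdom.trans ?_
    rw [hp x]
    exact mul_le_mul_of_nonneg_left (hph x) hL0.le
  have h3 : f x ≤ |f x - u0 x| + |u0 x| := by
    have := le_abs_self (f x - u0 x)
    have := le_abs_self (u0 x)
    linarith
  nlinarith [h1, h2, h3]

end PB
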