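import Pool.Agent.PB57.Stmts

/-!
# MP_b57e2f_an: module VB, bounds and closedness of the sets V_s
-/

set_option autoImplicit false

open Filter Topology Set

namespace PB

noncomputable section

namespace VBm

variable {X : Type} [NormedAddCommGroup X] [NormedSpace ℝ X]

lemma bound_of_dense {F : ℕ → Submodule ℝ X} (hF : Chain F) (u : X →L[ℝ] ℝ) (C : ℝ) (m : ℕ)
    (h : ∀ n, m ≤ n → ∀ x ∈ F n, |u x| ≤ C * ‖x‖) : ∀ x, |u x| ≤ C * ‖x‖ := by
  have hcl : IsClosed {x : X | |u x| ≤ C * ‖x‖} :=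
    isClosed_le (by fun_prop) (by fun_prop)
  have hsub : (⋃ k, (F k : Set X)) ⊆ {x : X | |u x| ≤ C * ‖x‖} := by
    intro x hx
    obtain ⟨k, hk⟩ := mem_iUnion.mp hx
    exact h (max k m) (le_max_right _ _) x (hF.mono (le_max_left _ _) hk)
  intro x
  have : x ∈ closure (⋃ k, (F k : Set X)) := hF.dense x
  exact closure_minimal hsub hcl this

lemma exists_lim {J : Type} (𝒰 : Ultrafilter J) (g : J → X →L[ℝ] ℝ) (C : ℝ)
    (h : ∀ i x, |g i x| ≤ C * ‖x‖) :
    ∃ g' : X →L[ℝ] ℝ, ∀ x, Tendsto (fun i => g i x) 𝒰 (𝓝 (g' x)) := by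
  have h1 : ∀ x, ∃ a, |a| ≤ C * ‖x‖ ∧ Tendsto (fun i => g i x) 𝒰 (𝓝 a) := by
    intro x
    have hK : IsCompact (Icc (-(C * ‖x‖)) (C * ‖x‖)) := isCompact_Icc
    have hm : ∀ i, g i x ∈ Icc (-(C * ‖x‖)) (C * ‖x‖) := fun i => abs_le.mp (h i x)
    have hev : Icc (-(C * ‖x‖)) (C * ‖x‖) ∈ 𝒰.map fun i => g i x :=
      Ultrafilter.mem_map.mpr (Filter.univ_mem' hm)
    obtain ⟨a, ha, hle⟩ := hK.ultrafilter_le_nhds' (𝒰.map fun i => g i x) hev
    exact ⟨a, abs_le.mpr ha, hle⟩
  choose a ha hlim using h1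
  let L : X →ₗ[ℝ] ℝ :=
    { toFun := a
      map_add' := by
        intro x y
        refine tendsto_nhds_unique (hlim (x + y)) ?_
        have := (hlim x).add (hlim y)
        refine this.congr fun i => ?_
        rw [map_add]
      map_smul' := by
        intro c x
        refine tendsto_nhds_unique (hlim (c • x)) ?_
        have := (hlim x).const_mul c
        refine this.congr fun i => ?_
        rw [map_smul, smul_eq_mul] }
  exact ⟨L.mkContinuous C fun x => ha x, hlim⟩

lemma eps_pos : ∀ l, 0 < eps l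
  | 0 => by norm_num [eps]
  | (l + 1) => by
    have := eps_pos l
    unfold eps
    positivity

lemma eps_le : ∀ l, eps l ≤ 1
  | 0 => by norm_num [eps]
  | (l + 1) => by
    have h := eps_le l
    have h0 := eps_pos l
    unfold eps
    have h1 : (1 / 2 : ℝ) ^ (l + 6) ≤ 1 := pow_le_one₀ (by norm_num) (by norm_num)
    have h2 : (0 : ℝ) ≤ (1 / 2 : ℝ) ^ (l + 6) := by positivity
    nlinarith

lemma eta_pos (l : ℕ) : 0 < eta l := by
  have := eps_pos l
  unfold eta
  positivity

lemma Cl_ge (l : ℕ) : 30 ≤ Cl l := by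
  unfold Cl
  have : (0 : ℝ) ≤ (1 / 2 : ℝ) ^ l := by positivity
  linarith

end VBm

open VBm in
theorem stmtVB (hWB : StmtWB) : StmtVB := by
  intro X _ _ F p δ G hS ν L hCD s
  obtain ⟨-, ⟨c, hc, -, hfn⟩, -, -, -, hOm0, -, hOm1, -, -, hOmlim, -, -, -⟩ := hWB X F p δ G hS
  have hlt : ∀ m, 0 < L m := fun m => (hCD m).1
  have hη := eta_pos s.l
  have hC := Cl_ge s.l
  -- a bound for u in U_m(f)
  have hub : ∀ (m : ℕ) (f u : X →L[ℝ] ℝ) (w : ℝ), (∀ n, Om F p δ n f ≤ w) →
      UU F p δ m (ν m) (L m) f u → ∀ x, |u x| ≤ 30 * (w - Om F p δ m f) * ‖x‖ := by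
    intro m f u w hw hu
    apply bound_of_dense hS.chain u _ m
    intro n hn x hx
    refine (hu.small n hn x hx).trans ?_
    have := hw (ν m n)
    gcongr
  have hD0 : ∀ (m : ℕ) (f : X →L[ℝ] ℝ) (w : ℝ), (∀ n, Om F p δ n f ≤ w) →
      0 ≤ w - Om F p δ m f := fun m f w hw => sub_nonneg.mpr (hw m)
  have hmu : ∀ (f : X →L[ℝ] ℝ) (w : ℝ), (∀ n, Om F p δ n f ≤ w) →
      eta s.l ≤ mu F p δ s f w := by
    intro f w hw
    unfold mu
    have := hD0 s.m f w hw
    have h1 : 0 ≤ Cl s.l * (w - Om F p δ s.m f) := by positivity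
    linarith
  have hw2 : ∀ (f : X →L[ℝ] ℝ) (w : ℝ) (u u' : X →L[ℝ] ℝ), Xi F p δ ν L s f w u u' →
      0 ≤ w ∧ w ≤ 2 := by
    intro f w u u' hX
    constructor
    · have := hX.hw 0
      rw [hOm0] at this
      exact this
    · have h1 := hX.h1
      have h2 := hOm1 f hX.hf s.m
      have h3 := eps_le (s.l - 1)
      linarith
  constructor
  · rintro ⟨v, w⟩ ⟨f, u, u', hX, hv⟩
    have hv' : v = (mu F p δ s f w)⁻¹ • (u - u') := hv
    have hX' : Xi F p δ ν L s f w u u' := hX
    have hm := hmu f w hX'.hw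
    have hm0 : 0 < mu F p δ s f w := lt_of_lt_of_le hη hm
    have h1 := hub s.m f u w hX'.hw hX'.hu
    have h2 := hub s.m' f u' w hX'.hw hX'.hu'
    have hvx : ∀ x, v x = (mu F p δ s f w)⁻¹ * (u x - u' x) := by
      intro x
      rw [hv']
      simp
    refine ⟨?_, (hw2 f w u u' hX').1, (hw2 f w u u' hX').2, ?_, ?_⟩
    · refine ContinuousLinearMap.opNorm_le_bound _ zero_le_one fun x => ?_
      rw [one_mul, Real.norm_eq_abs]
      change |v x| ≤ ‖x‖
      rw [hvx, abs_mul, abs_of_pos (inv_pos.mpr hm0), inv_mul_le_iff₀ hm0]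
      have h3 : |u x - u' x| ≤ |u x| + |u' x| := abs_sub _ _
      have h4 := h1 x
      have h5 := h2 x
      have h6 : 30 * (w - Om F p δ s.m f) + 30 * (w - Om F p δ s.m' f) ≤ mu F p δ s f w := by
        unfold mu eta
        have h7 := hX'.h2
        have h8 := hD0 s.m f w hX'.hw
        have h9 := eps_pos s.l
        nlinarith
      have h10 := norm_nonneg x
      calc |u x - u' x| ≤ (30 * (w - Om F p δ s.m f) + 30 * (w - Om F p δ s.m' f)) * ‖x‖ := by
            linarith
        _ ≤ mu F p δ s f w * ‖x‖ := by gcongr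
    · intro x hx
      change v x = 0
      rw [hvx, hX'.hu.zero x hx, hX'.hu'.zero x (hS.chain.mono s.hmm hx)]
      simp
    · intro x
      change |v x| ≤ _
      rw [hvx, abs_mul, abs_of_pos (inv_pos.mpr hm0)]
      have h3 : |u x - u' x| ≤ (L s.m + L s.m') * p x := by
        have h4 := hX'.hu.dom x
        have h5 := hX'.hu'.dom x
        have h6 : u x - u' x = (f x - u' x) - (f x - u x) := by ring
        rw [h6]
        refine (abs_sub _ _).trans ?_
        linarith
      have hp0 : 0 ≤ p x := apply_nonneg p x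
      have hL := add_pos (hlt s.m) (hlt s.m')
      calc (mu F p δ s f w)⁻¹ * |u x - u' x| ≤ (eta s.l)⁻¹ * ((L s.m + L s.m') * p x) := by
            gcongr
        _ = (L s.m + L s.m') / eta s.l * p x := by
            rw [div_eq_mul_inv]; ring
  · intro 𝒰 v w v' w' hvw hv hw
    choose f u u' hX hq using hvw
    have hX' : ∀ i, Xi F p δ ν L s (f i) (w i) (u i) (u' i) := hX
    have hvx : ∀ i x, v i x = (mu F p δ s (f i) (w i))⁻¹ * (u i x - u' i x) := by
      intro i x
      have h1 : v i = (mu F p δ s (f i) (w i))⁻¹ • (u i - u' i) := hq i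
      rw [h1]
      simp
    obtain ⟨f', hf'⟩ := exists_lim 𝒰 f (1 / c) (by
      intro i x
      refine ((f i).le_opNorm x).trans ?_
      have := hfn (f i) (hX' i).hf
      gcongr)
    have hb : ∀ (m : ℕ) (f0 : X →L[ℝ] ℝ) (w0 : ℝ), w0 ≤ 2 → 0 ≤ Om F p δ m f0 →
        ∀ x : X, 30 * (w0 - Om F p δ m f0) * ‖x‖ ≤ 60 * ‖x‖ := by
      intro m f0 w0 h1 h2 x
      have := norm_nonneg x
      have h3 : 30 * (w0 - Om F p δ m f0) ≤ 60 := by linarith
      gcongr
    have hOmn : ∀ (m : ℕ) (f0 : X →L[ℝ] ℝ), 0 ≤ Om F p δ m f0 := by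
      intro m f0
      obtain ⟨-, -, -, -, hmono, hz, -⟩ := hWB X F p δ G hS
      have := hmono f0 (Nat.zero_le m)
      simp only [hz] at this
      exact this
    obtain ⟨g, hg⟩ := exists_lim 𝒰 u 60 (by
      intro i x
      exact (hub s.m (f i) (u i) (w i) (hX' i).hw (hX' i).hu x).trans
        (hb _ _ _ (hw2 _ _ _ _ (hX' i)).2 (hOmn _ _) x))
    obtain ⟨g', hg'⟩ := exists_lim 𝒰 u' 60 (by
      intro i x
      exact (hub s.m' (f i) (u' i) (w i) (hX' i).hw (hX' i).hu' x).trans
        (hb _ _ _ (hw2 _ _ _ _ (hX' i)).2 (hOmn _ _) x))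
    have hO : ∀ n, Tendsto (fun i => Om F p δ n (f i)) 𝒰 (𝓝 (Om F p δ n f')) :=
      hOmlim ℕ 𝒰 f f' hf'
    have hUU : ∀ (m : ℕ) (y : ℕ → X →L[ℝ] ℝ) (y' : X →L[ℝ] ℝ),
        (∀ x, Tendsto (fun i => y i x) 𝒰 (𝓝 (y' x))) →
        (∀ i, UU F p δ m (ν m) (L m) (f i) (y i)) → UU F p δ m (ν m) (L m) f' y' := by
      intro m y y' hy hU
      constructor
      · intro x hx
        refine tendsto_nhds_unique (hy x) ?_
        refine (tendsto_const_nhds (x := (0 : ℝ))).congr fun i => ?_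
        rw [(hU i).zero x hx]
      · intro x
        exact le_of_tendsto ((hf' x).sub (hy x)).abs
          (Filter.Eventually.of_forall fun i => (hU i).dom x)
      · intro n hn x hx
        refine le_of_tendsto_of_tendsto (hy x).abs
          ((((hO (ν m n)).sub (hO m)).const_mul 30).mul_const ‖x‖)
          (Filter.Eventually.of_forall fun i => (hU i).small n hn x hx)
    refine ⟨f', g, g', ?_, ?_⟩
    · constructor
      · intro x hx
        exact le_of_tendsto (hf' x) (Filter.Eventually.of_forall fun i => (hX' i).hf x hx)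
      · intro n
        exact le_of_tendsto_of_tendsto (hO n) hw
          (Filter.Eventually.of_forall fun i => (hX' i).hw n)
      · exact le_of_tendsto (hw.sub (hO s.m))
          (Filter.Eventually.of_forall fun i => (hX' i).h1)
      · exact le_of_tendsto (hw.sub (hO s.m'))
          (Filter.Eventually.of_forall fun i => (hX' i).h2)
      · intro h
        exact ge_of_tendsto (hw.sub (hO (s.m' - 1)))
          (Filter.Eventually.of_forall fun i => (hX' i).h3 h)
      · exact hUU s.m u g hg fun i => (hX' i).hu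
      · exact hUU s.m' u' g' hg' fun i => (hX' i).hu'
    · change v' = (mu F p δ s f' w')⁻¹ • (g - g')
      have hw' : ∀ n, Om F p δ n f' ≤ w' := fun n =>
        le_of_tendsto_of_tendsto (hO n) hw (Filter.Eventually.of_forall fun i => (hX' i).hw n)
      have hm0 : mu F p δ s f' w' ≠ 0 := (lt_of_lt_of_le hη (hmu f' w' hw')).ne'
      have hmulim : Tendsto (fun i => mu F p δ s (f i) (w i)) 𝒰 (𝓝 (mu F p δ s f' w')) := by
        unfold mu
        exact ((hw.sub (hO s.m)).const_mul _).add_const _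
      ext x
      refine tendsto_nhds_unique (hv x) ?_
      have h1 := (hmulim.inv₀ hm0).mul ((hg x).sub (hg' x))
      have h2 : ((mu F p δ s f' w')⁻¹ • (g - g')) x =
          (mu F p δ s f' w')⁻¹ * (g x - g' x) := by simp
      rw [h2]
      exact h1.congr fun i => (hvx i x).symm

end

end PB
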