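import Pool.Agent.PB57.Stmts

/-!
# Module WB (3.2, 4.1): basic facts on W and Omega (by helper85)
-/

set_option autoImplicit false

open Filter Topology Set

namespace PB

noncomputable section

section WB

variable {X : Type} [NormedAddCommGroup X] [NormedSpace ℝ X] {F : ℕ → Submodule ℝ X}
  {p : Seminorm ℝ X} {δ : ℕ → ℝ}

/-- families over an arbitrary finite type -/
lemma wb_mem_of {J : Type*} [Fintype J] {N : ℕ} (a : J → ℝ) (z : J → X) (m n : J → ℕ)
    (h0 : ∀ i, 0 ≤ a i) (hL : ∀ i, Legal F p δ (z i) (m i) (n i)) (hN : ∀ i, n i ≤ N)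
    (hs : ∀ t : ℕ, ∑ i with m i ≤ t ∧ t < n i, a i ≤ 1) :
    ∑ i, a i • z i ∈ WN F p δ N := by
  classical
  let e := (Fintype.equivFin J).symm
  refine ⟨Fintype.card J, a ∘ e, z ∘ e, m ∘ e, n ∘ e, fun i => h0 _, fun i => hL _,
    fun i => hN _, fun t => ?_, ?_⟩
  · refine le_trans (le_of_eq ?_) (hs t)
    rw [Finset.sum_filter, Finset.sum_filter]
    exact Equiv.sum_comp e (fun i => if m i ≤ t ∧ t < n i then a i else 0)
  · exact (Equiv.sum_comp e (fun i => a i • z i)).symm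

lemma wb_zero_mem (N : ℕ) : (0 : X) ∈ WN F p δ N := by
  have h := wb_mem_of (F := F) (p := p) (δ := δ) (J := Fin 0) (N := N) (fun _ => 0) (fun _ => 0)
    (fun _ => 0) (fun _ => 0) (fun i => i.elim0) (fun i => i.elim0) (fun i => i.elim0)
    (fun t => by simp)
  simpa using h

lemma wb_mono {N N' : ℕ} (h : N ≤ N') : WN F p δ N ⊆ WN F p δ N' := by
  rintro x ⟨k, a, z, m, n, h1, h2, h3, h4, h5⟩
  exact ⟨k, a, z, m, n, h1, h2, fun i => (h3 i).trans h, h4, h5⟩

lemma wb_neg {N : ℕ} {x : X} (hx : x ∈ WN F p δ N) : -x ∈ WN F p δ N := by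
  obtain ⟨k, a, z, m, n, h1, h2, h3, h4, rfl⟩ := hx
  refine ⟨k, a, fun i => - z i, m, n, h1, fun i => ?_, h3, h4, ?_⟩
  · obtain ⟨g1, g2, g3, g4⟩ := h2 i
    exact ⟨g1, neg_mem g2, by rwa [norm_neg], by rwa [map_neg_eq_map]⟩
  · simp

lemma wb_sum_split {A B : Type*} [Fintype A] [Fintype B] (P : A ⊕ B → Prop)
    [DecidablePred P] (f : A ⊕ B → ℝ) :
    ∑ i with P i, f i = (∑ i with P (Sum.inl i), f (Sum.inl i)) +
      ∑ i with P (Sum.inr i), f (Sum.inr i) := by
  rw [Finset.sum_filter, Fintype.sum_sum_type, Finset.sum_filter, Finset.sum_filter]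

lemma wb_combine {N : ℕ} {x y : X} (hx : x ∈ WN F p δ N) (hy : y ∈ WN F p δ N) {s t : ℝ}
    (hs : 0 ≤ s) (ht : 0 ≤ t) (hst : s + t = 1) : s • x + t • y ∈ WN F p δ N := by
  obtain ⟨k, a, z, m, n, h1, h2, h3, h4, rfl⟩ := hx
  obtain ⟨k', a', z', m', n', h1', h2', h3', h4', rfl⟩ := hy
  have h := wb_mem_of (F := F) (p := p) (δ := δ) (J := Fin k ⊕ Fin k') (N := N)
    (Sum.elim (fun i => s * a i) (fun i => t * a' i)) (Sum.elim z z') (Sum.elim m m')
    (Sum.elim n n') ?_ ?_ ?_ ?_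
  · rw [Fintype.sum_sum_type] at h
    simp only [Sum.elim_inl, Sum.elim_inr, mul_smul, ← Finset.smul_sum] at h
    exact h
  · rintro (i | i)
    · exact mul_nonneg hs (h1 i)
    · exact mul_nonneg ht (h1' i)
  · rintro (i | i)
    · exact h2 i
    · exact h2' i
  · rintro (i | i)
    · exact h3 i
    · exact h3' i
  · intro r
    refine le_trans (le_of_eq (wb_sum_split _ _)) ?_
    change (∑ i with m i ≤ r ∧ r < n i, s * a i) + (∑ i with m' i ≤ r ∧ r < n' i, t * a' i) ≤ 1
    rw [← Finset.mul_sum, ← Finset.mul_sum]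
    calc s * ∑ i with m i ≤ r ∧ r < n i, a i + t * ∑ i with m' i ≤ r ∧ r < n' i, a' i
        ≤ s * 1 + t * 1 := add_le_add (mul_le_mul_of_nonneg_left (h4 r) hs)
          (mul_le_mul_of_nonneg_left (h4' r) ht)
      _ = 1 := by rw [mul_one, mul_one, hst]

/-- one more block -/
lemma wb_add {M N : ℕ} {x z : X} (hMN : M < N) (hx : x ∈ WN F p δ M)
    (hz : Legal F p δ z M N) : x + z ∈ WN F p δ N := by
  obtain ⟨k, a, z', m, n, h1, h2, h3, h4, rfl⟩ := hx
  have h := wb_mem_of (F := F) (p := p) (δ := δ) (J := Fin k ⊕ Unit) (N := N)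
    (Sum.elim a (fun _ => 1)) (Sum.elim z' (fun _ => z)) (Sum.elim m (fun _ => M))
    (Sum.elim n (fun _ => N)) ?_ ?_ ?_ ?_
  · rw [Fintype.sum_sum_type] at h
    simpa using h
  · rintro (i | i)
    · exact h1 i
    · exact zero_le_one
  · rintro (i | i)
    · exact h2 i
    · exact hz
  · rintro (i | i)
    · exact (h3 i).trans hMN.le
    · exact le_rfl
  · intro r
    refine le_trans (le_of_eq (wb_sum_split _ _)) ?_
    change (∑ i with m i ≤ r ∧ r < n i, a i) + (∑ i : Unit with M ≤ r ∧ r < N, (1 : ℝ)) ≤ 1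
    rcases lt_or_ge r M with hr | hr
    · have e2 : (∑ i : Unit with M ≤ r ∧ r < N, (1 : ℝ)) = 0 := by
        refine Finset.sum_eq_zero fun i hi => ?_
        have := (Finset.mem_filter.mp hi).2
        omega
      rw [e2, add_zero]
      exact h4 r
    · have e1 : (∑ i with m i ≤ r ∧ r < n i, a i) = 0 := by
        refine Finset.sum_eq_zero fun i hi => ?_
        have := h3 i
        have := (Finset.mem_filter.mp hi).2
        omega
      have e2 : (∑ i : Unit with M ≤ r ∧ r < N, (1 : ℝ)) ≤ ∑ i : Unit, (1 : ℝ) :=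
        Finset.sum_le_sum_of_subset_of_nonneg (Finset.filter_subset _ _)
          (fun _ _ _ => zero_le_one)
      rw [e1, zero_add]
      exact e2.trans (by simp)

lemma wb_bound (hmono : Monotone F) {N : ℕ} {x : X} (hx : x ∈ WN F p δ N) :
    x ∈ F N ∧ ‖x‖ ≤ N := by
  obtain ⟨k, a, z, m, n, h1, h2, h3, h4, rfl⟩ := hx
  refine ⟨Submodule.sum_mem _ fun i _ => Submodule.smul_mem _ _ (hmono (h3 i) (h2 i).2.1), ?_⟩
  have e1 : ‖∑ i, a i • z i‖ ≤ ∑ i, a i := by
    refine norm_sum_le_of_le _ fun i _ => ?_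
    rw [norm_smul, Real.norm_eq_abs, abs_of_nonneg (h1 i)]
    exact mul_le_of_le_one_right (h1 i) (h2 i).2.2.1
  have e2 : ∑ i, a i ≤ ∑ i, ∑ t ∈ Finset.range N, (if m i ≤ t ∧ t < n i then a i else 0) := by
    refine Finset.sum_le_sum fun i _ => ?_
    have e3 : m i ∈ Finset.range N := Finset.mem_range.mpr ((h2 i).1.trans_le (h3 i))
    have e4 := Finset.single_le_sum (f := fun t => if m i ≤ t ∧ t < n i then a i else 0)
      (fun t _ => by split_ifs; exacts [h1 i, le_rfl]) e3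
    simp only [le_refl, (h2 i).1, and_self, if_true] at e4
    exact e4
  have e5 : ∑ i, ∑ t ∈ Finset.range N, (if m i ≤ t ∧ t < n i then a i else 0) ≤ N := by
    rw [Finset.sum_comm]
    calc ∑ t ∈ Finset.range N, ∑ i, (if m i ≤ t ∧ t < n i then a i else 0)
        ≤ ∑ t ∈ Finset.range N, (1 : ℝ) := by
          refine Finset.sum_le_sum fun t _ => ?_
          rw [← Finset.sum_filter]
          exact h4 t
      _ = N := by simp
  exact e1.trans (e2.trans e5)

lemma wb_bdd (hmono : Monotone F) (N : ℕ) (f : X →L[ℝ] ℝ) :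
    BddAbove ((fun x => f x) '' WN F p δ N) := by
  refine ⟨‖f‖ * N, ?_⟩
  rintro _ ⟨x, hx, rfl⟩
  refine (le_abs_self _).trans ((f.le_opNorm x).trans ?_)
  exact mul_le_mul_of_nonneg_left (wb_bound hmono hx).2 (norm_nonneg _)

lemma wb_ne (N : ℕ) (f : X →L[ℝ] ℝ) : ((fun x => f x) '' WN F p δ N).Nonempty :=
  ⟨f 0, 0, wb_zero_mem N, rfl⟩

lemma wb_le (hmono : Monotone F) {N : ℕ} {x : X} (hx : x ∈ WN F p δ N) (f : X →L[ℝ] ℝ) :
    f x ≤ Om F p δ N f := le_csSup (wb_bdd hmono N f) ⟨x, hx, rfl⟩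

lemma wb_Om_le {N : ℕ} {f : X →L[ℝ] ℝ} {c : ℝ} (h : ∀ x ∈ WN F p δ N, f x ≤ c) :
    Om F p δ N f ≤ c := by
  refine csSup_le (wb_ne N f) ?_
  rintro _ ⟨x, hx, rfl⟩
  exact h x hx

/-- on the finite dimensional space F_n pointwise convergence is uniform on bounded sets -/
lemma wb_unif (hfd : ∀ k, FiniteDimensional ℝ (F k)) {J : Type} (𝒰 : Filter J)
    (f : J → X →L[ℝ] ℝ) (f' : X →L[ℝ] ℝ)
    (hlim : ∀ x, Tendsto (fun i => f i x) 𝒰 (𝓝 (f' x))) (n : ℕ) (e : ℝ) (he : 0 < e) :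
    ∀ᶠ i in 𝒰, ∀ x ∈ F n, ‖x‖ ≤ n → |f i x - f' x| ≤ e := by
  have := hfd n
  let b := Module.finBasis ℝ (F n)
  set d := Module.finrank ℝ (F n)
  -- coordinate functionals are bounded
  have hco : ∃ C : ℝ, 0 < C ∧ ∀ (j : Fin d) (y : F n), |b.repr y j| ≤ C * ‖y‖ := by
    have h1 : ∀ j : Fin d, ∃ C : ℝ, 0 ≤ C ∧ ∀ y : F n, |b.repr y j| ≤ C * ‖y‖ := by
      intro j
      refine ⟨‖LinearMap.toContinuousLinearMap (b.coord j)‖,
        (LinearMap.toContinuousLinearMap (b.coord j)).opNorm_nonneg, fun y => ?_⟩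
      exact (LinearMap.toContinuousLinearMap (b.coord j)).le_opNorm y
    choose C hC0 hC using h1
    refine ⟨1 + ∑ j, C j, by
      have := Finset.sum_nonneg (s := Finset.univ) fun j (_ : j ∈ Finset.univ) => hC0 j
      linarith, fun j y => (hC j y).trans ?_⟩
    refine mul_le_mul_of_nonneg_right ?_ (norm_nonneg _)
    have := Finset.single_le_sum (f := C) (fun j _ => hC0 j) (Finset.mem_univ j)
    linarith
  obtain ⟨C, hC0, hC⟩ := hco
  have h2 : Tendsto (fun i => ∑ j : Fin d, |f i (b j : X) - f' (b j : X)|) 𝒰 (𝓝 0) := by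
    have : (0 : ℝ) = ∑ j : Fin d, 0 := by simp
    rw [this]
    refine tendsto_finsetSum _ fun j _ => ?_
    have h3 := ((hlim (b j : X)).sub_const (f' (b j : X))).abs
    simpa using h3
  have h4 : 0 < e / (C * (n + 1)) := by positivity
  filter_upwards [h2.eventually_lt_const h4] with i hi x hx hxn
  have h5 : x = ∑ j : Fin d, b.repr ⟨x, hx⟩ j • (b j : X) := by
    have h6 := congrArg (Subtype.val) (b.sum_repr ⟨x, hx⟩)
    simp only [Submodule.coe_sum, Submodule.coe_smul] at h6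
    exact h6.symm
  have h7 : f i x - f' x = ∑ j : Fin d, b.repr ⟨x, hx⟩ j * (f i (b j : X) - f' (b j : X)) := by
    conv_lhs => rw [h5]
    rw [map_sum, map_sum, ← Finset.sum_sub_distrib]
    refine Finset.sum_congr rfl fun j _ => ?_
    rw [map_smul, map_smul, smul_eq_mul, smul_eq_mul]
    ring
  rw [h7]
  refine (Finset.abs_sum_le_sum_abs _ _).trans ?_
  calc ∑ j : Fin d, |b.repr ⟨x, hx⟩ j * (f i (b j : X) - f' (b j : X))|
      ≤ ∑ j : Fin d, (C * (n + 1)) * |f i (b j : X) - f' (b j : X)| := by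
        refine Finset.sum_le_sum fun j _ => ?_
        rw [abs_mul]
        refine mul_le_mul_of_nonneg_right ((hC j ⟨x, hx⟩).trans ?_) (abs_nonneg _)
        refine mul_le_mul_of_nonneg_left ?_ hC0.le
        have : ‖(⟨x, hx⟩ : F n)‖ = ‖x‖ := rfl
        rw [this]
        linarith
    _ = (C * (n + 1)) * ∑ j : Fin d, |f i (b j : X) - f' (b j : X)| := by rw [Finset.mul_sum]
    _ ≤ (C * (n + 1)) * (e / (C * (n + 1))) := mul_le_mul_of_nonneg_left hi.le (by positivity)
    _ = e := by field_simp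

end WB

theorem stmtWB : StmtWB := by
  intro X _ _ F p δ G hS
  have hmono := hS.chain.mono
  obtain ⟨H, hH, hpH⟩ := hS.pbdd
  have hδ0 := hS.δpos 0
  set c : ℝ := min 1 (δ 0 / H) with hc
  have hc0 : 0 < c := lt_min one_pos (by positivity)
  have hc1 : c ≤ 1 := min_le_left _ _
  have hcH : H * c ≤ δ 0 := by
    have : c ≤ δ 0 / H := min_le_right _ _
    rw [le_div_iff₀ hH] at this
    linarith
  have hball : ∀ n, ∀ x ∈ F n, ‖x‖ ≤ c → 1 ≤ n → x ∈ WN F p δ n := by
    intro n x hx hxc hn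
    have hleg : Legal F p δ x 0 n := ⟨hn, hx, hxc.trans hc1,
      (hpH x).trans ((mul_le_mul_of_nonneg_left hxc hH.le).trans hcH)⟩
    have := wb_add (F := F) (p := p) (δ := δ) (M := 0) (N := n) (by omega) (wb_zero_mem 0) hleg
    rwa [zero_add] at this
  have hWPnorm : ∀ f ∈ WP F p δ, ‖f‖ ≤ 1 / c := by
    intro f hf
    have h1 : ∀ k, ∀ x ∈ F k, |f x| ≤ 1 / c * ‖x‖ := by
      intro k x hx
      have hx' : x ∈ F (k + 1) := hmono (Nat.le_succ k) hx
      have key : ∀ y ∈ F (k + 1), f y ≤ 1 / c * ‖y‖ := by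
        intro y hy
        rcases eq_or_ne y 0 with rfl | hy0
        · simp
        · have hny : 0 < ‖y‖ := norm_pos_iff.mpr hy0
          have h2 : (c / ‖y‖) • y ∈ WN F p δ (k + 1) := by
            refine hball _ _ (Submodule.smul_mem _ _ hy) ?_ (by omega)
            rw [norm_smul, Real.norm_eq_abs, abs_of_pos (by positivity)]
            rw [div_mul_cancel₀ _ hny.ne']
          have h3 := hf _ (mem_iUnion.mpr ⟨k + 1, h2⟩)
          rw [map_smul, smul_eq_mul, div_mul_eq_mul_div, div_le_one hny] at h3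
          rw [one_div, inv_mul_eq_div, le_div_iff₀ hc0]
          linarith
      have h4 := key x hx'
      have h5 := key (-x) (neg_mem hx')
      rw [map_neg, norm_neg] at h5
      exact abs_le.mpr ⟨by linarith, h4⟩
    refine f.opNorm_le_bound (by positivity) fun x => ?_
    have hcl : IsClosed {x : X | |f x| ≤ 1 / c * ‖x‖} :=
      isClosed_le (by fun_prop) (by fun_prop)
    have hsub : (⋃ k, (F k : Set X)) ⊆ {x : X | |f x| ≤ 1 / c * ‖x‖} := by
      intro x hx
      obtain ⟨k, hk⟩ := mem_iUnion.mp hx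
      exact h1 k x hk
    have := hcl.closure_subset_iff.mpr hsub (hS.chain.dense x)
    exact this
  have hstep : ∀ (f : X →L[ℝ] ℝ) (m n : ℕ), m < n → ∀ z, Legal F p δ z m n →
      f z ≤ Om F p δ n f - Om F p δ m f := by
    intro f m n hmn z hz
    have h1 : Om F p δ m f ≤ Om F p δ n f - f z := by
      refine wb_Om_le fun x hx => ?_
      have h2 := wb_le hmono (wb_add hmn hx hz) f
      rw [map_add] at h2
      linarith
    linarith
  have hWA0 : (0 : X) ∈ WA F p δ := mem_iUnion.mpr ⟨0, wb_zero_mem 0⟩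
  have hconv : Convex ℝ (WA F p δ) := by
    intro x hx y hy s t hs ht hst
    obtain ⟨N1, h1⟩ := mem_iUnion.mp hx
    obtain ⟨N2, h2⟩ := mem_iUnion.mp hy
    exact mem_iUnion.mpr ⟨max N1 N2, wb_combine (wb_mono (le_max_left _ _) h1)
      (wb_mono (le_max_right _ _) h2) hs ht hst⟩
  refine ⟨fun n x hx => wb_bound hmono hx, ⟨c, hc0, hball, hWPnorm⟩, hconv, ?_, ?_, ?_, ?_, ?_, ?_,
    ?_, ?_, ?_, ?_, ?_⟩
  · intro x hx
    obtain ⟨N, hN⟩ := mem_iUnion.mp hx
    exact mem_iUnion.mpr ⟨N, wb_neg hN⟩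
  · intro f n n' hnn
    exact wb_Om_le fun x hx => wb_le hmono (wb_mono hnn hx) f
  · intro f
    refine le_antisymm (wb_Om_le fun x hx => ?_) ?_
    · have h1 := (wb_bound hmono hx).2
      have h2 : x = 0 := by
        rw [← norm_le_zero_iff]
        simpa using h1
      rw [h2, map_zero]
    · have := wb_le hmono (wb_zero_mem (F := F) (p := p) (δ := δ) 0) f
      rwa [map_zero] at this
  · exact fun n x hx f => wb_le hmono hx f
  · exact fun f hf n => wb_Om_le fun x hx => hf x (mem_iUnion.mpr ⟨n, hx⟩)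
  · intro f hf x hx
    obtain ⟨N, hN⟩ := mem_iUnion.mp hx
    exact (wb_le hmono hN f).trans (hf N)
  · intro f m n hmn x hx c' hxc hpx
    have hc'0 : 0 ≤ c' := (norm_nonneg x).trans hxc
    rcases hc'0.eq_or_lt with h0 | h0
    · have : x = 0 := by
        rw [← norm_le_zero_iff]
        linarith
      rw [this, map_zero, abs_zero, ← h0, mul_zero]
    · have hleg : ∀ σ : ℝ, |σ| = 1 → Legal F p δ ((σ * c'⁻¹) • x) m n := by
        intro σ hσ
        refine ⟨hmn, Submodule.smul_mem _ _ hx, ?_, ?_⟩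
        · rw [norm_smul, Real.norm_eq_abs, abs_mul, hσ, one_mul, abs_of_pos (by positivity),
            inv_mul_le_iff₀ h0, mul_one]
          exact hxc
        · rw [map_smul_eq_mul, Real.norm_eq_abs, abs_mul, hσ, one_mul, abs_of_pos (by positivity),
            inv_mul_le_iff₀ h0]
          exact hpx
      have h1 := hstep f m n hmn _ (hleg 1 (by simp))
      have h2 := hstep f m n hmn _ (hleg (-1) (by simp))
      rw [map_smul, smul_eq_mul] at h1 h2
      have h3 : c'⁻¹ * c' = 1 := inv_mul_cancel₀ h0.ne'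
      have h4 := mul_le_mul_of_nonneg_right h1 h0.le
      have h5 := mul_le_mul_of_nonneg_right h2 h0.le
      have h6 : 1 * c'⁻¹ * f x * c' = f x := by
        calc 1 * c'⁻¹ * f x * c' = (c'⁻¹ * c') * f x := by ring
          _ = f x := by rw [h3, one_mul]
      have h7 : -1 * c'⁻¹ * f x * c' = - f x := by
        calc -1 * c'⁻¹ * f x * c' = -((c'⁻¹ * c') * f x) := by ring
          _ = - f x := by rw [h3, one_mul]
      rw [h6] at h4
      rw [h7] at h5
      exact abs_le.mpr ⟨by linarith, h4⟩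
  · intro J 𝒰 f f' hlim n
    rw [Metric.tendsto_nhds]
    intro e he
    filter_upwards [wb_unif hS.chain.fd (𝒰 : Filter J) f f' hlim n (e / 2) (by positivity)]
      with i hi
    have h1 : Om F p δ n (f i) ≤ Om F p δ n f' + e / 2 := by
      refine wb_Om_le fun x hx => ?_
      have h2 := wb_bound hmono hx
      have h3 := (abs_le.mp (hi x h2.1 h2.2)).2
      have h4 := wb_le hmono hx f'
      linarith
    have h1' : Om F p δ n f' ≤ Om F p δ n (f i) + e / 2 := by
      refine wb_Om_le fun x hx => ?_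
      have h2 := wb_bound hmono hx
      have h3 := (abs_le.mp (hi x h2.1 h2.2)).1
      have h4 := wb_le hmono hx (f i)
      linarith
    rw [Real.dist_eq, abs_lt]
    constructor <;> linarith
  · intro x hx
    by_contra hxc
    obtain ⟨f, u, hu1, hu2⟩ := geometric_hahn_banach_closed_point hconv.closure isClosed_closure hxc
    have hu0 : 0 < u := by
      have := hu1 0 (subset_closure hWA0)
      rwa [map_zero] at this
    have hf : u⁻¹ • f ∈ WP F p δ := by
      intro y hy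
      have h1 := (hu1 y (subset_closure hy)).le
      rw [_root_.smul_apply, smul_eq_mul, inv_mul_le_iff₀ hu0, mul_one]
      exact h1
    have h2 := hx _ hf
    rw [_root_.smul_apply, smul_eq_mul, inv_mul_le_iff₀ hu0, mul_one] at h2
    linarith
  · intro x f hf
    refine le_csSup ⟨1 / c * ‖x‖, ?_⟩ ⟨f, hf, rfl⟩
    rintro _ ⟨g, hg, rfl⟩
    refine (le_abs_self _).trans ((g.le_opNorm x).trans ?_)
    exact mul_le_mul_of_nonneg_right (hWPnorm g hg) (norm_nonneg _)
  · intro x c' h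
    refine csSup_le ⟨(0 : X →L[ℝ] ℝ) x, 0, fun y _ => by simp, rfl⟩ ?_
    rintro _ ⟨f, hf, rfl⟩
    exact h f hf

end

end PB
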