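import Pool.Agent.PB57.Stmts

set_option autoImplicit false

open Filter Topology Set

namespace PB

theorem stmtWFN : StmtWFN := by
  intro X _ _ F hF ι S h 𝒮 M lev cls Lb ε ζ V hG τ hτ A T hT par hpar
  rintro ⟨a, ha⟩
  -- roots
  let root : A → A := fun c => T.anc c (lev (T.s c))
  have hroot_s : ∀ c, T.s (root c) = T.s c := fun c =>
    hT.anc_s c _ le_rfl (hT.lev_le c)
  have hwr : ∀ c, |T.w c - T.w (root c)| ≤ ε (cls (T.s c)) / 16 := fun c =>
    (hT.wnear c _ le_rfl (hT.lev_le c)).trans (hτ _ _)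
  -- the two kinds of steps
  let NS : ℕ → Prop := fun i => ∃ K, lev (T.s (a (i + 1))) ≤ K ∧ K < T.lv (a (i + 1)) ∧
    a i = T.anc (a (i + 1)) K ∧
      ((‖T.κ (a (i + 1)) - T.κ (a i)‖ ≤ 1 / 2 ∧
          ∀ K', lev (T.s (a (i + 1))) ≤ K' → K' < K →
            ¬ ‖T.κ (a (i + 1)) - T.κ (T.anc (a (i + 1)) K')‖ ≤ 1 / 2) ∨
        ∀ K', lev (T.s (a (i + 1))) ≤ K' → K' < T.lv (a (i + 1)) →
          ¬ ‖T.κ (a (i + 1)) - T.κ (T.anc (a (i + 1)) K')‖ ≤ 1 / 2)
  let RS : ℕ → Prop := fun i => T.lv (a (i + 1)) = lev (T.s (a (i + 1))) ∧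
    cls (T.s (a i)) = cls (T.s (a (i + 1))) ∧
    T.w (a i) ≤ T.w (a (i + 1)) - ε (cls (T.s (a (i + 1)))) / 4
  have hstep : ∀ i, NS i ∨ RS i := by
    intro i
    rcases hpar (a (i + 1)) (a i) (ha i) with ⟨_, K, h1, h2, h3, h4⟩ | ⟨h1, h2, h3⟩
    · exact Or.inl ⟨K, h1, h2, h3, h4⟩
    · exact Or.inr ⟨h1, h2, h3⟩
  have hNs : ∀ i, NS i → T.s (a i) = T.s (a (i + 1)) ∧ root (a i) = root (a (i + 1)) := by
    rintro i ⟨K, h1, h2, h3, -⟩
    have hs : T.s (a i) = T.s (a (i + 1)) := by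
      rw [h3]; exact hT.anc_s _ _ h1 h2.le
    refine ⟨hs, ?_⟩
    show T.anc (a i) (lev (T.s (a i))) = T.anc (a (i + 1)) (lev (T.s (a (i + 1))))
    rw [hs, h3]
    exact hT.anc_anc _ _ _ le_rfl h1 h2.le
  have hcls : ∀ i, cls (T.s (a i)) = cls (T.s (a 0)) := by
    intro i
    induction i with
    | zero => rfl
    | succ i ih =>
      rcases hstep i with h | h
      · rw [← (hNs i h).1]; exact ih
      · rw [← h.2.1]; exact ih
  set e : ℝ := ε (cls (T.s (a 0))) with he
  have hepos : 0 < e := hG.εpos _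
  have hwmono : ∀ i, T.w (root (a i)) ≤ T.w (root (a (i + 1))) ∧
      (¬ NS i → T.w (root (a i)) + e / 8 ≤ T.w (root (a (i + 1)))) := by
    intro i
    have hR : RS i → T.w (root (a i)) + e / 8 ≤ T.w (root (a (i + 1))) := by
      rintro ⟨h1, h2, h3⟩
      have h4 : root (a (i + 1)) = a (i + 1) := by
        show T.anc (a (i + 1)) (lev (T.s (a (i + 1)))) = a (i + 1)
        rw [← h1]; exact hT.anc_self _
      have h5 := hwr (a i)
      rw [hcls i] at h5
      rw [hcls (i + 1)] at h3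
      rw [h4]
      rw [abs_le] at h5
      linarith [h5.1, h5.2]
    rcases hstep i with h | h
    · refine ⟨?_, fun hn => absurd h hn⟩
      rw [(hNs i h).2]
    · have := hR h
      exact ⟨by linarith, fun _ => this⟩
  have hw2 : ∀ i, T.w (root (a i)) ≤ 2 := fun i => hG.w_le _ _ (hT.mem (root (a i)))
  -- finitely many root steps
  have hfin : ∃ I, ∀ i, I ≤ i → NS i := by
    by_contra hcon
    push Not at hcon
    have key : ∀ n : ℕ, ∃ i, T.w (root (a 0)) + n * (e / 8) ≤ T.w (root (a i)) := by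
      intro n
      induction n with
      | zero => exact ⟨0, by simp⟩
      | succ n ih =>
        obtain ⟨i, hi⟩ := ih
        obtain ⟨j, hj, hnj⟩ := hcon i
        have hm : ∀ k, T.w (root (a i)) ≤ T.w (root (a (i + k))) := by
          intro k
          induction k with
          | zero => exact le_rfl
          | succ k ihk => exact ihk.trans (hwmono (i + k)).1
        have h1 := (hwmono j).2 hnj
        have h2 := hm (j - i)
        rw [Nat.add_sub_cancel' hj] at h2
        refine ⟨j + 1, ?_⟩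
        push_cast
        linarith
    obtain ⟨n, hn⟩ := exists_nat_gt ((2 - T.w (root (a 0))) / (e / 8))
    obtain ⟨i, hi⟩ := key n
    have h3 := hw2 i
    rw [div_lt_iff₀ (by positivity)] at hn
    linarith
  obtain ⟨I, hI⟩ := hfin
  have hs : ∀ i, I ≤ i → T.s (a i) = T.s (a I) := by
    intro i hi
    induction i, hi using Nat.le_induction with
    | base => rfl
    | succ i hi ih => rw [← (hNs i (hI i hi)).1]; exact ih
  have hlv : ∀ i, I ≤ i → T.lv (a i) < T.lv (a (i + 1)) ∧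
      a i = T.anc (a (i + 1)) (T.lv (a i)) := by
    intro i hi
    obtain ⟨K, h1, h2, h3, -⟩ := hI i hi
    have h4 : T.lv (a i) = K := by rw [h3]; exact hT.anc_lv _ _ h1 h2.le
    exact ⟨by omega, by rw [h4]; exact h3⟩
  have hlv2 : ∀ n, n ≤ T.lv (a (I + n)) := by
    intro n
    induction n with
    | zero => exact Nat.zero_le _
    | succ n ih =>
      have := (hlv (I + n) (by omega)).1
      rw [← add_assoc]
      omega
  have hlev : ∀ i, I ≤ i → lev (T.s (a I)) ≤ T.lv (a i) := fun i hi => by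
    have := hT.lev_le (a i)
    rwa [hs i hi] at this
  have hanc : ∀ i, I ≤ i → ∀ k, T.lv (a i) ≤ T.lv (a (i + k)) ∧
      a i = T.anc (a (i + k)) (T.lv (a i)) := by
    intro i hi k
    induction k with
    | zero => exact ⟨le_rfl, (hT.anc_self _).symm⟩
    | succ k ih =>
      obtain ⟨h1, h2⟩ := ih
      obtain ⟨h3, h4⟩ := hlv (i + k) (by omega)
      refine ⟨by rw [← add_assoc]; omega, ?_⟩
      rw [h4] at h2
      rw [← add_assoc]
      rw [hT.anc_anc] at h2
      · exact h2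
      · rw [hs _ (by omega)]; exact hlev i hi
      · exact h1
      · exact h3.le
  -- the path
  let P : ℕ → A := fun K => T.anc (a (I + K)) K
  have hP0 : ∀ K, lev (T.s (a I)) ≤ K → T.s (P K) = T.s (a I) ∧ T.lv (P K) = K := by
    intro K hK
    have h1 : lev (T.s (a (I + K))) ≤ K := by rw [hs _ (by omega)]; exact hK
    exact ⟨(hT.anc_s _ _ h1 (hlv2 K)).trans (hs _ (by omega)), hT.anc_lv _ _ h1 (hlv2 K)⟩
  have hPj : ∀ K, lev (T.s (a I)) ≤ K → ∀ j, I + K ≤ j → P K = T.anc (a j) K := by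
    intro K hK j hj
    obtain ⟨h1, h2⟩ := hanc (I + K) (by omega) (j - (I + K))
    rw [Nat.add_sub_cancel' hj] at h1 h2
    show T.anc (a (I + K)) K = T.anc (a j) K
    rw [h2, hT.anc_anc]
    · rw [hs j (by omega)]; exact hK
    · exact hlv2 K
    · exact h1
  have hP1 : ∀ K K', lev (T.s (a I)) ≤ K → K ≤ K' → T.anc (P K') K = P K := by
    intro K K' hK hKK
    rw [hPj K hK (I + K') (by omega)]
    exact hT.anc_anc _ _ _ (by rw [hs _ (by omega)]; exact hK) hKK (hlv2 K')
  obtain ⟨K0, hK0, hclose⟩ := hT.path (T.s (a I)) P hP0 hP1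
  -- contradiction
  have hPa : ∀ i, I ≤ i → P (T.lv (a i)) = a i := by
    intro i hi
    have h1 : i - I ≤ T.lv (a i) := by
      have := hlv2 (i - I)
      rwa [Nat.add_sub_cancel' hi] at this
    have h2 := (hanc i hi (I + T.lv (a i) - i)).2
    rw [Nat.add_sub_cancel' (by omega)] at h2
    exact h2.symm
  obtain ⟨i, hi, hilv⟩ : ∃ i, I ≤ i ∧ K0 < T.lv (a i) :=
    ⟨I + (K0 + 1), by omega, by have := hlv2 (K0 + 1); omega⟩
  obtain ⟨K, h1, h2, h3, h4⟩ := hI i hi
  have hKlv : T.lv (a i) = K := by rw [h3]; exact hT.anc_lv _ _ h1 h2.le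
  have hc : ‖T.κ (a (i + 1)) - T.κ (T.anc (a (i + 1)) K0)‖ ≤ 1 / 2 := by
    have h5 := hclose (T.lv (a (i + 1))) (by omega)
    rw [hPa (i + 1) (by omega)] at h5
    have h6 : T.anc (a (i + 1)) K0 = P K0 := by
      have := hP1 K0 (T.lv (a (i + 1))) hK0 (by omega)
      rwa [hPa (i + 1) (by omega)] at this
    rw [h6]
    exact h5
  have hlevK0 : lev (T.s (a (i + 1))) ≤ K0 := by rw [hs (i + 1) (by omega)]; exact hK0
  rcases h4 with ⟨-, h4⟩ | h4
  · exact h4 K0 hlevK0 (by omega) hc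
  · exact h4 K0 hlevK0 (by omega) hc

end PB
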