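import Pool.Agent.PB57.FONF
import Pool.Agent.PB57.REN
import Pool.Agent.PB57.LND
import Pool.Agent.PB57.LIM
import Pool.Agent.PB57.CVX
import Pool.Agent.PB57.GT
import Pool.Agent.PB57.ISO
import Pool.Agent.PB57.SIG
import Pool.Agent.PB57.STK
import Pool.Agent.PB57.RES
import Pool.Agent.PB57.RED
import Pool.Agent.PB57.WB
import Pool.Agent.PB57.CD
import Pool.Agent.PB57.VB
import Pool.Agent.PB57.DEC
import Pool.Agent.PB57.CLU
import Pool.Agent.PB57.TREE1
import Pool.Agent.PB57.TREE
import Pool.Agent.PB57.STEP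
import Pool.Agent.PB57.ROOT
import Pool.Agent.PB57.SYSN
import Pool.Agent.PB57.DN1
import Pool.Agent.PB57.DUALN
import Pool.Agent.PB57.EXN
import Pool.Agent.PB57.WFN
import Pool.Agent.PB57.ASM
import Pool.Agent.PB57.UT
import Pool.Agent.PB57.MAIN

/-!
# Every separable polyhedral space embeds in an isometric predual of l_1: assembly
-/

set_option autoImplicit false

namespace PB

theorem allGT : StmtGT := stmtGT stmtLND stmtCVX

theorem allLIM : StmtLIM := stmtLIM stmtLND

theorem allSIG : StmtSIG := stmtSIG stmtLND allLIM allGT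

theorem allTREE : StmtTREE :=
  stmtTREE (stmtTREE1 stmtLND allLIM) (stmtLIFT stmtLND) stmtTMAP stmtLND

theorem allSTEP : StmtSTEP := stmtSTEP stmtLND stmtTMAP

theorem allROOT : StmtROOT := stmtROOT stmtTMAP (stmtREPF stmtLND) allSTEP

theorem allDEC : StmtDEC := stmtDEC stmtWB

theorem allVB : StmtVB := stmtVB stmtWB

theorem allDUALN : StmtDUALN :=
  stmtDUALN stmtLND allGT stmtSYSN (stmtDN1 allLIM)

theorem allASM : StmtASM :=
  stmtASM allTREE allSTEP allROOT stmtWFN (stmtEXN stmtSYSN) allDUALN stmtTMAP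

theorem allUT : StmtUT :=
  stmtUT stmtWB (stmtCD stmtWB) allVB allDEC (stmtCLU stmtWB allVB allDEC) allASM

theorem allRED : StmtRED := stmtRED allSIG (stmtSTK allSIG) stmtRES stmtWB

/-- the theorem -/
theorem main : StmtMAIN :=
  stmtMAIN stmtFONF stmtREN stmtCHAIN allRED allUT allSIG (stmtISO stmtLND) stmtTMAP

end PB
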