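import Mathlib

/-!
# MP_b57e2f_an (S05883): separable polyhedral spaces embed in isometric preduals of l_1

Definitions.  Paper proof: PAPER.md in this folder (note 1581).  No double quotes in these files.
-/

set_option autoImplicit false

open Filter Topology Set

namespace PB

noncomputable section

/-! ## Sequence spaces -/

/-- l_1(I) -/
abbrev L1 (ι : Type) := lp (fun _ : ι => ℝ) 1

/-- l_infinity(I) -/
abbrev Li (ι : Type) := lp (fun _ : ι => ℝ) ⊤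

/-- the pairing of l_1 and l_infinity -/
def pair {ι : Type} (c : L1 ι) (y : Li ι) : ℝ := ∑' n, c n * y n

/-- value of a finitely supported combination -/
def fs {ι : Type} (a : ι →₀ ℝ) (y : ι → ℝ) : ℝ := a.sum fun j t => t * y j

/-- total mass of a finitely supported vector (sum of the coefficients) -/
def mass {ι : Type} (a : ι →₀ ℝ) : ℝ := a.sum fun _ t => t

/-- l_1 norm of a finitely supported vector -/
def nrm {ι : Type} (a : ι →₀ ℝ) : ℝ := a.sum fun _ t => |t|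

/-! ## Systems -/

/-- a system: ranks and expansions -/
structure Sys (ι : Type) where
  rk : ι → ℕ
  r : ι → ι →₀ ℝ

/-- axioms of a positive system -/
structure Sys.Ok {ι : Type} (S : Sys ι) : Prop where
  fin : ∀ M : ℕ, {n | S.rk n ≤ M}.Finite
  pos : ∀ n j, 0 ≤ S.r n j
  low : ∀ n j, S.r n j ≠ 0 → S.rk j < S.rk n
  le1 : ∀ n, mass (S.r n) ≤ 1

/-- E_M: the bounded functions determined by their values on the nodes of rank at most M -/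
def Sys.E {ι : Type} (S : Sys ι) (M : ℕ) : Submodule ℝ (Li ι) where
  carrier := {y | ∀ n, M < S.rk n → y n = fs (S.r n) y}
  add_mem' := by
    intro a b ha hb n hn
    have h1 := ha n hn
    have h2 := hb n hn
    simp only [fs, Finsupp.sum, lp.coeFn_add, Pi.add_apply] at *
    rw [h1, h2, ← Finset.sum_add_distrib]
    exact Finset.sum_congr rfl fun j _ => by ring
  zero_mem' := by
    intro n _
    simp [fs, Finsupp.sum]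
  smul_mem' := by
    intro c a ha n hn
    have h1 := ha n hn
    simp only [fs, Finsupp.sum, lp.coeFn_smul, Pi.smul_apply, smul_eq_mul] at *
    rw [h1, Finset.mul_sum]
    exact Finset.sum_congr rfl fun j _ => by ring

/-- the space Y: closure of the union of the E_M -/
def Sys.Y {ι : Type} (S : Sys ι) : Submodule ℝ (Li ι) := (⨆ M, S.E M).topologicalClosure

/-- the dual condition: every functional on Y is given by a vector of l_1 -/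
def Sys.DualL1 {ι : Type} (S : Sys ι) : Prop :=
  ∀ φ : S.Y →L[ℝ] ℝ, ∃ c : L1 ι, ∀ y : S.Y, φ y = pair c y

/-- c is small on E_K -/
def Near {ι : Type} (S : Sys ι) (K : ℕ) (c : L1 ι) (τ : ℝ) : Prop :=
  ∀ y ∈ S.E K, |pair c y| ≤ τ * ‖y‖

/-- landing vectors: L_M(n) is e_n if rk n ≤ M, and the combination of the L_M(j) otherwise -/
def Sys.land {ι : Type} (S : Sys ι) (M : ℕ) : ι → (ι →₀ ℝ) :=
  (measure S.rk).wf.fix (fun n rec =>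
    open Classical in
    if S.rk n ≤ M then Finsupp.single n 1
    else (S.r n).sum (fun j t => if h : S.rk j < S.rk n then t • rec j h else 0))

/-! ## Node systems on a Banach space -/

section NS

variable {X : Type} [NormedAddCommGroup X] [NormedSpace ℝ X]

/-- a chain of finite dimensional subspaces with dense union -/
structure Chain (F : ℕ → Submodule ℝ X) : Prop where
  fd : ∀ k, FiniteDimensional ℝ (F k)
  mono : Monotone F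
  zero : F 0 = ⊥
  dense : Dense (⋃ k, (F k : Set X))

/-- the expansion of the node n is exact on F_k -/
def Exact {ι : Type} (F : ℕ → Submodule ℝ X) (S : Sys ι) (h : ι → X →L[ℝ] ℝ) (k : ℕ) (n : ι) :
    Prop := ∀ x ∈ F k, h n x = fs (S.r n) (fun j => h j x)

/-- positive exact node system -/
structure NSys {ι : Type} (F : ℕ → Submodule ℝ X) (S : Sys ι) (h : ι → X →L[ℝ] ℝ) : Prop where
  ok : S.Ok
  bdd : ∃ H : ℝ, ∀ n, ‖h n‖ ≤ H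
  ex : ∀ k : ℕ, {n | ¬ Exact F S h k n}.Finite

/-- the seminorm sup_n |h_n x| -/
def ph {ι : Type} (h : ι → X →L[ℝ] ℝ) (x : X) : ℝ := ⨆ n, |h n x|

/-- the functional sum_n c_n h_n -/
def hc {ι : Type} (h : ι → X →L[ℝ] ℝ) (c : L1 ι) : X →L[ℝ] ℝ := ∑' n, c n • h n

/-- the class E of the paper: p is dominated by the seminorm of a node system with Y* = l_1 -/
def Good (F : ℕ → Submodule ℝ X) (p : X → ℝ) : Prop :=
  ∃ (ι : Type) (S : Sys ι) (h : ι → X →L[ℝ] ℝ), NSys F S h ∧ S.DualL1 ∧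
    ∃ C : ℝ, ∀ x, p x ≤ C * ph h x

end NS

/-- the conclusion of the problem -/
def Embeds (X : Type) [NormedAddCommGroup X] [NormedSpace ℝ X] : Prop :=
  ∃ (Y : Type) (_ : NormedAddCommGroup Y) (_ : NormedSpace ℝ Y) (_ : CompleteSpace Y),
    Nonempty ((Y →L[ℝ] ℝ) ≃ₗᵢ[ℝ] lp (fun _ : ℕ => ℝ) 1) ∧
    ∃ (T : X →L[ℝ] Y) (c : ℝ), 0 < c ∧ ∀ x : X, c * ‖x‖ ≤ ‖T x‖

/-- polyhedral in the sense of the problem -/
def Poly (X : Type) [NormedAddCommGroup X] [NormedSpace ℝ X] : Prop :=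
  ∀ E : Submodule ℝ X, FiniteDimensional ℝ E →
    (Set.extremePoints ℝ (Metric.closedBall (0 : E) 1)).Finite

/-- the gap property (0.6 of the paper) -/
def Gap (X : Type) [NormedAddCommGroup X] [NormedSpace ℝ X] : Prop :=
  ∃ γ : X → ℝ, Continuous γ ∧ (∀ y, ‖y‖ = 1 → 0 < γ y) ∧
    ∀ y : X, ‖y‖ = 1 → ∀ t : ℝ, 0 ≤ t → t < γ y → ∀ η : ℝ, 0 < η →
      ∃ (G : Finset (X →L[ℝ] ℝ)) (δ : ℝ), 0 < δ ∧
        ∀ z : X, ‖z‖ ≤ 1 → (∀ g ∈ G, |g z| ≤ δ) → ‖y + t • z‖ ≤ 1 + η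

/-! ## Legal sums -/

section LS

variable {X : Type} [NormedAddCommGroup X] [NormedSpace ℝ X]

/-- legal block -/
def Legal (F : ℕ → Submodule ℝ X) (p : Seminorm ℝ X) (δ : ℕ → ℝ) (z : X) (m n : ℕ) : Prop :=
  m < n ∧ z ∈ F n ∧ ‖z‖ ≤ 1 ∧ p z ≤ δ m

/-- legal sums with all blocks finished at time N -/
def WN (F : ℕ → Submodule ℝ X) (p : Seminorm ℝ X) (δ : ℕ → ℝ) (N : ℕ) : Set X :=
  {x | ∃ (k : ℕ) (a : Fin k → ℝ) (z : Fin k → X) (m n : Fin k → ℕ),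
    (∀ i, 0 ≤ a i) ∧ (∀ i, Legal F p δ (z i) (m i) (n i)) ∧ (∀ i, n i ≤ N) ∧
    (∀ t : ℕ, ∑ i with m i ≤ t ∧ t < n i, a i ≤ 1) ∧ x = ∑ i, a i • z i}

/-- all legal sums -/
def WA (F : ℕ → Submodule ℝ X) (p : Seminorm ℝ X) (δ : ℕ → ℝ) : Set X := ⋃ N, WN F p δ N

/-- polar of W -/
def WP (F : ℕ → Submodule ℝ X) (p : Seminorm ℝ X) (δ : ℕ → ℝ) : Set (X →L[ℝ] ℝ) :=
  {f | ∀ x ∈ WA F p δ, f x ≤ 1}

/-- Omega_n(f) -/
def Om (F : ℕ → Submodule ℝ X) (p : Seminorm ℝ X) (δ : ℕ → ℝ) (n : ℕ) (f : X →L[ℝ] ℝ) : ℝ :=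
  sSup ((fun x => f x) '' WN F p δ n)

/-- the gauge N_W -/
def NW (F : ℕ → Submodule ℝ X) (p : Seminorm ℝ X) (δ : ℕ → ℝ) (x : X) : ℝ :=
  sSup ((fun f : X →L[ℝ] ℝ => f x) '' WP F p δ)

/-- the data of 3.1 (a), (c) -/
structure Setup (F : ℕ → Submodule ℝ X) (p : Seminorm ℝ X) (δ : ℕ → ℝ)
    (G : ℕ → Finset (X →L[ℝ] ℝ)) : Prop where
  chain : Chain F
  δpos : ∀ m, 0 < δ m
  δanti : Antitone δ
  pbdd : ∃ H : ℝ, 0 < H ∧ ∀ x, p x ≤ H * ‖x‖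
  Gle : ∀ m, ∀ g ∈ G m, ‖g‖ ≤ 1
  Gmono : Monotone G
  Gnorm : ∀ m, ∀ x ∈ F m, ∃ g ∈ G m, 9 / 10 * ‖x‖ ≤ |g x|
  Gdom : ∀ m, ∃ A : ℝ, 0 < A ∧ ∀ g ∈ G m, ∀ x, |g x| ≤ A * p x
  Gflat : ∀ m, ∀ g ∈ G m, ∀ z : X, ‖z‖ ≤ 1 → p z ≤ δ m → |g z| ≤ (1 / 2 : ℝ) ^ (m + 1)
  pnorm : ∀ k, ∀ x ∈ F k, p x = 0 → x = 0

/-- the relation u in U_m(f) of 4.2 -/
structure UU (F : ℕ → Submodule ℝ X) (p : Seminorm ℝ X) (δ : ℕ → ℝ) (m : ℕ) (ν : ℕ → ℕ) (L : ℝ)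
    (f u : X →L[ℝ] ℝ) : Prop where
  zero : ∀ x ∈ F m, u x = 0
  dom : ∀ x, |f x - u x| ≤ L * p x
  small : ∀ n, m ≤ n → ∀ x ∈ F n, |u x| ≤ 30 * (Om F p δ (ν n) f - Om F p δ m f) * ‖x‖

/-! Constants of 4.4 -/

/-- eps_0 = 1, eps_{l+1} = 2^{-l-6} eps_l -/
def eps : ℕ → ℝ
  | 0 => 1
  | (l + 1) => (1 / 2 : ℝ) ^ (l + 6) * eps l

/-- C_l -/
def Cl (l : ℕ) : ℝ := 30 * (1 + (1 / 2 : ℝ) ^ l)

/-- eta_l -/
def eta (l : ℕ) : ℝ := 90 * eps l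

/-- zeta_l -/
def zeta (l : ℕ) : ℝ := (1 / 2 : ℝ) ^ (l + 4) * eps l

/-- index set of 4.5 -/
structure Idx where
  l : ℕ
  m : ℕ
  m' : ℕ
  hl : 1 ≤ l
  hm : l ≤ m + 1
  hmm : m ≤ m'
  hlm : l ≤ m'

/-- Xi_s of 4.5; ν m, L m are the data of the causal decomposition -/
structure Xi (F : ℕ → Submodule ℝ X) (p : Seminorm ℝ X) (δ : ℕ → ℝ) (ν : ℕ → ℕ → ℕ) (L : ℕ → ℝ)
    (s : Idx) (f : X →L[ℝ] ℝ) (w : ℝ) (u u' : X →L[ℝ] ℝ) : Prop where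
  hf : f ∈ WP F p δ
  hw : ∀ n, Om F p δ n f ≤ w
  h1 : w - Om F p δ s.m f ≤ eps (s.l - 1)
  h2 : w - Om F p δ s.m' f ≤ eps s.l
  h3 : max s.m s.l < s.m' → eps s.l ≤ w - Om F p δ (s.m' - 1) f
  hu : UU F p δ s.m (ν s.m) (L s.m) f u
  hu' : UU F p δ s.m' (ν s.m') (L s.m') f u'

/-- mu of 4.5 -/
def mu (F : ℕ → Submodule ℝ X) (p : Seminorm ℝ X) (δ : ℕ → ℝ) (s : Idx) (f : X →L[ℝ] ℝ)
    (w : ℝ) : ℝ := Cl s.l * (w - Om F p δ s.m f) + eta s.l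

/-- the set V_s, with the parameter w -/
def VV (F : ℕ → Submodule ℝ X) (p : Seminorm ℝ X) (δ : ℕ → ℝ) (ν : ℕ → ℕ → ℕ) (L : ℕ → ℝ)
    (s : Idx) : Set ((X →L[ℝ] ℝ) × ℝ) :=
  {q | ∃ f u u' : X →L[ℝ] ℝ, Xi F p δ ν L s f q.2 u u' ∧ q.1 = (mu F p δ s f q.2)⁻¹ • (u - u')}

end LS

/-! ## Gluing data (sections 5, 6) -/

section Glue

variable {X : Type} [NormedAddCommGroup X] [NormedSpace ℝ X]

/-- hypotheses of the gluing theorem: sets V_s of pairs (v, w) with the cluster property -/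
structure GLData {ι : Type} (F : ℕ → Submodule ℝ X) (h : ι → X →L[ℝ] ℝ) {𝒮 : Type}
    (M lev cls : 𝒮 → ℕ) (Lb : 𝒮 → ℝ) (ε ζ : ℕ → ℝ) (V : 𝒮 → Set ((X →L[ℝ] ℝ) × ℝ)) : Prop where
  levpos : ∀ s, 1 ≤ lev s
  Mle : ∀ s, M s ≤ lev s
  levfin : ∀ N : ℕ, {s | lev s ≤ N}.Finite
  εpos : ∀ s, 0 < ε (cls s)
  ζpos : ∀ s, 0 < ζ (cls s)
  ζle : ∀ s, ζ (cls s) ≤ 1 / 32
  ζε : ∀ s, ζ (cls s) ≤ ε (cls s)
  norm_le : ∀ s, ∀ q ∈ V s, ‖q.1‖ ≤ 1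
  w_nonneg : ∀ s, ∀ q ∈ V s, 0 ≤ q.2
  w_le : ∀ s, ∀ q ∈ V s, q.2 ≤ 2
  vanish : ∀ s, ∀ q ∈ V s, ∀ x ∈ F (M s), q.1 x = 0
  dom : ∀ s, ∀ q ∈ V s, ∀ x, |q.1 x| ≤ Lb s * ph h x
  closed : ∀ s, ∀ (𝒰 : Ultrafilter ℕ) (v : ℕ → X →L[ℝ] ℝ) (w : ℕ → ℝ) (v' : X →L[ℝ] ℝ) (w' : ℝ),
    (∀ i, (v i, w i) ∈ V s) → (∀ x, Tendsto (fun i => v i x) 𝒰 (𝓝 (v' x))) →
    Tendsto w 𝒰 (𝓝 w') → (v', w') ∈ V s
  clus : ∀ (𝒰 : Ultrafilter ℕ) (s : ℕ → 𝒮) (v : ℕ → X →L[ℝ] ℝ) (w : ℕ → ℝ) (m : ℕ),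
    (∀ i, (v i, w i) ∈ V (s i)) → (∀ i, M (s i) = m) →
    Tendsto (fun i => lev (s i)) 𝒰 atTop →
    ∃ (t : 𝒮) (q : (X →L[ℝ] ℝ) × ℝ) (b : ℝ) (bj : ℕ → ℝ) (sj : ℕ → 𝒮)
      (qj : ℕ → (X →L[ℝ] ℝ) × ℝ) (w0 : ℝ),
      M t = m ∧ (∀ᶠ i in (𝒰 : Filter ℕ), cls (s i) = cls t) ∧ q ∈ V t ∧ 0 ≤ b ∧ (∀ j, 0 ≤ bj j) ∧
      (∀ j, qj j ∈ V (sj j)) ∧ (∀ j, lev t ≤ M (sj j)) ∧ Summable bj ∧
      b + ∑' j, bj j ≤ 1 - ζ (cls t) ∧ ∑' j, bj j ≤ 2 / 5 ∧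
      Tendsto w 𝒰 (𝓝 w0) ∧ q.2 ≤ w0 - ε (cls t) ∧
      ∀ x, Tendsto (fun i => v i x) 𝒰 (𝓝 (b * q.1 x + ∑' j, bj j * (qj j).1 x))

/-- anchors: s a is the index, lv a the level, anc a K the ancestor at level K, (κ a, w a) the
centre -/
structure Tree (ι 𝒮 A : Type) where
  s : A → 𝒮
  lv : A → ℕ
  anc : A → ℕ → A
  κ : A → L1 ι
  w : A → ℝ

/-- properties of the anchor tree (5.1, 5.2) -/
structure Tree.Ok {ι 𝒮 A : Type} (T : Tree ι 𝒮 A) (S : Sys ι) (h : ι → X →L[ℝ] ℝ)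
    (lev : 𝒮 → ℕ) (V : 𝒮 → Set ((X →L[ℝ] ℝ) × ℝ)) (τ : 𝒮 → ℕ → ℝ) : Prop where
  fin : ∀ N : ℕ, {a | T.lv a ≤ N}.Finite
  lev_le : ∀ a, lev (T.s a) ≤ T.lv a
  anc_lv : ∀ a K, lev (T.s a) ≤ K → K ≤ T.lv a → T.lv (T.anc a K) = K
  anc_s : ∀ a K, lev (T.s a) ≤ K → K ≤ T.lv a → T.s (T.anc a K) = T.s a
  anc_self : ∀ a, T.anc a (T.lv a) = a
  anc_anc : ∀ a K K', lev (T.s a) ≤ K' → K' ≤ K → K ≤ T.lv a →
    T.anc (T.anc a K) K' = T.anc a K'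
  mem : ∀ a, (hc h (T.κ a), T.w a) ∈ V (T.s a)
  near : ∀ a K, lev (T.s a) ≤ K → K ≤ T.lv a →
    Near S K (T.κ a - T.κ (T.anc a K)) (τ (T.s a) K)
  wnear : ∀ a K, lev (T.s a) ≤ K → K ≤ T.lv a → |T.w a - T.w (T.anc a K)| ≤ τ (T.s a) K
  cover : ∀ s K, lev s ≤ K → ∀ q ∈ V s, ∃ a, T.s a = s ∧ T.lv a = K ∧
    (∃ κ : L1 ι, hc h κ = q.1 ∧ Near S K (κ - T.κ a) (τ s K)) ∧ |q.2 - T.w a| ≤ τ s K
  path : ∀ s (P : ℕ → A), (∀ K, lev s ≤ K → T.s (P K) = s ∧ T.lv (P K) = K) →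
    (∀ K K', lev s ≤ K → K ≤ K' → T.anc (P K') K = P K) →
    ∃ K0, lev s ≤ K0 ∧ ∀ K, K0 ≤ K → ‖T.κ (P K) - T.κ (P K0)‖ ≤ 1 / 2

/-- the representation T0 or T3 of a root anchor c on F_k (5.3) -/
def RootRep {ι 𝒮 A : Type} (F : ℕ → Submodule ℝ X) (S : Sys ι) (h : ι → X →L[ℝ] ℝ)
    (M lev cls : 𝒮 → ℕ) (ε ζ : ℕ → ℝ) (T : Tree ι 𝒮 A) (k : ℕ) (c : A) : Prop :=
  (∀ x ∈ F k, hc h (T.κ c) x = 0) ∨
  ∃ (a : A) (b : ℝ) (up : A →₀ ℝ) (β : ι →₀ ℝ),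
    cls (T.s a) = cls (T.s c) ∧ M (T.s a) = M (T.s c) ∧ T.lv a < T.lv c ∧
    T.w a ≤ T.w c - ε (cls (T.s c)) / 4 ∧ 0 ≤ b ∧ (∀ a', 0 ≤ up a') ∧
    (∀ a' ∈ up.support, T.lv a' < T.lv c ∧ lev (T.s a) ≤ M (T.s a')) ∧
    b + mass up ≤ 1 - ζ (cls (T.s c)) ∧ mass up ≤ 2 / 5 ∧
    (∀ j ∈ β.support, S.rk j ≤ T.lv c) ∧ nrm β ≤ ζ (cls (T.s c)) / 8 ∧
    ∀ x ∈ F k, hc h (T.κ c) x =
      b * hc h (T.κ a) x + fs up (fun a' => hc h (T.κ a') x) + fs β (fun j => h j x)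

end Glue

/-! ## Functionals of the glued system -/

section Fun

variable {X : Type} [NormedAddCommGroup X] [NormedSpace ℝ X]

/-- h_j^{>K} = h_j - h(L_K(j)) -/
def hJ {ι : Type} (S : Sys ι) (h : ι → X →L[ℝ] ℝ) (K : ℕ) (j : ι) : X →L[ℝ] ℝ :=
  h j - (S.land K j).sum fun i t => t • h i

end Fun

/-! ## The glued system: combinatorial part (section 6) -/

/-- expansion data of the anchors.  The origin is o.  The expansion of the anchor c is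
  m c ((1 - |d c|) a + sum_j |d c j| (a, j, sgn)) + up c + base part, a = par c. -/
structure AData (ι A : Type) where
  o : A
  lv : A → ℕ
  M : A → ℕ
  M' : A → ℕ
  par : A → Option A
  m : A → ℝ
  d : A → ι →₀ ℝ
  up : A → A →₀ ℝ
  β : A → ι →₀ ℝ

/-- nodes of the glued system: anchors, and suspended nodes (a, j, sign) -/
abbrev Nd (ι A : Type) := A ⊕ (A × ι × Bool)

/-- positive and negative part of a signed vector on the suspended nodes of a -/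
def susp {ι A : Type} (a : A) (d : ι →₀ ℝ) : Nd ι A →₀ ℝ :=
  d.sum fun j t => Finsupp.single (Sum.inr (a, j, decide (0 ≤ t))) |t|

/-- expansion of an anchor -/
def AData.ex {ι A : Type} (D : AData ι A) (c : A) : Nd ι A →₀ ℝ :=
  (match D.par c with
    | none => 0
    | some a => D.m c • (Finsupp.single (Sum.inl a) (1 - nrm (D.d c)) + susp a (D.d c))) +
  (D.up c).mapDomain Sum.inl + susp D.o (D.β c)

/-- the glued system -/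
def AData.sys {ι A : Type} (S : Sys ι) (D : AData ι A) : Sys (Nd ι A) where
  rk := fun n => match n with
    | Sum.inl a => 2 * D.lv a + 1
    | Sum.inr (a, j, _) => 2 * max (S.rk j) (D.lv a + 1)
  r := fun n =>
    open Classical in
    match n with
    | Sum.inl c => D.ex c
    | Sum.inr (a, j, σ) =>
        ((S.r j).filter fun i => D.lv a < S.rk i).mapDomain (fun i => Sum.inr (a, i, σ)) +
        Finsupp.single (Sum.inl a) (1 - mass ((S.r j).filter fun i => D.lv a < S.rk i))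

/-- functionals of the glued system; v a are the centre functionals, ω a the weights -/
def hN {ι A X : Type} [NormedAddCommGroup X] [NormedSpace ℝ X] (S : Sys ι) (h : ι → X →L[ℝ] ℝ)
    (lv : A → ℕ) (ω : A → ℝ) (v : A → X →L[ℝ] ℝ) : Nd ι A → X →L[ℝ] ℝ
  | Sum.inl a => ω a • v a
  | Sum.inr (a, j, σ) => ω a • (v a + (if σ then (1 : ℝ) else -1) • hJ S h (lv a) j)

/-- exactness of the expansion of the anchor c on F_k, written out -/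
def AEx {ι A X : Type} [NormedAddCommGroup X] [NormedSpace ℝ X] (F : ℕ → Submodule ℝ X)
    (S : Sys ι) (h : ι → X →L[ℝ] ℝ) (D : AData ι A) (ω : A → ℝ) (v : A → X →L[ℝ] ℝ) (k : ℕ)
    (c : A) : Prop :=
  ∀ x ∈ F k, ω c * v c x =
    (match D.par c with
      | none => 0
      | some a => D.m c * (ω a * (v a x + fs (D.d c) (fun j => hJ S h (D.lv a) j x)))) +
    fs (D.up c) (fun a => ω a * v a x) + fs (D.β c) (fun j => h j x)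

/-- the properties used in section 6 -/
structure AData.Ok {ι A : Type} (S : Sys ι) (D : AData ι A) : Prop where
  fin : ∀ N : ℕ, {a | D.lv a ≤ N}.Finite
  lvo : D.lv D.o = 0
  paro : D.par D.o = none
  MM : ∀ c, D.M c ≤ D.M' c
  Ml : ∀ c, D.M' c ≤ D.lv c
  mpos : ∀ c, 0 ≤ D.m c
  dle : ∀ c, nrm (D.d c) ≤ 1
  uppos : ∀ c a, 0 ≤ D.up c a
  tot : ∀ c, D.m c + mass (D.up c) + nrm (D.β c) ≤ 1
  plv : ∀ c a, D.par c = some a → D.lv a < D.lv c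
  dlv : ∀ c, ∀ j ∈ (D.d c).support, S.rk j ≤ D.lv c
  uplv : ∀ c, ∀ a ∈ (D.up c).support, D.lv a < D.lv c
  βlv : ∀ c, ∀ j ∈ (D.β c).support, S.rk j ≤ D.lv c
  wf : ¬ ∃ a : ℕ → A, ∀ i, D.par (a (i + 1)) = some (a i)
  none_up : ∀ c, D.par c = none → D.up c = 0 ∧ D.M' c = D.lv c
  some_M : ∀ c a, D.par c = some a → D.M a = D.M c
  some_or : ∀ c a, D.par c = some a → (D.up c = 0 ∧ D.M' a = D.M' c) ∨
    (D.M' c = D.lv c ∧ mass (D.up c) ≤ 9 / 20 ∧ ∀ a' ∈ (D.up c).support, D.M' a ≤ D.M a')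

end

end PB
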