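import Pool.Agent.PB57.Stmts
import Pool.Agent.B57.Fonf

set_option autoImplicit false

namespace PB

/-- Module PB_FONF (0.1-0.4 of the paper). -/
theorem stmtFONF : StmtFONF := by
  intro X _ _ _ _ hP
  exact B57.fonf hP

end PB
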