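import Pool.Agent.PB57.Stmts

/-!
# MP_b57e2f_an: module STEP (5.3, T1 and T2)   (helper73)
-/

set_option autoImplicit false

open Filter Topology Set

namespace PB

noncomputable section

namespace STEP

variable {ι : Type}

theorem sum_norm (c : L1 ι) : Summable fun n => ‖c n‖ := by
  have h := (lp.memℓp c).summable (by simp)
  simpa using h

theorem sum_pair (c : L1 ι) (y : Li ι) : Summable fun n => c n * y n := by
  apply Summable.of_norm_bounded (g := fun n => ‖c n‖ * ‖y‖) ((sum_norm c).mul_right _)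
  intro n
  rw [norm_mul]
  exact mul_le_mul_of_nonneg_left (lp.norm_apply_le_norm ENNReal.top_ne_zero y n) (norm_nonneg _)

theorem pair_sub_left (c c' : L1 ι) (y : Li ι) : pair (c - c') y = pair c y - pair c' y := by
  unfold pair
  rw [← (sum_pair c y).tsum_sub (sum_pair c' y)]
  apply tsum_congr
  intro n
  rw [lp.coeFn_sub, Pi.sub_apply]; ring

/-- fs only depends on the values on the support -/
theorem fs_congr (a : ι →₀ ℝ) {y z : ι → ℝ} (h : ∀ j ∈ a.support, y j = z j) :
    fs a y = fs a z := by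
  unfold fs Finsupp.sum
  exact Finset.sum_congr rfl fun j hj => by simp only [h j hj]

theorem fs_sub (a : ι →₀ ℝ) (y z : ι → ℝ) : fs a (fun j => y j - z j) = fs a y - fs a z := by
  unfold fs Finsupp.sum
  rw [← Finset.sum_sub_distrib]
  exact Finset.sum_congr rfl fun j _ => by ring

end STEP

open STEP in
theorem stmtSTEP (hL : StmtLND) (hT : StmtTMAP) : StmtSTEP := by
  intro X _ _ F hF ι S h hN κ κ' K τ hτ hnear
  obtain ⟨-, -, -, -, hsupp, hval, hmono, hext, -, hpair, hrep⟩ := hL ι S hN.ok
  obtain ⟨T, hT1, -, hT3, hT4⟩ := hT X F hF ι S h hN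
  obtain ⟨β, hβ1, hβ2, hβ3⟩ := hrep K (κ - κ') τ hτ hnear
  -- difference of the functionals
  have hdiff : ∀ x, hc h κ x = hc h κ' x + pair (κ - κ') (T x : Li ι) := by
    intro x
    rw [hT3, hT3, pair_sub_left]
    ring
  -- T x and h x
  have hTx : ∀ (a : ι →₀ ℝ) (x : X), fs a (T x : Li ι) = fs a (fun j => h j x) := by
    intro a x
    exact fs_congr a fun j _ => hT1 x j
  refine ⟨⟨β, hβ1, hβ2, ?_⟩, ?_⟩
  · intro k hk x hx
    rw [hdiff, hβ3 _ (hT4 k K hk x hx), hTx]
  · intro N hKN hhalf
    have hnearN : Near S N (κ - κ') (1 / 2) := by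
      intro y _
      refine (hpair _ y).trans ?_
      exact mul_le_mul_of_nonneg_right hhalf (norm_nonneg _)
    obtain ⟨d, hd1, hd2, hd3⟩ := hrep N (κ - κ') (1 / 2) (by norm_num) hnearN
    refine ⟨d, β, hd1, hd2, hβ1, hβ2, ?_⟩
    intro k hk x hx
    rw [hdiff, hd3 _ (hT4 k N hk x hx), hTx]
    -- values on the nodes of rank at most K, extended to E_K
    obtain ⟨y, hy1, -, hy3⟩ := hext K (fun n => h n x) ‖(T x : Li ι)‖ (norm_nonneg _)
      (fun n _ => by
        have := lp.norm_apply_le_norm ENNReal.top_ne_zero (T x : Li ι) n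
        rw [hT1 x n, Real.norm_eq_abs] at this
        exact this)
    have e1 : pair (κ - κ') y = fs d y := hd3 y (hmono hKN hy1)
    have e2 : pair (κ - κ') y = fs β y := hβ3 y hy1
    have e3 : fs β y = fs β (fun j => h j x) := fs_congr β fun j hj => hy3 j (hβ1 j hj)
    have e4 : fs d y = fs d (fun j => fs (S.land K j) (fun i => h i x)) := by
      refine fs_congr d fun j _ => ?_
      rw [hval K j y hy1]
      exact fs_congr _ fun i hi => hy3 i (hsupp K j i hi)
    have e5 : fs d (fun j => hJ S h K j x) =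
        fs d (fun j => h j x) - fs d (fun j => fs (S.land K j) (fun i => h i x)) := by
      rw [← fs_sub]
      refine fs_congr d fun j _ => ?_
      unfold hJ fs Finsupp.sum
      simp
    rw [e5]
    linarith [e1, e2, e3, e4]

end

end PB

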