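import Pool.Agent.PB57.Defs

/-!
# MP_b57e2f_an: module statements

Every statement StmtXX is proved as theorem stmtXX : StmtXX in Pool/Agent/PB57/XX.lean (namespace PB),
possibly with other Stmt's as hypotheses (they are listed in the comment; more may be added freely).
Section numbers refer to PAPER.md in this folder.  No double quotes.
-/

set_option autoImplicit false

open Filter Topology Set

namespace PB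

noncomputable section

/-! ## Section 0 -/

/-- MODULE FONF (0.1-0.4): polyhedral spaces have a countable boundary -/
def StmtFONF : Prop :=
  ∀ (X : Type) [NormedAddCommGroup X] [NormedSpace ℝ X] [CompleteSpace X]
    [TopologicalSpace.SeparableSpace X], Poly X →
    ∃ f : ℕ → (X →L[ℝ] ℝ), (∀ i, ‖f i‖ ≤ 1) ∧ ∀ x, ∃ i, f i x = ‖x‖

/-- MODULE REN (0.5-0.6): renorming with the gap property -/
def StmtREN : Prop :=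
  ∀ (X : Type) [NormedAddCommGroup X] [NormedSpace ℝ X] [CompleteSpace X]
    [TopologicalSpace.SeparableSpace X] (f : ℕ → (X →L[ℝ] ℝ)), (∀ i, ‖f i‖ ≤ 1) →
    (∀ x, ∃ i, f i x = ‖x‖) →
    ∃ (X' : Type) (_ : NormedAddCommGroup X') (_ : NormedSpace ℝ X') (_ : CompleteSpace X')
      (_ : TopologicalSpace.SeparableSpace X'), Nonempty (X ≃L[ℝ] X') ∧ Gap X'

/-- part of module REN: existence of a chain -/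
def StmtCHAIN : Prop :=
  ∀ (X : Type) [NormedAddCommGroup X] [NormedSpace ℝ X] [TopologicalSpace.SeparableSpace X],
    ∃ F : ℕ → Submodule ℝ X, Chain F

/-! ## Section 1 -/

/-- MODULE LND (1.1): landing vectors, extension from level M, norm of l_1 on Y -/
def StmtLND : Prop :=
  ∀ (ι : Type) (S : Sys ι), S.Ok →
    (∀ M n, S.rk n ≤ M → S.land M n = Finsupp.single n 1) ∧
    (∀ M n, M < S.rk n → S.land M n = (S.r n).sum (fun j t => t • S.land M j)) ∧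
    (∀ M n j, 0 ≤ S.land M n j) ∧ (∀ M n, mass (S.land M n) ≤ 1) ∧
    (∀ M n, ∀ j ∈ (S.land M n).support, S.rk j ≤ M) ∧
    (∀ M n, ∀ y ∈ S.E M, y n = fs (S.land M n) y) ∧
    Monotone S.E ∧
    (∀ (M : ℕ) (v : ι → ℝ) (C : ℝ), 0 ≤ C → (∀ n, S.rk n ≤ M → |v n| ≤ C) →
      ∃ y ∈ S.E M, ‖y‖ ≤ C ∧ ∀ n, S.rk n ≤ M → y n = v n) ∧
    (∀ c : L1 ι, ∀ ε : ℝ, 0 < ε → ∃ M, ∃ y ∈ S.E M, ‖y‖ ≤ 1 ∧ ‖c‖ - ε ≤ pair c y) ∧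
    (∀ (c : L1 ι) (y : Li ι), |pair c y| ≤ ‖c‖ * ‖y‖) ∧
    (∀ (K : ℕ) (c : L1 ι) (τ : ℝ), 0 ≤ τ → Near S K c τ → ∃ β : ι →₀ ℝ,
      (∀ j ∈ β.support, S.rk j ≤ K) ∧ nrm β ≤ τ ∧ ∀ y ∈ S.E K, pair c y = fs β y)

/-- MODULE LIM (1.1): limits of bounded l_1 vectors; the operator T; lifts.  Hypothesis: StmtLND -/
def StmtLIM : Prop :=
  ∀ (ι : Type) (S : Sys ι), S.Ok → S.DualL1 →
    ∀ (J : Type) (𝒰 : Ultrafilter J) (κ : J → L1 ι) (C : ℝ), (∀ i, ‖κ i‖ ≤ C) →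
      ∃ κ' : L1 ι, ‖κ'‖ ≤ C ∧
        ∀ y ∈ S.Y, Tendsto (fun i => pair (κ i) y) 𝒰 (𝓝 (pair κ' y))

/-- part of module LIM: the operator T -/
def StmtTMAP : Prop :=
  ∀ (X : Type) [NormedAddCommGroup X] [NormedSpace ℝ X] (F : ℕ → Submodule ℝ X), Chain F →
    ∀ (ι : Type) (S : Sys ι) (h : ι → X →L[ℝ] ℝ), NSys F S h →
      ∃ T : X →L[ℝ] S.Y, (∀ x n, (T x : Li ι) n = h n x) ∧ (∀ x, ‖T x‖ = ph h x) ∧
        (∀ (c : L1 ι) x, hc h c x = pair c (T x)) ∧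
        ∀ k K, (∀ j, K < S.rk j → Exact F S h k j) → ∀ x ∈ F k, (T x : Li ι) ∈ S.E K

/-- part of module LIM: lifts of functionals dominated by the seminorm -/
def StmtLIFT : Prop :=
  ∀ (X : Type) [NormedAddCommGroup X] [NormedSpace ℝ X] (F : ℕ → Submodule ℝ X), Chain F →
    ∀ (ι : Type) (S : Sys ι) (h : ι → X →L[ℝ] ℝ), NSys F S h → S.DualL1 →
      ∀ (v : X →L[ℝ] ℝ) (C : ℝ), 0 ≤ C → (∀ x, |v x| ≤ C * ph h x) →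
        ∃ κ : L1 ι, ‖κ‖ ≤ C ∧ hc h κ = v

/-- part of module LIM: representation of small functionals on F_k by nodes of rank at most K -/
def StmtREPF : Prop :=
  ∀ (X : Type) [NormedAddCommGroup X] [NormedSpace ℝ X] (F : ℕ → Submodule ℝ X), Chain F →
    ∀ (ι : Type) (S : Sys ι) (h : ι → X →L[ℝ] ℝ), NSys F S h →
      ∀ (k K : ℕ), (∀ j, K < S.rk j → Exact F S h k j) →
        ∀ (φ : X →L[ℝ] ℝ) (τ : ℝ), 0 ≤ τ → (∀ x ∈ F k, |φ x| ≤ τ * ph h x) →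
          ∃ β : ι →₀ ℝ, (∀ j ∈ β.support, S.rk j ≤ K) ∧ nrm β ≤ τ ∧
            ∀ x ∈ F k, φ x = fs β (fun j => h j x)

/-- MODULE CVX (1.2): convexification.  g_N(U) = (|lim_U y_N| - q)^+ on the compact space
Ultrafilter ι; Hahn-Banach, Riesz-Markov-Kakutani, dominated convergence (or Simons' inequality) -/
def StmtCVX : Prop :=
  ∀ (ι : Type) (y : ℕ → Li ι) (q : ℝ), 0 ≤ q → (∀ N, ‖y N‖ ≤ 1) →
    (∀ (𝒰 : Ultrafilter ι) (a : ℕ → ℝ), (∀ N, Tendsto (fun n => y N n) 𝒰 (𝓝 (a N))) →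
      ∀ e : ℝ, 0 < e → ∀ᶠ N in atTop, |a N| ≤ q + e) →
    ∀ e : ℝ, 0 < e → ∃ (s : Finset ℕ) (t : ℕ → ℝ), (∀ N, 0 ≤ t N) ∧ ∑ N ∈ s, t N = 1 ∧
      ‖∑ N ∈ s, t N • y N‖ ≤ q + e

/-- MODULE GT (1.2): the criterion.  Hypotheses: StmtLND, StmtCVX -/
def StmtGT : Prop :=
  ∀ (ι : Type) (S : Sys ι), S.Ok → ∀ q : ℝ, 0 ≤ q → q < 1 →
    (∀ 𝒰 : Ultrafilter ι, ∃ c : L1 ι, ∀ y ∈ S.Y, ∀ a : ℝ,
      Tendsto (fun n => y n) 𝒰 (𝓝 a) → |a - pair c y| ≤ q * ‖y‖) → S.DualL1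

/-- MODULE ISO (1.1): the dual of Y is isometric to l_1(N).  Hypothesis: StmtLND -/
def StmtISO : Prop :=
  ∀ (ι : Type) (S : Sys ι), S.Ok → S.DualL1 → Infinite ι →
    Nonempty ((S.Y →L[ℝ] ℝ) ≃ₗᵢ[ℝ] lp (fun _ : ℕ => ℝ) 1)

/-- MODULE SIG (1.3-1.5): sigma-directedness.  Hypotheses: StmtLND, StmtGT -/
def StmtSIG : Prop :=
  ∀ (X : Type) [NormedAddCommGroup X] [NormedSpace ℝ X] (F : ℕ → Submodule ℝ X), Chain F →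
    (∀ g : X →L[ℝ] ℝ, Good F (fun x => |g x|)) ∧
    ∀ p : ℕ → X → ℝ, (∀ i, Good F (p i)) →
      ∃ (ι : Type) (S : Sys ι) (h : ι → X →L[ℝ] ℝ), NSys F S h ∧ S.DualL1 ∧ Infinite ι ∧
        (∀ n, 1 ≤ S.rk n) ∧ (∀ k, ∀ x ∈ F k, ph h x = 0 → x = 0) ∧
        ∀ i, ∃ C : ℝ, 0 < C ∧ ∀ x, p i x ≤ C * ph h x

/-! ## Section 2 -/

/-- the property P(y,t) -/
def PP {X : Type} [NormedAddCommGroup X] [NormedSpace ℝ X] (F : ℕ → Submodule ℝ X) (y : X)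
    (t : ℝ) : Prop :=
  ∀ η : ℝ, 0 < η → ∃ q : X → ℝ, Good F q ∧ ∃ δ : ℝ, 0 < δ ∧
    ∀ z : X, ‖z‖ ≤ 1 → q z ≤ δ → ‖y + t • z‖ ≤ 1 + η

/-- MODULE STK (2.1-2.3): the stuck point.  Hypothesis: StmtSIG -/
def StmtSTK : Prop :=
  ∀ (X : Type) [NormedAddCommGroup X] [NormedSpace ℝ X] [CompleteSpace X]
    (F : ℕ → Submodule ℝ X), Chain F → Gap X → ¬ Good F (fun x => ‖x‖) →
    ∃ (y : X) (r : ℝ), ‖y‖ = 1 ∧ 0 < r ∧ r ≤ 1 ∧ ¬ PP F y (4 / 3 * r) ∧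
      ∀ x : X, ‖x‖ ≤ 5 → ∀ η : ℝ, 0 < η → ∃ q : X → ℝ, Good F q ∧ ∃ δ : ℝ, 0 < δ ∧
        ∀ z : X, ‖z‖ ≤ 1 → q z ≤ δ →
          ‖y + r • (x + (1 / 4 : ℝ) • z)‖ ≤ max 1 ‖y + r • x‖ + η

/-! ## Section 3 -/

/-- MODULE RES (3.3): the reservoir lemma -/
def StmtRES : Prop :=
  ∀ (X : Type) [NormedAddCommGroup X] [NormedSpace ℝ X] (F : ℕ → Submodule ℝ X)
    (p : Seminorm ℝ X) (δ : ℕ → ℝ) (G : ℕ → Finset (X →L[ℝ] ℝ)), Setup F p δ G →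
    ∀ (g : X → ℝ) (η : ℝ), 0 ≤ η → ConvexOn ℝ univ g → g 0 ≤ 1 →
      (∀ m, ∀ x ∈ F m, ‖x‖ ≤ 5 → ∀ z : X, ‖z‖ ≤ 1 → p z ≤ δ m →
        g (x + (1 / 4 : ℝ) • z) ≤ max 1 (g x) + η * (1 / 2 : ℝ) ^ (m + 1)) →
      ∀ x ∈ WA F p δ, ‖x‖ ≤ 16 → g ((1 / 12 : ℝ) • x) ≤ 1 + η

/-- the uniform theorem (3.4) for one space and one chain -/
def UTX {X : Type} [NormedAddCommGroup X] [NormedSpace ℝ X] (F : ℕ → Submodule ℝ X) : Prop :=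
  ∀ (ι : Type) (S : Sys ι) (h : ι → X →L[ℝ] ℝ), NSys F S h → S.DualL1 → (∀ n, 1 ≤ S.rk n) →
    ∀ (p : Seminorm ℝ X), (∀ x, p x = ph h x) → ∀ (δ : ℕ → ℝ) (G : ℕ → Finset (X →L[ℝ] ℝ)),
      Setup F p δ G → Good F (NW F p δ)

/-- MODULE RED (3.1, 3.2, 3.4): construction of the Setup and end of the reduction.
Hypotheses: StmtSIG, StmtSTK, StmtRES, StmtWB -/
def StmtRED : Prop :=
  ∀ (X : Type) [NormedAddCommGroup X] [NormedSpace ℝ X] [CompleteSpace X]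
    (F : ℕ → Submodule ℝ X), Chain F → Gap X → UTX F → Good F (fun x => ‖x‖)

/-! ## Section 4 -/

/-- MODULE WB (3.2, 4.1): basic facts on W and Omega -/
def StmtWB : Prop :=
  ∀ (X : Type) [NormedAddCommGroup X] [NormedSpace ℝ X] (F : ℕ → Submodule ℝ X)
    (p : Seminorm ℝ X) (δ : ℕ → ℝ) (G : ℕ → Finset (X →L[ℝ] ℝ)), Setup F p δ G →
    (∀ n, ∀ x ∈ WN F p δ n, x ∈ F n ∧ ‖x‖ ≤ n) ∧
    (∃ c : ℝ, 0 < c ∧ (∀ n, ∀ x ∈ F n, ‖x‖ ≤ c → 1 ≤ n → x ∈ WN F p δ n) ∧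
      ∀ f ∈ WP F p δ, ‖f‖ ≤ 1 / c) ∧
    Convex ℝ (WA F p δ) ∧ (∀ x ∈ WA F p δ, -x ∈ WA F p δ) ∧
    (∀ f, Monotone fun n => Om F p δ n f) ∧ (∀ f, Om F p δ 0 f = 0) ∧
    (∀ n, ∀ x ∈ WN F p δ n, ∀ f : X →L[ℝ] ℝ, f x ≤ Om F p δ n f) ∧
    (∀ f ∈ WP F p δ, ∀ n, Om F p δ n f ≤ 1) ∧
    (∀ f : X →L[ℝ] ℝ, (∀ n, Om F p δ n f ≤ 1) → f ∈ WP F p δ) ∧
    (∀ f m n, m < n → ∀ x ∈ F n, ∀ c : ℝ, ‖x‖ ≤ c → p x ≤ c * δ m →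
      |f x| ≤ (Om F p δ n f - Om F p δ m f) * c) ∧
    (∀ (J : Type) (𝒰 : Ultrafilter J) (f : J → X →L[ℝ] ℝ) (f' : X →L[ℝ] ℝ),
      (∀ x, Tendsto (fun i => f i x) 𝒰 (𝓝 (f' x))) →
      ∀ n, Tendsto (fun i => Om F p δ n (f i)) 𝒰 (𝓝 (Om F p δ n f'))) ∧
    (∀ x, (∀ f ∈ WP F p δ, f x ≤ 1) → x ∈ closure (WA F p δ)) ∧
    (∀ x, ∀ f ∈ WP F p δ, f x ≤ NW F p δ x) ∧
    (∀ (x : X) (c : ℝ), (∀ f ∈ WP F p δ, f x ≤ c) → NW F p δ x ≤ c)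

/-- MODULE CD (4.2): the causal decomposition.  Hypothesis: StmtWB -/
def StmtCD : Prop :=
  ∀ (X : Type) [NormedAddCommGroup X] [NormedSpace ℝ X] (F : ℕ → Submodule ℝ X)
    (p : Seminorm ℝ X) (δ : ℕ → ℝ) (G : ℕ → Finset (X →L[ℝ] ℝ)), Setup F p δ G →
    ∀ m : ℕ, ∃ (ν : ℕ → ℕ) (L : ℝ), 0 < L ∧ ∀ f ∈ WP F p δ, ∃ u, UU F p δ m ν L f u

/-- the hypothesis on ν and L in the next statements -/
def CDh {X : Type} [NormedAddCommGroup X] [NormedSpace ℝ X] (F : ℕ → Submodule ℝ X)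
    (p : Seminorm ℝ X) (δ : ℕ → ℝ) (ν : ℕ → ℕ → ℕ) (L : ℕ → ℝ) : Prop :=
  ∀ m, 0 < L m ∧ ∀ f ∈ WP F p δ, ∃ u, UU F p δ m (ν m) (L m) f u

/-- MODULE VB (4.3, 4.5): basic facts on V_s.  Hypothesis: StmtWB -/
def StmtVB : Prop :=
  ∀ (X : Type) [NormedAddCommGroup X] [NormedSpace ℝ X] (F : ℕ → Submodule ℝ X)
    (p : Seminorm ℝ X) (δ : ℕ → ℝ) (G : ℕ → Finset (X →L[ℝ] ℝ)), Setup F p δ G →
    ∀ (ν : ℕ → ℕ → ℕ) (L : ℕ → ℝ), CDh F p δ ν L → ∀ s : Idx,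
      (∀ q ∈ VV F p δ ν L s, ‖q.1‖ ≤ 1 ∧ 0 ≤ q.2 ∧ q.2 ≤ 2 ∧ (∀ x ∈ F s.m, q.1 x = 0) ∧
        ∀ x, |q.1 x| ≤ (L s.m + L s.m') / eta s.l * p x) ∧
      (∀ (𝒰 : Ultrafilter ℕ) (v : ℕ → X →L[ℝ] ℝ) (w : ℕ → ℝ) (v' : X →L[ℝ] ℝ) (w' : ℝ),
        (∀ i, (v i, w i) ∈ VV F p δ ν L s) → (∀ x, Tendsto (fun i => v i x) 𝒰 (𝓝 (v' x))) →
        Tendsto w 𝒰 (𝓝 w') → (v', w') ∈ VV F p δ ν L s)

/-- the numbers M_l of 4.4 -/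
def Ml (l : ℕ) : ℝ := ∑' i : ℕ, (Cl (l + 1 + i) * eps (l + i) + eta (l + 1 + i))

/-- MODULE DEC (4.4, 4.6): numbers, and the decomposition.  Hypotheses: StmtWB -/
def StmtDEC : Prop :=
  (∀ l, 0 < eps l) ∧ (∀ l, eps l ≤ 1) ∧
  (∀ l, Summable fun i : ℕ => (Cl (l + 1 + i) * eps (l + i) + eta (l + 1 + i))) ∧
  (∀ l, Ml l ≤ Cl l * eps l - 600 * (1 / 2 : ℝ) ^ (l + 6) * eps l) ∧
  ∀ (X : Type) [NormedAddCommGroup X] [NormedSpace ℝ X] (F : ℕ → Submodule ℝ X)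
    (p : Seminorm ℝ X) (δ : ℕ → ℝ) (G : ℕ → Finset (X →L[ℝ] ℝ)), Setup F p δ G →
    ∀ (ν : ℕ → ℕ → ℕ) (L : ℕ → ℝ), CDh F p δ ν L →
      ∀ f ∈ WP F p δ, ∀ w : ℝ, (∀ n, Om F p δ n f ≤ w) →
        (∀ e : ℝ, 0 < e → ∃ n, w - e ≤ Om F p δ n f) →
        ∀ (l0 n0 : ℕ), l0 ≤ n0 → w - Om F p δ n0 f ≤ eps l0 →
          ∀ u0 : X →L[ℝ] ℝ, UU F p δ n0 (ν n0) (L n0) f u0 →
            ∃ (b : ℕ → ℝ) (s : ℕ → Idx) (v : ℕ → X →L[ℝ] ℝ),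
              (∀ i, 0 ≤ b i) ∧ Summable b ∧ ∑' i, b i ≤ Ml l0 ∧
              (∀ i, (v i, w) ∈ VV F p δ ν L (s i)) ∧ (∀ i, n0 ≤ (s i).m) ∧
              ∀ x, u0 x = ∑' i, b i * v i x

/-- MODULE CLU (4.7): the cluster lemma.  Hypotheses: StmtWB, StmtVB, StmtDEC -/
def StmtCLU : Prop :=
  ∀ (X : Type) [NormedAddCommGroup X] [NormedSpace ℝ X] (F : ℕ → Submodule ℝ X)
    (p : Seminorm ℝ X) (δ : ℕ → ℝ) (G : ℕ → Finset (X →L[ℝ] ℝ)), Setup F p δ G →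
    ∀ (ν : ℕ → ℕ → ℕ) (L : ℕ → ℝ), CDh F p δ ν L →
      ∀ (𝒰 : Ultrafilter ℕ) (s : ℕ → Idx) (v : ℕ → X →L[ℝ] ℝ) (w : ℕ → ℝ) (l m : ℕ),
        (∀ i, (v i, w i) ∈ VV F p δ ν L (s i)) → (∀ᶠ i in (𝒰 : Filter ℕ), (s i).l = l) →
        (∀ᶠ i in (𝒰 : Filter ℕ), (s i).m = m) →
        Tendsto (fun i => (s i).m') 𝒰 atTop →
        ∃ (t : Idx) (q : (X →L[ℝ] ℝ) × ℝ) (b : ℝ) (bj : ℕ → ℝ) (sj : ℕ → Idx)
          (qj : ℕ → (X →L[ℝ] ℝ) × ℝ) (w0 : ℝ),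
          t.l = l ∧ t.m = m ∧ q ∈ VV F p δ ν L t ∧ 0 ≤ b ∧ (∀ j, 0 ≤ bj j) ∧
          (∀ j, qj j ∈ VV F p δ ν L (sj j)) ∧ (∀ j, t.m' ≤ (sj j).m) ∧ Summable bj ∧
          b + ∑' j, bj j ≤ 1 - zeta l ∧ ∑' j, bj j ≤ 2 / 5 ∧
          Tendsto w 𝒰 (𝓝 w0) ∧ q.2 ≤ w0 - eps l ∧
          ∀ x, Tendsto (fun i => v i x) 𝒰 (𝓝 (b * q.1 x + ∑' j, bj j * (qj j).1 x))

/-! ## Section 5 -/

/-- MODULE TREE1 (5.1, 5.2): the tree of cells of one set U.  Hypotheses: StmtLND, StmtLIM -/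
def StmtTREE1 : Prop :=
  ∀ (ι : Type) (S : Sys ι), S.Ok → S.DualL1 → ∀ (U : Set (L1 ι × ℝ)) (C : ℝ),
    (∀ q ∈ U, ‖q.1‖ ≤ C ∧ |q.2| ≤ C) →
    (∀ (𝒰 : Ultrafilter ℕ) (κ : ℕ → L1 ι) (w : ℕ → ℝ) (κ' : L1 ι) (w' : ℝ),
      (∀ i, (κ i, w i) ∈ U) →
      (∀ y ∈ S.Y, Tendsto (fun i => pair (κ i) y) 𝒰 (𝓝 (pair κ' y))) →
      Tendsto w 𝒰 (𝓝 w') → (κ', w') ∈ U) →
    ∀ (N0 : ℕ) (τ : ℕ → ℝ), (∀ K, 0 < τ K) → Tendsto τ atTop (𝓝 0) →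
      ∃ (A : Type) (lv : A → ℕ) (anc : A → ℕ → A) (κ : A → L1 ι) (w : A → ℝ),
        (∀ N : ℕ, {a | lv a ≤ N}.Finite) ∧ (∀ a, N0 ≤ lv a) ∧
        (∀ a K, N0 ≤ K → K ≤ lv a → lv (anc a K) = K) ∧ (∀ a, anc a (lv a) = a) ∧
        (∀ a K K', N0 ≤ K' → K' ≤ K → K ≤ lv a → anc (anc a K) K' = anc a K') ∧
        (∀ a, (κ a, w a) ∈ U) ∧
        (∀ a K, N0 ≤ K → K ≤ lv a →
          Near S K (κ a - κ (anc a K)) (τ K) ∧ |w a - w (anc a K)| ≤ τ K) ∧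
        (∀ K, N0 ≤ K → ∀ q ∈ U, ∃ a, lv a = K ∧ Near S K (q.1 - κ a) (τ K) ∧
          |q.2 - w a| ≤ τ K) ∧
        (∀ P : ℕ → A, (∀ K, N0 ≤ K → lv (P K) = K) →
          (∀ K K', N0 ≤ K → K ≤ K' → anc (P K') K = P K) →
          ∃ K0, N0 ≤ K0 ∧ ∀ K, K0 ≤ K → ‖κ (P K) - κ (P K0)‖ ≤ 1 / 2)

/-- MODULE TREE (5.1, 5.2): the tree of cells of all V_s.
Hypotheses: StmtLND, StmtLIM, StmtLIFT, StmtTMAP, StmtTREE1 -/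
def StmtTREE : Prop :=
  ∀ (X : Type) [NormedAddCommGroup X] [NormedSpace ℝ X] (F : ℕ → Submodule ℝ X), Chain F →
    ∀ (ι : Type) (S : Sys ι) (h : ι → X →L[ℝ] ℝ), NSys F S h → S.DualL1 →
      ∀ (𝒮 : Type) (M lev cls : 𝒮 → ℕ) (Lb : 𝒮 → ℝ) (ε ζ : ℕ → ℝ)
        (V : 𝒮 → Set ((X →L[ℝ] ℝ) × ℝ)), GLData F h M lev cls Lb ε ζ V →
        ∀ τ : 𝒮 → ℕ → ℝ, (∀ s K, 0 < τ s K) → (∀ s, Tendsto (τ s) atTop (𝓝 0)) →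
          ∃ (A : Type) (T : Tree ι 𝒮 A), T.Ok S h lev V τ

/-- MODULE STEP (5.3, T1 and T2).  Hypotheses: StmtLND, StmtTMAP -/
def StmtSTEP : Prop :=
  ∀ (X : Type) [NormedAddCommGroup X] [NormedSpace ℝ X] (F : ℕ → Submodule ℝ X), Chain F →
    ∀ (ι : Type) (S : Sys ι) (h : ι → X →L[ℝ] ℝ), NSys F S h →
      ∀ (κ κ' : L1 ι) (K : ℕ) (τ : ℝ), 0 ≤ τ → Near S K (κ - κ') τ →
        (∃ β : ι →₀ ℝ, (∀ j ∈ β.support, S.rk j ≤ K) ∧ nrm β ≤ τ ∧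
          ∀ k, (∀ j, K < S.rk j → Exact F S h k j) → ∀ x ∈ F k,
            hc h κ x = hc h κ' x + fs β (fun j => h j x)) ∧
        ∀ N, K ≤ N → ‖κ - κ'‖ ≤ 1 / 2 →
          ∃ d β : ι →₀ ℝ, (∀ j ∈ d.support, S.rk j ≤ N) ∧ nrm d ≤ 1 / 2 ∧
            (∀ j ∈ β.support, S.rk j ≤ K) ∧ nrm β ≤ τ ∧
            ∀ k, (∀ j, N < S.rk j → Exact F S h k j) → ∀ x ∈ F k,
              hc h κ x = hc h κ' x + fs d (fun j => hJ S h K j x) + fs β (fun j => h j x)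

/-- MODULE ROOT (5.4): the claim on root anchors.
Hypotheses: StmtLND, StmtLIM, StmtTMAP, StmtREPF, StmtSTEP -/
def StmtROOT : Prop :=
  ∀ (X : Type) [NormedAddCommGroup X] [NormedSpace ℝ X] (F : ℕ → Submodule ℝ X), Chain F →
    ∀ (ι : Type) (S : Sys ι) (h : ι → X →L[ℝ] ℝ), NSys F S h → S.DualL1 →
      (∀ k, ∀ x ∈ F k, ph h x = 0 → x = 0) →
      ∀ (𝒮 : Type) (M lev cls : 𝒮 → ℕ) (Lb : 𝒮 → ℝ) (ε ζ : ℕ → ℝ)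
        (V : 𝒮 → Set ((X →L[ℝ] ℝ) × ℝ)), GLData F h M lev cls Lb ε ζ V →
        ∀ τ : 𝒮 → ℕ → ℝ, (∀ s K, 0 < τ s K) → (∀ s, Tendsto (τ s) atTop (𝓝 0)) →
          (∀ s K, τ s K ≤ ε (cls s) / 16) →
          ∀ (A : Type) (T : Tree ι 𝒮 A), T.Ok S h lev V τ → ∀ k : ℕ,
            {c | T.lv c = lev (T.s c) ∧ ¬ RootRep F S h M lev cls ε ζ T k c}.Finite

/-! ## Section 6 -/

/-- MODULE SYSN: the glued system is a system -/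
def StmtSYSN : Prop :=
  ∀ (ι : Type) (S : Sys ι), S.Ok → (∀ j, 1 ≤ S.rk j) → ∀ (A : Type) (D : AData ι A), D.Ok S →
    (D.sys S).Ok

/-- MODULE DN1 (6.1, 6.2): preparations for DUALN.  Hypotheses: StmtLND, StmtLIM, StmtSYSN -/
def StmtDN1 : Prop :=
  ∀ (ι : Type) (S : Sys ι), S.Ok → S.DualL1 → (∀ j, 1 ≤ S.rk j) →
    ∀ (A : Type) (D : AData ι A), D.Ok S →
      (∀ (M0 : ℕ) (a : A), M0 < 2 * D.lv a + 1 → ∀ y ∈ (D.sys S).E M0,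
        (∀ (j : ι) (σ : Bool), y (Sum.inr (a, j, σ)) = y (Sum.inl a)) ∧
        (∀ d : ι →₀ ℝ, fs (susp a d) y = nrm d * y (Sum.inl a)) ∧
        y (Sum.inl a) =
          (match D.par a with
            | none => 0
            | some b => D.m a * ((1 - nrm (D.d a)) * y (Sum.inl b) + fs (susp b (D.d a)) y)) +
          fs (D.up a) (fun a' => y (Sum.inl a')) + fs (susp D.o (D.β a)) y) ∧
      (∃ B : A → ι →₀ ℝ × ℝ, ∀ c,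
        (((B c).sum fun _ t => t.1 + t.2) ≤ 1) ∧ (∀ j, 0 ≤ (B c j).1 ∧ 0 ≤ (B c j).2) ∧
        ∀ (R M0 : ℕ), M0 < 2 * R + 1 → R ≤ D.M c → ∀ y ∈ (D.sys S).E M0,
          y (Sum.inl c) = (B c).sum fun j t =>
            t.1 * y (Sum.inr (D.o, j, true)) + t.2 * y (Sum.inr (D.o, j, false))) ∧
      (∀ (J : Type) (𝒰 : Ultrafilter J) (a : A) (d e : J → ι →₀ ℝ), (∀ i j, 0 ≤ d i j) →
        (∀ i j, 0 ≤ e i j) → (∀ i, mass (d i) + mass (e i) ≤ 1) →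
        ∃ c : L1 (Nd ι A), ∀ y ∈ (D.sys S).Y,
          Tendsto (fun i => fs (d i) (fun j => y (Sum.inr (a, j, true))) +
            fs (e i) (fun j => y (Sum.inr (a, j, false)))) 𝒰 (𝓝 (pair c y)))

/-- MODULE DUALN (6.3): the dual condition of the glued system.
Hypotheses: StmtLND, StmtLIM, StmtGT, StmtSYSN, StmtDN1 -/
def StmtDUALN : Prop :=
  ∀ (ι : Type) (S : Sys ι), S.Ok → S.DualL1 → (∀ j, 1 ≤ S.rk j) →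
    ∀ (A : Type) (D : AData ι A), D.Ok S → (D.sys S).DualL1

/-- MODULE EXN (5.3, 5.5): exactness of the glued system.  Hypotheses: StmtLND, StmtSYSN -/
def StmtEXN : Prop :=
  ∀ (X : Type) [NormedAddCommGroup X] [NormedSpace ℝ X] (F : ℕ → Submodule ℝ X), Chain F →
    ∀ (ι : Type) (S : Sys ι) (h : ι → X →L[ℝ] ℝ), NSys F S h → (∀ j, 1 ≤ S.rk j) →
      ∀ (A : Type) (D : AData ι A), D.Ok S → ∀ (ω : A → ℝ) (v : A → X →L[ℝ] ℝ),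
        (∀ a, 0 ≤ ω a ∧ ω a ≤ 2) → (∀ a, ‖v a‖ ≤ 1) → ω D.o = 1 → v D.o = 0 →
        (∀ k, {c | ¬ AEx F S h D ω v k c}.Finite) →
        NSys F (D.sys S) (hN S h D.lv ω v) ∧
        (∀ x, ph h x ≤ ph (hN S h D.lv ω v) x) ∧
        ∀ a x, 1 ≤ ω a → |v a x| ≤ ph (hN S h D.lv ω v) x

/-- MODULE WFN (F1): no infinite branches -/
def StmtWFN : Prop :=
  ∀ (X : Type) [NormedAddCommGroup X] [NormedSpace ℝ X] (F : ℕ → Submodule ℝ X), Chain F →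
    ∀ (ι : Type) (S : Sys ι) (h : ι → X →L[ℝ] ℝ),
      ∀ (𝒮 : Type) (M lev cls : 𝒮 → ℕ) (Lb : 𝒮 → ℝ) (ε ζ : ℕ → ℝ)
        (V : 𝒮 → Set ((X →L[ℝ] ℝ) × ℝ)), GLData F h M lev cls Lb ε ζ V →
        ∀ τ : 𝒮 → ℕ → ℝ, (∀ s K, τ s K ≤ ε (cls s) / 16) →
          ∀ (A : Type) (T : Tree ι 𝒮 A), T.Ok S h lev V τ → ∀ par : A → Option A,
            (∀ c a, par c = some a →
              (lev (T.s c) < T.lv c ∧ ∃ K, lev (T.s c) ≤ K ∧ K < T.lv c ∧ a = T.anc c K ∧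
                ((‖T.κ c - T.κ a‖ ≤ 1 / 2 ∧
                    ∀ K', lev (T.s c) ≤ K' → K' < K → ¬ ‖T.κ c - T.κ (T.anc c K')‖ ≤ 1 / 2) ∨
                  ∀ K', lev (T.s c) ≤ K' → K' < T.lv c →
                    ¬ ‖T.κ c - T.κ (T.anc c K')‖ ≤ 1 / 2)) ∨
              (T.lv c = lev (T.s c) ∧ cls (T.s a) = cls (T.s c) ∧
                T.w a ≤ T.w c - ε (cls (T.s c)) / 4)) →
            ¬ ∃ a : ℕ → A, ∀ i, par (a (i + 1)) = some (a i)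

/-- MODULE ASM (sections 5, 6 together): the gluing theorem.
Hypotheses: StmtLND, StmtTREE, StmtSTEP, StmtROOT, StmtWFN, StmtEXN, StmtDUALN, StmtTMAP -/
def StmtASM : Prop :=
  ∀ (X : Type) [NormedAddCommGroup X] [NormedSpace ℝ X] (F : ℕ → Submodule ℝ X), Chain F →
    ∀ (ι : Type) (S : Sys ι) (h : ι → X →L[ℝ] ℝ), NSys F S h → S.DualL1 → (∀ j, 1 ≤ S.rk j) →
      (∀ k, ∀ x ∈ F k, ph h x = 0 → x = 0) →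
      ∀ (𝒮 : Type) (M lev cls : 𝒮 → ℕ) (Lb : 𝒮 → ℝ) (ε ζ : ℕ → ℝ)
        (V : 𝒮 → Set ((X →L[ℝ] ℝ) × ℝ)), GLData F h M lev cls Lb ε ζ V →
        ∃ (ι' : Type) (S' : Sys ι') (h' : ι' → X →L[ℝ] ℝ), NSys F S' h' ∧ S'.DualL1 ∧
          (∀ x, ph h x ≤ ph h' x) ∧ ∀ s, ∀ q ∈ V s, ∀ x, |q.1 x| ≤ ph h' x

/-- MODULE UT (5.6): the uniform theorem.  Hypotheses: StmtWB, StmtCD, StmtVB, StmtDEC, StmtCLU,
StmtASM -/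
def StmtUT : Prop :=
  ∀ (X : Type) [NormedAddCommGroup X] [NormedSpace ℝ X] (F : ℕ → Submodule ℝ X), Chain F →
    UTX F

/-- MODULE MAIN: everything together -/
def StmtMAIN : Prop :=
  ∀ (X : Type) [NormedAddCommGroup X] [NormedSpace ℝ X] [CompleteSpace X]
    [TopologicalSpace.SeparableSpace X], Poly X → Embeds X

end

end PB
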